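import Pool.Agent.Lib_MP_1209e6_ab.B0

/-! PIECE A1: clearing the denominators in `ℂ[t]`. -/

set_option autoImplicit false

open Filter Topology

namespace Pool.Agent.AbFib

open Pool.Agent.CampanaFlow MvPolynomial

variable {K : Type} [Field K] [Algebra ℂ K] {n N : ℕ}

/-- `aeval (co t x j)` of a polynomial in `t` alone -/
private theorem aeval_inl (t : Fin n → K) (x : Fin (N + 1) → K) (j : Fin (N + 1))
    (c : MvPolynomial (Fin n) ℂ) :
    aeval (co t x j) (rename Sum.inl c) = aeval t c := by
  rw [aeval_rename]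
  rfl

private theorem aeval_inr (t : Fin n → K) (x : Fin (N + 1) → K) (j l : Fin (N + 1)) :
    aeval (co t x j) (X (Sum.inr l) : MvPolynomial (Fin n ⊕ Fin (N + 1)) ℂ) = x l / x j := by
  rw [aeval_X]
  rfl

/-- one element of a chart -/
private theorem clear_one (t : Fin n → K) (x : Fin (N + 1) → K)
    (j : Fin (N + 1)) (f : K)
    (hf : f ∈ Chart (IntermediateField.adjoin ℂ (Set.range t)) x j) :
    ∃ c : MvPolynomial (Fin n) ℂ, aeval t c ≠ 0 ∧ ∃ p : MvPolynomial (Fin n ⊕ Fin (N + 1)) ℂ,
      aeval t c * f = aeval (co t x j) p := by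
  have h1' : aeval t (1 : MvPolynomial (Fin n) ℂ) ≠ 0 := by
    rw [map_one]
    exact one_ne_zero
  unfold Chart at hf
  induction hf using Algebra.adjoin_induction with
  | mem y hy =>
    rcases hy with hy | ⟨l, rfl⟩
    · obtain ⟨r, s, hrs⟩ := (IntermediateField.mem_adjoin_range_iff ℂ t y).1 hy
      by_cases hs : aeval t s = 0
      · refine ⟨1, h1', 0, ?_⟩
        rw [hs, div_zero] at hrs
        rw [hrs, mul_zero, map_zero]
      · refine ⟨s, hs, rename Sum.inl r, ?_⟩
        · rw [aeval_inl, hrs, mul_div_cancel₀ _ hs]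
    · exact ⟨1, h1', X (Sum.inr l), by rw [aeval_inr, map_one, one_mul]⟩
  | algebraMap r =>
    exact ⟨1, h1', C r, by rw [map_one, one_mul, aeval_C]⟩
  | add y z _ _ hy hz =>
    obtain ⟨c, hc, p, hp⟩ := hy
    obtain ⟨d, hd, q, hq⟩ := hz
    refine ⟨c * d, by rw [map_mul]; exact mul_ne_zero hc hd, rename Sum.inl d * p + rename Sum.inl c * q, ?_⟩
    rw [map_mul, map_add, map_mul, map_mul, aeval_inl, aeval_inl, ← hp, ← hq]
    ring
  | mul y z _ _ hy hz =>
    obtain ⟨c, hc, p, hp⟩ := hy
    obtain ⟨d, hd, q, hq⟩ := hz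
    refine ⟨c * d, by rw [map_mul]; exact mul_ne_zero hc hd, p * q, ?_⟩
    rw [map_mul, map_mul, ← hp, ← hq]
    ring

/-- `aeval t c` is in the field generated by `t` -/
private theorem aeval_mem (t : Fin n → K) (c : MvPolynomial (Fin n) ℂ) :
    aeval t c ∈ IntermediateField.adjoin ℂ (Set.range t) :=
  (IntermediateField.mem_adjoin_range_iff ℂ t _).2 ⟨c, 1, by rw [map_one, div_one]⟩

/-- Finitely many elements of a chart `k[x_l/x_j]`, `k = ℂ(t)`, are polynomials over `ℂ` in `t`, `x_l/x_j`
after multiplication by one `c ∈ ℂ[t]` with `aeval t c ≠ 0`. Proof by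
`Algebra.adjoin_induction` for one element (an element of `k` is a quotient of elements of
`Algebra.adjoin ℂ (range t)`: `IntermediateField.mem_adjoin_range_iff` or similar), then the product over
the finite set. -/
theorem clear (t : Fin n → K) (x : Fin (N + 1) → K) {ι : Type}
    [Finite ι] (j : ι → Fin (N + 1)) (f : ι → K)
    (hf : ∀ i, f i ∈ Chart (IntermediateField.adjoin ℂ (Set.range t)) x (j i)) :
    ∃ c : MvPolynomial (Fin n) ℂ, aeval t c ≠ 0 ∧ ∀ i, ∃ p : MvPolynomial (Fin n ⊕ Fin (N + 1)) ℂ,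
      aeval t c * f i = aeval (co t x (j i)) p := by
  classical
  have := Fintype.ofFinite ι
  choose c hc p hp using fun i => clear_one t x (j i) (f i) (hf i)
  refine ⟨∏ i, c i, by rw [map_prod]; exact Finset.prod_ne_zero_iff.2 fun i _ => hc i, fun i => ?_⟩
  obtain ⟨d, hd⟩ : c i ∣ ∏ i, c i := Finset.dvd_prod_of_mem c (Finset.mem_univ i)
  refine ⟨rename Sum.inl d * p i, ?_⟩
  rw [hd, map_mul, map_mul, aeval_inl, ← hp i]
  ring

/-- `E i = (aeval t c) • D i` with `c` from `clear` for all `D i (x_l/x_j)` (`GlobalField`); they commute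
because `D i (t a) = 0`. `det (E i (x_(L m)/x_j)) = (aeval t c)^g det (D i …)`; clear the denominators of the
coefficients `c L` of the unit ideal relation in all charts by a second `c'`; the polynomial of the
statement is `c' * c ^ g`. -/
theorem exists_fam (t : Fin n → K) (x : Fin (N + 1) → K) (h : IsAbelianFibration t x) :
    ∃ (g : ℕ) (F : Fam n N g K), F.t = t ∧ F.x = x ∧
      (∀ D : Derivation ℂ K K, (∀ a, D (t a) = 0) → D ∈ Submodule.span K (Set.range F.E)) ∧
      ∃ c : MvPolynomial (Fin n) ℂ, aeval t c ≠ 0 ∧ ∀ j,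
        ∃ C : (Fin g → Fin (N + 1)) → MvPolynomial (Fin n ⊕ Fin (N + 1)) ℂ,
          aeval (co t x j) (∑ L, C L * Matrix.det (Matrix.of fun i m => F.P i j (L m))) = aeval t c := by
  classical
  obtain ⟨g, D, hG, hcomm, hspan, hmin⟩ := h.fields
  have hDt : ∀ i a, D i (t a) = 0 := fun i a =>
    (hG i).1 _ (IntermediateField.subset_adjoin ℂ _ ⟨a, rfl⟩)
  have hDc : ∀ i (c : MvPolynomial (Fin n) ℂ), D i (aeval t c) = 0 := fun i c =>
    (hG i).1 _ (aeval_mem t c)
  obtain ⟨c, hc, hP⟩ := clear t x (ι := Fin g × Fin (N + 1) × Fin (N + 1))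
    (fun s => s.2.1) (fun s => D s.1 (x s.2.2 / x s.2.1)) fun s =>
      (hG s.1).2 s.2.1 _ (Algebra.subset_adjoin (Or.inr ⟨s.2.2, rfl⟩))
  choose P hP using hP
  have hct : aeval t c ≠ 0 := hc
  choose cL hcL hsum using hmin
  obtain ⟨c', hc', hQ⟩ := clear t x (ι := Fin (N + 1) × (Fin g → Fin (N + 1)))
    (fun s => s.1) (fun s => cL s.1 s.2) fun s => hcL s.1 s.2
  choose Q hQ using hQ
  let F : Fam n N g K :=
    { t := t
      x := x
      E := fun i => aeval t c • D i
      P := fun i j l => P (i, j, l)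
      x_ne := h.ne_zero
      Et := fun i a => by
        rw [Derivation.smul_apply, hDt, smul_zero]
      EX := fun i j l => by
        rw [Derivation.smul_apply, smul_eq_mul]
        exact hP (i, j, l)
      comm := fun i i' f => by
        simp only [Derivation.smul_apply, smul_eq_mul, Derivation.leibniz, hDc, mul_zero, add_zero]
        rw [hcomm i i' f] }
  refine ⟨g, F, rfl, rfl, fun E hE => ?_, c' * c ^ g, by
    rw [map_mul, map_pow]; exact mul_ne_zero hc' (pow_ne_zero _ hc), fun j =>
    ⟨fun L => Q (j, L), ?_⟩⟩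
  · refine Submodule.span_le.2 ?_ (hspan E hE)
    rintro _ ⟨i, rfl⟩
    have h1 : D i = (aeval t c)⁻¹ • F.E i := by
      change D i = (aeval t c)⁻¹ • (aeval t c • D i)
      rw [smul_smul, inv_mul_cancel₀ hct, one_smul]
    rw [SetLike.mem_coe, h1]
    exact Submodule.smul_mem _ _ (Submodule.subset_span ⟨i, rfl⟩)
  · have hdet : ∀ L : Fin g → Fin (N + 1),
        aeval (co t x j) (Matrix.det (Matrix.of fun i m => F.P i j (L m))) =
          aeval t c ^ g * Matrix.det (Matrix.of fun i m => D i (x (L m) / x j)) := by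
      intro L
      have h2 : (Matrix.of fun i m => aeval t c * D i (x (L m) / x j)) =
          aeval t c • (Matrix.of fun i m => D i (x (L m) / x j) : Matrix (Fin g) (Fin g) K) := by
        ext i m
        simp only [Matrix.of_apply, Matrix.smul_apply, smul_eq_mul]
      have h3 : (Matrix.of fun i m => F.P i j (L m)).map (aeval (co t x j)) =
          (Matrix.of fun i m => aeval t c * D i (x (L m) / x j) : Matrix (Fin g) (Fin g) K) := by
        ext i m
        simp only [Matrix.map_apply, Matrix.of_apply]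
        exact (hP (i, j, L m)).symm
      rw [AlgHom.map_det, AlgHom.mapMatrix_apply, h3, h2, Matrix.det_smul, Fintype.card_fin]
    rw [map_sum, map_mul, map_pow]
    have h4 : ∀ L : Fin g → Fin (N + 1),
        aeval (co t x j) (Q (j, L) * Matrix.det (Matrix.of fun i m => F.P i j (L m))) =
          aeval t c' * aeval t c ^ g *
            (cL j L * Matrix.det (Matrix.of fun i m => D i (x (L m) / x j))) := by
      intro L
      rw [map_mul, hdet L, ← hQ (j, L)]
      ring
    rw [Finset.sum_congr rfl fun L _ => h4 L, ← Finset.mul_sum, hsum j, mul_one]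

end Pool.Agent.AbFib
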