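import Pool.Agent.Lib_MP_1209e6_ab.B1
import Pool.Agent.Lib_MP_1209e6_fl.D8

/-! PIECE A2: algebraic dependence on local coordinates. -/

set_option autoImplicit false

open Filter Topology

namespace Pool.Agent.AbFib

open Pool.Agent.CampanaFlow MvPolynomial

variable {K : Type} [Field K] [Algebra ℂ K] {n N g : ℕ}

/-- clearing denominators -/
private theorem A2_clear {σ : Type} (e : σ → K)
    (p : Polynomial (IntermediateField.adjoin ℂ (Set.range e))) :
    ∃ (S : MvPolynomial σ ℂ) (G : Polynomial (MvPolynomial σ ℂ)), aeval e S ≠ 0 ∧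
      G.map (aeval e).toRingHom = Polynomial.C (aeval e S) *
        p.map (algebraMap (IntermediateField.adjoin ℂ (Set.range e)) K) := by
  induction p using Polynomial.induction_on' with
  | add p q hp hq =>
    obtain ⟨S, G, hS, hG⟩ := hp
    obtain ⟨S', G', hS', hG'⟩ := hq
    refine ⟨S * S', Polynomial.C S' * G + Polynomial.C S * G', ?_, ?_⟩
    · rw [map_mul]
      exact mul_ne_zero hS hS'
    · rw [Polynomial.map_add, Polynomial.map_mul, Polynomial.map_mul, Polynomial.map_C,
        Polynomial.map_C, hG, hG', Polynomial.map_add, map_mul, Polynomial.C_mul]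
      change Polynomial.C (aeval e S') * _ + Polynomial.C (aeval e S) * _ = _
      ring
  | monomial m a =>
    obtain ⟨a, ha⟩ := a
    obtain ⟨r, hr, s, hs, hrs⟩ := (IntermediateField.mem_adjoin_iff_div).1 ha
    rw [Algebra.adjoin_range_eq_range_aeval] at hr hs
    obtain ⟨r, rfl⟩ := hr
    obtain ⟨s, rfl⟩ := hs
    by_cases h0 : aeval e s = 0
    · refine ⟨1, 0, ?_, ?_⟩
      · rw [map_one]
        exact one_ne_zero
      · have ha0 : a = 0 := by
          rw [hrs]
          change aeval e r / aeval e s = 0
          rw [h0, div_zero]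
        rw [Polynomial.map_monomial]
        change _ = _ * Polynomial.monomial m a
        rw [ha0, Polynomial.monomial_zero_right, mul_zero, Polynomial.map_zero]
    · refine ⟨s, Polynomial.monomial m r, h0, ?_⟩
      rw [Polynomial.map_monomial, Polynomial.map_monomial, Polynomial.C_mul_monomial]
      change Polynomial.monomial m (aeval e r) = Polynomial.monomial m (aeval e s * a)
      rw [hrs]
      change _ = Polynomial.monomial m (aeval e s * (aeval e r / aeval e s))
      rw [mul_div_cancel₀ _ h0]

/-- An element which is algebraic over the field generated by finitely many `e s` is a root of a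
polynomial with coefficients in `ℂ[e]` (represented by `MvPolynomial`s), simple, with nonzero constant
term if `w ≠ 0`: the minimal polynomial (separable in characteristic zero; its constant coefficient is
nonzero as it is irreducible and `w ≠ 0`), multiplied by a common denominator. -/
theorem clear_minpoly {σ : Type} [Finite σ] (e : σ → K) (w : K)
    (h : IsAlgebraic (IntermediateField.adjoin ℂ (Set.range e)) w) :
    ∃ G : Polynomial (MvPolynomial σ ℂ), G.eval₂ (aeval e).toRingHom w = 0 ∧
      (Polynomial.derivative G).eval₂ (aeval e).toRingHom w ≠ 0 ∧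
      (w ≠ 0 → aeval e (G.coeff 0) ≠ 0) := by
  classical
  set k := IntermediateField.adjoin ℂ (Set.range e) with hk
  obtain ⟨S, G, hS, hG⟩ := A2_clear e (minpoly k w)
  have hev : ∀ H : Polynomial (MvPolynomial σ ℂ),
      H.eval₂ (aeval e).toRingHom w = (H.map (aeval e).toRingHom).eval w := fun H =>
    (Polynomial.eval_map _ _).symm
  have hirr := minpoly.irreducible h.isIntegral
  refine ⟨G, ?_, ?_, fun hw => ?_⟩
  · rw [hev, hG, Polynomial.eval_mul, Polynomial.eval_C, Polynomial.eval_map_algebraMap,
      minpoly.aeval, mul_zero]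
  · rw [hev, ← Polynomial.derivative_map, hG, Polynomial.derivative_C_mul, Polynomial.derivative_map,
      Polynomial.eval_mul, Polynomial.eval_C, Polynomial.eval_map_algebraMap]
    exact mul_ne_zero hS (hirr.separable.aeval_derivative_ne_zero (minpoly.aeval k w))
  · have h1 := congrArg (fun H : Polynomial K => H.coeff 0) hG
    beta_reduce at h1
    rw [Polynomial.coeff_map, Polynomial.coeff_C_mul, Polynomial.coeff_map] at h1
    have h2 : aeval e (G.coeff 0) = aeval e S * algebraMap k K ((minpoly k w).coeff 0) := h1
    rw [h2]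
    refine mul_ne_zero hS ?_
    rw [Ne, map_eq_zero]
    exact minpoly.coeff_zero_ne_zero h.isIntegral hw

/-- If the minor `L` in the chart `j` is nonzero then every `w ∈ K` is algebraic over
`ℂ(t, x_(L m)/x_j)`: `isAlgebraic_of_der`; a derivation `D` which kills this field is `∑ a_i E_i` (`hspan`,
`Submodule.mem_span_range_iff_exists_fun`), and `∑ a_i E_i (x_(L m)/x_j) = 0` for all `m` gives `a = 0` since
the determinant is nonzero. -/
theorem alg_of_minor (F : Fam n N g K)
    (hspan : ∀ D : Derivation ℂ K K, (∀ a, D (F.t a) = 0) → D ∈ Submodule.span K (Set.range F.E))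
    (j : Fin (N + 1)) (L : Fin g → Fin (N + 1))
    (hL : Matrix.det (Matrix.of fun i m => F.E i (F.x (L m) / F.x j)) ≠ 0) (w : K) :
    IsAlgebraic (IntermediateField.adjoin ℂ
      (Set.range (Sum.elim F.t fun m => F.x (L m) / F.x j))) w := by
  refine isAlgebraic_of_der _ w fun D hD => ?_
  have ht : ∀ a, D (F.t a) = 0 := fun a =>
    hD _ (IntermediateField.subset_adjoin _ _ ⟨Sum.inl a, rfl⟩)
  obtain ⟨a, ha⟩ := (Submodule.mem_span_range_iff_exists_fun K).1 (hspan D ht)
  have hDf : ∀ f, D f = ∑ i, a i * F.E i f := fun f => by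
    rw [← ha]
    have h := map_sum (Derivation.coeFnAddMonoidHom (R := ℂ) (A := K) (M := K))
      (fun i => a i • F.E i) Finset.univ
    have h' := congrFun h f
    rw [Finset.sum_apply] at h'
    exact h'
  have ha0 : a = 0 := by
    refine Matrix.eq_zero_of_vecMul_eq_zero hL (funext fun m => ?_)
    have h1 : D (F.x (L m) / F.x j) = 0 :=
      hD _ (IntermediateField.subset_adjoin _ _ ⟨Sum.inr m, rfl⟩)
    rw [hDf] at h1
    exact h1
  rw [hDf, ha0]
  exact Finset.sum_eq_zero fun i _ => zero_mul _

/-- value of the minor at the generic point -/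
theorem minor_generic (F : Fam n N g K) (j : Fin (N + 1)) (L : Fin g → Fin (N + 1)) :
    aeval (co F.t F.x j) (Matrix.det (Matrix.of fun i m => F.P i j (L m))) =
      Matrix.det (Matrix.of fun i m => F.E i (F.x (L m) / F.x j)) := by
  rw [AlgHom.map_det]
  congr 1
  ext i m
  exact (F.EX i j (L m)).symm

/-- value of the minor at a point -/
theorem minor_eq (F : Fam n N g K) (j : Fin (N + 1)) (L : Fin g → Fin (N + 1)) (u : Fin n → ℂ)
    (v : Fin (N + 1) → ℂ) :
    F.minor j L u v = aeval (Sum.elim u v) (Matrix.det (Matrix.of fun i m => F.P i j (L m))) := by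
  rw [AlgHom.map_det]
  rfl

end Pool.Agent.AbFib
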