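import Pool.Agent.Lib_MP_1209e6_ab.A2

/-! PIECE A3: the algebraic package. -/

set_option autoImplicit false

open Filter Topology

namespace Pool.Agent.AbFib

open Pool.Agent.CampanaFlow MvPolynomial

variable {K : Type} [Field K] [Algebra ℂ K] {n N g : ℕ}

/-- substitution: `P (X_inl, X_(inr ∘ L)) (r)` as a polynomial -/
private noncomputable def sub (L : Fin g → Fin (N + 1)) (r : MvPolynomial (Fin n ⊕ Fin (N + 1)) ℂ)
    (P : Polynomial (MvPolynomial (Fin n ⊕ Fin g) ℂ)) : MvPolynomial (Fin n ⊕ Fin (N + 1)) ℂ :=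
  P.eval₂ (rename (R := ℂ) (Sum.map id L)).toRingHom r

private theorem aeval_sub {A : Type} [CommRing A] [Algebra ℂ A] (L : Fin g → Fin (N + 1))
    (r : MvPolynomial (Fin n ⊕ Fin (N + 1)) ℂ) (P : Polynomial (MvPolynomial (Fin n ⊕ Fin g) ℂ))
    (t : Fin n → A) (y : Fin (N + 1) → A) :
    aeval (Sum.elim t y) (sub L r P) =
      P.eval₂ (aeval (R := ℂ) (Sum.elim t fun m => y (L m))).toRingHom
        (aeval (Sum.elim t y) r) := by
  have h := Polynomial.hom_eval₂ P (rename (R := ℂ) (Sum.map id L)).toRingHom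
    (aeval (R := ℂ) (Sum.elim t y)).toRingHom r
  have h2 : (aeval (R := ℂ) (Sum.elim t y)).toRingHom.comp
      (rename (R := ℂ) (Sum.map (id : Fin n → Fin n) L)).toRingHom =
      (aeval (R := ℂ) (Sum.elim t fun m => y (L m))).toRingHom := by
    refine RingHom.ext fun p => ?_
    change aeval (Sum.elim t y) (rename (Sum.map id L) p) = aeval (Sum.elim t fun m => y (L m)) p
    rw [aeval_rename]
    congr 2
    funext s
    cases s <;> rfl
  rw [h2] at h
  exact h

private theorem aeval_sub_X {A : Type} [CommRing A] [Algebra ℂ A] (L : Fin g → Fin (N + 1))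
    (l : Fin (N + 1)) (P : Polynomial (MvPolynomial (Fin n ⊕ Fin g) ℂ))
    (t : Fin n → A) (y : Fin (N + 1) → A) :
    aeval (Sum.elim t y) (sub L (X (Sum.inr l)) P) =
      P.eval₂ (aeval (R := ℂ) (Sum.elim t fun m => y (L m))).toRingHom (y l) := by
  rw [aeval_sub, aeval_X]
  rfl

private theorem minor_ne_generic (F : Fam n N g K) {j : Fin (N + 1)} {L : Fin g → Fin (N + 1)}
    {u : Fin n → ℂ} {v : Fin (N + 1) → ℂ} (hv : v ∈ F.fib u) (hj : v j = 1)
    (h : F.minor j L u v ≠ 0) :
    Matrix.det (Matrix.of fun i m => F.E i (F.x (L m) / F.x j)) ≠ 0 := by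
  intro h0
  apply h
  rw [minor_eq]
  apply (F.mem_fib_iff j hj).1 hv
  rw [minor_generic, h0]

/-- `minors` of `AlgPack`: `mem_fib_iff` applied to `∑ C L det - rename inl c` and `minor_eq`. -/
theorem minors_of (F : Fam n N g K) (c : MvPolynomial (Fin n) ℂ)
    (hc : ∀ j, ∃ C : (Fin g → Fin (N + 1)) → MvPolynomial (Fin n ⊕ Fin (N + 1)) ℂ,
      aeval (co F.t F.x j) (∑ L, C L * Matrix.det (Matrix.of fun i m => F.P i j (L m))) =
        aeval F.t c) :
    ∀ u, MvPolynomial.eval u c ≠ 0 → ∀ v ∈ F.fib u, ∀ j, v j = 1 →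
      ∃ L : Fin g → Fin (N + 1), F.minor j L u v ≠ 0 := by
  intro u hu v hv j hj
  obtain ⟨C, hC⟩ := hc j
  by_contra hcon
  push Not at hcon
  have h1 := (F.mem_fib_iff j hj).1 hv
    ((∑ L, C L * Matrix.det (Matrix.of fun i m => F.P i j (L m))) - rename Sum.inl c) (by
      rw [map_sub, hC, aeval_rename, sub_eq_zero]
      congr 1)
  rw [map_sub, map_sum, sub_eq_zero] at h1
  have h2 : ∑ L, aeval (Sum.elim u v) (C L * Matrix.det (Matrix.of fun i m => F.P i j (L m))) = 0 := by
    apply Finset.sum_eq_zero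
    intro L _
    rw [map_mul, ← minor_eq, hcon L, mul_zero]
  rw [h2, aeval_rename] at h1
  apply hu
  have h3 : (aeval (Sum.elim u v ∘ Sum.inl) c : ℂ) = eval u c := by
    rw [Sum.elim_comp_inl]
    rfl
  rw [← h3, ← h1]

/-- `root`, `simple`: some minor `L` of the chart `0` is nonzero at the generic point (`hc` for `j = 0`,
`aeval t c ≠ 0`; `minor_generic`). `G l` from `clear_minpoly` with `e = Sum.elim t (x_(L m)/x_0)`,
`w = x_l/x_0` (`alg_of_minor`). `f = det_L * ∏ l, g_l`, where `g_l` is the polynomial in `Fin n ⊕ Fin (N+1)`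
obtained from `derivative (G l)` by `rename (Sum.map id L)` in the coefficients and substituting `X (inr l)`
for the variable; `f` is nonzero at the generic point. The relations hold at all points of the fibres by
`mem_fib_iff`. -/
theorem exists_etale (F : Fam n N g K)
    (hspan : ∀ D : Derivation ℂ K K, (∀ a, D (F.t a) = 0) → D ∈ Submodule.span K (Set.range F.E))
    (L : Fin g → Fin (N + 1))
    (hL : Matrix.det (Matrix.of fun i m => F.E i (F.x (L m) / F.x 0)) ≠ 0) :
    ∃ (f : MvPolynomial (Fin n ⊕ Fin (N + 1)) ℂ)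
      (G : Fin (N + 1) → Polynomial (MvPolynomial (Fin n ⊕ Fin g) ℂ)),
      aeval (co F.t F.x 0) f ≠ 0 ∧
      (∀ l u, ∀ v ∈ F.fib u, v 0 = 1 →
        (G l).eval₂ (MvPolynomial.aeval (Sum.elim u fun m => v (L m))).toRingHom (v l) = 0) ∧
      ∀ u, ∀ v ∈ F.fib u, v 0 = 1 → MvPolynomial.aeval (Sum.elim u v) f ≠ 0 →
        F.minor 0 L u v ≠ 0 ∧ ∀ l, (Polynomial.derivative (G l)).eval₂
          (MvPolynomial.aeval (Sum.elim u fun m => v (L m))).toRingHom (v l) ≠ 0 := by
  classical
  have hG : ∀ l : Fin (N + 1), ∃ G : Polynomial (MvPolynomial (Fin n ⊕ Fin g) ℂ),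
      G.eval₂ (aeval (R := ℂ) (Sum.elim F.t fun m => F.x (L m) / F.x 0)).toRingHom
        (F.x l / F.x 0) = 0 ∧
      (Polynomial.derivative G).eval₂
        (aeval (R := ℂ) (Sum.elim F.t fun m => F.x (L m) / F.x 0)).toRingHom (F.x l / F.x 0) ≠ 0 := by
    intro l
    obtain ⟨G, h1, h2, -⟩ := clear_minpoly (Sum.elim F.t fun m => F.x (L m) / F.x 0)
      (F.x l / F.x 0) (alg_of_minor F hspan 0 L hL _)
    exact ⟨G, h1, h2⟩
  choose G hG1 hG2 using hG
  refine ⟨Matrix.det (Matrix.of fun i m => F.P i 0 (L m)) *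
    ∏ l, sub L (X (Sum.inr l)) (Polynomial.derivative (G l)), G, ?_, ?_, ?_⟩
  · rw [map_mul, map_prod]
    refine mul_ne_zero ?_ (Finset.prod_ne_zero_iff.2 fun l _ => ?_)
    · rw [minor_generic]
      exact hL
    · have := aeval_sub_X L l (Polynomial.derivative (G l)) F.t (fun l => F.x l / F.x 0)
      rw [co, this]
      exact hG2 l
  · intro l u v hv h0
    rw [← aeval_sub_X L l (G l) u v]
    apply (F.mem_fib_iff 0 h0).1 hv
    have := aeval_sub_X L l (G l) F.t (fun l => F.x l / F.x 0)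
    rw [co, this]
    exact hG1 l
  · intro u v hv h0 hf
    rw [map_mul, map_prod] at hf
    have h1 := left_ne_zero_of_mul hf
    have h2 := right_ne_zero_of_mul hf
    refine ⟨?_, fun l => ?_⟩
    · rw [minor_eq]
      exact h1
    · rw [← aeval_sub_X L l (Polynomial.derivative (G l)) u v]
      exact Finset.prod_ne_zero_iff.1 h2 l (Finset.mem_univ l)

/-- `move`. For each `L` whose minor in the chart `j` is nonzero at the generic point take `G` from
`clear_minpoly` for `w = aeval (co t x j) r ≠ 0`, `e = Sum.elim t (x_(L m)/x_j)`, and let `H₀ = G.coeff 0 ≠ 0`,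
`h_L ≠ 0` one nonzero coefficient of `H₀` as a polynomial in the variables `inr` over `ℂ[t]`
(`sumAlgEquiv`/`sumRingEquiv`); `h = ∏ h_L`. If `F.minor j L u v₀ ≠ 0` at a point then the minor `L` is nonzero
at the generic point (`mem_fib_iff`, `minor_eq`, `minor_generic`). `H = H₀ (u, ·) ≠ 0` as `h_L (u) ≠ 0`. At a
point `v` of the fibre in the chart `j` the relation `∑ G_i (t, x_L/x_j) w^i = 0` becomes
`∑ G_i (u, v_L) r (u, v)^i = 0` (`mem_fib_iff`), so `r (u, v) = 0` gives `H₀ (u, v_L) = 0`. -/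
theorem exists_move (F : Fam n N g K)
    (hspan : ∀ D : Derivation ℂ K K, (∀ a, D (F.t a) = 0) → D ∈ Submodule.span K (Set.range F.E))
    (j : Fin (N + 1)) (r : MvPolynomial (Fin n ⊕ Fin (N + 1)) ℂ)
    (hr : MvPolynomial.aeval (co F.t F.x j) r ≠ 0) :
    ∃ h : MvPolynomial (Fin n) ℂ, MvPolynomial.aeval F.t h ≠ 0 ∧
      ∀ u, MvPolynomial.eval u h ≠ 0 → ∀ v₀ ∈ F.fib u, v₀ j = 1 → ∀ L : Fin g → Fin (N + 1), F.minor j L u v₀ ≠ 0 →
      ∃ H : MvPolynomial (Fin g) ℂ, H ≠ 0 ∧ ∀ v ∈ F.fib u, v j = 1 →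
        MvPolynomial.aeval (Sum.elim u v) r = 0 → MvPolynomial.eval (fun m => v (L m)) H = 0 := by
  classical
  have key : ∀ L : Fin g → Fin (N + 1), ∃ h : MvPolynomial (Fin n) ℂ, MvPolynomial.aeval F.t h ≠ 0 ∧
      (Matrix.det (Matrix.of fun i m => F.E i (F.x (L m) / F.x j)) ≠ 0 → ∀ u,
        MvPolynomial.eval u h ≠ 0 → ∃ H : MvPolynomial (Fin g) ℂ, H ≠ 0 ∧ ∀ v ∈ F.fib u, v j = 1 →
        MvPolynomial.aeval (Sum.elim u v) r = 0 → MvPolynomial.eval (fun m => v (L m)) H = 0) := by
    intro L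
    by_cases hL : Matrix.det (Matrix.of fun i m => F.E i (F.x (L m) / F.x j)) = 0
    · exact ⟨1, by rw [map_one]; exact one_ne_zero, fun h => absurd hL h⟩
    obtain ⟨G, h1, -, h3⟩ := clear_minpoly (Sum.elim F.t fun m => F.x (L m) / F.x j)
      (MvPolynomial.aeval (co F.t F.x j) r) (alg_of_minor F hspan j L hL _)
    have h3 := h3 hr
    obtain ⟨z, hz⟩ : ∃ z : Fin n ⊕ Fin g → ℂ, aeval (Sum.elim F.t fun m =>
        algebraMap ℂ K (z (Sum.inr m))) (G.coeff 0) ≠ 0 := by
      by_contra hcon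
      push Not at hcon
      have hev : ∀ y : Fin g → K, eval y (aeval (R := ℂ) (Sum.elim (fun a => C (F.t a)) X)
          (G.coeff 0) : MvPolynomial (Fin g) K) = aeval (Sum.elim F.t y) (G.coeff 0) := by
        intro y
        have : (((aeval (R := K) y).restrictScalars ℂ).comp
            (aeval (R := ℂ) (Sum.elim (fun a => C (F.t a)) X) :
            MvPolynomial (Fin n ⊕ Fin g) ℂ →ₐ[ℂ] MvPolynomial (Fin g) K) :
            MvPolynomial (Fin n ⊕ Fin g) ℂ →ₐ[ℂ] K) = aeval (Sum.elim F.t y) := by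
          apply MvPolynomial.algHom_ext
          intro s
          cases s <;> simp
        exact DFunLike.congr_fun this (G.coeff 0)
      have hinf : ∀ _ : Fin g, (Set.range (algebraMap ℂ K)).Infinite := fun _ =>
        Set.infinite_range_of_injective (algebraMap ℂ K).injective
      have h0 : (aeval (R := ℂ) (Sum.elim (fun a => C (F.t a)) X)
          (G.coeff 0) : MvPolynomial (Fin g) K) = 0 := by
        refine MvPolynomial.funext_set (fun _ => Set.range (algebraMap ℂ K)) hinf fun y hy => ?_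
        rw [map_zero, hev]
        choose z hz using fun m => hy m (Set.mem_univ m)
        have h7 := hcon (Sum.elim (fun _ => 0) z)
        rw [show y = fun m => algebraMap ℂ K (z m) from funext fun m => (hz m).symm]
        exact h7
      apply h3
      rw [← hev, h0, map_zero]
    have h5 : ∀ u : Fin n → ℂ, eval u (aeval (R := ℂ) (Sum.elim X fun m => C (z (Sum.inr m)))
        (G.coeff 0) : MvPolynomial (Fin n) ℂ) =
        eval (Sum.elim u fun m => z (Sum.inr m)) (G.coeff 0) := by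
      intro u
      have : ((aeval (R := ℂ) u).comp (aeval (R := ℂ) (Sum.elim X fun m => C (z (Sum.inr m))) :
          MvPolynomial (Fin n ⊕ Fin g) ℂ →ₐ[ℂ] MvPolynomial (Fin n) ℂ) :
          MvPolynomial (Fin n ⊕ Fin g) ℂ →ₐ[ℂ] ℂ) =
          aeval (Sum.elim u fun m => z (Sum.inr m)) := by
        apply MvPolynomial.algHom_ext
        intro s
        cases s <;> simp
      exact DFunLike.congr_fun this (G.coeff 0)
    have h6 : ∀ (u : Fin n → ℂ) (y : Fin g → ℂ), eval y (aeval (R := ℂ)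
        (Sum.elim (fun a => C (u a)) X) (G.coeff 0) : MvPolynomial (Fin g) ℂ) =
        eval (Sum.elim u y) (G.coeff 0) := by
      intro u y
      have : ((aeval (R := ℂ) y).comp (aeval (R := ℂ) (Sum.elim (fun a => C (u a)) X) :
          MvPolynomial (Fin n ⊕ Fin g) ℂ →ₐ[ℂ] MvPolynomial (Fin g) ℂ) :
          MvPolynomial (Fin n ⊕ Fin g) ℂ →ₐ[ℂ] ℂ) = aeval (Sum.elim u y) := by
        apply MvPolynomial.algHom_ext
        intro s
        cases s <;> simp
      exact DFunLike.congr_fun this (G.coeff 0)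
    refine ⟨aeval (R := ℂ) (Sum.elim X fun m => C (z (Sum.inr m))) (G.coeff 0), ?_, ?_⟩
    · have : ((aeval (R := ℂ) F.t).comp (aeval (R := ℂ) (Sum.elim X fun m => C (z (Sum.inr m))) :
          MvPolynomial (Fin n ⊕ Fin g) ℂ →ₐ[ℂ] MvPolynomial (Fin n) ℂ) :
          MvPolynomial (Fin n ⊕ Fin g) ℂ →ₐ[ℂ] K) =
          aeval (Sum.elim F.t fun m => algebraMap ℂ K (z (Sum.inr m))) := by
        apply MvPolynomial.algHom_ext
        intro s
        cases s <;> simp
      rw [← this] at hz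
      exact hz
    · intro _ u hu
      rw [h5] at hu
      refine ⟨aeval (R := ℂ) (Sum.elim (fun a => C (u a)) X) (G.coeff 0), ?_, ?_⟩
      · intro h
        apply hu
        rw [← h6, h, map_zero]
      · intro v hv hj hrv
        rw [h6]
        have h8 := aeval_sub L r G F.t (fun l => F.x l / F.x j)
        have h9 : aeval (Sum.elim u v) (sub L r G) = 0 := by
          apply (F.mem_fib_iff j hj).1 hv
          rw [co, h8]
          exact h1
        rw [aeval_sub, hrv, Polynomial.eval₂_at_zero] at h9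
        exact h9
  choose h hh0 hh using key
  refine ⟨∏ L, h L, by rw [map_prod]; exact Finset.prod_ne_zero_iff.2 fun L _ => hh0 L, ?_⟩
  intro u hu v₀ hv₀ hj L hL
  rw [map_prod] at hu
  exact hh L (minor_ne_generic F hv₀ hj hL) u (Finset.prod_ne_zero_iff.1 hu L (Finset.mem_univ L))

/-- the package -/
theorem nonempty_algPack (F : Fam n N g K)
    (hspan : ∀ D : Derivation ℂ K K, (∀ a, D (F.t a) = 0) → D ∈ Submodule.span K (Set.range F.E))
    (c : MvPolynomial (Fin n) ℂ) (hc0 : aeval F.t c ≠ 0)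
    (hc : ∀ j, ∃ C : (Fin g → Fin (N + 1)) → MvPolynomial (Fin n ⊕ Fin (N + 1)) ℂ,
      aeval (co F.t F.x j) (∑ L, C L * Matrix.det (Matrix.of fun i m => F.P i j (L m))) =
        aeval F.t c) : Nonempty (AlgPack F) := by
  classical
  obtain ⟨L, hL⟩ : ∃ L : Fin g → Fin (N + 1),
      Matrix.det (Matrix.of fun i m => F.E i (F.x (L m) / F.x 0)) ≠ 0 := by
    obtain ⟨C, hC⟩ := hc 0
    by_contra hcon
    push Not at hcon
    apply hc0
    rw [← hC, map_sum]
    apply Finset.sum_eq_zero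
    intro L _
    rw [map_mul, minor_generic, hcon L, mul_zero]
  obtain ⟨f, G, hf, hroot, hsimple⟩ := exists_etale F hspan L hL
  exact ⟨{
    c := c
    c_ne := hc0
    minors := minors_of F c hc
    f := f
    f_ne := hf
    L := L
    G := G
    root := hroot
    simple := hsimple
    move := fun j r hr => exists_move F hspan j r hr }⟩

end Pool.Agent.AbFib
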