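import Pool.Agent.Lib_MP_1209e6_ab.Main2

/-!
# Campana's conjecture: Zariski dense entire curves in abelian fibrations

Let `X` be a complex projective variety with a rational fibration `X ⇢ B` whose generic fibre `V` is a
smooth projective variety over `k = ℂ(B)` with commuting global vector fields which span its tangent bundle (a
torsor under an abelian variety), with connected general fibres. No section, no smooth or minimal model is
assumed; `B` and the multiple and singular fibres are arbitrary.

Lifting theorem: `X` has a Zariski dense entire curve if and only if `B` has a Zariski dense curve
`ℂ → B` which lifts to `X` locally near each point of `ℂ`. So the torsor satisfies a local-global principle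
over the field of meromorphic functions on `ℂ`.

Fibrations over projective space: if the fibration has local holomorphic sections in codimension one
off the `n + 1` coordinate hyperplanes of `ℙ^n` (no multiple fibres in codimension one there, arbitrary
multiplicities over the coordinate hyperplanes), then `X` has a Zariski dense entire curve.

The definitions `IsVariety`, `BrodySpecial` are in `Pool.Agent.Lib_MP_1209e6_ag.Defs`, `Chart`,
`GlobalField` in `Pool.Agent.Lib_MP_1209e6_fl.Defs`, and `Fibre`, `IsAbelianFibration`, `IsDenseCurve`,
`LiftsLocally`, `HasLocalSections` in `Pool.Agent.Lib_MP_1209e6_ab.Defs`.

Sketch of the proof. After multiplication by a polynomial in `t` the vector fields extend over ALL fibres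
over `ℂ^n`, so `ℂ^g` acts holomorphically on all fibres (the bad ones too). On a good connected fibre the
action is transitive: it is locally transitive at the visible etale points, and these meet each orbit. Two
local sections over the curve differ by a holomorphic time near each segment of good points (uniform
radius of the local solutions, since the periods are generated by bounded ones), the times are split
additively (Cousin problem, Cauchy integrals), so the local sections are corrected and glued to a global one.
Its translates by entire times are again sections, and one of them is Zariski dense. Curves which are not
contained in the affine chart `ℂ^n` are treated by passing to the cone over `B`. Over projective space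
the base curve is `z ↦ (exp (c_i + z^i))`, which for suitable `c` avoids the common zeros of `H`.
-/

set_option autoImplicit false

open Pool.Agent.Campana Pool.Agent.CampanaFlow Pool.Agent.AbFib

namespace Pool.Agent.Results.MP_1209e6_ag.AbelianFibrations

/-- The function field of the projective variety with homogeneous prime ideal `P`: the field
generated by the quotients `x_i / x_j` in the fraction field of the coordinate ring. -/
noncomputable abbrev functionField {n : ℕ} (P : Ideal (MvPolynomial (Fin (n + 1)) ℂ)) [P.IsPrime] :
    IntermediateField ℂ (FractionRing (MvPolynomial (Fin (n + 1)) ℂ ⧸ P)) :=
  IntermediateField.adjoin ℂ
    (Set.range fun ij : Fin (n + 1) × Fin (n + 1) => coord P ij.1 / coord P ij.2)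

/-- Lifting theorem for abelian fibrations, and dense entire curves in abelian fibrations over projective
space with local sections in codimension one off the coordinate hyperplanes. -/
theorem result {m n N : ℕ} (P : Ideal (MvPolynomial (Fin (m + 1)) ℂ)) [P.IsPrime] (hP : IsVariety P)
    (t : Fin n → functionField P) (x : Fin (N + 1) → functionField P)
    (h : IsAbelianFibration t x) :
    (BrodySpecial P ↔ ∃ u, IsDenseCurve t u ∧ LiftsLocally t x u) ∧
      (HasLocalSections t x → BrodySpecial P) :=
  ⟨main_iff P hP t x h, main P hP t x h⟩

end Pool.Agent.Results.MP_1209e6_ag.AbelianFibrations
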