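import Pool.Agent.Lib_MP_1209e6_ab.Defs
import Pool.Agent.Lib_MP_1209e6_fl.D7
import Pool.Agent.Lib_MP_1209e6_fl.F1

/-! Chart rings `F.R j`, the restricted derivations `F.ER j i`, points as homomorphisms, the relation
`F.Step j u τ v w` (`w` is the image of `v` under the flow of `∑ τ i • E i`, in the chart `j`). -/

set_option autoImplicit false

open Filter Topology

namespace Pool.Agent.AbFib

open Pool.Agent.CampanaFlow

namespace Fam

variable {K : Type} [Field K] [Algebra ℂ K] {n N g : ℕ} (F : Fam n N g K)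

/-- coordinate ring of the chart `j` -/
noncomputable def R (j : Fin (N + 1)) : Subalgebra ℂ K := Algebra.adjoin ℂ (Set.range (co F.t F.x j))

/-- the coordinates as elements of the coordinate ring -/
noncomputable def Y (j : Fin (N + 1)) (s : Fin n ⊕ Fin (N + 1)) : F.R j :=
  ⟨co F.t F.x j s, Algebra.subset_adjoin ⟨s, rfl⟩⟩

theorem E_mem (j : Fin (N + 1)) (i : Fin g) (f : F.R j) : F.E i f ∈ F.R j := by
  refine D7_pres (F.E i) (F.R j) (Set.range (co F.t F.x j)) le_rfl ?_ f f.2
  rintro _ ⟨s, rfl⟩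
  cases s with
  | inl a =>
    change F.E i (F.t a) ∈ F.R j
    rw [F.Et]
    exact Subalgebra.zero_mem _
  | inr l =>
    change F.E i (F.x l / F.x j) ∈ F.R j
    rw [F.EX, R, Algebra.adjoin_range_eq_range_aeval]
    exact ⟨_, rfl⟩

/-- the vector field `E i` on the chart `j` -/
noncomputable def ER (j : Fin (N + 1)) (i : Fin g) : Derivation ℂ (F.R j) (F.R j) :=
  Derivation.mk'
    { toFun := fun f => ⟨F.E i f, F.E_mem j i f⟩
      map_add' := fun a b => Subtype.ext (by
        change F.E i ((a : K) + b) = F.E i a + F.E i b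
        rw [map_add])
      map_smul' := fun c a => Subtype.ext (by
        change F.E i (c • (a : K)) = c • F.E i a
        rw [Derivation.map_smul]) }
    fun a b => Subtype.ext (by
      change F.E i ((a : K) * b) = (a : K) • F.E i b + (b : K) • F.E i a
      rw [Derivation.leibniz])

theorem ER_coe (j : Fin (N + 1)) (i : Fin g) (f : F.R j) : (F.ER j i f : K) = F.E i f := rfl

/-- the vector field `∑ τ i • E i` on the chart `j` -/
noncomputable def Eτ (j : Fin (N + 1)) (τ : Fin g → ℂ) : Derivation ℂ (F.R j) (F.R j) :=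
  ∑ i, τ i • F.ER j i

/-- `q` is the evaluation at the point `(u, v)` of the chart `j` -/
def IsHom (j : Fin (N + 1)) (u : Fin n → ℂ) (v : Fin (N + 1) → ℂ) (q : F.R j →ₐ[ℂ] ℂ) : Prop :=
  ∀ s, q (F.Y j s) = Sum.elim u v s

/-- `w` is obtained from `v` by the flow of `∑ τ i • E i` in the chart `j` over `u` (all power series
converge absolutely) -/
def Step (j : Fin (N + 1)) (u : Fin n → ℂ) (τ : Fin g → ℂ) (v w : Fin (N + 1) → ℂ) : Prop :=
  ∃ q q' : F.R j →ₐ[ℂ] ℂ, F.IsHom j u v q ∧ F.IsHom j u w q' ∧ IsFlow (F.Eτ j τ) q 1 q'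

end Fam

end Pool.Agent.AbFib
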