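import Pool.Agent.Lib_MP_1209e6_ab.B0

/-! PIECE B1: points of the fibres and homomorphisms of the chart rings. -/

set_option autoImplicit false

open Filter Topology

namespace Pool.Agent.AbFib

open Pool.Agent.CampanaFlow MvPolynomial

/-- exponent total in the variables `inr` -/
private def dg {n N : ℕ} (s : Fin n ⊕ Fin (N + 1) →₀ ℕ) : ℕ := ∑ l, s (Sum.inr l)

/-- Change of charts (`x_l / x_j' = (x_l / x_j) (x_j / x_j')`). -/
theorem change_chart {n N : ℕ} (r : MvPolynomial (Fin n ⊕ Fin (N + 1)) ℂ) (j j' : Fin (N + 1)) :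
    ∃ (r' : MvPolynomial (Fin n ⊕ Fin (N + 1)) ℂ) (d : ℕ), ∀ {k : Type} [Field k] [Algebra ℂ k]
      (t : Fin n → k) (x : Fin (N + 1) → k), x j' ≠ 0 →
      aeval (co t x j') r' = (x j / x j') ^ (d + 1) * aeval (co t x j) r := by
  classical
  refine ⟨∑ s ∈ r.support, C (r.coeff s) * ((∏ a, X (Sum.inl a) ^ s (Sum.inl a)) *
    (∏ l, X (Sum.inr l) ^ s (Sum.inr l)) * X (Sum.inr j) ^ (r.support.sup dg + 1 - dg s)),
    r.support.sup dg, ?_⟩
  intro k _ _ t x hx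
  have has : aeval (co t x j) r = ∑ s ∈ r.support, aeval (co t x j) (monomial s (coeff s r)) := by
    rw [← map_sum, ← r.as_sum]
  rw [map_sum, has, Finset.mul_sum]
  refine Finset.sum_congr rfl fun s hs => ?_
  have hd : dg s ≤ r.support.sup dg := Finset.le_sup hs
  rw [aeval_monomial, Finsupp.prod_fintype _ _ (fun i => pow_zero _), Fintype.prod_sum_type]
  simp only [map_mul, map_prod, map_pow, aeval_X, algHom_C, co, Sum.elim_inl, Sum.elim_inr]
  by_cases hj : x j = 0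
  · have h1 : r.support.sup dg + 1 - dg s ≠ 0 := by omega
    rw [hj, zero_div, zero_pow h1, zero_pow (Nat.succ_ne_zero _)]
    ring
  · have h1 : ∏ l, (x l / x j') ^ s (Sum.inr l) =
        (x j / x j') ^ dg s * ∏ l, (x l / x j) ^ s (Sum.inr l) := by
      rw [dg, ← Finset.prod_pow_eq_pow_sum, ← Finset.prod_mul_distrib]
      refine Finset.prod_congr rfl fun l _ => ?_
      rw [← mul_pow]
      congr 1
      field_simp
    have h2 : (x j / x j') ^ (r.support.sup dg + 1) =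
        (x j / x j') ^ dg s * (x j / x j') ^ (r.support.sup dg + 1 - dg s) := by
      rw [← pow_add]
      congr 1
      omega
    rw [h1, h2]
    ring

/-- Limits of representatives of the same points. -/
theorem pm_lim {N : ℕ} {α : Type} {f : Filter α} [f.NeBot] {v w : α → Fin (N + 1) → ℂ}
    {v₀ w₀ : Fin (N + 1) → ℂ} (hv : Tendsto v f (𝓝 v₀)) (hw : Tendsto w f (𝓝 w₀)) (hv0 : v₀ ≠ 0)
    (hw0 : w₀ ≠ 0) (h : ∀ᶠ a in f, pm (v a) = pm (w a)) : pm v₀ = pm w₀ := by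
  obtain ⟨j, hj⟩ := Function.ne_iff.1 hw0
  have hj' : w₀ j ≠ 0 := hj
  have hvj : Tendsto (fun a => v a j) f (𝓝 (v₀ j)) := (tendsto_pi_nhds.1 hv) j
  have hwj : Tendsto (fun a => w a j) f (𝓝 (w₀ j)) := (tendsto_pi_nhds.1 hw) j
  have hc : Tendsto (fun a => v a j / w a j) f (𝓝 (v₀ j / w₀ j)) := hvj.div hwj hj'
  have h1 : Tendsto (fun a => (v a j / w a j) • w a) f (𝓝 ((v₀ j / w₀ j) • w₀)) := hc.smul hw
  have h2 : ∀ᶠ a in f, (v a j / w a j) • w a = v a := by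
    filter_upwards [h, hwj.eventually_ne hj'] with a ha ha'
    obtain ⟨c, hc0, hc1⟩ := pm_eq_iff.1 ha
    have : v a j = c * w a j := by rw [hc1]; rfl
    rw [this, mul_div_assoc, div_self ha', mul_one, ← hc1]
  have h3 : (v₀ j / w₀ j) • w₀ = v₀ := tendsto_nhds_unique (h1.congr' h2) hv
  refine pm_eq_iff.2 ⟨v₀ j / w₀ j, ?_, h3.symm⟩
  intro h0
  rw [h0, zero_smul] at h3
  exact hv0 h3.symm

/-- If `pm w₀ = pm v₀` and `w → w₀` then the `w a` can be rescaled to tend to `v₀`. -/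
theorem pm_rescale {N : ℕ} {α : Type} {f : Filter α} {w : α → Fin (N + 1) → ℂ}
    {v₀ w₀ : Fin (N + 1) → ℂ} (hw : Tendsto w f (𝓝 w₀)) (h : pm w₀ = pm v₀) :
    ∃ w' : α → Fin (N + 1) → ℂ, Tendsto w' f (𝓝 v₀) ∧ ∀ a, pm (w' a) = pm (w a) := by
  obtain ⟨c, hc, hc1⟩ := pm_eq_iff.1 h
  refine ⟨fun a => c⁻¹ • w a, ?_, fun a => pm_smul (inv_ne_zero hc) _⟩
  have h1 := hw.const_smul c⁻¹
  rwa [hc1, smul_smul, inv_mul_cancel₀ hc, one_smul] at h1

namespace Fam

variable {K : Type} [Field K] [Algebra ℂ K] {n N g : ℕ} (F : Fam n N g K)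

theorem co_self (j : Fin (N + 1)) (u : Fin n → ℂ) (v : Fin (N + 1) → ℂ) (h : v j = 1) :
    co u v j = Sum.elim u v := by
  funext s
  cases s with
  | inl a => rfl
  | inr l =>
    change v l / v j = v l
    rw [h, div_one]

theorem co_smul (j : Fin (N + 1)) (u : Fin n → ℂ) (v : Fin (N + 1) → ℂ) {c : ℂ} (hc : c ≠ 0) :
    co u (c • v) j = co u v j := by
  funext s
  cases s with
  | inl a => rfl
  | inr l =>
    change c * v l / (c * v j) = v l / v j
    rw [mul_div_mul_left _ _ hc]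

theorem fib_smul {u : Fin n → ℂ} {v : Fin (N + 1) → ℂ} {c : ℂ} (hc : c ≠ 0) (h : v ∈ F.fib u) :
    c • v ∈ F.fib u := by
  refine ⟨smul_ne_zero hc h.1, fun j hj p hp => ?_⟩
  rw [co_smul j u v hc]
  refine h.2 j ?_ p hp
  intro h0
  apply hj
  change c * v j = 0
  rw [h0, mul_zero]

theorem pm_mem_iff {u : Fin n → ℂ} {v : Fin (N + 1) → ℂ} : pm v ∈ F.Pts u ↔ v ∈ F.fib u := by
  constructor
  · rintro ⟨w, hw, h⟩
    obtain ⟨c, hc, rfl⟩ := pm_eq_iff.1 h
    exact F.fib_smul hc hw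
  · intro h
    exact ⟨v, h, rfl⟩

/-- `F.fib u` in one chart -/
theorem mem_fib_iff {u : Fin n → ℂ} {v : Fin (N + 1) → ℂ} (j : Fin (N + 1)) (h : v j = 1) :
    v ∈ F.fib u ↔ ∀ p : MvPolynomial (Fin n ⊕ Fin (N + 1)) ℂ,
      aeval (co F.t F.x j) p = 0 → aeval (Sum.elim u v) p = 0 := by
  have hj : v j ≠ 0 := by rw [h]; exact one_ne_zero
  constructor
  · intro hv p hp
    rw [← co_self j u v h]
    exact hv.2 j hj p hp
  · intro hp
    refine ⟨fun h0 => hj (by rw [h0]; rfl), fun j' hj' p hp' => ?_⟩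
    obtain ⟨p', d, hd⟩ := change_chart p j' j
    have h1 := hd F.t F.x (F.x_ne j)
    rw [hp', mul_zero] at h1
    have h2 := hp p' h1
    rw [← co_self j u v h, hd u v hj] at h2
    exact (mul_eq_zero.1 h2).resolve_left (pow_ne_zero _ (div_ne_zero hj' hj))

/-- the fibres form a closed family -/
theorem fib_closed {α : Type} {f : Filter α} [f.NeBot] {u : α → Fin n → ℂ}
    {v : α → Fin (N + 1) → ℂ} {u₀ : Fin n → ℂ} {v₀ : Fin (N + 1) → ℂ} (hu : Tendsto u f (𝓝 u₀))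
    (hv : Tendsto v f (𝓝 v₀)) (h₀ : v₀ ≠ 0) (h : ∀ᶠ a in f, v a ∈ F.fib (u a)) :
    v₀ ∈ F.fib u₀ := by
  refine ⟨h₀, fun j hj p hp => ?_⟩
  have hvl : ∀ l, Tendsto (fun a => v a l) f (𝓝 (v₀ l)) := tendsto_pi_nhds.1 hv
  have hco : Tendsto (fun a => co (u a) (v a) j) f (𝓝 (co u₀ v₀ j)) := by
    rw [tendsto_pi_nhds]
    intro s
    cases s with
    | inl a => exact (tendsto_pi_nhds.1 hu) a
    | inr l => exact (hvl l).div (hvl j) hj
  have h1 : Tendsto (fun a => aeval (co (u a) (v a) j) p) f (𝓝 (aeval (co u₀ v₀ j) p)) := by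
    have hcont : Continuous fun y : Fin n ⊕ Fin (N + 1) → ℂ => aeval y p := by
      simp only [aeval_eq_eval]
      exact MvPolynomial.continuous_eval p
    exact (hcont.tendsto _).comp hco
  have h2 : ∀ᶠ a in f, aeval (co (u a) (v a) j) p = 0 := by
    filter_upwards [h, (hvl j).eventually_ne hj] with a ha ha'
    exact ha.2 j ha' p hp
  exact tendsto_nhds_unique (h1.congr' h2) tendsto_const_nhds |>.symm ▸ rfl

theorem ER_Y (j : Fin (N + 1)) (i : Fin g) (s : Fin n ⊕ Fin (N + 1)) :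
    F.ER j i (F.Y j s) = aeval (F.Y j) (Sum.elim (fun _ => 0) (F.P i j) s) := by
  have hval : ∀ p : MvPolynomial (Fin n ⊕ Fin (N + 1)) ℂ,
      ((aeval (F.Y j) p : F.R j) : K) = aeval (co F.t F.x j) p := fun p => by
    have := MvPolynomial.comp_aeval_apply (R := ℂ) (F.Y j) (F.R j).val p
    exact this
  apply Subtype.ext
  rw [ER_coe, hval]
  cases s with
  | inl a =>
    change F.E i (F.t a) = aeval (co F.t F.x j) 0
    rw [F.Et, map_zero]
  | inr l => exact F.EX i j l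

theorem Eτ_apply (j : Fin (N + 1)) (τ : Fin g → ℂ) (f : F.R j) :
    F.Eτ j τ f = ∑ i, τ i • F.ER j i f := by
  rw [Eτ, ← Derivation.coeFnAddMonoidHom_apply, map_sum, Finset.sum_apply]
  rfl

theorem ER_comm (j : Fin (N + 1)) (i i' : Fin g) (f : F.R j) :
    F.ER j i (F.ER j i' f) = F.ER j i' (F.ER j i f) :=
  Subtype.ext (F.comm i i' f)

theorem Eτ_comm (j : Fin (N + 1)) (σ τ : Fin g → ℂ) (f : F.R j) :
    F.Eτ j σ (F.Eτ j τ f) = F.Eτ j τ (F.Eτ j σ f) := by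
  simp only [Eτ_apply, map_sum, Derivation.map_smul, Finset.smul_sum]
  rw [Finset.sum_comm]
  refine Finset.sum_congr rfl fun i _ => Finset.sum_congr rfl fun i' _ => ?_
  rw [F.ER_comm, smul_comm]

theorem Eτ_add (j : Fin (N + 1)) (σ τ : Fin g → ℂ) : F.Eτ j (σ + τ) = F.Eτ j σ + F.Eτ j τ := by
  apply Derivation.ext
  intro f
  rw [Derivation.add_apply, Eτ_apply, Eτ_apply, Eτ_apply, ← Finset.sum_add_distrib]
  refine Finset.sum_congr rfl fun i _ => ?_
  rw [Pi.add_apply, add_smul]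

theorem isHom_aeval {j : Fin (N + 1)} {u : Fin n → ℂ} {v : Fin (N + 1) → ℂ} {q : F.R j →ₐ[ℂ] ℂ}
    (h : F.IsHom j u v q) (p : MvPolynomial (Fin n ⊕ Fin (N + 1)) ℂ) :
    q (aeval (F.Y j) p) = aeval (Sum.elim u v) p := by
  rw [MvPolynomial.comp_aeval_apply]
  congr 2
  funext s
  exact h s

/-- every element of the chart ring is a polynomial in the coordinates -/
theorem exists_poly (j : Fin (N + 1)) (f : F.R j) :
    ∃ p : MvPolynomial (Fin n ⊕ Fin (N + 1)) ℂ, f = aeval (F.Y j) p := by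
  apply D7_lift
  exact f.2

theorem isHom_unique {j : Fin (N + 1)} {u : Fin n → ℂ} {v : Fin (N + 1) → ℂ}
    {q q' : F.R j →ₐ[ℂ] ℂ} (h : F.IsHom j u v q) (h' : F.IsHom j u v q') : q = q' := by
  apply AlgHom.ext
  intro f
  obtain ⟨p, rfl⟩ := F.exists_poly j f
  rw [F.isHom_aeval h, F.isHom_aeval h']

theorem aeval_Y_coe (j : Fin (N + 1)) (p : MvPolynomial (Fin n ⊕ Fin (N + 1)) ℂ) :
    ((aeval (F.Y j) p : F.R j) : K) = aeval (co F.t F.x j) p :=
  MvPolynomial.comp_aeval_apply (R := ℂ) (F.Y j) (F.R j).val p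

theorem exists_isHom {j : Fin (N + 1)} {u : Fin n → ℂ} {v : Fin (N + 1) → ℂ}
    (h : v ∈ F.fib u) (hj : v j = 1) : ∃ q, F.IsHom j u v q := by
  classical
  have hk := (F.mem_fib_iff j hj).1 h
  choose p hp using F.exists_poly j
  have key : ∀ p p' : MvPolynomial (Fin n ⊕ Fin (N + 1)) ℂ, aeval (F.Y j) p = aeval (F.Y j) p' →
      aeval (Sum.elim u v) p = aeval (Sum.elim u v) p' := by
    intro p p' h
    have h1 : aeval (co F.t F.x j) (p - p') = 0 := by
      rw [← F.aeval_Y_coe, map_sub, h, sub_self]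
      rfl
    have h2 := hk _ h1
    rw [map_sub] at h2
    exact sub_eq_zero.1 h2
  have hpv : ∀ (f : F.R j) (p' : MvPolynomial (Fin n ⊕ Fin (N + 1)) ℂ), f = aeval (F.Y j) p' →
      aeval (Sum.elim u v) (p f) = aeval (Sum.elim u v) p' := fun f p' h =>
    key _ _ ((hp f).symm.trans h)
  refine ⟨AlgHom.mk (RingHom.mk (MonoidHom.mk (OneHom.mk (fun f => aeval (Sum.elim u v) (p f)) ?_) ?_)
    ?_ ?_) ?_, ?_⟩
  · rw [hpv 1 1 (by rw [map_one]), map_one]
  · intro f f'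
    change aeval (Sum.elim u v) (p (f * f')) = aeval (Sum.elim u v) (p f) * aeval (Sum.elim u v) (p f')
    rw [hpv (f * f') (p f * p f') (by rw [map_mul, ← hp, ← hp]), map_mul]
  · change aeval (Sum.elim u v) (p 0) = 0
    rw [hpv 0 0 (by rw [map_zero]), map_zero]
  · intro f f'
    change aeval (Sum.elim u v) (p (f + f')) = aeval (Sum.elim u v) (p f) + aeval (Sum.elim u v) (p f')
    rw [hpv (f + f') (p f + p f') (by rw [map_add, ← hp, ← hp]), map_add]
  · intro c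
    change aeval (Sum.elim u v) (p (algebraMap ℂ _ c)) = algebraMap ℂ ℂ c
    rw [hpv (algebraMap ℂ _ c) (C c) (by rw [algHom_C]), algHom_C]
  · intro s
    change aeval (Sum.elim u v) (p (F.Y j s)) = _
    rw [hpv (F.Y j s) (X s) (by rw [aeval_X]), aeval_X]

theorem mem_of_isHom {j : Fin (N + 1)} {u : Fin n → ℂ} {v : Fin (N + 1) → ℂ} {q : F.R j →ₐ[ℂ] ℂ}
    (h : F.IsHom j u v q) : v ∈ F.fib u ∧ v j = 1 := by
  have hj : v j = 1 := by
    have h1 := h (Sum.inr j)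
    have h2 : F.Y j (Sum.inr j) = 1 := Subtype.ext (div_self (F.x_ne j))
    rw [h2, map_one] at h1
    exact h1.symm
  refine ⟨(F.mem_fib_iff j hj).2 fun p hp => ?_, hj⟩
  rw [← F.isHom_aeval h]
  have h1 : aeval (F.Y j) p = 0 := Subtype.ext ((F.aeval_Y_coe j p).trans hp)
  rw [h1, map_zero]

theorem Eτ_Y_inl (j : Fin (N + 1)) (τ : Fin g → ℂ) (a : Fin n) : F.Eτ j τ (F.Y j (Sum.inl a)) = 0 := by
  rw [Eτ_apply]
  refine Finset.sum_eq_zero fun i _ => ?_
  rw [F.ER_Y]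
  simp

/-- the image of a point under a flow is a point over the same `u` -/
theorem exists_isHom_of_isFlow {j : Fin (N + 1)} {u : Fin n → ℂ} {v : Fin (N + 1) → ℂ}
    {τ : Fin g → ℂ} {q q' : F.R j →ₐ[ℂ] ℂ} (h : F.IsHom j u v q) (h' : IsFlow (F.Eτ j τ) q 1 q') :
    ∃ w, F.IsHom j u w q' := by
  refine ⟨fun l => q' (F.Y j (Sum.inr l)), fun s => ?_⟩
  cases s with
  | inl a =>
    rw [(h' _).2, ev_const (F.Eτ_Y_inl j τ a), h]
    rfl
  | inr l => rfl

theorem Step.unique {j : Fin (N + 1)} {u : Fin n → ℂ} {τ : Fin g → ℂ} {v w w' : Fin (N + 1) → ℂ}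
    (h : F.Step j u τ v w) (h' : F.Step j u τ v w') : w = w' := by
  obtain ⟨q, q', h1, h2, h3⟩ := h
  obtain ⟨p, p', k1, k2, k3⟩ := h'
  obtain rfl := F.isHom_unique h1 k1
  obtain rfl := h3.unique k3
  funext l
  exact (h2 (Sum.inr l)).symm.trans (k2 (Sum.inr l))

theorem Step.mem {j : Fin (N + 1)} {u : Fin n → ℂ} {τ : Fin g → ℂ} {v w : Fin (N + 1) → ℂ}
    (h : F.Step j u τ v w) : (v ∈ F.fib u ∧ v j = 1) ∧ w ∈ F.fib u ∧ w j = 1 := by
  obtain ⟨q, q', h1, h2, h3⟩ := h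
  exact ⟨F.mem_of_isHom h1, F.mem_of_isHom h2⟩

/-- `τ = 0` -/
theorem Step.zero {j : Fin (N + 1)} {u : Fin n → ℂ} {v : Fin (N + 1) → ℂ}
    (h : v ∈ F.fib u) (hj : v j = 1) : F.Step j u 0 v v := by
  obtain ⟨q, hq⟩ := F.exists_isHom h hj
  refine ⟨q, q, hq, hq, fun f => ?_⟩
  have h0 : F.Eτ j 0 f = 0 := by
    rw [Eτ_apply]
    simp
  exact ⟨conv_const h0, (ev_const h0).symm⟩

end Fam

end Pool.Agent.AbFib
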