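import Pool.Agent.Lib_MP_1209e6_ab.B1
import Pool.Agent.Lib_MP_1209e6_fl.F3

/-! PIECE B2: growth of iterated derivatives. -/

set_option autoImplicit false

open Filter Topology

namespace Pool.Agent.AbFib

open Pool.Agent.CampanaFlow MvPolynomial

section gen

variable {S : Type} [CommRing S] [Algebra ℂ S]

/-- words applied to the coordinates are polynomials with a bounded norm -/
private theorem word_poly {σ ι : Type} [Fintype σ] [DecidableEq σ] (y : σ → S)
    (D : ι → Derivation ℂ S S) (P : ι → σ → MvPolynomial σ ℂ)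
    (hP : ∀ a i, D a (y i) = aeval y (P a i)) (δ : ℕ)
    (hδ : ∀ a i, ∀ s ∈ (P a i).support, ∑ j, s j * 1 ≤ δ + 1) (W : ℝ) (hW : 1 ≤ W) (A : ℝ)
    (hA0 : 0 ≤ A) (hA : ∀ a i, f3nu (fun _ => W) (P a i) ≤ A) (w : List ι) (i : σ) :
    ∃ p : MvPolynomial σ ℂ, word D w (y i) = aeval y p ∧
      F3deg (fun _ => 1) p (1 + w.length * δ) ∧
      f3nu (fun _ => W) p ≤ W * w.length.factorial * ((1 + δ) * A) ^ w.length := by
  have hW0 : 0 ≤ W := zero_le_one.trans hW
  induction w with
  | nil =>
    refine ⟨X i, ?_, ?_, ?_⟩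
    · rw [aeval_X]
      rfl
    · intro s hs
      have h1 := MvPolynomial.support_monomial_subset (R := ℂ) (s := Finsupp.single i 1) (a := 1) hs
      rw [Finset.mem_singleton] at h1
      subst h1
      rw [Finset.sum_eq_single i]
      · simp
      · intro b _ hb
        rw [Finsupp.single_eq_of_ne hb, zero_mul]
      · intro h
        exact absurd (Finset.mem_univ i) h
    · have h1 := f3nu_monomial (fun _ => W) (Finsupp.single i 1) (1 : ℂ)
      have h2 : ∏ j, W ^ (Finsupp.single i 1 : σ →₀ ℕ) j = W := by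
        rw [Finset.prod_eq_single i]
        · simp
        · intro b _ hb
          rw [Finsupp.single_eq_of_ne hb, pow_zero]
        · intro h
          exact absurd (Finset.mem_univ i) h
      rw [h2, norm_one, one_mul] at h1
      have h3 : (MvPolynomial.X i : MvPolynomial σ ℂ) =
        MvPolynomial.monomial (Finsupp.single i 1) 1 := rfl
      rw [h3, h1]
      simp
  | cons a w ih =>
    obtain ⟨p, h1, h2, h3⟩ := ih
    refine ⟨MvPolynomial.mkDerivation ℂ (P a) p, ?_, ?_, ?_⟩
    · change D a (word D w (y i)) = _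
      rw [h1, f3_aeval y (D a) (P a) (hP a)]
    · have h4 := f3deg_der (P a) (fun _ => 1) (fun _ h => absurd h one_ne_zero) (fun _ => le_rfl) δ
        (hδ a) p _ h2
      have h5 : 1 + w.length * δ + δ = 1 + (a :: w).length * δ := by
        rw [List.length_cons]
        ring
      rwa [h5] at h4
    · refine (f3nu_der (P a) (fun _ => 1) (fun _ h => absurd h one_ne_zero) (fun _ => le_rfl)
        (fun _ => W) (fun _ => hW0) (fun _ _ => hW) A (hA a) p _ h2 hA0).trans ?_
      have h4 : ((1 + w.length * δ : ℕ) : ℝ) ≤ (1 + δ) * (w.length + 1) := by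
        push_cast
        have : (0 : ℝ) ≤ δ := Nat.cast_nonneg _
        have : (0 : ℝ) ≤ w.length := Nat.cast_nonneg _
        nlinarith
      calc ((1 + w.length * δ : ℕ) : ℝ) * A * f3nu (fun _ => W) p
          ≤ ((1 + δ) * (w.length + 1)) * A * (W * w.length.factorial * ((1 + δ) * A) ^ w.length) := by
            apply mul_le_mul (mul_le_mul_of_nonneg_right h4 hA0) h3
              (f3nu_nonneg _ (fun _ => hW0) _) (by positivity)
        _ = W * (a :: w).length.factorial * ((1 + δ) * A) ^ (a :: w).length := by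
            rw [List.length_cons, Nat.factorial_succ, pow_succ]
            push_cast
            ring

private theorem norm_aeval_le {σ : Type} [Fintype σ] (y : σ → S) (q : S →ₐ[ℂ] ℂ) (W : ℝ)
    (hq : ∀ i, ‖q (y i)‖ ≤ W) (p : MvPolynomial σ ℂ) : ‖q (aeval y p)‖ ≤ f3nu (fun _ => W) p := by
  have h4 : q (aeval y p) = ∑ s ∈ p.support, p.coeff s * ∏ j, q (y j) ^ s j := by
    rw [MvPolynomial.aeval_def, MvPolynomial.eval₂_eq', map_sum]
    refine Finset.sum_congr rfl fun s _ => ?_
    rw [map_mul, AlgHom.commutes, map_prod]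
    simp
  rw [h4]
  refine (norm_sum_le _ _).trans ?_
  unfold f3nu
  refine Finset.sum_le_sum fun s _ => ?_
  rw [norm_mul, norm_prod]
  apply mul_le_mul_of_nonneg_left _ (norm_nonneg _)
  refine Finset.prod_le_prod (fun j _ => norm_nonneg _) fun j _ => ?_
  rw [norm_pow]
  exact pow_le_pow_left₀ (norm_nonneg _) (hq j) _

private theorem iter_sum {ι : Type} [Fintype ι] (D : Derivation ℂ S S) (m : ℕ) (c : ι → ℂ)
    (f : ι → S) : D^[m] (∑ i, c i • f i) = ∑ i, c i • D^[m] (f i) := by
  induction m with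
  | zero => rfl
  | succ m ih =>
    rw [Function.iterate_succ_apply', ih, map_sum]
    refine Finset.sum_congr rfl fun i _ => ?_
    rw [Derivation.map_smul, Function.iterate_succ_apply']

end gen

namespace Fam

variable {K : Type} [Field K] [Algebra ℂ K] {n N g : ℕ} (F : Fam n N g K)

/-- Growth of words, uniformly for bounded points. As in `grow` (file `Lib_MP_1209e6_fl/F3`), by induction on
the word: with `Pg i = Sum.elim 0 (F.P i j)` each word applied to `F.Y j s` is `aeval (F.Y j) p` with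
`F3deg 1 p (1 + w.length * δ)` and `f3nu W p ≤ W * (w.length)! * ((1+δ) A)^w.length`, where `W` is the
constant weight `max M 1`, `δ` bounds all total degrees and `A` all `f3nu W (F.P i j l)`; use `f3_aeval`,
`f3deg_der`, `f3nu_der` with `dg = 1`; and `‖q (aeval (F.Y j) p)‖ ≤ f3nu W p`. Then
`C = max W ((1+δ) A)` (and `≥ 1`). -/
theorem grow_word (M : ℝ) : ∃ C : ℝ, 1 ≤ C ∧ ∀ (j : Fin (N + 1)) (u : Fin n → ℂ)
    (v : Fin (N + 1) → ℂ) (q : F.R j →ₐ[ℂ] ℂ), F.IsHom j u v q → ‖u‖ ≤ M → ‖v‖ ≤ M →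
    ∀ (w : List (Fin g)) (s : Fin n ⊕ Fin (N + 1)),
      ‖q (word (F.ER j) w (F.Y j s))‖ ≤ C ^ (w.length + 1) * w.length.factorial := by
  classical
  set W : ℝ := max M 1 with hWdef
  have hW : 1 ≤ W := le_max_right _ _
  have hW0 : 0 ≤ W := zero_le_one.trans hW
  set δ : ℕ := ∑ i, ∑ j, ∑ l, (F.P i j l).totalDegree with hδdef
  set A : ℝ := ∑ i, ∑ j, ∑ l, f3nu (fun _ => W) (F.P i j l) with hAdef
  have hnn : ∀ p : MvPolynomial (Fin n ⊕ Fin (N + 1)) ℂ, 0 ≤ f3nu (fun _ => W) p := fun p =>
    f3nu_nonneg _ (fun _ => hW0) _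
  have hA0 : 0 ≤ A := Finset.sum_nonneg fun i _ => Finset.sum_nonneg fun j _ =>
    Finset.sum_nonneg fun l _ => hnn _
  have hA : ∀ i j l, f3nu (fun _ => W) (F.P i j l) ≤ A := by
    intro i j l
    refine le_trans ?_ (Finset.single_le_sum (f := fun i => ∑ j, ∑ l, f3nu (fun _ => W) (F.P i j l))
      (fun i _ => Finset.sum_nonneg fun j _ => Finset.sum_nonneg fun l _ => hnn _)
      (Finset.mem_univ i))
    refine le_trans ?_ (Finset.single_le_sum (f := fun j => ∑ l, f3nu (fun _ => W) (F.P i j l))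
      (fun j _ => Finset.sum_nonneg fun l _ => hnn _) (Finset.mem_univ j))
    exact Finset.single_le_sum (f := fun l => f3nu (fun _ => W) (F.P i j l)) (fun l _ => hnn _)
      (Finset.mem_univ l)
  have hδ : ∀ i j l, (F.P i j l).totalDegree ≤ δ := by
    intro i j l
    refine le_trans ?_ (Finset.single_le_sum (f := fun i => ∑ j, ∑ l, (F.P i j l).totalDegree)
      (fun i _ => Nat.zero_le _) (Finset.mem_univ i))
    refine le_trans ?_ (Finset.single_le_sum (f := fun j => ∑ l, (F.P i j l).totalDegree)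
      (fun j _ => Nat.zero_le _) (Finset.mem_univ j))
    exact Finset.single_le_sum (f := fun l => (F.P i j l).totalDegree) (fun l _ => Nat.zero_le _)
      (Finset.mem_univ l)
  refine ⟨max W ((1 + δ) * A), hW.trans (le_max_left _ _), ?_⟩
  intro j u v q hq hu hv w s
  obtain ⟨p, hp, -, hp2⟩ := word_poly (F.Y j) (F.ER j)
    (fun i => Sum.elim (fun _ => 0) (F.P i j)) (fun i s => F.ER_Y j i s) δ
    (by
      intro i s
      cases s with
      | inl a =>
        intro s hs
        simp at hs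
      | inr l =>
        intro s hs
        have h1 := le_totalDegree hs
        rw [Finsupp.sum_fintype _ _ fun _ => rfl] at h1
        have h2 := hδ i j l
        rw [Sum.elim_inr] at h1
        simp only [mul_one]
        exact h1.trans (h2.trans (Nat.le_succ _)))
    W hW A hA0
    (by
      intro i s
      cases s with
      | inl a =>
        rw [Sum.elim_inl, f3nu_zero]
        exact hA0
      | inr l => exact hA i j l) w s
  rw [hp]
  have hY : ∀ s, ‖q (F.Y j s)‖ ≤ W := by
    intro s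
    rw [hq s]
    cases s with
    | inl a => exact (norm_le_pi_norm u a).trans (hu.trans (le_max_left _ _))
    | inr l => exact (norm_le_pi_norm v l).trans (hv.trans (le_max_left _ _))
  refine (norm_aeval_le (F.Y j) q W hY p).trans (hp2.trans ?_)
  have h5 : (0 : ℝ) ≤ (1 + δ) * A := by positivity
  calc W * w.length.factorial * ((1 + δ) * A) ^ w.length
      ≤ max W ((1 + δ) * A) * w.length.factorial * (max W ((1 + δ) * A)) ^ w.length := by
        apply mul_le_mul (mul_le_mul_of_nonneg_right (le_max_left _ _) (Nat.cast_nonneg _))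
          (pow_le_pow_left₀ h5 (le_max_right _ _) _) (pow_nonneg h5 _)
        exact mul_nonneg (hW0.trans (le_max_left _ _)) (Nat.cast_nonneg _)
    _ = max W ((1 + δ) * A) ^ (w.length + 1) * w.length.factorial := by ring

/-- From `grow_word`: by induction on `m`, for every word `w`,
`‖q (Eτ^[m] (word w Y))‖ ≤ C ^ (m + |w| + 1) (g ‖τ‖)^m (m + |w|)!`, as
`Eτ^[m+1] (word w Y) = ∑ τ i • Eτ^[m] (word (i :: w) Y)`; then the same for `Eτ^[m] (Eσ^[k] (word w Y))` by
induction on `k`. The new constant is `C * max g 1`. -/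
theorem grow_two (M : ℝ) : ∃ C : ℝ, 1 ≤ C ∧ ∀ (j : Fin (N + 1)) (u : Fin n → ℂ)
    (v : Fin (N + 1) → ℂ) (q : F.R j →ₐ[ℂ] ℂ), F.IsHom j u v q → ‖u‖ ≤ M → ‖v‖ ≤ M →
    ∀ (σ τ : Fin g → ℂ) (m k : ℕ) (s : Fin n ⊕ Fin (N + 1)),
      ‖q ((F.Eτ j τ)^[m] ((F.Eτ j σ)^[k] (F.Y j s)))‖ ≤
        C ^ (m + k + 1) * ‖τ‖ ^ m * ‖σ‖ ^ k * (m + k).factorial := by
  classical
  obtain ⟨C, hC, hw⟩ := F.grow_word M
  have hC0 : 0 ≤ C := zero_le_one.trans hC
  have hsum : ∀ (τ : Fin g → ℂ) (f : Fin g → ℂ) (B : ℝ), 0 ≤ B → (∀ i, ‖f i‖ ≤ B) →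
      ‖∑ i, τ i • f i‖ ≤ g * ‖τ‖ * B := by
    intro τ f B hB hf
    refine (norm_sum_le _ _).trans ?_
    have h1 : ∀ i ∈ Finset.univ, ‖τ i • f i‖ ≤ ‖τ‖ * B := by
      intro i _
      rw [norm_smul]
      exact mul_le_mul (norm_le_pi_norm τ i) (hf i) (norm_nonneg _) (norm_nonneg _)
    refine (Finset.sum_le_sum h1).trans ?_
    rw [Finset.sum_const, Finset.card_univ, Fintype.card_fin, nsmul_eq_mul, mul_assoc]
  have hword : ∀ (j : Fin (N + 1)) (τ : Fin g → ℂ) (w : List (Fin g)) (s : Fin n ⊕ Fin (N + 1)),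
      F.Eτ j τ (word (F.ER j) w (F.Y j s)) = ∑ i, τ i • word (F.ER j) (i :: w) (F.Y j s) := by
    intro j τ w s
    rw [F.Eτ_apply]
    rfl
  have hfac : ∀ a : ℕ, (0 : ℝ) ≤ a.factorial := fun a => Nat.cast_nonneg _
  refine ⟨C * max (g : ℝ) 1, ?_, ?_⟩
  · exact one_le_mul_of_one_le_of_one_le hC (le_max_right _ _)
  intro j u v q hq hu hv σ τ m k s
  have step1 : ∀ (m : ℕ) (w : List (Fin g)), ‖q ((F.Eτ j τ)^[m] (word (F.ER j) w (F.Y j s)))‖ ≤
      C ^ (m + w.length + 1) * (g * ‖τ‖) ^ m * (m + w.length).factorial := by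
    intro m
    induction m with
    | zero =>
      intro w
      have h := hw j u v q hq hu hv w s
      simpa using h
    | succ m ih =>
      intro w
      rw [Function.iterate_succ_apply, hword, iter_sum, map_sum]
      simp only [map_smul]
      refine (hsum τ _ (C ^ (m + (w.length + 1) + 1) * (g * ‖τ‖) ^ m *
        (m + (w.length + 1)).factorial) ?_ fun i => ih (i :: w)).trans (le_of_eq ?_)
      · have := hfac (m + (w.length + 1))
        positivity
      · have h1 : m + (w.length + 1) = m + 1 + w.length := by ring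
        rw [h1]
        ring
  have step2 : ∀ (k : ℕ) (w : List (Fin g)),
      ‖q ((F.Eτ j τ)^[m] ((F.Eτ j σ)^[k] (word (F.ER j) w (F.Y j s))))‖ ≤
      C ^ (m + k + w.length + 1) * (g * ‖τ‖) ^ m * (g * ‖σ‖) ^ k * (m + k + w.length).factorial := by
    intro k
    induction k with
    | zero =>
      intro w
      have h := step1 m w
      simpa using h
    | succ k ih =>
      intro w
      rw [Function.iterate_succ_apply, hword, iter_sum, iter_sum, map_sum]
      simp only [map_smul]
      refine (hsum σ _ (C ^ (m + k + (w.length + 1) + 1) * (g * ‖τ‖) ^ m * (g * ‖σ‖) ^ k *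
        (m + k + (w.length + 1)).factorial) ?_ fun i => ih (i :: w)).trans (le_of_eq ?_)
      · have := hfac (m + k + (w.length + 1))
        positivity
      · have h1 : m + k + (w.length + 1) = m + (k + 1) + w.length := by ring
        rw [h1]
        ring
  have h := step2 k []
  simp only [List.length_nil, add_zero] at h
  have h0 : word (F.ER j) [] (F.Y j s) = F.Y j s := rfl
  rw [h0] at h
  refine h.trans ?_
  have hg : (g : ℝ) ^ (m + k) ≤ (max (g : ℝ) 1) ^ (m + k + 1) := by
    refine (pow_le_pow_left₀ (Nat.cast_nonneg g) (le_max_left (g : ℝ) 1) (m + k)).trans ?_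
    exact pow_le_pow_right₀ (le_max_right _ _) (Nat.le_succ _)
  calc C ^ (m + k + 1) * (g * ‖τ‖) ^ m * (g * ‖σ‖) ^ k * (m + k).factorial
      = (C ^ (m + k + 1) * ‖τ‖ ^ m * ‖σ‖ ^ k * (m + k).factorial) * (g : ℝ) ^ (m + k) := by ring
    _ ≤ (C ^ (m + k + 1) * ‖τ‖ ^ m * ‖σ‖ ^ k * (m + k).factorial) * (max (g : ℝ) 1) ^ (m + k + 1) := by
        apply mul_le_mul_of_nonneg_left hg
        positivity
    _ = (C * max (g : ℝ) 1) ^ (m + k + 1) * ‖τ‖ ^ m * ‖σ‖ ^ k * (m + k).factorial := by
        rw [mul_pow]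
        ring

end Fam

end Pool.Agent.AbFib
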