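import Pool.Agent.Lib_MP_1209e6_ab.B2

/-! PIECE B3: existence of small steps, with estimates. -/

set_option autoImplicit false

open Filter Topology

namespace Pool.Agent.AbFib

open Pool.Agent.CampanaFlow MvPolynomial

namespace Fam

variable {K : Type} [Field K] [Algebra ℂ K] {n N g : ℕ} (F : Fam n N g K)

private theorem b3_tail {a : ℕ → ℂ} {B y : ℝ} (hy : 0 ≤ y) (hy2 : y ≤ 1 / 2) (hB : 0 ≤ B)
    (h : ∀ m, ‖a m‖ ≤ B * y ^ m) (k : ℕ) :
    ‖∑' m, a m - ∑ m ∈ Finset.range k, a m‖ ≤ 2 * B * y ^ k := by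
  have hg : Summable fun m => B * y ^ m :=
    (summable_geometric_of_lt_one hy (by linarith)).mul_left B
  have ha : Summable a := Summable.of_norm_bounded hg h
  rw [← ha.sum_add_tsum_nat_add k, add_sub_cancel_left]
  have h1 : HasSum (fun m => B * y ^ k * y ^ m) (B * y ^ k * (1 - y)⁻¹) :=
    (hasSum_geometric_of_lt_one hy (by linarith)).mul_left _
  refine (tsum_of_norm_bounded h1 fun m => ?_).trans ?_
  · refine (h _).trans (le_of_eq ?_)
    rw [pow_add]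
    ring
  · have h2 : (1 - y)⁻¹ ≤ 2 := by
      rw [inv_le_comm₀ (by linarith) (by norm_num)]
      linarith
    calc B * y ^ k * (1 - y)⁻¹ ≤ B * y ^ k * 2 := by gcongr
      _ = 2 * B * y ^ k := by ring

/-- `grow_two` with `k = 0`: the `m`-th Taylor coefficient `tc (F.Eτ j τ) q (F.Y j s) m` is bounded by
`C (C ‖τ‖)^m`. For `‖τ‖ ≤ ρ` with `C ρ ≤ 1/2` the series converges for the generators, hence for all
elements (`conv_adjoin`), so there is a flow `q'` (`exists_isFlow`), `w` from `exists_isHom_of_isFlow`;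
`w l - v l - ∑ i, τ i * P i j l (u, v) = ∑_{m ≥ 2} tc m` has norm `≤ C (C‖τ‖)^2 * 2`; and
`‖w l - v l‖ ≤ ∑_{m ≥ 1} ≤ 2 C² ‖τ‖ ≤ 1` for small `ρ` (also `≤ C' ‖τ‖`). -/
theorem exists_step (M : ℝ) : ∃ ρ C : ℝ, 0 < ρ ∧ 0 ≤ C ∧ ∀ (j : Fin (N + 1)) (u : Fin n → ℂ)
    (v : Fin (N + 1) → ℂ) (τ : Fin g → ℂ), ‖u‖ ≤ M → ‖v‖ ≤ M → v ∈ F.fib u → v j = 1 → ‖τ‖ ≤ ρ →
    ∃ w, F.Step j u τ v w ∧ ‖w - v‖ ≤ 1 ∧ ‖w - v‖ ≤ C * ‖τ‖ ∧
      ∀ l, ‖w l - v l - ∑ i, τ i * aeval (Sum.elim u v) (F.P i j l)‖ ≤ C * ‖τ‖ ^ 2 := by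
  obtain ⟨C, hC1, hC⟩ := grow_two F M
  have hC0 : 0 < C := by linarith
  refine ⟨1 / (4 * C ^ 2), 2 * C ^ 3, by positivity, by positivity, ?_⟩
  intro j u v τ hu hv hvf hj hτ
  obtain ⟨q, hq⟩ := F.exists_isHom hvf hj
  have hτ' : C ^ 2 * ‖τ‖ ≤ 1 / 4 := by
    calc C ^ 2 * ‖τ‖ ≤ C ^ 2 * (1 / (4 * C ^ 2)) := by gcongr
      _ = 1 / 4 := by field_simp
  have hτ2 : C * ‖τ‖ ≤ 1 / 4 := by
    refine le_trans ?_ hτ'
    have : 0 ≤ ‖τ‖ := norm_nonneg _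
    nlinarith [mul_nonneg (mul_nonneg hC0.le (by linarith : (0:ℝ) ≤ C - 1)) this]
  have hy0 : 0 ≤ C * ‖τ‖ := by positivity
  -- Taylor coefficients
  have hb : ∀ s m, ‖tc (F.Eτ j τ) q (F.Y j s) m‖ ≤ C * (C * ‖τ‖) ^ m := by
    intro s m
    have h := hC j u v q hq hu hv 0 τ m 0 s
    rw [pow_zero, mul_one, Nat.add_zero] at h
    rw [tc, norm_div, Complex.norm_natCast, div_le_iff₀ (by positivity)]
    calc _ ≤ _ := h
      _ = C * (C * ‖τ‖) ^ m * (m.factorial : ℝ) := by rw [pow_succ, mul_pow]; ring_nf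
  have hgen : ∀ f : F.R j, f ∈ Algebra.adjoin ℂ (Set.range (F.Y j)) := by
    intro f
    obtain ⟨p, rfl⟩ := F.exists_poly j f
    rw [Algebra.adjoin_range_eq_range_aeval]
    exact ⟨p, rfl⟩
  have hconv : ∀ f : F.R j, Conv (F.Eτ j τ) q 1 f := by
    intro f
    refine conv_adjoin ?_ f (hgen f)
    rintro _ ⟨s, rfl⟩
    refine Summable.of_nonneg_of_le (fun m => by positivity) (fun m => ?_)
      ((summable_geometric_of_lt_one hy0 (by linarith)).mul_left C)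
    rw [norm_one, one_pow, mul_one]
    exact hb s m
  obtain ⟨q', hq'⟩ := exists_isFlow hconv
  obtain ⟨w, hw⟩ := F.exists_isHom_of_isFlow hq hq'
  have hwl : ∀ l, w l = ∑' m, tc (F.Eτ j τ) q (F.Y j (Sum.inr l)) m := by
    intro l
    have h1 := hw (Sum.inr l)
    rw [(hq' _).2] at h1
    change _ = w l at h1
    rw [← h1, ev]
    refine tsum_congr fun m => ?_
    rw [one_pow, mul_one]
  have h0 : ∀ l, tc (F.Eτ j τ) q (F.Y j (Sum.inr l)) 0 = v l := by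
    intro l
    have h1 := hq (Sum.inr l)
    change _ = v l at h1
    rw [tc, Function.iterate_zero, id, h1, Nat.factorial_zero, Nat.cast_one, div_one]
  have h1 : ∀ l, tc (F.Eτ j τ) q (F.Y j (Sum.inr l)) 1 =
      ∑ i, τ i * aeval (Sum.elim u v) (F.P i j l) := by
    intro l
    rw [tc, Function.iterate_one, Nat.factorial_one, Nat.cast_one, div_one, F.Eτ_apply, map_sum]
    refine Finset.sum_congr rfl fun i _ => ?_
    rw [map_smul, smul_eq_mul, F.ER_Y]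
    change τ i * q (aeval (F.Y j) (F.P i j l)) = _
    rw [F.isHom_aeval hq]
  have hd1 : ∀ l, ‖w l - v l‖ ≤ 2 * C * (C * ‖τ‖) ^ 1 := by
    intro l
    have h2 := b3_tail hy0 (by linarith) hC0.le (hb (Sum.inr l)) 1
    rwa [Finset.sum_range_one, h0, ← hwl] at h2
  have hd2 : ∀ l, ‖w l - v l - ∑ i, τ i * aeval (Sum.elim u v) (F.P i j l)‖ ≤
      2 * C * (C * ‖τ‖) ^ 2 := by
    intro l
    have h2 := b3_tail hy0 (by linarith) hC0.le (hb (Sum.inr l)) 2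
    rwa [Finset.sum_range_succ, Finset.sum_range_one, h0, h1, ← hwl, ← sub_sub] at h2
  have hd : ‖w - v‖ ≤ 2 * C * (C * ‖τ‖) ^ 1 :=
    (pi_norm_le_iff_of_nonneg (by positivity)).2 fun l => hd1 l
  refine ⟨w, ⟨q, q', hq, hw, hq'⟩, ?_, ?_, ?_⟩
  · refine hd.trans ?_
    nlinarith
  · refine hd.trans ?_
    rw [pow_one]
    have : 0 ≤ ‖τ‖ := norm_nonneg _
    have h3 : 0 ≤ C ^ 2 * (C - 1) * ‖τ‖ :=
      mul_nonneg (mul_nonneg (by positivity) (by linarith)) this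
    nlinarith
  · intro l
    refine (hd2 l).trans (le_of_eq ?_)
    ring

end Fam

end Pool.Agent.AbFib
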