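import Pool.Agent.Lib_MP_1209e6_ab.B3

/-! PIECE B4: the group law for small steps in one chart. -/

set_option autoImplicit false

open Filter Topology

namespace Pool.Agent.AbFib

open Pool.Agent.CampanaFlow MvPolynomial

namespace Fam

variable {K : Type} [Field K] [Algebra ℂ K] {n N g : ℕ} (F : Fam n N g K)

/-- all series converge if those of the coordinates do -/
private theorem conv_of_gen {j : Fin (N + 1)} {q : F.R j →ₐ[ℂ] ℂ} {D : Derivation ℂ (F.R j) (F.R j)}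
    {t : ℂ} (h : ∀ s, Conv D q t (F.Y j s)) (f : F.R j) : Conv D q t f := by
  obtain ⟨p, rfl⟩ := F.exists_poly j f
  refine conv_adjoin (s := Set.range (F.Y j)) ?_ _ ?_
  · rintro _ ⟨s, rfl⟩
    exact h s
  · rw [Algebra.adjoin_range_eq_range_aeval]
    exact ⟨p, rfl⟩

/-- the binomial theorem for the commuting fields `Eτ τ`, `Eτ σ` -/
private theorem iter_add (j : Fin (N + 1)) (σ τ : Fin g → ℂ) (f : F.R j) (r : ℕ) :
    (F.Eτ j (σ + τ))^[r] f = ∑ ij ∈ Finset.HasAntidiagonal.antidiagonal r,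
      r.choose ij.1 • ((F.Eτ j τ)^[ij.1] ((F.Eτ j σ)^[ij.2] f)) := by
  have hit : ∀ (τ : Fin g → ℂ) (m : ℕ) (f : F.R j),
      (F.Eτ j τ)^[m] f = (((F.Eτ j τ : F.R j →ₗ[ℂ] F.R j) : Module.End ℂ (F.R j)) ^ m) f := by
    intro τ m f
    rw [Module.End.pow_apply]
    rfl
  have hc : Commute ((F.Eτ j τ : F.R j →ₗ[ℂ] F.R j) : Module.End ℂ (F.R j))
      ((F.Eτ j σ : F.R j →ₗ[ℂ] F.R j) : Module.End ℂ (F.R j)) := by
    refine LinearMap.ext fun f => ?_
    exact F.Eτ_comm j τ σ f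
  have hs : ((F.Eτ j (σ + τ) : F.R j →ₗ[ℂ] F.R j) : Module.End ℂ (F.R j)) =
      ((F.Eτ j τ : F.R j →ₗ[ℂ] F.R j) : Module.End ℂ (F.R j)) +
      ((F.Eτ j σ : F.R j →ₗ[ℂ] F.R j) : Module.End ℂ (F.R j)) := by
    refine LinearMap.ext fun f => ?_
    change F.Eτ j (σ + τ) f = F.Eτ j τ f + F.Eτ j σ f
    rw [F.Eτ_add, Derivation.add_apply, add_comm]
  rw [hit, hs, hc.add_pow', LinearMap.sum_apply]
  refine Finset.sum_congr rfl fun ij _ => ?_
  rw [LinearMap.smul_apply, Module.End.mul_apply, ← hit, ← hit]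

/-- a double series which is bounded by a double geometric series, summed over the antidiagonals -/
private theorem double_series {a : ℕ → ℕ → ℂ} {C : ℝ}
    (h : ∀ m k, ‖a m k‖ ≤ C * ((1 / 2 : ℝ) ^ m * (1 / 2 : ℝ) ^ k)) :
    ∑' k, ∑' m, a m k = ∑' r, ∑ ij ∈ Finset.HasAntidiagonal.antidiagonal r, a ij.1 ij.2 := by
  have hg : Summable fun n : ℕ => (1 / 2 : ℝ) ^ n := summable_geometric_two
  have hs : Summable fun p : ℕ × ℕ => a p.1 p.2 := by
    refine Summable.of_norm_bounded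
      (g := fun p : ℕ × ℕ => C * ((1 / 2 : ℝ) ^ p.1 * (1 / 2 : ℝ) ^ p.2)) ?_ fun p => h p.1 p.2
    exact (hg.mul_of_nonneg hg (fun _ => by positivity) (fun _ => by positivity)).mul_left C
  have hs' : Summable fun x : (r : ℕ) × Finset.HasAntidiagonal.antidiagonal r =>
      a (x.2 : ℕ × ℕ).1 (x.2 : ℕ × ℕ).2 :=
    (Finset.HasAntidiagonal.sigmaAntidiagonalEquivProd (A := ℕ)).summable_iff.2 hs
  have h1 : ∑' p : ℕ × ℕ, a p.1 p.2 = ∑' k, ∑' m, a m k := by
    have h2 : Summable fun p : ℕ × ℕ => a p.2 p.1 := (Equiv.prodComm ℕ ℕ).summable_iff.2 hs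
    rw [← (Equiv.prodComm ℕ ℕ).tsum_eq]
    exact h2.tsum_prod
  rw [← h1, ← (Finset.HasAntidiagonal.sigmaAntidiagonalEquivProd (A := ℕ)).tsum_eq]
  change ∑' x : (r : ℕ) × Finset.HasAntidiagonal.antidiagonal r,
      a (x.2 : ℕ × ℕ).1 (x.2 : ℕ × ℕ).2 = _
  rw [hs'.tsum_sigma]
  refine tsum_congr fun r => ?_
  rw [tsum_fintype]
  exact Finset.sum_coe_sort (Finset.HasAntidiagonal.antidiagonal r) fun x : ℕ × ℕ => a x.1 x.2

/-- Let `q, q', q''` be the three points. By `exists_step` (its proof: `grow_two`) all series for `σ + τ`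
at `q` converge if `2ρ` is small, so there is a flow `q₃` of `Eτ (σ + τ)` from `q`. For a generator `Y s`:
`q'' (Y s) = ∑_k q' (Eσ^k (Y s)) / k! = ∑_k ∑_m q (Eτ^m (Eσ^k (Y s))) / (m! k!)`, the double series
converges absolutely by `grow_two`: `(m+k)! / (m! k!) ≤ 2^(m+k)`, so the terms are bounded by
`C (2C‖τ‖)^m (2C‖σ‖)^k`. Sum over antidiagonals (`tsum_mul_tsum..`-like:
`Summable.tsum_sigma'`/`Finset.antidiagonal` equivalence `Finset.sigmaAntidiagonalEquivProd`): the sum over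
`m + k = N` is `q ((Eσ + Eτ)^N (Y s)) / N!` by the binomial theorem for commuting maps
(`Commute.add_pow` in `Module.End`). So `q'' = q₃` on generators. -/
theorem step_add (M : ℝ) : ∃ ρ : ℝ, 0 < ρ ∧ ∀ (j : Fin (N + 1)) (u : Fin n → ℂ)
    (v w w' : Fin (N + 1) → ℂ) (σ τ : Fin g → ℂ), ‖u‖ ≤ M → ‖v‖ ≤ M → ‖σ‖ ≤ ρ → ‖τ‖ ≤ ρ →
    F.Step j u τ v w → F.Step j u σ w w' → F.Step j u (σ + τ) v w' := by
  obtain ⟨C, hC, H⟩ := F.grow_two M
  have hC0 : 0 < C := lt_of_lt_of_le one_pos hC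
  refine ⟨1 / (4 * C), by positivity, ?_⟩
  intro j u v w w' σ τ hu hv hσ hτ h1 h2
  obtain ⟨q, q', hq, hq', hf⟩ := h1
  obtain ⟨q₁, q'', hq₁, hq'', hf'⟩ := h2
  have e1 : q₁ = q' := F.isHom_unique hq₁ hq'
  subst e1
  have hτ' : 2 * (C * ‖τ‖) ≤ 1 / 2 := by
    have := mul_le_mul_of_nonneg_left hτ hC0.le
    have h3 : C * (1 / (4 * C)) = 1 / 4 := by field_simp
    linarith
  have hσ' : 2 * (C * ‖σ‖) ≤ 1 / 2 := by
    have := mul_le_mul_of_nonneg_left hσ hC0.le
    have h3 : C * (1 / (4 * C)) = 1 / 4 := by field_simp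
    linarith
  -- the flow of `σ + τ`
  have hconv : ∀ s, Conv (F.Eτ j (σ + τ)) q 1 (F.Y j s) := by
    intro s
    unfold Conv
    refine Summable.of_nonneg_of_le (g := fun m => ‖tc (F.Eτ j (σ + τ)) q (F.Y j s) m‖ * ‖(1 : ℂ)‖ ^ m)
      (f := fun m => C * (1 / 2 : ℝ) ^ m) (fun m => by positivity) (fun m => ?_)
      (summable_geometric_two.mul_left C)
    rw [norm_one, one_pow, mul_one]
    unfold tc
    have h3 := H j u v q hq hu hv 0 (σ + τ) m 0 s
    simp only [Function.iterate_zero, id_eq, pow_zero, mul_one, add_zero] at h3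
    have hm : (0 : ℝ) < (m.factorial : ℝ) := by exact_mod_cast m.factorial_pos
    rw [norm_div, Complex.norm_natCast, div_le_iff₀ hm]
    refine h3.trans ?_
    refine mul_le_mul_of_nonneg_right ?_ hm.le
    have h4 : C * ‖σ + τ‖ ≤ 1 / 2 := by
      have := mul_le_mul_of_nonneg_left (norm_add_le σ τ) hC0.le
      linarith
    calc C ^ (m + 1) * ‖σ + τ‖ ^ m = C * (C * ‖σ + τ‖) ^ m := by ring
      _ ≤ C * (1 / 2 : ℝ) ^ m :=
        mul_le_mul_of_nonneg_left (pow_le_pow_left₀ (by positivity) h4 m) hC0.le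
  obtain ⟨q₃, hq₃⟩ := exists_isFlow (F.conv_of_gen hconv)
  have hbound : ∀ s m k, ‖q ((F.Eτ j τ)^[m] ((F.Eτ j σ)^[k] (F.Y j s))) /
      ((m.factorial : ℂ) * k.factorial)‖ ≤ C * ((1 / 2 : ℝ) ^ m * (1 / 2 : ℝ) ^ k) := by
    intro s m k
    have h3 := H j u v q hq hu hv σ τ m k s
    have hm : (0 : ℝ) < (m.factorial : ℝ) := by exact_mod_cast m.factorial_pos
    have hk : (0 : ℝ) < (k.factorial : ℝ) := by exact_mod_cast k.factorial_pos
    rw [norm_div, norm_mul, Complex.norm_natCast, Complex.norm_natCast,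
      div_le_iff₀ (mul_pos hm hk)]
    refine h3.trans ?_
    have h5 : ((m + k).factorial : ℝ) ≤ 2 ^ (m + k) * (m.factorial * k.factorial) := by
      have h6 := Nat.add_choose_mul_factorial_mul_factorial m k
      have h7 : (m + k).choose k ≤ 2 ^ (m + k) := Nat.choose_le_two_pow _ _
      have h8 : (m + k).factorial ≤ 2 ^ (m + k) * (m.factorial * k.factorial) := by
        rw [← h6, mul_assoc]
        exact Nat.mul_le_mul_right _ h7
      exact_mod_cast h8
    calc C ^ (m + k + 1) * ‖τ‖ ^ m * ‖σ‖ ^ k * ((m + k).factorial : ℝ)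
        ≤ C ^ (m + k + 1) * ‖τ‖ ^ m * ‖σ‖ ^ k * (2 ^ (m + k) * (m.factorial * k.factorial)) :=
          mul_le_mul_of_nonneg_left h5 (by positivity)
      _ = C * ((2 * (C * ‖τ‖)) ^ m * (2 * (C * ‖σ‖)) ^ k) * (m.factorial * k.factorial) := by
          ring
      _ ≤ C * ((1 / 2 : ℝ) ^ m * (1 / 2 : ℝ) ^ k) * (m.factorial * k.factorial) := by
          refine mul_le_mul_of_nonneg_right ?_ (by positivity)
          refine mul_le_mul_of_nonneg_left ?_ hC0.le
          exact mul_le_mul (pow_le_pow_left₀ (by positivity) hτ' m)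
            (pow_le_pow_left₀ (by positivity) hσ' k) (by positivity) (by positivity)
  have hkey : ∀ s, q₃ (F.Y j s) = q'' (F.Y j s) := by
    intro s
    rw [(hq₃ _).2, (hf' _).2]
    unfold ev
    have h3 : ∀ k, tc (F.Eτ j σ) q₁ (F.Y j s) k * 1 ^ k =
        ∑' m, q ((F.Eτ j τ)^[m] ((F.Eτ j σ)^[k] (F.Y j s))) /
          ((m.factorial : ℂ) * k.factorial) := by
      intro k
      rw [one_pow, mul_one]
      unfold tc
      rw [(hf _).2]
      unfold ev tc
      rw [← tsum_div_const]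
      refine tsum_congr fun m => ?_
      rw [one_pow, mul_one, div_div]
    rw [tsum_congr h3, double_series (hbound s)]
    refine tsum_congr fun r => ?_
    rw [one_pow, mul_one]
    unfold tc
    rw [F.iter_add, map_sum, Finset.sum_div]
    refine Finset.sum_congr rfl fun ij hij => ?_
    have hr : ij.1 + ij.2 = r := Finset.HasAntidiagonal.mem_antidiagonal.1 hij
    have h6 := Nat.add_choose_mul_factorial_mul_factorial ij.1 ij.2
    rw [← Nat.choose_symm_add, hr] at h6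
    have h7 : ((r.choose ij.1 : ℕ) : ℂ) * ij.1.factorial * ij.2.factorial = r.factorial := by
      exact_mod_cast h6
    have h8 : ((ij.1.factorial : ℕ) : ℂ) ≠ 0 := by exact_mod_cast ij.1.factorial_ne_zero
    have h9 : ((ij.2.factorial : ℕ) : ℂ) ≠ 0 := by exact_mod_cast ij.2.factorial_ne_zero
    have h10 : ((r.factorial : ℕ) : ℂ) ≠ 0 := by exact_mod_cast r.factorial_ne_zero
    rw [map_nsmul, nsmul_eq_mul, div_eq_div_iff h10 (mul_ne_zero h8 h9), ← h7]
    ring
  refine ⟨q, q₃, hq, fun s => ?_, hq₃⟩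
  rw [hkey]
  exact hq'' s

end Fam

end Pool.Agent.AbFib
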