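import Pool.Agent.Lib_MP_1209e6_ab.B1

/-! PIECE B5: independence of the chart. -/

set_option autoImplicit false

open Filter Topology

namespace Pool.Agent.AbFib

open Pool.Agent.CampanaFlow MvPolynomial

section gen

variable {A B : Type} [CommRing A] [Algebra ℂ A] [CommRing B] [Algebra ℂ B]
  {D : Derivation ℂ A A} {D' : Derivation ℂ B B} {ι : A →ₐ[ℂ] B} {q : A →ₐ[ℂ] ℂ} {Q : B →ₐ[ℂ] ℂ}

private theorem B5_tc (hι : ∀ f, D' (ι f) = ι (D f)) (hQ : ∀ f, Q (ι f) = q f) (f : A) (m : ℕ) :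
    tc D' Q (ι f) m = tc D q f m := by
  have h : D'^[m] (ι f) = ι (D^[m] f) := by
    induction m with
    | zero => rfl
    | succ m ih => rw [Function.iterate_succ_apply', Function.iterate_succ_apply', ih, hι]
  unfold tc
  rw [h, hQ]

private theorem B5_conv (hι : ∀ f, D' (ι f) = ι (D f)) (hQ : ∀ f, Q (ι f) = q f) {t : ℂ} {f : A}
    (h : Conv D q t f) : Conv D' Q t (ι f) := by
  unfold Conv at *
  simpa only [B5_tc hι hQ] using h

private theorem B5_ev (hι : ∀ f, D' (ι f) = ι (D f)) (hQ : ∀ f, Q (ι f) = q f) (t : ℂ) (f : A) :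
    ev D' Q t (ι f) = ev D q t f := by
  unfold ev
  simp only [B5_tc hι hQ]

end gen

namespace Fam

variable {K : Type} [Field K] [Algebra ℂ K] {n N g : ℕ} (F : Fam n N g K)

/-- `R j` with `y = x_j' / x_j` inverted -/
private def B5_S (j j' : Fin (N + 1)) : Subalgebra ℂ K where
  carrier := {s | ∃ (m : ℕ) (r : F.R j), (r : K) = s * (F.x j' / F.x j) ^ m}
  mul_mem' := by
    rintro a b ⟨m, r, hr⟩ ⟨m', r', hr'⟩
    refine ⟨m + m', r * r', ?_⟩
    change (r : K) * (r' : K) = _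
    rw [hr, hr']
    ring
  add_mem' := by
    rintro a b ⟨m, r, hr⟩ ⟨m', r', hr'⟩
    refine ⟨m + m', r * F.Y j (Sum.inr j') ^ m' + r' * F.Y j (Sum.inr j') ^ m, ?_⟩
    change (r : K) * (F.x j' / F.x j) ^ m' + (r' : K) * (F.x j' / F.x j) ^ m = _
    rw [hr, hr']
    ring
  algebraMap_mem' := fun c => ⟨0, algebraMap ℂ (F.R j) c, by
    rw [pow_zero, mul_one]
    rfl⟩

private theorem B5_le (j j' : Fin (N + 1)) : F.R j ≤ F.B5_S j j' := fun f hf =>
  ⟨0, ⟨f, hf⟩, by rw [pow_zero, mul_one]⟩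

private theorem B5_le' (j j' : Fin (N + 1)) : F.R j' ≤ F.B5_S j j' := by
  refine Algebra.adjoin_le ?_
  rintro _ ⟨s, rfl⟩
  cases s with
  | inl a =>
    exact F.B5_le j j' (F.Y j (Sum.inl a)).2
  | inr l =>
    refine ⟨1, F.Y j (Sum.inr l), ?_⟩
    change F.x l / F.x j = F.x l / F.x j' * (F.x j' / F.x j) ^ 1
    have h := F.x_ne j
    have h' := F.x_ne j'
    field_simp

private theorem B5_Eτ_coe (j : Fin (N + 1)) (τ : Fin g → ℂ) (f : F.R j) :
    ((F.Eτ j τ f : F.R j) : K) = ∑ i, τ i • F.E i f := by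
  rw [F.Eτ_apply]
  have h := map_sum (F.R j).val (fun i => τ i • F.ER j i f) Finset.univ
  exact h

/-- the derivation `∑ τ i • E i` of `K` -/
private noncomputable def B5_D (τ : Fin g → ℂ) : Derivation ℂ K K := ∑ i, τ i • F.E i

private theorem B5_D_apply (τ : Fin g → ℂ) (f : K) : F.B5_D τ f = ∑ i, τ i • F.E i f := by
  rw [B5_D, ← Derivation.coeFnAddMonoidHom_apply, map_sum, Finset.sum_apply]
  rfl

private theorem B5_D_mem (j j' : Fin (N + 1)) (τ : Fin g → ℂ) (s : F.B5_S j j') :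
    F.B5_D τ s ∈ F.B5_S j j' := by
  obtain ⟨s, m, r, hr⟩ := s
  have hr' : (r : K) = s * (F.x j' / F.x j) ^ m := hr
  refine ⟨m + 1, F.Y j (Sum.inr j') * F.Eτ j τ r -
    (m : F.R j) * (r * F.Eτ j τ (F.Y j (Sum.inr j'))), ?_⟩
  have hpow : (F.x j' / F.x j) * F.B5_D τ ((F.x j' / F.x j) ^ m) =
      m * (F.x j' / F.x j) ^ m * F.B5_D τ (F.x j' / F.x j) := by
    cases m with
    | zero => simp
    | succ m =>
      rw [Derivation.leibniz_pow, nsmul_eq_mul, smul_eq_mul, Nat.add_sub_cancel]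
      push_cast
      ring
  have hD : F.B5_D τ (r : K) = s * F.B5_D τ ((F.x j' / F.x j) ^ m) +
      (F.x j' / F.x j) ^ m * F.B5_D τ s := by
    rw [hr', Derivation.leibniz]
    rfl
  have e1 : ((F.Eτ j τ r : F.R j) : K) = F.B5_D τ (r : K) := by
    rw [B5_Eτ_coe, B5_D_apply]
  have e2 : ((F.Eτ j τ (F.Y j (Sum.inr j')) : F.R j) : K) = F.B5_D τ (F.x j' / F.x j) := by
    rw [B5_Eτ_coe, B5_D_apply]
    rfl
  have e3 : (((m : F.R j) : F.R j) : K) = m := by
    exact map_natCast (F.R j).val m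
  change (F.x j' / F.x j) * ((F.Eτ j τ r : F.R j) : K) -
    (((m : F.R j) : F.R j) : K) * ((r : K) * ((F.Eτ j τ (F.Y j (Sum.inr j')) : F.R j) : K)) =
      F.B5_D τ s * _
  rw [e1, e2, e3, hD]
  linear_combination s * hpow - m * F.B5_D τ (F.x j' / F.x j) * hr'

private noncomputable def B5_DS (j j' : Fin (N + 1)) (τ : Fin g → ℂ) :
    Derivation ℂ (F.B5_S j j') (F.B5_S j j') :=
  Derivation.mk'
    { toFun := fun f => ⟨F.B5_D τ f, F.B5_D_mem j j' τ f⟩
      map_add' := fun a b => Subtype.ext (by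
        change F.B5_D τ ((a : K) + b) = F.B5_D τ a + F.B5_D τ b
        rw [map_add])
      map_smul' := fun c a => Subtype.ext (by
        change F.B5_D τ (c • (a : K)) = c • F.B5_D τ a
        rw [Derivation.map_smul]) }
    fun a b => Subtype.ext (by
      change F.B5_D τ ((a : K) * b) = (a : K) • F.B5_D τ b + (b : K) • F.B5_D τ a
      rw [Derivation.leibniz])

/-- extension of `q` to `S` -/
private theorem B5_ext (j j' : Fin (N + 1)) (q : F.R j →ₐ[ℂ] ℂ)
    (hq : q (F.Y j (Sum.inr j')) ≠ 0) : ∃ Q : F.B5_S j j' →ₐ[ℂ] ℂ,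
      ∀ (s : F.B5_S j j') (k : ℕ) (r : F.R j), (r : K) = s * (F.x j' / F.x j) ^ k →
        Q s = q r / q (F.Y j (Sum.inr j')) ^ k := by
  have hS : ∀ s : F.B5_S j j', ∃ (m : ℕ) (r : F.R j), (r : K) = s * (F.x j' / F.x j) ^ m :=
    fun s => s.2
  choose m r hr using hS
  have key : ∀ (s : F.B5_S j j') (k : ℕ) (r' : F.R j), (r' : K) = s * (F.x j' / F.x j) ^ k →
      q (r s) / q (F.Y j (Sum.inr j')) ^ m s = q r' / q (F.Y j (Sum.inr j')) ^ k := by
    intro s k r' h
    rw [div_eq_div_iff (pow_ne_zero _ hq) (pow_ne_zero _ hq), ← map_pow, ← map_pow, ← map_mul,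
      ← map_mul]
    congr 1
    apply Subtype.ext
    change (r s : K) * (F.x j' / F.x j) ^ k = (r' : K) * (F.x j' / F.x j) ^ m s
    rw [hr s, h]
    ring
  refine ⟨AlgHom.mk (RingHom.mk (MonoidHom.mk (OneHom.mk
    (fun s => q (r s) / q (F.Y j (Sum.inr j')) ^ m s) ?_) ?_) ?_ ?_) ?_, key⟩
  · rw [key 1 0 1 (by rw [pow_zero, mul_one]; rfl), map_one, pow_zero, div_one]
  · intro s s'
    change q (r (s * s')) / q (F.Y j (Sum.inr j')) ^ m (s * s') =
      q (r s) / q (F.Y j (Sum.inr j')) ^ m s * (q (r s') / q (F.Y j (Sum.inr j')) ^ m s')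
    rw [key (s * s') (m s + m s') (r s * r s') (by
      change (r s : K) * (r s' : K) = (s : K) * (s' : K) * _
      rw [hr, hr]
      ring), map_mul, pow_add, mul_div_mul_comm]
  · change q (r 0) / q (F.Y j (Sum.inr j')) ^ m 0 = 0
    rw [key 0 0 0 (by rw [pow_zero, mul_one]; rfl), map_zero, zero_div]
  · intro s s'
    change q (r (s + s')) / q (F.Y j (Sum.inr j')) ^ m (s + s') =
      q (r s) / q (F.Y j (Sum.inr j')) ^ m s + q (r s') / q (F.Y j (Sum.inr j')) ^ m s'
    rw [key (s + s') (m s + m s') (r s * F.Y j (Sum.inr j') ^ m s' +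
      r s' * F.Y j (Sum.inr j') ^ m s) (by
      change (r s : K) * (F.x j' / F.x j) ^ m s' + (r s' : K) * (F.x j' / F.x j) ^ m s =
        ((s : K) + (s' : K)) * _
      rw [hr, hr]
      ring), map_add, map_mul, map_mul, map_pow, map_pow, pow_add, add_div,
      mul_div_mul_right _ _ (pow_ne_zero _ hq), mul_comm (q (r s')) _,
      mul_div_mul_left _ _ (pow_ne_zero _ hq)]
  · intro c
    change q (r (algebraMap ℂ _ c)) / q (F.Y j (Sum.inr j')) ^ m (algebraMap ℂ _ c) = c
    rw [key (algebraMap ℂ _ c) 0 (algebraMap ℂ _ c) (by rw [pow_zero, mul_one]; rfl), pow_zero,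
      div_one]
    exact q.commutes c

/-- Let `S ⊆ K` be the subalgebra generated by `R j` and `R j'`; it is preserved by `∑ τ i • E i`. As
`v j' ≠ 0` (because `pm v = pm v'` and `v' j' = 1`), there is a homomorphism `Q : S → ℂ` which extends the
evaluations `q` of `R j` at `(u, v)` and `q₂` of `R j'` at `(u, v')` (each element of `S` becomes an element
of `R j` after multiplication by a power of `y = x_j'/x_j ∈ R j`: define `Q s = q (s y^m) / q y ^ m`; or
define `Q` on polynomials in all the generators and check that it kills the relations). The Taylor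
coefficients of `f ∈ R j` at `q` in `R j` and at `Q` in `S` are the same. Let `y' = x_j/x_j' ∈ R j'`.
Both `y, y'` have convergent series in `S` and `y y' = 1`, so by `ev_mul`
`w j' * w' j = ev y * ev y' = ev 1 = 1`. For each `l`: `x_l/x_j = (x_l/x_j') y`, so
`w l = w' l * w j'`. Hence `w = (w j') • w'`. -/
theorem step_chart {j j' : Fin (N + 1)} {u : Fin n → ℂ} {τ : Fin g → ℂ}
    {v w v' w' : Fin (N + 1) → ℂ} (h : F.Step j u τ v w) (h' : F.Step j' u τ v' w')
    (hv : pm v = pm v') : pm w = pm w' := by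
  obtain ⟨q, q', h1, h2, h3⟩ := h
  obtain ⟨p, p', k1, k2, k3⟩ := h'
  obtain ⟨c, hc, hcv⟩ := pm_eq_iff.1 hv
  have hv'j : v' j' = 1 := (F.mem_of_isHom k1).2
  have hvj' : v j' = c := by
    rw [hcv]
    change c * v' j' = c
    rw [hv'j, mul_one]
  have hy0 : q (F.Y j (Sum.inr j')) ≠ 0 := by
    rw [h1 (Sum.inr j')]
    change v j' ≠ 0
    rw [hvj']
    exact hc
  obtain ⟨Q, hQ⟩ := F.B5_ext j j' q hy0
  let ι := Subalgebra.inclusion (F.B5_le j j')
  let ι' := Subalgebra.inclusion (F.B5_le' j j')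
  have hD : ∀ f, F.B5_DS j j' τ (ι f) = ι (F.Eτ j τ f) := fun f => Subtype.ext (by
    change F.B5_D τ (f : K) = ((F.Eτ j τ f : F.R j) : K)
    rw [B5_Eτ_coe, B5_D_apply])
  have hD' : ∀ f, F.B5_DS j j' τ (ι' f) = ι' (F.Eτ j' τ f) := fun f => Subtype.ext (by
    change F.B5_D τ (f : K) = ((F.Eτ j' τ f : F.R j') : K)
    rw [B5_Eτ_coe, B5_D_apply])
  have hQι : ∀ f, Q (ι f) = q f := fun f => by
    rw [hQ (ι f) 0 f (by rw [pow_zero, mul_one]; rfl), pow_zero, div_one]
  have hQι' : ∀ f, Q (ι' f) = p f := by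
    have hQp : Q.comp ι' = p := by
      refine F.isHom_unique (fun s => ?_) k1
      change Q (ι' (F.Y j' s)) = _
      cases s with
      | inl a =>
        rw [hQ (ι' (F.Y j' (Sum.inl a))) 0 (F.Y j (Sum.inl a)) (by rw [pow_zero, mul_one]; rfl),
          pow_zero, div_one, h1]
        rfl
      | inr l =>
        rw [hQ (ι' (F.Y j' (Sum.inr l))) 1 (F.Y j (Sum.inr l)) (by
          change F.x l / F.x j = F.x l / F.x j' * (F.x j' / F.x j) ^ 1
          have h := F.x_ne j
          have h' := F.x_ne j'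
          field_simp), pow_one, h1, h1]
        change v l / v j' = v' l
        rw [hvj', hcv]
        change c * v' l / c = v' l
        rw [mul_div_cancel_left₀ _ hc]
    intro f
    exact DFunLike.congr_fun hQp f
  have hmain : ∀ l, w l = w' l * w j' := by
    intro l
    have e1 : w l = ev (F.B5_DS j j' τ) Q 1 (ι (F.Y j (Sum.inr l))) := by
      rw [B5_ev hD hQι, ← (h3 _).2, h2]
      rfl
    have e2 : w j' = ev (F.B5_DS j j' τ) Q 1 (ι (F.Y j (Sum.inr j'))) := by
      rw [B5_ev hD hQι, ← (h3 _).2, h2]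
      rfl
    have e3 : w' l = ev (F.B5_DS j j' τ) Q 1 (ι' (F.Y j' (Sum.inr l))) := by
      rw [B5_ev hD' hQι', ← (k3 _).2, k2]
      rfl
    have e4 : ι (F.Y j (Sum.inr l)) = ι' (F.Y j' (Sum.inr l)) * ι (F.Y j (Sum.inr j')) :=
      Subtype.ext (by
        change F.x l / F.x j = F.x l / F.x j' * (F.x j' / F.x j)
        have h := F.x_ne j
        have h' := F.x_ne j'
        field_simp)
    rw [e1, e2, e3, e4]
    exact ev_mul (B5_conv hD' hQι' (k3 _).1) (B5_conv hD hQι (h3 _).1)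
  have hwj : w j = 1 := (F.mem_of_isHom h2).2
  have hw0 : w j' ≠ 0 := by
    intro h0
    have h4 := hmain j
    rw [h0, mul_zero, hwj] at h4
    exact one_ne_zero h4
  refine pm_eq_iff.2 ⟨w j', hw0, funext fun l => ?_⟩
  rw [hmain l, mul_comm]
  rfl

end Fam

end Pool.Agent.AbFib
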