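import Pool.Agent.Lib_MP_1209e6_ab.B3

/-! PIECE B6: one step depends continuously and holomorphically on all data. -/

set_option autoImplicit false

open Filter Topology

namespace Pool.Agent.AbFib

open Pool.Agent.CampanaFlow MvPolynomial

namespace Fam

variable {K : Type} [Field K] [Algebra ℂ K] {n N g : ℕ} (F : Fam n N g K)

/-- `f3_aeval` with `σ = (Fin n ⊕ Fin (N+1)) ⊕ Fin g`, `y = Sum.elim (F.Y j) (algebraMap (τ i))` and
`P = Sum.elim (Sum.elim 0 fun l => ∑ i, X (inr i) * rename inl (F.P i j l)) 0`: `Q m` is the `m`-th iterate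
of `mkDerivation ℂ P` applied to `X (inl s)`. -/
theorem poly_rep (j : Fin (N + 1)) (s : Fin n ⊕ Fin (N + 1)) (m : ℕ) :
    ∃ Q : MvPolynomial ((Fin n ⊕ Fin (N + 1)) ⊕ Fin g) ℂ, ∀ (u : Fin n → ℂ)
      (v : Fin (N + 1) → ℂ) (τ : Fin g → ℂ) (q : F.R j →ₐ[ℂ] ℂ), F.IsHom j u v q →
      q ((F.Eτ j τ)^[m] (F.Y j s)) = aeval (Sum.elim (Sum.elim u v) τ) Q := by
  classical
  set P : (Fin n ⊕ Fin (N + 1)) ⊕ Fin g → MvPolynomial ((Fin n ⊕ Fin (N + 1)) ⊕ Fin g) ℂ :=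
    Sum.elim (Sum.elim (fun _ => 0) fun l => ∑ i, X (Sum.inr i) * rename Sum.inl (F.P i j l))
      (fun _ => 0) with hP
  refine ⟨(MvPolynomial.mkDerivation ℂ P)^[m] (X (Sum.inl s)), ?_⟩
  intro u v τ q hq
  set y : (Fin n ⊕ Fin (N + 1)) ⊕ Fin g → F.R j :=
    Sum.elim (F.Y j) (fun i => algebraMap ℂ _ (τ i)) with hy
  have hren : ∀ p : MvPolynomial (Fin n ⊕ Fin (N + 1)) ℂ,
      aeval y (rename Sum.inl p) = aeval (F.Y j) p := by
    intro p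
    rw [aeval_rename]
    rfl
  have hD : ∀ s, F.Eτ j τ (y s) = aeval y (P s) := by
    rintro ((a | l) | i)
    · change F.Eτ j τ (F.Y j (Sum.inl a)) = aeval y 0
      rw [F.Eτ_Y_inl, map_zero]
    · change F.Eτ j τ (F.Y j (Sum.inr l)) =
        aeval y (∑ i, X (Sum.inr i) * rename Sum.inl (F.P i j l))
      rw [F.Eτ_apply, map_sum]
      refine Finset.sum_congr rfl fun i _ => ?_
      rw [map_mul, hren, aeval_X, F.ER_Y, Algebra.smul_def]
      rfl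
    · change F.Eτ j τ (algebraMap ℂ _ (τ i)) = aeval y 0
      rw [Derivation.map_algebraMap, map_zero]
  have hit : ∀ m : ℕ, (F.Eτ j τ)^[m] (F.Y j s) =
      aeval y ((MvPolynomial.mkDerivation ℂ P)^[m] (X (Sum.inl s))) := by
    intro m
    induction m with
    | zero =>
      rw [Function.iterate_zero, Function.iterate_zero, id, id, aeval_X]
      rfl
    | succ m ih =>
      rw [Function.iterate_succ_apply', ih, Function.iterate_succ_apply',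
        f3_aeval y (F.Eτ j τ) P hD]
  rw [hit m, comp_aeval_apply]
  congr 2
  funext s'
  rcases s' with s' | i
  · exact hq s'
  · change q (algebraMap ℂ _ (τ i)) = τ i
    rw [AlgHom.commutes]
    rfl

/-- the data of a step as the sum of a series of polynomials in all data -/
private theorem step_series (M : ℝ) (j : Fin (N + 1)) :
    ∃ (Q : Fin (N + 1) → ℕ → MvPolynomial ((Fin n ⊕ Fin (N + 1)) ⊕ Fin g) ℂ),
      (∀ (u : Fin n → ℂ) (v w : Fin (N + 1) → ℂ) (τ : Fin g → ℂ), F.Step j u τ v w → ∀ l,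
        w l = ∑' m, aeval (Sum.elim (Sum.elim u v) τ) (Q l m) / m.factorial) ∧
      ∀ (u : Fin n → ℂ) (v : Fin (N + 1) → ℂ) (τ : Fin g → ℂ) (C : ℝ), 0 < C →
        (∀ (u : Fin n → ℂ)
          (v : Fin (N + 1) → ℂ) (q : F.R j →ₐ[ℂ] ℂ), F.IsHom j u v q → ‖u‖ ≤ M → ‖v‖ ≤ M →
          ∀ (σ τ : Fin g → ℂ) (m k : ℕ) (s : Fin n ⊕ Fin (N + 1)),
            ‖q ((F.Eτ j τ)^[m] ((F.Eτ j σ)^[k] (F.Y j s)))‖ ≤
              C ^ (m + k + 1) * ‖τ‖ ^ m * ‖σ‖ ^ k * (m + k).factorial) →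
        v ∈ F.fib u → v j = 1 → ‖u‖ ≤ M → ‖v‖ ≤ M → C * ‖τ‖ ≤ 1 / 2 → ∀ l m,
        ‖aeval (Sum.elim (Sum.elim u v) τ) (Q l m) / (m.factorial : ℂ)‖ ≤ C * (1 / 2) ^ m := by
  choose Q hQ using fun l => F.poly_rep j (Sum.inr l)
  refine ⟨Q, ?_, ?_⟩
  · rintro u v w τ ⟨q, q', hq, hq', hf⟩ l
    have h1 := hq' (Sum.inr l)
    rw [(hf _).2] at h1
    change _ = w l at h1
    rw [← h1, ev]
    refine tsum_congr fun m => ?_
    rw [one_pow, mul_one, tc, hQ l m u v τ q hq]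
  · intro u v τ C hC0 hC hv hj hu hv' hτ l m
    obtain ⟨q, hq⟩ := F.exists_isHom hv hj
    have h := hC u v q hq hu hv' 0 τ m 0 (Sum.inr l)
    rw [pow_zero, mul_one, Nat.add_zero m, Function.iterate_zero, id, hQ l m u v τ q hq] at h
    have hf : (0 : ℝ) < m.factorial := Nat.cast_pos.2 m.factorial_pos
    rw [norm_div, Complex.norm_natCast, div_le_iff₀ hf]
    refine h.trans ?_
    apply mul_le_mul_of_nonneg_right _ hf.le
    calc C ^ (m + 1) * ‖τ‖ ^ m = C * (C * ‖τ‖) ^ m := by rw [mul_pow]; ring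
      _ ≤ C * (1 / 2) ^ m := by gcongr

private theorem summ (C : ℝ) : Summable fun m : ℕ => C * (1 / 2 : ℝ) ^ m :=
  (summable_geometric_of_lt_one (by norm_num) (by norm_num)).mul_left C

private theorem tendsto_all {α : Type} {f : Filter α} {u : α → Fin n → ℂ} {τ : α → Fin g → ℂ}
    {v : α → Fin (N + 1) → ℂ} {u₀ : Fin n → ℂ} {τ₀ : Fin g → ℂ} {v₀ : Fin (N + 1) → ℂ}
    (hu : Tendsto u f (𝓝 u₀)) (hτ : Tendsto τ f (𝓝 τ₀)) (hv : Tendsto v f (𝓝 v₀)) :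
    Tendsto (fun a => (Sum.elim (Sum.elim (u a) (v a)) (τ a) :
      (Fin n ⊕ Fin (N + 1)) ⊕ Fin g → ℂ)) f (𝓝 (Sum.elim (Sum.elim u₀ v₀) τ₀)) := by
  rw [tendsto_pi_nhds] at hu hτ hv ⊢
  rintro ((a | l) | i)
  · exact hu a
  · exact hv l
  · exact hτ i

/-- The coordinates of the result of the step are
`w l = ∑_m aeval (u, v, τ) (Q m) / m!` with `‖term m‖ ≤ C (C ρ)^m ≤ C 2^-m` (`grow_two` for a bound `M + 1`
slightly larger than `M`, `poly_rep`): `tendsto_tsum_of_dominated_convergence` (the bounds hold eventually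
along `f` as `‖u a‖ < M + 1`, …). `w a` is chosen by `exists_step` for the eventually true hypotheses
(and arbitrary otherwise). -/
theorem step_lim (M : ℝ) : ∃ ρ : ℝ, 0 < ρ ∧ ∀ (j : Fin (N + 1)) {α : Type} (f : Filter α)
    (u : α → Fin n → ℂ) (τ : α → Fin g → ℂ) (v : α → Fin (N + 1) → ℂ) (u₀ : Fin n → ℂ)
    (τ₀ : Fin g → ℂ) (v₀ : Fin (N + 1) → ℂ), Tendsto u f (𝓝 u₀) → Tendsto τ f (𝓝 τ₀) →
    Tendsto v f (𝓝 v₀) → (∀ᶠ a in f, v a ∈ F.fib (u a) ∧ v a j = 1) → v₀ ∈ F.fib u₀ → v₀ j = 1 →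
    ‖u₀‖ ≤ M → ‖v₀‖ ≤ M → ‖τ₀‖ ≤ ρ →
    ∃ (w : α → Fin (N + 1) → ℂ) (w₀ : Fin (N + 1) → ℂ), Tendsto w f (𝓝 w₀) ∧
      F.Step j u₀ τ₀ v₀ w₀ ∧ ∀ᶠ a in f, F.Step j (u a) (τ a) (v a) (w a) := by
  classical
  obtain ⟨C, hC1, hC⟩ := F.grow_two (M + 1)
  obtain ⟨ρ₀, C₀, hρ₀, -, hst⟩ := F.exists_step (M + 1)
  have hC0 : 0 < C := by linarith
  refine ⟨min (ρ₀ / 2) (1 / (4 * C)), lt_min (by positivity) (by positivity), ?_⟩
  intro j α f u τ v u₀ τ₀ v₀ hu hτ hv hmem hv₀ hj₀ hu₀ hv₀' hτ₀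
  obtain ⟨Q, hQ1, hQ2⟩ := F.step_series (M + 1) j
  have hτ1 : ‖τ₀‖ < ρ₀ := lt_of_le_of_lt (hτ₀.trans (min_le_left _ _)) (by linarith)
  have hτ2 : ‖τ₀‖ < 1 / (2 * C) := by
    refine lt_of_le_of_lt (hτ₀.trans (min_le_right _ _)) ?_
    apply one_div_lt_one_div_of_lt (by positivity)
    linarith
  have hmul : ∀ x : ℝ, x < 1 / (2 * C) → C * x ≤ 1 / 2 := by
    intro x hx
    have h1 : C * x ≤ C * (1 / (2 * C)) := mul_le_mul_of_nonneg_left hx.le hC0.le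
    have h2 : C * (1 / (2 * C)) = 1 / 2 := by field_simp
    linarith
  obtain ⟨w₀, hw₀, -, -, -⟩ := hst j u₀ v₀ τ₀ (by linarith) (by linarith) hv₀ hj₀ hτ1.le
  have e1 : ∀ᶠ a in f, ‖u a‖ < M + 1 := hu.norm.eventually_lt_const (by linarith)
  have e2 : ∀ᶠ a in f, ‖v a‖ < M + 1 := hv.norm.eventually_lt_const (by linarith)
  have e3 : ∀ᶠ a in f, ‖τ a‖ < ρ₀ := hτ.norm.eventually_lt_const hτ1
  have e4 : ∀ᶠ a in f, ‖τ a‖ < 1 / (2 * C) := hτ.norm.eventually_lt_const hτ2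
  have hex : ∀ᶠ a in f, ∃ w, F.Step j (u a) (τ a) (v a) w := by
    filter_upwards [e1, e2, e3, hmem] with a h1 h2 h3 h4
    obtain ⟨w, hw, -⟩ := hst j (u a) (v a) (τ a) h1.le h2.le h4.1 h4.2 h3.le
    exact ⟨w, hw⟩
  set w : α → Fin (N + 1) → ℂ := fun a =>
    if h : ∃ w, F.Step j (u a) (τ a) (v a) w then h.choose else 0 with hw
  have hstep : ∀ᶠ a in f, F.Step j (u a) (τ a) (v a) (w a) := by
    filter_upwards [hex] with a ha
    rw [hw]
    simp only [dif_pos ha]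
    exact ha.choose_spec
  refine ⟨w, w₀, ?_, hw₀, hstep⟩
  rw [tendsto_pi_nhds]
  intro l
  have hlim : Tendsto (fun a => ∑' m, aeval (Sum.elim (Sum.elim (u a) (v a)) (τ a)) (Q l m) /
      (m.factorial : ℂ)) f (𝓝 (∑' m, aeval (Sum.elim (Sum.elim u₀ v₀) τ₀) (Q l m) /
      (m.factorial : ℂ))) := by
    refine tendsto_tsum_of_dominated_convergence (summ C) (fun m => ?_) ?_
    · apply Tendsto.div_const
      have h1 := (MvPolynomial.continuous_eval (Q l m)).tendsto (Sum.elim (Sum.elim u₀ v₀) τ₀)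
      exact h1.comp (tendsto_all hu hτ hv)
    · filter_upwards [e1, e2, e4, hmem] with a h1 h2 h3 h4 m
      exact hQ2 (u a) (v a) (τ a) C hC0 (hC j) h4.1 h4.2 h1.le h2.le (hmul _ h3) l m
  rw [hQ1 u₀ v₀ w₀ τ₀ hw₀ l]
  refine hlim.congr' ?_
  filter_upwards [hstep] with a ha
  exact (hQ1 (u a) (v a) (w a) (τ a) ha l).symm

/-- As for `step_lim`: near `z` the functions `w l` are sums of series of analytic functions of `y` which
converge uniformly (`differentiableOn_tsum_of_summable_norm` on a small ball around `z`,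
`DifferentiableOn.analyticAt`; an analytic function of `y` composed into a polynomial is analytic:
`AnalyticAt.aeval_mvPolynomial`). -/
theorem step_hol (M : ℝ) : ∃ ρ : ℝ, 0 < ρ ∧ ∀ (j : Fin (N + 1)) (u : ℂ → Fin n → ℂ)
    (τ : ℂ → Fin g → ℂ) (v : ℂ → Fin (N + 1) → ℂ) (z : ℂ), AnalyticAt ℂ u z → AnalyticAt ℂ τ z →
    AnalyticAt ℂ v z → (∀ᶠ y in 𝓝 z, v y ∈ F.fib (u y) ∧ v y j = 1) → ‖u z‖ ≤ M → ‖v z‖ ≤ M →
    ‖τ z‖ ≤ ρ →
    ∃ w : ℂ → Fin (N + 1) → ℂ, AnalyticAt ℂ w z ∧ ∀ᶠ y in 𝓝 z, F.Step j (u y) (τ y) (v y) (w y) := by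
  classical
  obtain ⟨C, hC1, hC⟩ := F.grow_two (M + 1)
  obtain ⟨ρ₀, C₀, hρ₀, -, hst⟩ := F.exists_step (M + 1)
  have hC0 : 0 < C := by linarith
  refine ⟨min (ρ₀ / 2) (1 / (4 * C)), lt_min (by positivity) (by positivity), ?_⟩
  intro j u τ v z hu hτ hv hmem hu₀ hv₀' hτ₀
  obtain ⟨Q, hQ1, hQ2⟩ := F.step_series (M + 1) j
  have hτ1 : ‖τ z‖ < ρ₀ := lt_of_le_of_lt (hτ₀.trans (min_le_left _ _)) (by linarith)
  have hτ2 : ‖τ z‖ < 1 / (2 * C) := by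
    refine lt_of_le_of_lt (hτ₀.trans (min_le_right _ _)) ?_
    apply one_div_lt_one_div_of_lt (by positivity)
    linarith
  have hmul : ∀ x : ℝ, x < 1 / (2 * C) → C * x ≤ 1 / 2 := by
    intro x hx
    have h1 : C * x ≤ C * (1 / (2 * C)) := mul_le_mul_of_nonneg_left hx.le hC0.le
    have h2 : C * (1 / (2 * C)) = 1 / 2 := by field_simp
    linarith
  have e1 : ∀ᶠ a in 𝓝 z, ‖u a‖ < M + 1 :=
    hu.continuousAt.norm.eventually_lt_const (by linarith)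
  have e2 : ∀ᶠ a in 𝓝 z, ‖v a‖ < M + 1 :=
    hv.continuousAt.norm.eventually_lt_const (by linarith)
  have e3 : ∀ᶠ a in 𝓝 z, ‖τ a‖ < ρ₀ := hτ.continuousAt.norm.eventually_lt_const hτ1
  have e4 : ∀ᶠ a in 𝓝 z, ‖τ a‖ < 1 / (2 * C) := hτ.continuousAt.norm.eventually_lt_const hτ2
  have hex : ∀ᶠ a in 𝓝 z, ∃ w, F.Step j (u a) (τ a) (v a) w := by
    filter_upwards [e1, e2, e3, hmem] with a h1 h2 h3 h4
    obtain ⟨w, hw, -⟩ := hst j (u a) (v a) (τ a) h1.le h2.le h4.1 h4.2 h3.le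
    exact ⟨w, hw⟩
  set w : ℂ → Fin (N + 1) → ℂ := fun a =>
    if h : ∃ w, F.Step j (u a) (τ a) (v a) w then h.choose else 0 with hw
  have hstep : ∀ᶠ a in 𝓝 z, F.Step j (u a) (τ a) (v a) (w a) := by
    filter_upwards [hex] with a ha
    rw [hw]
    simp only [dif_pos ha]
    exact ha.choose_spec
  refine ⟨w, ?_, hstep⟩
  rw [analyticAt_pi_iff]
  intro l
  have hall : ∀ᶠ a in 𝓝 z, AnalyticAt ℂ u a ∧ AnalyticAt ℂ τ a ∧ AnalyticAt ℂ v a ∧
      ‖u a‖ < M + 1 ∧ ‖v a‖ < M + 1 ∧ ‖τ a‖ < 1 / (2 * C) ∧ v a ∈ F.fib (u a) ∧ v a j = 1 := by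
    filter_upwards [hu.eventually_analyticAt, hτ.eventually_analyticAt, hv.eventually_analyticAt,
      e1, e2, e4, hmem] with a h1 h2 h3 h4 h5 h6 h7
    exact ⟨h1, h2, h3, h4, h5, h6, h7⟩
  obtain ⟨U, hU, hUo, hzU⟩ := eventually_nhds_iff.1 hall
  have hdiff : DifferentiableOn ℂ (fun a => ∑' m, aeval (Sum.elim (Sum.elim (u a) (v a)) (τ a))
      (Q l m) / (m.factorial : ℂ)) U := by
    refine Complex.differentiableOn_tsum_of_summable_norm (summ C) (fun m => ?_) hUo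
      (fun m a ha => ?_)
    · intro a ha
      obtain ⟨h1, h2, h3, -⟩ := hU a ha
      have h4 : AnalyticAt ℂ (fun a => aeval (Sum.elim (Sum.elim (u a) (v a)) (τ a)) (Q l m)) a := by
        refine AnalyticAt.aeval_mvPolynomial
          (f := fun a => (Sum.elim (Sum.elim (u a) (v a)) (τ a) :
            (Fin n ⊕ Fin (N + 1)) ⊕ Fin g → ℂ)) ?_ (Q l m)
        rintro ((b | l') | i)
        · exact analyticAt_pi_iff.1 h1 b
        · exact analyticAt_pi_iff.1 h3 l'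
        · exact analyticAt_pi_iff.1 h2 i
      exact (h4.differentiableAt.div_const _).differentiableWithinAt
    · obtain ⟨-, -, -, h4, h5, h6, h7, h8⟩ := hU a ha
      exact hQ2 (u a) (v a) (τ a) C hC0 (hC j) h7 h8 h4.le h5.le (hmul _ h6) l m
  refine (hdiff.analyticAt (hUo.mem_nhds hzU)).congr ?_
  filter_upwards [hstep] with a ha
  exact (hQ1 (u a) (v a) (w a) (τ a) ha l).symm

end Fam

end Pool.Agent.AbFib
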