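import Mathlib

/-! PIECE B7: extension of a local action of `ℂ^g` to an action. -/

set_option autoImplicit false

namespace Pool.Agent.AbFib

/-- For `‖τ‖ ≤ ρ` let `e τ : S → S` be the map given by `St τ` (`hex`, `hfun`). `e 0 = id`,
`e (σ + τ) = e σ ∘ e τ` if `‖σ‖, ‖τ‖, ‖σ + τ‖ ≤ ρ` (`hadd`, `hfun`), so `e σ, e τ` commute for
`‖σ‖, ‖τ‖ ≤ ρ / 2`. If `‖τ‖ ≤ ρ` and `k ≥ 1` then `(e (τ/k))^[k] = e τ` (`(e (τ/k))^[i] = e ((i/k) τ)` by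
induction on `i ≤ k`). For any `τ` and `m ≥ 1` with `‖τ‖ / m ≤ ρ / 2` put `Φ τ = (e (τ/m))^[m]`; it does not
depend on `m` (compare `m` and `m'` with `m m'`). `Φ (σ + τ) = (e ((σ+τ)/m))^[m] = (e (σ/m) ∘ e (τ/m))^[m] =
(e (σ/m))^[m] ∘ (e (τ/m))^[m]` (`Function.Commute.comp_iterate`). Outside `S` put `Φ τ p = p`. -/
theorem extend_action {g : ℕ} {α : Type} (S : Set α) (St : (Fin g → ℂ) → α → α → Prop) (ρ : ℝ)
    (hρ : 0 < ρ) (hfun : ∀ τ p p' p'', p ∈ S → St τ p p' → St τ p p'' → p' = p'')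
    (hex : ∀ τ p, ‖τ‖ ≤ ρ → p ∈ S → ∃ p' ∈ S, St τ p p') (hzero : ∀ p ∈ S, St 0 p p)
    (hadd : ∀ σ τ p p' p'', ‖σ‖ ≤ ρ → ‖τ‖ ≤ ρ → p ∈ S → St τ p p' → St σ p' p'' →
      St (σ + τ) p p'') :
    ∃ Φ : (Fin g → ℂ) → α → α, (∀ τ, ∀ p ∈ S, Φ τ p ∈ S) ∧ (∀ p ∈ S, Φ 0 p = p) ∧
      (∀ σ τ, ∀ p ∈ S, Φ (σ + τ) p = Φ σ (Φ τ p)) ∧
      ∀ τ p p', ‖τ‖ ≤ ρ → p ∈ S → St τ p p' → Φ τ p = p' := by
  classical
  have hex' : ∀ (τ : Fin g → ℂ), ∃ e : S → S, ‖τ‖ ≤ ρ → ∀ p : S, St τ p (e p) := by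
    intro τ
    by_cases h : ‖τ‖ ≤ ρ
    · choose f hf using fun p : S => hex τ p h p.2
      exact ⟨fun p => ⟨f p, (hf p).1⟩, fun _ p => (hf p).2⟩
    · exact ⟨id, fun h' => absurd h' h⟩
  choose e he using hex'
  have e_uniq : ∀ τ, ‖τ‖ ≤ ρ → ∀ (p : S) (p' : α), St τ p p' → (e τ p : α) = p' := fun τ h p p' h' =>
    hfun τ p _ _ p.2 (he τ h p) h'
  have e_zero : e 0 = id := by
    funext p
    exact Subtype.ext (e_uniq 0 (by simpa using hρ.le) p p (hzero p p.2))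
  have e_add : ∀ σ τ, ‖σ‖ ≤ ρ → ‖τ‖ ≤ ρ → ‖σ + τ‖ ≤ ρ → e (σ + τ) = e σ ∘ e τ := by
    intro σ τ h1 h2 h3
    funext p
    exact Subtype.ext (e_uniq _ h3 p _ (hadd σ τ p _ _ h1 h2 p.2 (he τ h2 p) (he σ h1 (e τ p))))
  -- iterates
  have e_iter : ∀ τ (k : ℕ), ‖τ‖ ≤ ρ → 0 < k → ∀ i ≤ k,
      (e ((k : ℂ)⁻¹ • τ))^[i] = e (((i : ℂ) * (k : ℂ)⁻¹) • τ) := by
    intro τ k hτ hk i
    induction i with
    | zero => intro _; simp [e_zero]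
    | succ i ih =>
      intro hi
      have hk' : (0 : ℝ) < k := by exact_mod_cast hk
      rw [Function.iterate_succ', ih (by omega)]
      have hb : ∀ j : ℕ, j ≤ k → ‖((j : ℂ) * (k : ℂ)⁻¹) • τ‖ ≤ ρ := by
        intro j hj
        rw [norm_smul, norm_mul, norm_inv, Complex.norm_natCast, Complex.norm_natCast]
        have : (j : ℝ) * (k : ℝ)⁻¹ ≤ 1 := by
          rw [← div_eq_mul_inv, div_le_one hk']
          exact_mod_cast hj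
        calc (j : ℝ) * (k : ℝ)⁻¹ * ‖τ‖ ≤ 1 * ‖τ‖ := by gcongr
          _ ≤ ρ := by rw [one_mul]; exact hτ
      have h1 : ‖(k : ℂ)⁻¹ • τ‖ ≤ ρ := by
        have := hb 1 hk
        simpa using this
      have hs : (k : ℂ)⁻¹ • τ + ((i : ℂ) * (k : ℂ)⁻¹) • τ = (((i + 1 : ℕ) : ℂ) * (k : ℂ)⁻¹) • τ := by
        rw [← add_smul]; congr 1; push_cast; ring
      rw [← hs, e_add _ _ h1 (hb i (by omega)) (by rw [hs]; exact hb _ hi)]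
  have e_iter' : ∀ τ (k : ℕ), ‖τ‖ ≤ ρ → 0 < k → (e ((k : ℂ)⁻¹ • τ))^[k] = e τ := by
    intro τ k h hk
    rw [e_iter τ k h hk k le_rfl, mul_inv_cancel₀ (by exact_mod_cast hk.ne'), one_smul]
  -- the maps Ψ
  have norm_le : ∀ (τ : Fin g → ℂ) (m : ℕ) (r : ℝ), 0 < m → ‖τ‖ ≤ m * r → ‖(m : ℂ)⁻¹ • τ‖ ≤ r := by
    intro τ m r hm h
    have hm' : (0 : ℝ) < m := by exact_mod_cast hm
    rw [norm_smul, norm_inv, Complex.norm_natCast, inv_mul_le_iff₀ hm']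
    exact h
  have Ψ_mul : ∀ τ (m k : ℕ), 0 < m → 0 < k → ‖τ‖ ≤ m * ρ →
      (e ((m : ℂ)⁻¹ • τ))^[m] = (e (((m * k : ℕ) : ℂ)⁻¹ • τ))^[m * k] := by
    intro τ m k hm hk h
    rw [← e_iter' _ k (norm_le τ m ρ hm h) hk, ← Function.iterate_mul, smul_smul, mul_comm k m]
    congr 3
    push_cast
    rw [mul_inv, mul_comm]
  have Ψ_eq : ∀ τ (m m' : ℕ), 0 < m → 0 < m' → ‖τ‖ ≤ m * ρ → ‖τ‖ ≤ m' * ρ →
      (e ((m : ℂ)⁻¹ • τ))^[m] = (e ((m' : ℂ)⁻¹ • τ))^[m'] := by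
    intro τ m m' hm hm' h h'
    rw [Ψ_mul τ m m' hm hm' h, Ψ_mul τ m' m hm' hm h', mul_comm m m']
  have hN : ∀ τ : Fin g → ℂ, ∃ m : ℕ, 0 < m ∧ ‖τ‖ ≤ m * (ρ / 2) := by
    intro τ
    obtain ⟨m, hm⟩ := exists_nat_gt (‖τ‖ / (ρ / 2))
    refine ⟨m + 1, Nat.succ_pos _, ?_⟩
    rw [div_lt_iff₀ (by positivity)] at hm
    push_cast
    nlinarith
  choose N hN0 hN1 using hN
  set Ψ : (Fin g → ℂ) → S → S := fun τ => (e ((N τ : ℂ)⁻¹ • τ))^[N τ] with hΨ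
  have Ψ_spec : ∀ τ (m : ℕ), 0 < m → ‖τ‖ ≤ m * ρ → Ψ τ = (e ((m : ℂ)⁻¹ • τ))^[m] := by
    intro τ m hm h
    apply Ψ_eq τ (N τ) m (hN0 τ) hm _ h
    have := hN1 τ
    have h0 : (0 : ℝ) < N τ := by exact_mod_cast hN0 τ
    nlinarith
  have Ψ_small : ∀ τ, ‖τ‖ ≤ ρ → Ψ τ = e τ := by
    intro τ h
    rw [Ψ_spec τ 1 one_pos (by simpa using h)]
    simp
  have Ψ_add : ∀ σ τ, Ψ (σ + τ) = Ψ σ ∘ Ψ τ := by
    intro σ τ
    set m : ℕ := N σ * N τ with hm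
    have h1 : (1 : ℝ) ≤ N σ := by exact_mod_cast hN0 σ
    have h2 : (1 : ℝ) ≤ N τ := by exact_mod_cast hN0 τ
    have hm0 : 0 < m := Nat.mul_pos (hN0 σ) (hN0 τ)
    have hσ : ‖σ‖ ≤ m * (ρ / 2) := by
      refine (hN1 σ).trans ?_
      rw [hm]; push_cast
      have : (N σ : ℝ) ≤ N σ * N τ := by nlinarith
      gcongr
    have hτ : ‖τ‖ ≤ m * (ρ / 2) := by
      refine (hN1 τ).trans ?_
      rw [hm]; push_cast
      have : (N τ : ℝ) ≤ N σ * N τ := by nlinarith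
      gcongr
    have hst : ‖σ + τ‖ ≤ m * ρ := by
      have := norm_add_le σ τ
      linarith
    have hmr : (0 : ℝ) < m := by exact_mod_cast hm0
    have hσ' : ‖σ‖ ≤ m * ρ := by nlinarith
    have hτ' : ‖τ‖ ≤ m * ρ := by nlinarith
    rw [Ψ_spec _ m hm0 hst, Ψ_spec _ m hm0 hσ', Ψ_spec _ m hm0 hτ']
    have b1 := norm_le σ m ρ hm0 hσ'
    have b2 := norm_le τ m ρ hm0 hτ'
    have b3 := norm_le (σ + τ) m ρ hm0 hst
    rw [smul_add] at b3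
    have c1 := e_add _ _ b1 b2 b3
    have c2 := e_add _ _ b2 b1 (by rw [add_comm]; exact b3)
    rw [smul_add, c1]
    apply Function.Commute.comp_iterate
    intro p
    have := congrFun (c1.symm.trans ((congrArg e (add_comm _ _)).trans c2)) p
    exact this
  refine ⟨fun τ p => if h : p ∈ S then (Ψ τ ⟨p, h⟩ : α) else p, ?_, ?_, ?_, ?_⟩
  · intro τ p hp
    simp only [hp, dif_pos]
    exact (Ψ τ ⟨p, hp⟩).2
  · intro p hp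
    simp only [hp, dif_pos]
    rw [Ψ_small 0 (by simpa using hρ.le), e_zero]
    rfl
  · intro σ τ p hp
    simp only [hp, dif_pos]
    have h2 : (Ψ τ ⟨p, hp⟩ : α) ∈ S := (Ψ τ ⟨p, hp⟩).2
    simp only [h2, dif_pos]
    rw [Ψ_add]
    rfl
  · intro τ p p' hτ hp h
    simp only [hp, dif_pos]
    rw [Ψ_small τ hτ]
    exact e_uniq τ hτ ⟨p, hp⟩ p' h

end Pool.Agent.AbFib
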