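import Pool.Agent.Lib_MP_1209e6_ab.B4
import Pool.Agent.Lib_MP_1209e6_ab.B5
import Pool.Agent.Lib_MP_1209e6_ab.B6
import Pool.Agent.Lib_MP_1209e6_ab.B7

/-! PIECE B8: the action of `ℂ^g` on all fibres. -/

set_option autoImplicit false

open Filter Topology

namespace Pool.Agent.AbFib

open Pool.Agent.CampanaFlow MvPolynomial

namespace Fam

variable {K : Type} [Field K] [Algebra ℂ K] {n N g : ℕ} (F : Fam n N g K)

/-- `p'` is the image of the point `p` under one step in some chart -/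
def PStep (u : Fin n → ℂ) (τ : Fin g → ℂ) (p p' : PS N) : Prop :=
  ∃ j v w, p = pm v ∧ p' = pm w ∧ F.Step j u τ v w

/-- From `step_chart`. -/
theorem PStep.unique {u : Fin n → ℂ} {τ : Fin g → ℂ} {p p' p'' : PS N} (h : F.PStep u τ p p')
    (h' : F.PStep u τ p p'') : p' = p'' := by
  obtain ⟨j, v, w, h1, h2, h3⟩ := h
  obtain ⟨j', v', w', k1, k2, k3⟩ := h'
  rw [h2, k2]
  exact F.step_chart h3 k3 (h1.symm.trans k1)

/-- A point of the fibre has a representative `v` with `v j = 1`, `‖v‖ ≤ 1` for some chart `j` (the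
largest coordinate). -/
theorem exists_chart {u : Fin n → ℂ} {p : PS N} (h : p ∈ F.Pts u) :
    ∃ j v, p = pm v ∧ v ∈ F.fib u ∧ v j = 1 ∧ ‖v‖ ≤ 1 := by
  obtain ⟨v, hv, rfl⟩ := h
  obtain ⟨j, hj⟩ := Finite.exists_max fun l => ‖v l‖
  have hv0 : v ≠ 0 := hv.1
  have hj0 : v j ≠ 0 := by
    intro h0
    apply hv0
    funext l
    have h1 := hj l
    rw [h0, norm_zero] at h1
    exact norm_le_zero_iff.1 h1
  have hi : (v j)⁻¹ ≠ 0 := inv_ne_zero hj0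
  refine ⟨j, (v j)⁻¹ • v, (pm_smul hi v).symm, F.fib_smul hi hv, ?_, ?_⟩
  · rw [Pi.smul_apply, smul_eq_mul, inv_mul_cancel₀ hj0]
  · refine (pi_norm_le_iff_of_nonneg zero_le_one).2 fun l => ?_
    rw [Pi.smul_apply, norm_smul, norm_inv]
    have h2 : 0 < ‖v j‖ := norm_pos_iff.2 hj0
    rw [inv_mul_le_iff₀ h2, mul_one]
    exact hj l

/-- There is `ρ : ℝ → ℝ`, positive and antitone, such that for `‖u‖ ≤ M` steps of time `‖τ‖ ≤ ρ M` exist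
from all points of the fibre and add. Proof: from `exists_step` and `step_add` for the bound
`max M 2` one gets some `ρ₀ M > 0`; put `ρ M = inf_{k ≤ ⌈M⌉₊} ρ₀ k` (a minimum over finitely many `k`;
`‖u‖ ≤ M ≤ ⌈M⌉₊`). For `add`: by `exists_chart` and `exists_step` represent `p = pm v`, `‖v‖ ≤ 1`, and the
step `v → w` in the chart `j` with `‖w‖ ≤ 2`; then the step `w → w'` in the same chart exists, its class is
`p''` by `PStep.unique`, and `step_add`. -/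
theorem exists_radius : ∃ ρ : ℝ → ℝ, Antitone ρ ∧ (∀ M, 0 < ρ M) ∧ ∀ M u, ‖u‖ ≤ M →
    (∀ τ p, ‖τ‖ ≤ ρ M → p ∈ F.Pts u → ∃ p' ∈ F.Pts u, F.PStep u τ p p') ∧
    ∀ σ τ p p' p'', ‖σ‖ ≤ ρ M → ‖τ‖ ≤ ρ M → p ∈ F.Pts u → F.PStep u τ p p' →
      F.PStep u σ p' p'' → F.PStep u (σ + τ) p p'' := by
  choose ρ₁ C₁ hρ₁ hC₁ H₁ using F.exists_step
  choose ρ₂ hρ₂ H₂ using F.step_add
  let ρ₀ : ℕ → ℝ := fun k => min (ρ₁ (max k 2)) (ρ₂ (max k 2))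
  have hρ₀ : ∀ k, 0 < ρ₀ k := fun k => lt_min (hρ₁ _) (hρ₂ _)
  let r : ℕ → ℝ := fun k => Nat.rec (ρ₀ 0) (fun i y => min y (ρ₀ (i + 1))) k
  have hr0 : r 0 = ρ₀ 0 := rfl
  have hrs : ∀ k, r (k + 1) = min (r k) (ρ₀ (k + 1)) := fun k => rfl
  have hrp : ∀ k, 0 < r k := by
    intro k
    induction k with
    | zero => exact hρ₀ 0
    | succ k ih => rw [hrs]; exact lt_min ih (hρ₀ _)
  have hrle : ∀ k, r k ≤ ρ₀ k := by
    intro k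
    cases k with
    | zero => exact le_rfl
    | succ k => rw [hrs]; exact min_le_right _ _
  have hra : Antitone r := antitone_nat_of_succ_le fun k => by
    rw [hrs]; exact min_le_left _ _
  refine ⟨fun M => r ⌈M⌉₊, fun M M' h => hra (Nat.ceil_mono h), fun M => hrp _, ?_⟩
  intro M u hu
  have hu' : ‖u‖ ≤ max (⌈M⌉₊ : ℝ) 2 := (hu.trans (Nat.le_ceil M)).trans (le_max_left _ _)
  have h2 : (2 : ℝ) ≤ max (⌈M⌉₊ : ℝ) 2 := le_max_right _ _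
  have hex : ∀ (j : Fin (N + 1)) (v : Fin (N + 1) → ℂ) (τ : Fin g → ℂ), ‖v‖ ≤ 2 → v ∈ F.fib u →
      v j = 1 → ‖τ‖ ≤ r ⌈M⌉₊ → ∃ w, F.Step j u τ v w ∧ ‖w - v‖ ≤ 1 := by
    intro j v τ hv hvf hvj hτ
    have h3 : ‖τ‖ ≤ ρ₁ (max (⌈M⌉₊ : ℝ) 2) := (hτ.trans (hrle _)).trans (min_le_left _ _)
    obtain ⟨w, h4, h5, _, _⟩ := H₁ _ j u v τ hu' (hv.trans h2) hvf hvj h3
    exact ⟨w, h4, h5⟩
  refine ⟨?_, ?_⟩
  · intro τ p hτ hp
    obtain ⟨j, v, rfl, hvf, hvj, hv⟩ := F.exists_chart hp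
    obtain ⟨w, h4, _⟩ := hex j v τ (hv.trans one_le_two) hvf hvj hτ
    exact ⟨pm w, ⟨w, h4.mem.2.1, rfl⟩, j, v, w, rfl, rfl, h4⟩
  · intro σ τ p p' p'' hσ hτ hp h h'
    obtain ⟨j, v, rfl, hvf, hvj, hv⟩ := F.exists_chart hp
    obtain ⟨w, h4, h5⟩ := hex j v τ (hv.trans one_le_two) hvf hvj hτ
    have e1 : p' = pm w := PStep.unique F h ⟨j, v, w, rfl, rfl, h4⟩
    subst e1
    have hw : ‖w‖ ≤ 2 := by
      have h6 : w = (w - v) + v := by abel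
      rw [h6]
      refine (norm_add_le _ _).trans ?_
      linarith
    obtain ⟨w', h7, _⟩ := hex j w σ hw h4.mem.2.1 h4.mem.2.2 hσ
    have e2 : p'' = pm w' := PStep.unique F h' ⟨j, w, w', rfl, rfl, h7⟩
    subst e2
    have h8 : ∀ y : Fin g → ℂ, ‖y‖ ≤ r ⌈M⌉₊ → ‖y‖ ≤ ρ₂ (max (⌈M⌉₊ : ℝ) 2) := fun y hy =>
      (hy.trans (hrle _)).trans (min_le_right _ _)
    exact ⟨j, v, w', rfl, rfl, H₂ _ j u v w w' σ τ hu' ((hv.trans one_le_two).trans h2)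
      (h8 σ hσ) (h8 τ hτ) h4 h7⟩

/-- The action, from `extend_action` for each `u` with the radius `ρ ‖u‖`: if `‖u‖ ≤ M` and `‖τ‖ ≤ ρ M`
then `‖τ‖ ≤ ρ ‖u‖` as `ρ` is antitone. -/
theorem exists_action : ∃ (Φ : (Fin n → ℂ) → (Fin g → ℂ) → PS N → PS N) (ρ : ℝ → ℝ),
    (∀ M, 0 < ρ M) ∧ (∀ u τ p, p ∈ F.Pts u → Φ u τ p ∈ F.Pts u) ∧
    (∀ u p, p ∈ F.Pts u → Φ u 0 p = p) ∧
    (∀ u σ τ p, p ∈ F.Pts u → Φ u (σ + τ) p = Φ u σ (Φ u τ p)) ∧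
    ∀ M u τ p p', ‖u‖ ≤ M → ‖τ‖ ≤ ρ M → p ∈ F.Pts u → F.PStep u τ p p' → Φ u τ p = p' := by
  obtain ⟨ρ, hanti, hpos, H⟩ := F.exists_radius
  have key : ∀ u : Fin n → ℂ, ∃ Φ : (Fin g → ℂ) → PS N → PS N, (∀ τ, ∀ p ∈ F.Pts u,
      Φ τ p ∈ F.Pts u) ∧ (∀ p ∈ F.Pts u, Φ 0 p = p) ∧
      (∀ σ τ, ∀ p ∈ F.Pts u, Φ (σ + τ) p = Φ σ (Φ τ p)) ∧
      ∀ τ p p', ‖τ‖ ≤ ρ ‖u‖ → p ∈ F.Pts u → F.PStep u τ p p' → Φ τ p = p' := by
    intro u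
    obtain ⟨h1, h2⟩ := H ‖u‖ u le_rfl
    refine extend_action (F.Pts u) (F.PStep u) (ρ ‖u‖) (hpos _)
      (fun τ p p' p'' _ h h' => PStep.unique F h h') h1 ?_ h2
    intro p hp
    obtain ⟨j, v, rfl, hvf, hvj, hv⟩ := F.exists_chart hp
    exact ⟨j, v, v, rfl, rfl, Step.zero F hvf hvj⟩
  choose Φ hm h0 ha hs using key
  refine ⟨Φ, ρ, hpos, hm, h0, ha, ?_⟩
  intro M u τ p p' hu hτ hp h
  exact hs u τ p p' (hτ.trans (hanti hu)) hp h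

private theorem holAt_congr {N : ℕ} {a a' : ℂ → PS N} {z : ℂ} (h : HolAt a z)
    (h' : ∀ᶠ w in 𝓝 z, a w = a' w) : HolAt a' z := by
  obtain ⟨v, h1, h2, h3⟩ := h
  refine ⟨v, h1, h2, ?_⟩
  filter_upwards [h3, h'] with w h3 h4
  rw [← h4, h3]

/-- one small step of `lim` -/
private theorem lim_one {Φ : (Fin n → ℂ) → (Fin g → ℂ) → PS N → PS N} {ρ : ℝ → ℝ}
    (hpos : ∀ M, 0 < ρ M)
    (hs : ∀ M u τ p p', ‖u‖ ≤ M → ‖τ‖ ≤ ρ M → p ∈ F.Pts u → F.PStep u τ p p' → Φ u τ p = p')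
    (M : ℝ) (hM : 1 ≤ M) : ∃ r : ℝ, 0 < r ∧
    ∀ {α : Type} (f : Filter α) (u : α → Fin n → ℂ) (τ : α → Fin g → ℂ)
    (v : α → Fin (N + 1) → ℂ) (u₀ : Fin n → ℂ) (τ₀ : Fin g → ℂ) (v₀ : Fin (N + 1) → ℂ),
    Tendsto u f (𝓝 u₀) → Tendsto τ f (𝓝 τ₀) → Tendsto v f (𝓝 v₀) →
    (∀ᶠ a in f, v a ∈ F.fib (u a)) → v₀ ∈ F.fib u₀ → ‖u₀‖ < M → ‖τ₀‖ < r →
    ∃ (w : α → Fin (N + 1) → ℂ) (w₀ : Fin (N + 1) → ℂ), Tendsto w f (𝓝 w₀) ∧ w₀ ∈ F.fib u₀ ∧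
      Φ u₀ τ₀ (pm v₀) = pm w₀ ∧
      ∀ᶠ a in f, w a ∈ F.fib (u a) ∧ Φ (u a) (τ a) (pm (v a)) = pm (w a) := by
  obtain ⟨ρ₁, hρ₁, H⟩ := F.step_lim M
  refine ⟨min ρ₁ (ρ M), lt_min hρ₁ (hpos M), ?_⟩
  intro α f u τ v u₀ τ₀ v₀ hu hτ hv hvf hv₀ hu₀ hτ₀
  obtain ⟨j, v₁, e1, hv₁f, hv₁j, hv₁⟩ := F.exists_chart (p := pm v₀) (u := u₀)
    (F.pm_mem_iff.2 hv₀)
  obtain ⟨v', hv', hv'p⟩ := pm_rescale hv e1
  have hv'j : Tendsto (fun a => v' a j) f (𝓝 1) := by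
    have := (tendsto_pi_nhds.1 hv') j
    rwa [hv₁j] at this
  have hne : ∀ᶠ a in f, v' a j ≠ 0 := hv'j.eventually_ne one_ne_zero
  have ht : Tendsto (fun a => (v' a j)⁻¹ • v' a) f (𝓝 v₁) := by
    have := (hv'j.inv₀ one_ne_zero).smul hv'
    rwa [inv_one, one_smul] at this
  have hpm : ∀ᶠ a in f, pm ((v' a j)⁻¹ • v' a) = pm (v a) := by
    filter_upwards [hne] with a ha
    rw [pm_smul (inv_ne_zero ha), hv'p]
  have hfib : ∀ᶠ a in f, (v' a j)⁻¹ • v' a ∈ F.fib (u a) ∧ ((v' a j)⁻¹ • v' a) j = 1 := by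
    filter_upwards [hne, hpm, hvf] with a ha h1 h2
    refine ⟨?_, ?_⟩
    · rw [← F.pm_mem_iff, h1]
      exact F.pm_mem_iff.2 h2
    · rw [Pi.smul_apply, smul_eq_mul, inv_mul_cancel₀ ha]
  obtain ⟨w, w₀, h1, h2, h3⟩ := H j f u τ _ u₀ τ₀ v₁ hu hτ ht hfib hv₁f hv₁j hu₀.le
    (hv₁.trans hM) (hτ₀.le.trans (min_le_left _ _))
  refine ⟨w, w₀, h1, h2.mem.2.1, ?_, ?_⟩
  · exact hs M u₀ τ₀ (pm v₀) (pm w₀) hu₀.le (hτ₀.le.trans (min_le_right _ _))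
      (F.pm_mem_iff.2 hv₀) ⟨j, v₁, w₀, e1, rfl, h2⟩
  · have e2 : ∀ᶠ a in f, ‖u a‖ < M := hu.norm.eventually_lt_const hu₀
    have e3 : ∀ᶠ a in f, ‖τ a‖ < ρ M :=
      hτ.norm.eventually_lt_const (hτ₀.trans_le (min_le_right _ _))
    filter_upwards [h3, e2, e3, hpm, hvf] with a h3 e2 e3 h4 h5
    refine ⟨h3.mem.2.1, ?_⟩
    exact hs M (u a) (τ a) (pm (v a)) (pm (w a)) e2.le e3.le (F.pm_mem_iff.2 h5)
      ⟨j, _, w a, h4.symm, rfl, h3⟩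

/-- one small step of `hol` -/
private theorem hol_one {Φ : (Fin n → ℂ) → (Fin g → ℂ) → PS N → PS N} {ρ : ℝ → ℝ}
    (hpos : ∀ M, 0 < ρ M)
    (hs : ∀ M u τ p p', ‖u‖ ≤ M → ‖τ‖ ≤ ρ M → p ∈ F.Pts u → F.PStep u τ p p' → Φ u τ p = p')
    (M : ℝ) (hM : 1 ≤ M) : ∃ r : ℝ, 0 < r ∧
    ∀ (u : ℂ → Fin n → ℂ) (τ : ℂ → Fin g → ℂ) (a : ℂ → PS N) (z : ℂ), AnalyticAt ℂ u z →
    AnalyticAt ℂ τ z → F.Sec u a z → ‖u z‖ < M → ‖τ z‖ < r →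
    HolAt (fun w => Φ (u w) (τ w) (a w)) z := by
  obtain ⟨ρ₁, hρ₁, H⟩ := F.step_hol M
  refine ⟨min ρ₁ (ρ M), lt_min hρ₁ (hpos M), ?_⟩
  intro u τ a z hu hτ ha hu₀ hτ₀
  obtain ⟨⟨v, hva, hvz, hav⟩, hmem⟩ := ha
  have hz : pm (v z) ∈ F.Pts (u z) := by
    rw [← hav.self_of_nhds]
    exact hmem.self_of_nhds
  obtain ⟨j, v₁, e1, hv₁f, hv₁j, hv₁⟩ := F.exists_chart hz
  obtain ⟨c, hc, hcv⟩ := pm_eq_iff.1 e1
  have hvj : v z j = c := by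
    rw [hcv, Pi.smul_apply, hv₁j, smul_eq_mul, mul_one]
  have hvja : AnalyticAt ℂ (fun w => v w j) z :=
    ((ContinuousLinearMap.proj (R := ℂ) (φ := fun _ : Fin (N + 1) => ℂ) j).analyticAt _).comp hva
  have hvj0 : v z j ≠ 0 := by rw [hvj]; exact hc
  have hne : ∀ᶠ w in 𝓝 z, v w j ≠ 0 := hvja.continuousAt.eventually_ne hvj0
  have hv' : AnalyticAt ℂ (fun w => (v w j)⁻¹ • v w) z := (hvja.inv hvj0).smul hva
  have hv'z : (v z j)⁻¹ • v z = v₁ := by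
    rw [hvj, hcv, smul_smul, inv_mul_cancel₀ hc, one_smul]
  have hpm : ∀ᶠ w in 𝓝 z, a w = pm ((v w j)⁻¹ • v w) := by
    filter_upwards [hne, hav] with w h1 h2
    rw [pm_smul (inv_ne_zero h1), h2]
  have hfib : ∀ᶠ w in 𝓝 z, (v w j)⁻¹ • v w ∈ F.fib (u w) ∧ ((v w j)⁻¹ • v w) j = 1 := by
    filter_upwards [hne, hpm, hmem] with w h1 h2 h3
    refine ⟨?_, ?_⟩
    · rw [← F.pm_mem_iff, ← h2]
      exact h3
    · rw [Pi.smul_apply, smul_eq_mul, inv_mul_cancel₀ h1]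
  obtain ⟨w, h1, h2⟩ := H j u τ (fun w => (v w j)⁻¹ • v w) z hu hτ hv' hfib hu₀.le
    (by rw [hv'z]; exact hv₁.trans hM) (hτ₀.le.trans (min_le_left _ _))
  refine ⟨w, h1, h2.self_of_nhds.mem.2.1.1, ?_⟩
  have e2 : ∀ᶠ y in 𝓝 z, ‖u y‖ < M := hu.continuousAt.norm.eventually_lt_const hu₀
  have e3 : ∀ᶠ y in 𝓝 z, ‖τ y‖ < ρ M :=
    hτ.continuousAt.norm.eventually_lt_const (hτ₀.trans_le (min_le_right _ _))
  filter_upwards [h2, e2, e3, hpm, hmem] with y h2 e2 e3 h4 h5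
  exact hs M (u y) (τ y) (a y) (pm (w y)) e2.le e3.le h5 ⟨j, _, w y, h4, rfl, h2⟩

/-- times are multiples of small times -/
private theorem exists_div {g : ℕ} (τ₀ : Fin g → ℂ) {r : ℝ} (hr : 0 < r) :
    ∃ m : ℕ, 0 < m ∧ ‖((m : ℂ)⁻¹) • τ₀‖ < r := by
  obtain ⟨m, hm⟩ := exists_nat_gt (‖τ₀‖ / r)
  have h0 : (0 : ℝ) < m := lt_of_le_of_lt (div_nonneg (norm_nonneg _) hr.le) hm
  refine ⟨m, by exact_mod_cast h0, ?_⟩
  rw [norm_smul, norm_inv, Complex.norm_natCast, inv_mul_lt_iff₀ h0]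
  rwa [div_lt_iff₀ hr] at hm

private theorem nsmul_div {g : ℕ} (τ : Fin g → ℂ) {m : ℕ} (hm : 0 < m) :
    m • (((m : ℂ)⁻¹) • τ) = τ := by
  have h0 : (m : ℂ) ≠ 0 := by exact_mod_cast hm.ne'
  rw [← Nat.cast_smul_eq_nsmul ℂ, smul_smul, mul_inv_cancel₀ h0, one_smul]

/-- The complete API. `expand`: `exists_step` and the last property of `exists_action`. `lim`: put
`M = ‖u₀‖ + 1`, choose `m ≥ 1` with `‖τ₀‖ / m < min (ρ M) (ρ of step_lim for max M 1)`; prove by induction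
on `i ≤ m` the statement for the times `(i/m) τ a`: from `w a → w₀` (points of the fibres) pass to a chart
`j` with `w₀ j` of maximal norm, normalise (`(w a) / (w a j) → w₀ / w₀ j`, norm of the limit `≤ 1`), apply
`step_lim` with the time `τ a / m`, and `Φ u ((i+1)/m τ) p = Φ u (τ/m) (Φ u (i/m τ) p)`. `hol` in the same
way with `step_hol`. -/
theorem nonempty_flowAPI : Nonempty (FlowAPI F) := by
  obtain ⟨Φ, ρ, hpos, hm, h0, ha, hs⟩ := F.exists_action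
  refine ⟨{ Φ := Φ, mem := hm, zero := h0, add := ha, expand := ?_, lim := ?_, hol := ?_ }⟩
  · intro M
    obtain ⟨ρ₁, C, hρ₁, hC, H⟩ := F.exists_step M
    refine ⟨min ρ₁ (ρ M), C, lt_min hρ₁ (hpos M), hC, ?_⟩
    intro j u v τ hu hv hvf hvj hτ
    obtain ⟨w, h1, _, _, h2⟩ := H j u v τ hu hv hvf hvj (hτ.trans (min_le_left _ _))
    exact ⟨w, h1.mem.2.1, h1.mem.2.2, hs M u τ (pm v) (pm w) hu (hτ.trans (min_le_right _ _))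
      (F.pm_mem_iff.2 hvf) ⟨j, v, w, rfl, rfl, h1⟩, h2⟩
  · intro α f u τ v u₀ τ₀ v₀ hu hτ hv hvf hv₀
    obtain ⟨r, hr, H⟩ := lim_one F hpos hs (‖u₀‖ + 1) (by linarith [norm_nonneg u₀])
    obtain ⟨m, hm0, hmr⟩ := exists_div τ₀ hr
    have key : ∀ i : ℕ, ∃ (w : α → Fin (N + 1) → ℂ) (w₀ : Fin (N + 1) → ℂ),
        Tendsto w f (𝓝 w₀) ∧ w₀ ∈ F.fib u₀ ∧ Φ u₀ (i • (((m : ℂ)⁻¹) • τ₀)) (pm v₀) = pm w₀ ∧
        ∀ᶠ a in f, w a ∈ F.fib (u a) ∧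
          Φ (u a) (i • (((m : ℂ)⁻¹) • τ a)) (pm (v a)) = pm (w a) := by
      intro i
      induction i with
      | zero =>
        refine ⟨v, v₀, hv, hv₀, ?_, ?_⟩
        · rw [zero_smul, h0 _ _ (F.pm_mem_iff.2 hv₀)]
        · filter_upwards [hvf] with a h1
          refine ⟨h1, ?_⟩
          rw [zero_smul, h0 _ _ (F.pm_mem_iff.2 h1)]
      | succ i ih =>
        obtain ⟨w, w₀, h1, h2, h3, h4⟩ := ih
        obtain ⟨w', w₀', k1, k2, k3, k4⟩ := H f u (fun a => ((m : ℂ)⁻¹) • τ a) w u₀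
          (((m : ℂ)⁻¹) • τ₀) w₀ hu (hτ.const_smul _) h1 (h4.mono fun a h => h.1) h2
          (by linarith) hmr
        refine ⟨w', w₀', k1, k2, ?_, ?_⟩
        · rw [succ_nsmul', ha _ _ _ _ (F.pm_mem_iff.2 hv₀), h3, k3]
        · filter_upwards [h4, k4, hvf] with a h4 k4 h5
          refine ⟨k4.1, ?_⟩
          rw [succ_nsmul', ha _ _ _ _ (F.pm_mem_iff.2 h5), h4.2, k4.2]
    obtain ⟨w, w₀, h1, h2, h3, h4⟩ := key m
    refine ⟨w, w₀, h1, h2, ?_, ?_⟩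
    · rwa [nsmul_div τ₀ hm0] at h3
    · filter_upwards [h4] with a h4
      rwa [nsmul_div (τ a) hm0] at h4
  · intro u τ a z hu hτ hsec
    obtain ⟨r, hr, H⟩ := hol_one F hpos hs (‖u z‖ + 1) (by linarith [norm_nonneg (u z)])
    obtain ⟨m, hm0, hmr⟩ := exists_div (τ z) hr
    have hmem : ∀ᶠ w in 𝓝 z, a w ∈ F.Pts (u w) := hsec.2
    have key : ∀ i : ℕ, HolAt (fun w => Φ (u w) (i • (((m : ℂ)⁻¹) • τ w)) (a w)) z := by
      intro i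
      induction i with
      | zero =>
        refine holAt_congr hsec.1 ?_
        filter_upwards [hmem] with w h1
        rw [zero_smul, h0 _ _ h1]
      | succ i ih =>
        have hsec' : F.Sec u (fun w => Φ (u w) (i • (((m : ℂ)⁻¹) • τ w)) (a w)) z := by
          refine ⟨ih, ?_⟩
          filter_upwards [hmem] with w h1
          exact hm _ _ _ h1
        have h1 := H u (fun w => ((m : ℂ)⁻¹) • τ w) _ z hu hτ.fun_const_smul hsec'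
          (by linarith) hmr
        refine holAt_congr h1 ?_
        filter_upwards [hmem] with w h2
        rw [succ_nsmul', ha _ _ _ _ h2]
    refine holAt_congr (key m) (Eventually.of_forall fun w => ?_)
    rw [nsmul_div (τ w) hm0]

end Fam

end Pool.Agent.AbFib
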