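import Pool.Agent.Lib_MP_1209e6_ab.B1

/-! Local transitivity and local injectivity: definitions. -/

set_option autoImplicit false

open Filter Topology

namespace Pool.Agent.AbFib

open Pool.Agent.CampanaFlow MvPolynomial

variable {K : Type} [Field K] [Algebra ℂ K] {n N g : ℕ} {F : Fam n N g K}

/-- local transitivity near the point `v₀` of the fibre over `u₀`, uniformly in the neighbouring fibres -/
def LT (Φ : FlowAPI F) (u₀ : Fin n → ℂ) (v₀ : Fin (N + 1) → ℂ) : Prop :=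
  ∀ ε > 0, ∃ δ > 0, ∀ (u : Fin n → ℂ) (v v' : Fin (N + 1) → ℂ), ‖u - u₀‖ < δ → ‖v - v₀‖ < δ →
    ‖v' - v₀‖ < δ → v ∈ F.fib u → v' ∈ F.fib u → ∃ σ, ‖σ‖ < ε ∧ Φ.Φ u σ (pm v) = pm v'

/-- local injectivity near `v₀`, uniformly -/
def LI (Φ : FlowAPI F) (u₀ : Fin n → ℂ) (v₀ : Fin (N + 1) → ℂ) : Prop :=
  ∃ δ > 0, ∀ (u : Fin n → ℂ) (v : Fin (N + 1) → ℂ) (σ : Fin g → ℂ), ‖u - u₀‖ < δ → ‖v - v₀‖ < δ →
    v ∈ F.fib u → ‖σ‖ < δ → Φ.Φ u σ (pm v) = pm v → σ = 0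

/-- good parameters: `h ≠ 0` -/
structure Good (Φ : FlowAPI F) where
  h : MvPolynomial (Fin n) ℂ
  h_ne : aeval F.t h ≠ 0
  lt : ∀ u, eval u h ≠ 0 → ∀ v ∈ F.fib u, LT Φ u v
  li : ∀ u, eval u h ≠ 0 → ∀ v ∈ F.fib u, LI Φ u v
  ht : ∀ (u : ℂ → Fin n → ℂ) (a b : ℂ → PS N) (σ : ℂ → Fin g → ℂ) (z : ℂ), AnalyticAt ℂ u z →
    F.Sec u a z → F.Sec u b z → eval (u z) h ≠ 0 → ContinuousAt σ z → σ z = 0 →
    (∀ᶠ y in 𝓝 z, Φ.Φ (u y) (σ y) (a y) = b y) → DifferentiableAt ℂ σ z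
  orb : ∀ u, eval u h ≠ 0 → ∀ v ∈ F.fib u, ∀ v' ∈ F.fib u, ∃ τ, Φ.Φ u τ (pm v) = pm v'

end Pool.Agent.AbFib
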