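import Pool.Agent.Lib_MP_1209e6_ab.C0

/-! PIECE C1: the orbit map is open where a minor does not vanish. -/

set_option autoImplicit false

open Filter Topology

namespace Pool.Agent.AbFib

open Pool.Agent.CampanaFlow MvPolynomial

variable {K : Type} [Field K] [Algebra ℂ K] {n N g : ℕ} {F : Fam n N g K}

theorem continuous_aeval_elim {n N : ℕ} (r : MvPolynomial (Fin n ⊕ Fin (N + 1)) ℂ) :
    Continuous fun p : (Fin n → ℂ) × (Fin (N + 1) → ℂ) => aeval (Sum.elim p.1 p.2) r := by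
  have h1 : Continuous fun y : Fin n ⊕ Fin (N + 1) → ℂ => aeval y r := by
    simp only [aeval_eq_eval]
    exact MvPolynomial.continuous_eval r
  refine h1.comp (continuous_pi fun s => ?_)
  cases s with
  | inl a => exact (continuous_apply a).comp continuous_fst
  | inr l => exact (continuous_apply l).comp continuous_snd

/-- uniform continuity at a point of finitely many coefficients -/
theorem coeff_near {n N g : ℕ} (P : Fin g → Fin (N + 1) → MvPolynomial (Fin n ⊕ Fin (N + 1)) ℂ)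
    (u₀ : Fin n → ℂ) (v₀ : Fin (N + 1) → ℂ) (η : ℝ) (hη : 0 < η) :
    ∃ δ > 0, ∀ (u : Fin n → ℂ) (v : Fin (N + 1) → ℂ), ‖u - u₀‖ < δ → ‖v - v₀‖ < δ → ∀ i l,
      ‖aeval (Sum.elim u v) (P i l) - aeval (Sum.elim u₀ v₀) (P i l)‖ < η := by
  have h : ∀ᶠ p : (Fin n → ℂ) × (Fin (N + 1) → ℂ) in 𝓝 (u₀, v₀), ∀ i l,
      ‖aeval (Sum.elim p.1 p.2) (P i l) - aeval (Sum.elim u₀ v₀) (P i l)‖ < η := by
    rw [eventually_all]
    intro i
    rw [eventually_all]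
    intro l
    have h1 := (continuous_aeval_elim (P i l)).tendsto (u₀, v₀)
    have h2 := Metric.tendsto_nhds.1 h1 η hη
    filter_upwards [h2] with p hp
    rwa [dist_eq_norm] at hp
  obtain ⟨δ, hδ, hδ1⟩ := Metric.eventually_nhds_iff.1 h
  refine ⟨δ, hδ, fun u v hu hv => hδ1 (y := (u, v)) ?_⟩
  rw [Prod.dist_eq, dist_eq_norm, dist_eq_norm]
  exact max_lt hu hv

theorem pm_inj {N : ℕ} {j : Fin (N + 1)} {v w : Fin (N + 1) → ℂ} (hv : v j = 1) (hw : w j = 1)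
    (h : pm v = pm w) : v = w := by
  obtain ⟨c, hc, rfl⟩ := pm_eq_iff.1 h
  have h1 : c * w j = 1 := hv
  rw [hw, mul_one] at h1
  rw [h1, one_smul]

/-- The orbit map in the coordinates `L` is approximated by the invertible matrix of the minor `L`, so it is
open (`ApproximatesLinearOn.surjOn_closedBall_of_nonlinearRightInverse`), uniformly near `(u₀, v₀)`. -/
theorem open_orbit (Φ : FlowAPI F) (j : Fin (N + 1)) (L : Fin g → Fin (N + 1)) (u₀ : Fin n → ℂ)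
    (v₀ : Fin (N + 1) → ℂ) (h₀ : v₀ ∈ F.fib u₀) (hj : v₀ j = 1) (hL : F.minor j L u₀ v₀ ≠ 0) :
    ∃ r κ δ C : ℝ, 0 < r ∧ 0 < κ ∧ 0 < δ ∧ 0 ≤ C ∧ ∀ (u : Fin n → ℂ) (v : Fin (N + 1) → ℂ),
      ‖u - u₀‖ < δ → ‖v - v₀‖ < δ → v ∈ F.fib u → v j = 1 → ∀ ε, 0 < ε → ε ≤ r →
      ∀ y : Fin g → ℂ, ‖y - fun m => v (L m)‖ ≤ κ * ε →
      ∃ σ w, ‖σ‖ ≤ ε ∧ w ∈ F.fib u ∧ w j = 1 ∧ Φ.Φ u σ (pm v) = pm w ∧ (∀ m, w (L m) = y m) ∧
        ‖w - v‖ ≤ C * ε := by
  classical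
  -- the matrix
  set Mx : Matrix (Fin g) (Fin g) ℂ :=
    Matrix.of fun i m => aeval (Sum.elim u₀ v₀) (F.P i j (L m)) with hMx
  have hdet : IsUnit Mx.det := isUnit_iff_ne_zero.2 hL
  let A₀ : (Fin g → ℂ) →L[ℂ] (Fin g → ℂ) := LinearMap.toContinuousLinearMap (Matrix.vecMulLinear Mx)
  let A₁ : (Fin g → ℂ) →L[ℂ] (Fin g → ℂ) := LinearMap.toContinuousLinearMap (Matrix.vecMulLinear Mx⁻¹)
  have hA₀ : ∀ (σ : Fin g → ℂ) m, A₀ σ m = ∑ i, σ i * aeval (Sum.elim u₀ v₀) (F.P i j (L m)) := by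
    intro σ m
    rfl
  have hA₁ : ∀ y, A₀ (A₁ y) = y := by
    intro y
    change Matrix.vecMul (Matrix.vecMul y Mx⁻¹) Mx = y
    rw [Matrix.vecMul_vecMul, Matrix.nonsing_inv_mul _ hdet, Matrix.vecMul_one]
  let inv : A₀.NonlinearRightInverse :=
    { toFun := A₁
      nnnorm := ‖A₁‖₊ + 1
      bound' := fun y => by
        refine (A₁.le_opNorm y).trans (mul_le_mul_of_nonneg_right ?_ (norm_nonneg _))
        change ‖A₁‖ ≤ ((‖A₁‖₊ + 1 : NNReal) : ℝ)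
        push_cast
        linarith
      right_inv' := hA₁ }
  set nn : ℝ := ‖A₁‖ + 1 with hnn
  have hnn1 : 1 ≤ nn := by
    have := norm_nonneg A₁
    linarith
  have hnn0 : 0 < nn := by linarith
  have hinv : (inv.nnnorm : ℝ) = nn := by
    change ((‖A₁‖₊ + 1 : NNReal) : ℝ) = nn
    push_cast
    rfl
  set c : ℝ := 1 / (2 * nn) with hc
  have hc0 : 0 < c := by positivity
  -- constants
  obtain ⟨ρ, C₀, hρ, hC₀, hexp⟩ := Φ.expand (‖u₀‖ + ‖v₀‖ + 2)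
  obtain ⟨δ₁, hδ₁, hnear⟩ := coeff_near (fun i => F.P i j) u₀ v₀ (c / (4 * (g + 1)))
    (by positivity)
  obtain ⟨δ₂, hδ₂, hnear2⟩ := coeff_near (fun i => F.P i j) u₀ v₀ 1 one_pos
  set B : ℝ := ∑ i, ∑ l, ‖aeval (Sum.elim u₀ v₀) (F.P i j l)‖ + 1 with hB
  have hB0 : 0 ≤ B := by positivity
  have hBle : ∀ u v, ‖u - u₀‖ < δ₂ → ‖v - v₀‖ < δ₂ → ∀ i l,
      ‖aeval (Sum.elim u v) (F.P i j l)‖ ≤ B := by
    intro u v hu hv i l
    have h1 := hnear2 u v hu hv i l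
    have h2 : ‖aeval (Sum.elim u₀ v₀) (F.P i j l)‖ ≤
        ∑ i, ∑ l, ‖aeval (Sum.elim u₀ v₀) (F.P i j l)‖ := by
      refine le_trans ?_ (Finset.single_le_sum
        (f := fun i => ∑ l, ‖aeval (Sum.elim u₀ v₀) (F.P i j l)‖)
        (fun i _ => Finset.sum_nonneg fun l _ => norm_nonneg _) (Finset.mem_univ i))
      exact Finset.single_le_sum (f := fun l => ‖aeval (Sum.elim u₀ v₀) (F.P i j l)‖)
        (fun l _ => norm_nonneg _) (Finset.mem_univ l)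
    have h3 := norm_sub_norm_le (aeval (Sum.elim u v) (F.P i j l))
      (aeval (Sum.elim u₀ v₀) (F.P i j l))
    rw [hB]
    linarith
  set C : ℝ := g * B + C₀ * ρ with hC
  have hC0 : 0 ≤ C := by positivity
  set δ : ℝ := min (min δ₁ δ₂) 1 / 2 with hδ
  have hδ0 : 0 < δ := by
    have : 0 < min (min δ₁ δ₂) 1 := lt_min (lt_min hδ₁ hδ₂) one_pos
    positivity
  have hδa : 2 * δ ≤ δ₁ := by
    rw [hδ]
    have := (min_le_left (min δ₁ δ₂) 1).trans (min_le_left _ _)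
    linarith
  have hδb : 2 * δ ≤ δ₂ := by
    rw [hδ]
    have := (min_le_left (min δ₁ δ₂) 1).trans (min_le_right _ _)
    linarith
  have hδc : 2 * δ ≤ 1 := by
    rw [hδ]
    have := min_le_right (min δ₁ δ₂) 1
    linarith
  set r : ℝ := min (ρ / 2) (min (δ / (C + 1)) (c / (4 * (C₀ + 1)))) with hr
  have hr0 : 0 < r := by
    refine lt_min (by positivity) (lt_min (by positivity) (by positivity))
  have hra : 2 * r ≤ ρ := by
    have := min_le_left (ρ / 2) (min (δ / (C + 1)) (c / (4 * (C₀ + 1))))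
    linarith
  have hrb : C * r < δ := by
    have h1 : r ≤ δ / (C + 1) := (min_le_right _ _).trans (min_le_left _ _)
    have h2 : r * (C + 1) ≤ δ := (le_div_iff₀ (by positivity)).1 h1
    nlinarith
  have hrc : C₀ * (2 * r) ≤ c / 2 := by
    have h1 : r ≤ c / (4 * (C₀ + 1)) := (min_le_right _ _).trans (min_le_right _ _)
    have h2 : r * (4 * (C₀ + 1)) ≤ c := (le_div_iff₀ (by positivity)).1 h1
    nlinarith
  refine ⟨r, c, δ, C, hr0, hc0, hδ0, hC0, fun u v hu hv hvf hvj ε hε0 hεr y hy => ?_⟩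
  have hrρ : r ≤ ρ := by linarith
  have hun : ‖u‖ ≤ ‖u₀‖ + ‖v₀‖ + 2 := by
    have h1 := norm_sub_norm_le u u₀
    have h2 := norm_nonneg v₀
    linarith
  have hvn : ‖v‖ ≤ ‖v₀‖ + 1 := by
    have h1 := norm_sub_norm_le v v₀
    linarith
  have hun0 := norm_nonneg u₀
  have hpv : pm v ∈ F.Pts u := ⟨v, hvf, rfl⟩
  -- the representatives
  have hex : ∀ σ : Fin g → ℂ, ‖σ‖ ≤ ρ → ∃ w ∈ F.fib u, w j = 1 ∧ Φ.Φ u σ (pm v) = pm w ∧
      ∀ l, ‖w l - v l - ∑ i, σ i * aeval (Sum.elim u v) (F.P i j l)‖ ≤ C₀ * ‖σ‖ ^ 2 :=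
    fun σ hσ => hexp j u v σ hun (by linarith) hvf hvj hσ
  choose! w hw1 hw2 hw3 hw4 using hex
  have hw5 : ∀ σ, ‖σ‖ ≤ ρ → ‖w σ - v‖ ≤ C * ‖σ‖ := by
    intro σ hσ
    rw [pi_norm_le_iff_of_nonneg (by positivity)]
    intro l
    have h1 := hw4 σ hσ l
    have h2 : ‖∑ i, σ i * aeval (Sum.elim u v) (F.P i j l)‖ ≤ g * B * ‖σ‖ := by
      refine (norm_sum_le _ _).trans ?_
      have h3 : ∀ i ∈ Finset.univ, ‖σ i * aeval (Sum.elim u v) (F.P i j l)‖ ≤ B * ‖σ‖ := by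
        intro i _
        rw [norm_mul, mul_comm]
        exact mul_le_mul (hBle u v (by linarith) (by linarith) i l) (norm_le_pi_norm σ i)
          (norm_nonneg _) hB0
      refine (Finset.sum_le_sum h3).trans ?_
      rw [Finset.sum_const, Finset.card_univ, Fintype.card_fin, nsmul_eq_mul]
      exact le_of_eq (by ring)
    have h3 : ‖(w σ - v) l‖ ≤ ‖w σ l - v l - ∑ i, σ i * aeval (Sum.elim u v) (F.P i j l)‖ +
        ‖∑ i, σ i * aeval (Sum.elim u v) (F.P i j l)‖ := by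
      have := norm_add_le (w σ l - v l - ∑ i, σ i * aeval (Sum.elim u v) (F.P i j l))
        (∑ i, σ i * aeval (Sum.elim u v) (F.P i j l))
      rwa [sub_add_cancel] at this
    have h4 : C₀ * ‖σ‖ ^ 2 ≤ C₀ * ρ * ‖σ‖ := by
      have : ‖σ‖ ^ 2 ≤ ρ * ‖σ‖ := by nlinarith [norm_nonneg σ]
      nlinarith
    rw [hC]
    nlinarith
  have hw0 : w 0 = v := by
    refine pm_inj (hw2 0 (by simpa using hρ.le)) hvj ?_
    rw [← hw3 0 (by simpa using hρ.le), Φ.zero u _ hpv]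
  -- differences
  have hdiff : ∀ σ σ' : Fin g → ℂ, ‖σ‖ ≤ r → ‖σ'‖ ≤ r → ∀ l,
      ‖w σ l - w σ' l - ∑ i, (σ - σ') i * aeval (Sum.elim u (w σ')) (F.P i j l)‖ ≤
        C₀ * ‖σ - σ'‖ ^ 2 := by
    intro σ σ' hσ hσ' l
    have hσρ : ‖σ‖ ≤ ρ := by linarith
    have hσρ' : ‖σ'‖ ≤ ρ := by linarith
    have h1 : ‖w σ'‖ ≤ ‖u₀‖ + ‖v₀‖ + 2 := by
      have h2 := hw5 σ' hσρ'
      have h3 := norm_sub_norm_le (w σ') v
      have h4 : C * ‖σ'‖ ≤ C * r := mul_le_mul_of_nonneg_left hσ' hC0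
      linarith
    have h2 : ‖σ - σ'‖ ≤ ρ := (norm_sub_le _ _).trans (by linarith)
    obtain ⟨w'', k1, k2, k3, k4⟩ := hexp j u (w σ') (σ - σ') hun h1 (hw1 σ' hσρ') (hw2 σ' hσρ') h2
    have h3 : w'' = w σ := by
      refine pm_inj k2 (hw2 σ hσρ) ?_
      rw [← k3, ← hw3 σ hσρ, ← hw3 σ' hσρ', ← Φ.add u _ _ _ hpv, sub_add_cancel]
    rw [← h3]
    exact k4 l
  let Ψ : (Fin g → ℂ) → (Fin g → ℂ) := fun σ m => w σ (L m)
  have happ : ApproximatesLinearOn Ψ A₀ (Metric.closedBall 0 r) ⟨c, hc0.le⟩ := by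
    intro σ hσ σ' hσ'
    rw [mem_closedBall_zero_iff] at hσ hσ'
    change _ ≤ c * ‖σ - σ'‖
    rw [pi_norm_le_iff_of_nonneg (by positivity)]
    intro m
    have hσρ' : ‖σ'‖ ≤ ρ := by linarith
    have h1 := hdiff σ σ' hσ hσ' (L m)
    have hn : ‖w σ' - v₀‖ < 2 * δ := by
      have h2 := hw5 σ' hσρ'
      have h4 : C * ‖σ'‖ ≤ C * r := mul_le_mul_of_nonneg_left hσ' hC0
      have h5 := norm_add_le (w σ' - v) (v - v₀)
      rw [sub_add_sub_cancel] at h5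
      linarith
    have h2 : ‖∑ i, (σ - σ') i * (aeval (Sum.elim u (w σ')) (F.P i j (L m)) -
        aeval (Sum.elim u₀ v₀) (F.P i j (L m)))‖ ≤ c / 4 * ‖σ - σ'‖ := by
      refine (norm_sum_le _ _).trans ?_
      have h3 : ∀ i ∈ Finset.univ, ‖(σ - σ') i * (aeval (Sum.elim u (w σ')) (F.P i j (L m)) -
          aeval (Sum.elim u₀ v₀) (F.P i j (L m)))‖ ≤ (c / (4 * (g + 1))) * ‖σ - σ'‖ := by
        intro i _
        rw [norm_mul, mul_comm]
        exact mul_le_mul (hnear u (w σ') (by linarith) (by linarith) i (L m)).le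
          (norm_le_pi_norm (σ - σ') i) (norm_nonneg _) (by positivity)
      refine (Finset.sum_le_sum h3).trans ?_
      rw [Finset.sum_const, Finset.card_univ, Fintype.card_fin, nsmul_eq_mul]
      have hgg : (g : ℝ) * (c / (4 * (g + 1))) ≤ c / 4 := by
        rw [mul_div_assoc', div_le_div_iff₀ (by positivity) (by positivity)]
        nlinarith
      calc (g : ℝ) * (c / (4 * (g + 1)) * ‖σ - σ'‖) = ((g : ℝ) * (c / (4 * (g + 1)))) * ‖σ - σ'‖ := by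
            ring
        _ ≤ _ := mul_le_mul_of_nonneg_right hgg (norm_nonneg _)
    have h3 : (Ψ σ - Ψ σ' - A₀ (σ - σ')) m =
        (w σ (L m) - w σ' (L m) - ∑ i, (σ - σ') i * aeval (Sum.elim u (w σ')) (F.P i j (L m))) +
        ∑ i, (σ - σ') i * (aeval (Sum.elim u (w σ')) (F.P i j (L m)) -
          aeval (Sum.elim u₀ v₀) (F.P i j (L m))) := by
      rw [Pi.sub_apply, Pi.sub_apply, hA₀]
      simp only [mul_sub, Finset.sum_sub_distrib, Ψ]
      ring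
    rw [h3]
    refine (norm_add_le _ _).trans ?_
    have h4 : ‖σ - σ'‖ ≤ 2 * r := (norm_sub_le _ _).trans (by linarith)
    have h5 : C₀ * ‖σ - σ'‖ ^ 2 ≤ c / 2 * ‖σ - σ'‖ := by
      have h6 : C₀ * ‖σ - σ'‖ ≤ C₀ * (2 * r) := mul_le_mul_of_nonneg_left h4 hC₀
      have h7 := norm_nonneg (σ - σ')
      nlinarith
    have h8 := norm_nonneg (σ - σ')
    nlinarith
  have hsurj := happ.surjOn_closedBall_of_nonlinearRightInverse inv hε0.le
    (Metric.closedBall_subset_closedBall hεr)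
  have hrad : ((inv.nnnorm : ℝ)⁻¹ - ((⟨c, hc0.le⟩ : NNReal) : ℝ)) * ε = c * ε := by
    rw [hinv]
    change (nn⁻¹ - c) * ε = c * ε
    congr 1
    rw [hc]
    field_simp
    ring
  have hy' : y ∈ Metric.closedBall (Ψ 0) (((inv.nnnorm : ℝ)⁻¹ - ((⟨c, hc0.le⟩ : NNReal) : ℝ)) * ε) := by
    rw [hrad, mem_closedBall_iff_norm]
    have : Ψ 0 = fun m => v (L m) := by
      funext m
      change w 0 (L m) = v (L m)
      rw [hw0]
    rw [this]
    exact hy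
  obtain ⟨σ, hσ, hσy⟩ := hsurj hy'
  rw [mem_closedBall_zero_iff] at hσ
  have hσρ : ‖σ‖ ≤ ρ := by linarith
  refine ⟨σ, w σ, hσ, hw1 σ hσρ, hw2 σ hσρ, hw3 σ hσρ, fun m => congrFun hσy m, ?_⟩
  exact (hw5 σ hσρ).trans (mul_le_mul_of_nonneg_left hσ hC0)

end Pool.Agent.AbFib
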