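import Pool.Agent.Lib_MP_1209e6_ab.C1

/-! PIECE C2: the moving lemma. -/

set_option autoImplicit false

open Filter Topology

namespace Pool.Agent.AbFib

open Pool.Agent.CampanaFlow MvPolynomial

variable {K : Type} [Field K] [Algebra ℂ K] {n N g : ℕ} {F : Fam n N g K}

/-- a nonzero polynomial does not vanish on a polydisc -/
private theorem exists_near_ne {g : ℕ} (H : MvPolynomial (Fin g) ℂ) (hH : H ≠ 0) (y₀ : Fin g → ℂ)
    (ε : ℝ) (hε : 0 < ε) : ∃ y : Fin g → ℂ, ‖y - y₀‖ ≤ ε ∧ eval y H ≠ 0 := by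
  by_contra hno
  push Not at hno
  refine hH (MvPolynomial.funext_set (fun m => Metric.closedBall (y₀ m) ε) (fun m => ?_) fun y hy => ?_)
  · exact infinite_of_mem_nhds (y₀ m) (Metric.closedBall_mem_nhds _ hε)
  · rw [map_zero]
    refine hno y ((pi_norm_le_iff_of_nonneg hε.le).2 fun m => ?_)
    have h1 := hy m (Set.mem_univ m)
    rwa [mem_closedBall_iff_norm] at h1

/-- For each chart `j'` let `r'` be given by `change_chart r j j'`, so
`aeval (co t x j') r' = (x_j/x_j')^(d+1) aeval (co t x j) r ≠ 0`, and `h_{j'}` from `A.move j' r'`;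
`h = A.c * ∏ j', h_{j'}`. Let `h (u) ≠ 0`, `v ∈ fib u`, `v j' ≠ 0`; replace `v` by `v / v j'`. Take `L` from
`A.minors`, `H` from `move`. By `open_orbit` (at `u₀ = u`, `v₀ = v`) every `y` in a ball around `v ∘ L` is
`w ∘ L` for a point `w` of the orbit in the chart `j'`. If `aeval (u, w) r' = 0` for all of them then `H`
vanishes on a ball (on a product of infinite sets: `MvPolynomial.funext_set`), so `H = 0`, a
contradiction. So some `w` has `aeval (u, w) r' ≠ 0`, and by `change_chart` for `ℂ`: `w j ≠ 0` and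
`aeval (co u w j) r ≠ 0`; `w / w j` is the point. -/
theorem moving (Φ : FlowAPI F) (A : AlgPack F) (j : Fin (N + 1))
    (r : MvPolynomial (Fin n ⊕ Fin (N + 1)) ℂ) (hr : aeval (co F.t F.x j) r ≠ 0) :
    ∃ h : MvPolynomial (Fin n) ℂ, aeval F.t h ≠ 0 ∧ ∀ u, eval u h ≠ 0 → ∀ v ∈ F.fib u,
      ∃ τ w, w ∈ F.fib u ∧ w j = 1 ∧ Φ.Φ u τ (pm v) = pm w ∧ aeval (Sum.elim u w) r ≠ 0 := by
  classical
  choose r' d hd using fun j' => change_chart r j j'
  have hr' : ∀ j', aeval (co F.t F.x j') (r' j') ≠ 0 := by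
    intro j'
    rw [hd j' F.t F.x (F.x_ne j')]
    exact mul_ne_zero (pow_ne_zero _ (div_ne_zero (F.x_ne j) (F.x_ne j'))) hr
  choose h hh0 hh using fun j' => A.move j' (r' j') (hr' j')
  refine ⟨A.c * ∏ j', h j', by
    rw [map_mul, map_prod]
    exact mul_ne_zero A.c_ne (Finset.prod_ne_zero_iff.2 fun j' _ => hh0 j'), ?_⟩
  intro u hu v hv
  rw [map_mul, map_prod] at hu
  have hc : eval u A.c ≠ 0 := left_ne_zero_of_mul hu
  have hhu : ∀ j', eval u (h j') ≠ 0 := fun j' =>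
    Finset.prod_ne_zero_iff.1 (right_ne_zero_of_mul hu) j' (Finset.mem_univ j')
  obtain ⟨j', hj'⟩ := Function.ne_iff.1 hv.1
  have hvj : v j' ≠ 0 := hj'
  have hv1 : (v j')⁻¹ • v ∈ F.fib u := F.fib_smul (inv_ne_zero hvj) hv
  have hv1j : ((v j')⁻¹ • v) j' = 1 := inv_mul_cancel₀ hvj
  have hpm : pm ((v j')⁻¹ • v) = pm v := pm_smul (inv_ne_zero hvj) v
  set v1 := (v j')⁻¹ • v with hv1def
  obtain ⟨L, hL⟩ := A.minors u hc v1 hv1 j' hv1j
  obtain ⟨H, hH0, hH⟩ := hh j' u (hhu j') v1 hv1 hv1j L hL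
  obtain ⟨ρ, κ, δ, C, hρ, hκ, hδ, -, hop⟩ := open_orbit Φ j' L u v1 hv1 hv1j hL
  obtain ⟨y, hy, hyH⟩ := exists_near_ne H hH0 (fun m => v1 (L m)) (κ * ρ) (mul_pos hκ hρ)
  obtain ⟨σ, w, -, hw, hwj, hΦ, hwL, -⟩ := hop u v1 (by simpa using hδ) (by simpa using hδ) hv1 hv1j
    ρ hρ le_rfl y hy
  have hw' : aeval (Sum.elim u w) (r' j') ≠ 0 := by
    intro h0
    apply hyH
    have h1 := hH w hw hwj h0
    have h2 : (fun m => w (L m)) = y := funext hwL
    rwa [h2] at h1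
  have hwj0 : w j' ≠ 0 := by rw [hwj]; exact one_ne_zero
  have h3 := hd j' u w hwj0
  rw [Fam.co_self j' u w hwj] at h3
  rw [h3] at hw'
  have hwjj : w j ≠ 0 := by
    intro h0
    apply hw'
    rw [h0, zero_div, zero_pow (Nat.succ_ne_zero _), zero_mul]
  have h4 := right_ne_zero_of_mul hw'
  have h5 : ((w j)⁻¹ • w) j = 1 := inv_mul_cancel₀ hwjj
  refine ⟨σ, (w j)⁻¹ • w, F.fib_smul (inv_ne_zero hwjj) hw, h5, ?_, ?_⟩
  · rw [← hpm, hΦ, pm_smul (inv_ne_zero hwjj)]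
  · rwa [← Fam.co_self j u _ h5, Fam.co_smul j u w (inv_ne_zero hwjj)]

end Pool.Agent.AbFib
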