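import Pool.Agent.Lib_MP_1209e6_ab.C1

/-! PIECE C3: local transitivity at visible etale points. -/

set_option autoImplicit false

open Filter Topology

namespace Pool.Agent.AbFib

open Pool.Agent.CampanaFlow MvPolynomial

variable {K : Type} [Field K] [Algebra ℂ K] {n N g : ℕ} {F : Fam n N g K}

private theorem cont_aeval {n g : ℕ} (r : MvPolynomial (Fin n ⊕ Fin g) ℂ) :
    Continuous fun p : (Fin n → ℂ) × (Fin g → ℂ) => aeval (Sum.elim p.1 p.2) r := by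
  have h1 : Continuous fun y : Fin n ⊕ Fin g → ℂ => aeval y r := by
    simp only [aeval_eq_eval]
    exact MvPolynomial.continuous_eval r
  refine h1.comp (continuous_pi fun s => ?_)
  cases s with
  | inl a => exact (continuous_apply a).comp continuous_fst
  | inr l => exact (continuous_apply l).comp continuous_snd

/-- the divided difference -/
private noncomputable def DD {n g : ℕ} (G : Polynomial (MvPolynomial (Fin n ⊕ Fin g) ℂ))
    (u : Fin n → ℂ) (y : Fin g → ℂ) (a b : ℂ) : ℂ :=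
  ∑ k ∈ Finset.range (G.natDegree + 1), aeval (Sum.elim u y) (G.coeff k) *
    ∑ i ∈ Finset.range k, a ^ i * b ^ (k - 1 - i)

private theorem DD_mul {n g : ℕ} (G : Polynomial (MvPolynomial (Fin n ⊕ Fin g) ℂ))
    (u : Fin n → ℂ) (y : Fin g → ℂ) (a b : ℂ) :
    DD G u y a b * (a - b) = G.eval₂ (aeval (Sum.elim u y)).toRingHom a -
      G.eval₂ (aeval (Sum.elim u y)).toRingHom b := by
  rw [Polynomial.eval₂_eq_sum_range, Polynomial.eval₂_eq_sum_range, ← Finset.sum_sub_distrib, DD,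
    Finset.sum_mul]
  refine Finset.sum_congr rfl fun k _ => ?_
  rw [mul_assoc, geom_sum₂_mul, mul_sub]
  rfl

private theorem DD_self {n g : ℕ} (G : Polynomial (MvPolynomial (Fin n ⊕ Fin g) ℂ))
    (u : Fin n → ℂ) (y : Fin g → ℂ) (a : ℂ) :
    DD G u y a a = (Polynomial.derivative G).eval₂ (aeval (Sum.elim u y)).toRingHom a := by
  have h1 : (Polynomial.derivative G) = ∑ k ∈ Finset.range (G.natDegree + 1),
      Polynomial.C (G.coeff k * (k : MvPolynomial (Fin n ⊕ Fin g) ℂ)) * Polynomial.X ^ (k - 1) := by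
    conv_lhs => rw [G.as_sum_range_C_mul_X_pow]
    rw [Polynomial.derivative_sum]
    refine Finset.sum_congr rfl fun k _ => ?_
    rw [Polynomial.derivative_C_mul_X_pow]
  rw [h1, Polynomial.eval₂_finset_sum, DD]
  refine Finset.sum_congr rfl fun k _ => ?_
  have h2 : ∑ i ∈ Finset.range k, a ^ i * a ^ (k - 1 - i) = (k : ℂ) * a ^ (k - 1) := by
    rw [Finset.sum_congr rfl (g := fun _ => a ^ (k - 1)), Finset.sum_const, Finset.card_range,
      nsmul_eq_mul]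
    intro i hi
    rw [← pow_add]
    congr 1
    have := Finset.mem_range.1 hi
    omega
  rw [h2, Polynomial.eval₂_mul, Polynomial.eval₂_C, Polynomial.eval₂_pow, Polynomial.eval₂_X,
    map_mul, map_natCast, mul_assoc]
  rfl

private theorem DD_cont {n g : ℕ} (G : Polynomial (MvPolynomial (Fin n ⊕ Fin g) ℂ)) :
    Continuous fun p : ((Fin n → ℂ) × (Fin g → ℂ)) × ℂ × ℂ => DD G p.1.1 p.1.2 p.2.1 p.2.2 := by
  refine continuous_finset_sum _ fun k _ => ?_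
  refine ((cont_aeval (G.coeff k)).comp continuous_fst).mul ?_
  refine continuous_finset_sum _ fun i _ => ?_
  exact ((continuous_fst.comp continuous_snd).pow _).mul ((continuous_snd.comp continuous_snd).pow _)

/-- A simple root is locally unique: `G (Y) - G (Y') = (Y - Y') H (Y, Y')` with `H` a polynomial in
`Y, Y'` and the coefficients, `H (Y, Y) = G' (Y)`, so `H ≠ 0` near `(u₀, v₀)` by continuity. Applied to all
`l`. -/
theorem etale_unique (A : AlgPack F) (u₀ : Fin n → ℂ) (v₀ : Fin (N + 1) → ℂ) (h₀ : v₀ ∈ F.fib u₀)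
    (hj : v₀ 0 = 1) (hf : aeval (Sum.elim u₀ v₀) A.f ≠ 0) :
    ∃ δ > 0, ∀ (u : Fin n → ℂ) (v v' : Fin (N + 1) → ℂ), ‖u - u₀‖ < δ → ‖v - v₀‖ < δ →
      ‖v' - v₀‖ < δ → v ∈ F.fib u → v' ∈ F.fib u → v 0 = 1 → v' 0 = 1 →
      (∀ m, v (A.L m) = v' (A.L m)) → v = v' := by
  have h1 : ∀ᶠ p : (Fin n → ℂ) × (Fin (N + 1) → ℂ) × (Fin (N + 1) → ℂ) in 𝓝 (u₀, v₀, v₀), ∀ l,
      DD (A.G l) p.1 (fun m => p.2.1 (A.L m)) (p.2.1 l) (p.2.2 l) ≠ 0 := by
    rw [eventually_all]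
    intro l
    have hc : Continuous fun p : (Fin n → ℂ) × (Fin (N + 1) → ℂ) × (Fin (N + 1) → ℂ) =>
        DD (A.G l) p.1 (fun m => p.2.1 (A.L m)) (p.2.1 l) (p.2.2 l) := by
      refine (DD_cont (A.G l)).comp (f := fun p : (Fin n → ℂ) × (Fin (N + 1) → ℂ) ×
        (Fin (N + 1) → ℂ) => ((p.1, fun m => p.2.1 (A.L m)), p.2.1 l, p.2.2 l)) ?_
      refine (continuous_fst.prodMk (continuous_pi fun m => ?_)).prodMk (Continuous.prodMk ?_ ?_)
      · exact (continuous_apply _).comp (continuous_fst.comp continuous_snd)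
      · exact (continuous_apply _).comp (continuous_fst.comp continuous_snd)
      · exact (continuous_apply _).comp (continuous_snd.comp continuous_snd)
    refine (hc.tendsto _).eventually_ne ?_
    change DD (A.G l) u₀ (fun m => v₀ (A.L m)) (v₀ l) (v₀ l) ≠ 0
    rw [DD_self]
    exact (A.simple u₀ v₀ h₀ hj hf).2 l
  obtain ⟨δ, hδ, h2⟩ := Metric.eventually_nhds_iff.1 h1
  refine ⟨δ, hδ, fun u v v' hu hv hv' hvf hvf' hv0 hv0' hL => ?_⟩
  have h3 : dist (u, v, v') (u₀, v₀, v₀) < δ := by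
    rw [Prod.dist_eq, Prod.dist_eq, dist_eq_norm, dist_eq_norm, dist_eq_norm]
    exact max_lt hu (max_lt hv hv')
  have h4 := h2 h3
  funext l
  have h5 := DD_mul (A.G l) u (fun m => v (A.L m)) (v l) (v' l)
  have h6 : (fun m => v (A.L m)) = fun m => v' (A.L m) := funext hL
  have h7 := A.root l u v' hvf' hv0'
  rw [← h6] at h7
  rw [A.root l u v hvf hv0, h7, sub_zero] at h5
  exact sub_eq_zero.1 ((mul_eq_zero.1 h5).resolve_left (h4 l))

/-- `open_orbit` for `A.L` (`A.simple` gives the minor), with `y = v' ∘ A.L`, `ε' = ‖y - v ∘ A.L‖ / κ` small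
(if it is `0` use any small `ε'`, or `σ = 0`, `Φ.zero`), gives `w` in the orbit of `v` with
`w ∘ A.L = v' ∘ A.L` and `w` near `v₀`, so `w = v'` by `etale_unique`. For general `v, v'` near `v₀` in the
cone divide by the coordinate `0` (`fib_smul`, `pm_smul`). -/
theorem lt_etale (Φ : FlowAPI F) (A : AlgPack F) (u₀ : Fin n → ℂ) (v₀ : Fin (N + 1) → ℂ)
    (h₀ : v₀ ∈ F.fib u₀) (hj : v₀ 0 = 1) (hf : aeval (Sum.elim u₀ v₀) A.f ≠ 0) : LT Φ u₀ v₀ := by
  obtain ⟨r, κ, δ₁, C, hr, hκ, hδ₁, hC, hop⟩ := open_orbit Φ 0 A.L u₀ v₀ h₀ hj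
    (A.simple u₀ v₀ h₀ hj hf).1
  obtain ⟨δ₂, hδ₂, huniq⟩ := etale_unique A u₀ v₀ h₀ hj hf
  intro ε hε
  set ε' : ℝ := min (ε / 2) (min r (δ₂ / (2 * (C + 1)))) with hε'
  have hε'0 : 0 < ε' := lt_min (by positivity) (lt_min hr (by positivity))
  have hε'1 : ε' < ε := (min_le_left _ _).trans_lt (by linarith)
  have hε'2 : ε' ≤ r := (min_le_right _ _).trans (min_le_left _ _)
  have hε'3 : C * ε' ≤ δ₂ / 2 := by
    have h1 : ε' ≤ δ₂ / (2 * (C + 1)) := (min_le_right _ _).trans (min_le_right _ _)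
    have h2 : ε' * (2 * (C + 1)) ≤ δ₂ := (le_div_iff₀ (by positivity)).1 h1
    nlinarith
  set η : ℝ := min δ₁ (min (δ₂ / 2) (κ * ε' / 2)) with hη
  have hη0 : 0 < η := lt_min hδ₁ (lt_min (by positivity) (by positivity))
  have hη1 : η ≤ δ₁ := min_le_left _ _
  have hη2 : η ≤ δ₂ / 2 := (min_le_right _ _).trans (min_le_left _ _)
  have hη3 : η ≤ κ * ε' / 2 := (min_le_right _ _).trans (min_le_right _ _)
  have hc : Tendsto (fun v : Fin (N + 1) → ℂ => (v 0)⁻¹ • v) (𝓝 v₀) (𝓝 v₀) := by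
    have h1 : Tendsto (fun v : Fin (N + 1) → ℂ => v 0) (𝓝 v₀) (𝓝 (v₀ 0)) :=
      (continuous_apply 0).tendsto _
    have h2 := (h1.inv₀ (by rw [hj]; exact one_ne_zero)).smul (tendsto_id (x := 𝓝 v₀))
    rw [hj, inv_one, one_smul] at h2
    exact h2
  have hev : ∀ᶠ v : Fin (N + 1) → ℂ in 𝓝 v₀, v 0 ≠ 0 ∧ ‖(v 0)⁻¹ • v - v₀‖ < η := by
    have h1 : Tendsto (fun v : Fin (N + 1) → ℂ => v 0) (𝓝 v₀) (𝓝 (v₀ 0)) :=
      (continuous_apply 0).tendsto _
    have h2 := Metric.tendsto_nhds.1 hc η hη0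
    filter_upwards [h1.eventually_ne (by rw [hj]; exact one_ne_zero), h2] with v hv hv'
    rw [dist_eq_norm] at hv'
    exact ⟨hv, hv'⟩
  obtain ⟨δ₃, hδ₃, h3⟩ := Metric.eventually_nhds_iff.1 hev
  refine ⟨min δ₃ η, lt_min hδ₃ hη0, fun u v v' hu hv hv' hvf hvf' => ?_⟩
  have hu1 : ‖u - u₀‖ < η := hu.trans_le (min_le_right _ _)
  have hv1 := h3 (y := v) (by rw [dist_eq_norm]; exact hv.trans_le (min_le_left _ _))
  have hv2 := h3 (y := v') (by rw [dist_eq_norm]; exact hv'.trans_le (min_le_left _ _))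
  set v₁ := (v 0)⁻¹ • v with hv₁
  set v₂ := (v' 0)⁻¹ • v' with hv₂
  have hf1 : v₁ ∈ F.fib u := F.fib_smul (inv_ne_zero hv1.1) hvf
  have hf2 : v₂ ∈ F.fib u := F.fib_smul (inv_ne_zero hv2.1) hvf'
  have h10 : v₁ 0 = 1 := inv_mul_cancel₀ hv1.1
  have h20 : v₂ 0 = 1 := inv_mul_cancel₀ hv2.1
  have hy : ‖(fun m => v₂ (A.L m)) - fun m => v₁ (A.L m)‖ ≤ κ * ε' := by
    rw [pi_norm_le_iff_of_nonneg (by positivity)]
    intro m
    have h4 : ‖v₂ (A.L m) - v₁ (A.L m)‖ ≤ ‖v₂ - v₁‖ := norm_le_pi_norm (v₂ - v₁) (A.L m)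
    have h5 : ‖v₂ - v₁‖ ≤ ‖v₂ - v₀‖ + ‖v₁ - v₀‖ := by
      have := norm_sub_le (v₂ - v₀) (v₁ - v₀)
      rwa [sub_sub_sub_cancel_right] at this
    change ‖v₂ (A.L m) - v₁ (A.L m)‖ ≤ κ * ε'
    linarith [hv1.2, hv2.2]
  obtain ⟨σ, w, hσ, hwf, hw0, hΦ, hwL, hwn⟩ := hop u v₁ (by linarith) (by linarith [hv1.2]) hf1 h10 ε'
    hε'0 hε'2 (fun m => v₂ (A.L m)) hy
  have hw : w = v₂ := by
    refine huniq u w v₂ (by linarith) ?_ (by linarith [hv2.2]) hwf hf2 hw0 h20 hwL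
    have h5 := norm_add_le (w - v₁) (v₁ - v₀)
    rw [sub_add_sub_cancel] at h5
    linarith [hv1.2]
  refine ⟨σ, hσ.trans_lt hε'1, ?_⟩
  rw [hv₁, pm_smul (inv_ne_zero hv1.1)] at hΦ
  rw [hΦ, hw, hv₂, pm_smul (inv_ne_zero hv2.1)]

end Pool.Agent.AbFib
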