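import Pool.Agent.Lib_MP_1209e6_ab.C1

/-! PIECE C4: local injectivity; times are holomorphic. -/

set_option autoImplicit false

open Filter Topology

namespace Pool.Agent.AbFib

open Pool.Agent.CampanaFlow MvPolynomial

variable {K : Type} [Field K] [Algebra ℂ K] {n N g : ℕ} {F : Fam n N g K}

/-- the matrix of a nonvanishing minor and its inverse as continuous linear maps -/
theorem exists_inv (j : Fin (N + 1)) (L : Fin g → Fin (N + 1)) (u₀ : Fin n → ℂ)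
    (v₀ : Fin (N + 1) → ℂ) (hL : F.minor j L u₀ v₀ ≠ 0) :
    ∃ A₀ A₁ : (Fin g → ℂ) →L[ℂ] (Fin g → ℂ),
      (∀ σ m, A₀ σ m = ∑ i, σ i * aeval (Sum.elim u₀ v₀) (F.P i j (L m))) ∧ ∀ y, A₁ (A₀ y) = y := by
  classical
  set Mx : Matrix (Fin g) (Fin g) ℂ :=
    Matrix.of fun i m => aeval (Sum.elim u₀ v₀) (F.P i j (L m)) with hMx
  have hdet : IsUnit Mx.det := isUnit_iff_ne_zero.2 hL
  refine ⟨LinearMap.toContinuousLinearMap (Matrix.vecMulLinear Mx),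
    LinearMap.toContinuousLinearMap (Matrix.vecMulLinear Mx⁻¹), fun σ m => rfl, fun y => ?_⟩
  change Matrix.vecMul (Matrix.vecMul y Mx) Mx⁻¹ = y
  rw [Matrix.vecMul_vecMul, Matrix.mul_nonsing_inv _ hdet, Matrix.vecMul_one]

/-- estimate of a sum -/
theorem sum_le {g : ℕ} (σ c : Fin g → ℂ) (η : ℝ) (hη : 0 ≤ η) (h : ∀ i, ‖c i‖ ≤ η) :
    ‖∑ i, σ i * c i‖ ≤ g * η * ‖σ‖ := by
  refine (norm_sum_le _ _).trans ?_
  have h3 : ∀ i ∈ Finset.univ, ‖σ i * c i‖ ≤ η * ‖σ‖ := by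
    intro i _
    rw [norm_mul, mul_comm]
    exact mul_le_mul (h i) (norm_le_pi_norm σ i) (norm_nonneg _) hη
  refine (Finset.sum_le_sum h3).trans ?_
  rw [Finset.sum_const, Finset.card_univ, Fintype.card_fin, nsmul_eq_mul]
  exact le_of_eq (by ring)

/-- Key estimate: if the increment of the coordinates `L` is `d` up to `C₀ ‖σ‖²`, then `σ` is `A₁ d` up to a
small multiple of `‖σ‖`. -/
theorem key_est (j : Fin (N + 1)) (L : Fin g → Fin (N + 1)) (u₀ : Fin n → ℂ)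
    (v₀ : Fin (N + 1) → ℂ) (A₀ A₁ : (Fin g → ℂ) →L[ℂ] (Fin g → ℂ))
    (h0 : ∀ σ m, A₀ σ m = ∑ i, σ i * aeval (Sum.elim u₀ v₀) (F.P i j (L m)))
    (h1 : ∀ y, A₁ (A₀ y) = y) (C₀ : ℝ) (hC₀ : 0 ≤ C₀) (ε : ℝ) (hε : 0 < ε) :
    ∃ δ > 0, ∀ (u : Fin n → ℂ) (v : Fin (N + 1) → ℂ) (σ d : Fin g → ℂ), ‖u - u₀‖ < δ →
      ‖v - v₀‖ < δ → ‖σ‖ < δ →
      (∀ m, ‖d m - ∑ i, σ i * aeval (Sum.elim u v) (F.P i j (L m))‖ ≤ C₀ * ‖σ‖ ^ 2) →
      ‖σ - A₁ d‖ ≤ ε * ‖σ‖ := by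
  set nn : ℝ := ‖A₁‖ + 1 with hnn
  have hnn0 : 0 < nn := by positivity
  obtain ⟨δ, hδ, hnear⟩ := coeff_near (fun i => F.P i j) u₀ v₀ (ε / (2 * nn * (g + 1)))
    (by positivity)
  refine ⟨min δ (ε / (2 * nn * (C₀ + 1))), lt_min hδ (by positivity), fun u v σ d hu hv hσ hd => ?_⟩
  have hu' := hu.trans_le (min_le_left _ _)
  have hv' := hv.trans_le (min_le_left _ _)
  have hσ' := hσ.trans_le (min_le_right _ _)
  have e1 : σ - A₁ d = A₁ (A₀ σ - d) := by rw [map_sub, h1]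
  rw [e1]
  refine (A₁.le_opNorm _).trans ?_
  have h2 : ‖A₀ σ - d‖ ≤ (ε / nn) * ‖σ‖ := by
    rw [pi_norm_le_iff_of_nonneg (by positivity)]
    intro m
    have e2 : (A₀ σ - d) m = ∑ i, σ i * (aeval (Sum.elim u₀ v₀) (F.P i j (L m)) -
        aeval (Sum.elim u v) (F.P i j (L m))) -
        (d m - ∑ i, σ i * aeval (Sum.elim u v) (F.P i j (L m))) := by
      rw [Pi.sub_apply, h0]
      simp only [mul_sub, Finset.sum_sub_distrib]
      ring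
    rw [e2]
    refine (norm_sub_le _ _).trans ?_
    have h3 := sum_le σ (fun i => aeval (Sum.elim u₀ v₀) (F.P i j (L m)) -
        aeval (Sum.elim u v) (F.P i j (L m))) (ε / (2 * nn * (g + 1))) (by positivity)
        (fun i => by rw [norm_sub_rev]; exact (hnear u v hu' hv' i (L m)).le)
    have h4 : (g : ℝ) * (ε / (2 * nn * (g + 1))) ≤ ε / nn / 2 := by
      rw [mul_div_assoc', div_div, div_le_div_iff₀ (by positivity) (by positivity)]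
      have : 0 ≤ ε * nn := by positivity
      nlinarith
    have h5 : C₀ * ‖σ‖ ≤ ε / nn / 2 := by
      have h6 : C₀ * ‖σ‖ ≤ C₀ * (ε / (2 * nn * (C₀ + 1))) := mul_le_mul_of_nonneg_left hσ'.le hC₀
      refine h6.trans ?_
      rw [mul_div_assoc', div_div, div_le_div_iff₀ (by positivity) (by positivity)]
      have : 0 ≤ ε * nn := by positivity
      nlinarith
    have h7 := hd m
    have h8 := norm_nonneg σ
    have h9 : (g : ℝ) * (ε / (2 * nn * (g + 1))) * ‖σ‖ ≤ ε / nn / 2 * ‖σ‖ :=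
      mul_le_mul_of_nonneg_right h4 h8
    have h10 : C₀ * ‖σ‖ ^ 2 ≤ ε / nn / 2 * ‖σ‖ := by
      have := mul_le_mul_of_nonneg_right h5 h8
      nlinarith
    linarith
  have h3 : ‖A₁‖ * ‖A₀ σ - d‖ ≤ nn * ((ε / nn) * ‖σ‖) :=
    mul_le_mul (by rw [hnn]; linarith) h2 (norm_nonneg _) hnn0.le
  refine h3.trans (le_of_eq ?_)
  field_simp

/-- continuity of the normalisation -/
theorem norm_near {N : ℕ} (j : Fin (N + 1)) (v₀ : Fin (N + 1) → ℂ) (hj : v₀ j ≠ 0) (δ : ℝ)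
    (hδ : 0 < δ) : ∃ δ' > 0, ∀ v : Fin (N + 1) → ℂ, ‖v - v₀‖ < δ' →
      v j ≠ 0 ∧ ‖(v j)⁻¹ • v - (v₀ j)⁻¹ • v₀‖ < δ := by
  have h1 : ContinuousAt (fun v : Fin (N + 1) → ℂ => v j) v₀ := (continuous_apply j).continuousAt
  have h2 : ContinuousAt (fun v : Fin (N + 1) → ℂ => (v j)⁻¹ • v) v₀ :=
    (h1.inv₀ hj).smul continuousAt_id
  have h3 : ∀ᶠ v in 𝓝 v₀, v j ≠ 0 ∧ ‖(v j)⁻¹ • v - (v₀ j)⁻¹ • v₀‖ < δ := by
    filter_upwards [h1.eventually_ne hj, Metric.tendsto_nhds.1 h2 δ hδ] with v hv hv'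
    exact ⟨hv, by rwa [dist_eq_norm] at hv'⟩
  obtain ⟨δ', hδ', h⟩ := Metric.eventually_nhds_iff.1 h3
  exact ⟨δ', hδ', fun v hv => h (by rwa [dist_eq_norm])⟩

/-- Local injectivity from a nonvanishing minor. -/
theorem li_of_minor (Φ : FlowAPI F) (u₀ : Fin n → ℂ) (v₀ : Fin (N + 1) → ℂ) (h₀ : v₀ ∈ F.fib u₀)
    (hm : ∀ v ∈ F.fib u₀, ∀ j, v j = 1 → ∃ L : Fin g → Fin (N + 1), F.minor j L u₀ v ≠ 0) :
    LI Φ u₀ v₀ := by
  obtain ⟨j, hj⟩ := Function.ne_iff.1 h₀.1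
  have hj' : v₀ j ≠ 0 := hj
  set v₁ : Fin (N + 1) → ℂ := (v₀ j)⁻¹ • v₀ with hv₁
  have hv₁j : v₁ j = 1 := inv_mul_cancel₀ hj'
  obtain ⟨L, hL⟩ := hm v₁ (F.fib_smul (inv_ne_zero hj') h₀) j hv₁j
  obtain ⟨A₀, A₁, hA₀, hA₁⟩ := exists_inv j L u₀ v₁ hL
  obtain ⟨ρ, C₀, hρ, hC₀, hexp⟩ := Φ.expand (‖u₀‖ + ‖v₁‖ + 1)
  obtain ⟨δ, hδ, hest⟩ := key_est (F := F) j L u₀ v₁ A₀ A₁ hA₀ hA₁ C₀ hC₀ (1 / 2) (by norm_num)
  obtain ⟨δ', hδ', hnorm⟩ := norm_near j v₀ hj' (min δ 1) (lt_min hδ one_pos)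
  refine ⟨min (min δ δ') (min ρ 1), lt_min (lt_min hδ hδ') (lt_min hρ one_pos),
    fun u v σ hu hv hvf hσ hΦ => ?_⟩
  obtain ⟨hvj, hvn⟩ := hnorm v (hv.trans_le ((min_le_left _ _).trans (min_le_right _ _)))
  set w : Fin (N + 1) → ℂ := (v j)⁻¹ • v with hw
  have hwj : w j = 1 := inv_mul_cancel₀ hvj
  have hwf : w ∈ F.fib u := F.fib_smul (inv_ne_zero hvj) hvf
  have hpw : pm w = pm v := pm_smul (inv_ne_zero hvj) v
  have hun : ‖u‖ ≤ ‖u₀‖ + ‖v₁‖ + 1 := by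
    have h1 := norm_sub_norm_le u u₀
    have h2 := norm_nonneg v₁
    have h3 := hu.trans_le ((min_le_right _ _).trans (min_le_right _ _))
    linarith
  have hwn : ‖w‖ ≤ ‖u₀‖ + ‖v₁‖ + 1 := by
    have h1 := norm_sub_norm_le w v₁
    have h2 := norm_nonneg u₀
    have h3 := hvn.trans_le (min_le_right _ _)
    linarith
  obtain ⟨w', k1, k2, k3, k4⟩ := hexp j u w σ hun hwn hwf hwj
    (hσ.le.trans ((min_le_right _ _).trans (min_le_left _ _)))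
  have hww : w' = w := by
    refine pm_inj k2 hwj ?_
    rw [← k3, hpw, hΦ]
  rw [hww] at k4
  have h5 := hest u w σ 0 (hu.trans_le ((min_le_left _ _).trans (min_le_left _ _)))
    (hvn.trans_le (min_le_left _ _)) (hσ.trans_le ((min_le_left _ _).trans (min_le_left _ _)))
    (fun m => by
      have := k4 (L m)
      rwa [sub_self] at this)
  rw [map_zero, sub_zero] at h5
  have h6 := norm_nonneg σ
  exact norm_eq_zero.1 (by linarith)

/-- analytic normalisation of a representative -/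
theorem analyticAt_normalize {N : ℕ} {v : ℂ → Fin (N + 1) → ℂ} {z : ℂ} (hv : AnalyticAt ℂ v z)
    (j : Fin (N + 1)) (hj : v z j ≠ 0) : AnalyticAt ℂ (fun y => (v y j)⁻¹ • v y) z := by
  have h1 : AnalyticAt ℂ (fun y => v y j) z := by
    have := analyticAt_pi_iff.1 hv
    exact this j
  exact (h1.inv hj).smul hv

/-- Times are holomorphic. -/
theorem ht_of_minor (Φ : FlowAPI F) (u : ℂ → Fin n → ℂ) (a b : ℂ → PS N) (σ : ℂ → Fin g → ℂ) (z : ℂ)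
    (hu : AnalyticAt ℂ u z) (ha : F.Sec u a z) (hb : F.Sec u b z)
    (hm : ∀ v ∈ F.fib (u z), ∀ j, v j = 1 → ∃ L : Fin g → Fin (N + 1), F.minor j L (u z) v ≠ 0)
    (hσ : ContinuousAt σ z) (h0 : σ z = 0) (h : ∀ᶠ y in 𝓝 z, Φ.Φ (u y) (σ y) (a y) = b y) :
    DifferentiableAt ℂ σ z := by
  obtain ⟨⟨v₁, hv₁, hv₁0, hav⟩, haP⟩ := ha
  obtain ⟨⟨w₁, hw₁, hw₁0, hbw⟩, hbP⟩ := hb
  obtain ⟨j, hj⟩ := Function.ne_iff.1 hv₁0
  have hj' : v₁ z j ≠ 0 := hj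
  have hab : pm (w₁ z) = pm (v₁ z) := by
    rw [← hav.self_of_nhds, ← hbw.self_of_nhds, ← h.self_of_nhds, h0,
      Φ.zero _ _ haP.self_of_nhds]
  have hjw : w₁ z j ≠ 0 := by
    obtain ⟨c, hc, hc1⟩ := pm_eq_iff.1 hab
    rw [hc1]
    exact mul_ne_zero hc hj'
  set v : ℂ → Fin (N + 1) → ℂ := fun y => (v₁ y j)⁻¹ • v₁ y with hv
  set w : ℂ → Fin (N + 1) → ℂ := fun y => (w₁ y j)⁻¹ • w₁ y with hw
  have hva : AnalyticAt ℂ v z := analyticAt_normalize hv₁ j hj'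
  have hwa : AnalyticAt ℂ w z := analyticAt_normalize hw₁ j hjw
  have hv₁j : ∀ᶠ y in 𝓝 z, v₁ y j ≠ 0 :=
    ((continuous_apply j).continuousAt.comp hv₁.continuousAt).eventually_ne hj'
  have hw₁j : ∀ᶠ y in 𝓝 z, w₁ y j ≠ 0 :=
    ((continuous_apply j).continuousAt.comp hw₁.continuousAt).eventually_ne hjw
  have hvj : ∀ᶠ y in 𝓝 z, v y j = 1 ∧ a y = pm (v y) ∧ v y ∈ F.fib (u y) := by
    filter_upwards [hv₁j, hav, haP] with y h1 h2 h3
    have h4 : pm (v y) = pm (v₁ y) := pm_smul (inv_ne_zero h1) _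
    have h5 : a y = pm (v y) := by rw [h4, h2]
    refine ⟨inv_mul_cancel₀ h1, h5, ?_⟩
    rw [h5] at h3
    exact F.pm_mem_iff.1 h3
  have hwj : ∀ᶠ y in 𝓝 z, w y j = 1 ∧ b y = pm (w y) := by
    filter_upwards [hw₁j, hbw] with y h1 h2
    have h4 : pm (w y) = pm (w₁ y) := pm_smul (inv_ne_zero h1) _
    exact ⟨inv_mul_cancel₀ h1, by rw [h4, h2]⟩
  have hvz := hvj.self_of_nhds
  have hwz := hwj.self_of_nhds
  have hvw : w z = v z := by
    refine pm_inj hwz.1 hvz.1 ?_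
    rw [← hwz.2, ← hvz.2.1, ← h.self_of_nhds, h0, Φ.zero _ _ haP.self_of_nhds]
  obtain ⟨L, hL⟩ := hm (v z) hvz.2.2 j hvz.1
  obtain ⟨A₀, A₁, hA₀, hA₁⟩ := exists_inv j L (u z) (v z) hL
  obtain ⟨ρ, C₀, hρ, hC₀, hexp⟩ := Φ.expand (‖u z‖ + ‖v z‖ + 1)
  -- the increments
  let d : ℂ → Fin g → ℂ := fun y m => w y (L m) - v y (L m)
  have hd : DifferentiableAt ℂ d z := by
    have h1 := hva.differentiableAt
    have h2 := hwa.differentiableAt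
    rw [differentiableAt_pi] at h1 h2 ⊢
    exact fun m => (h2 (L m)).sub (h1 (L m))
  have hdz : d z = 0 := by
    funext m
    change w z (L m) - v z (L m) = 0
    rw [hvw, sub_self]
  have hun : ∀ᶠ y in 𝓝 z, ‖u y‖ ≤ ‖u z‖ + ‖v z‖ + 1 := by
    have h1 : ∀ᶠ y in 𝓝 z, ‖u y‖ < ‖u z‖ + ‖v z‖ + 1 := by
      refine hu.continuousAt.norm.eventually_lt continuousAt_const ?_
      have := norm_nonneg (v z)
      linarith
    exact h1.mono fun y hy => hy.le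
  have hvn : ∀ᶠ y in 𝓝 z, ‖v y‖ ≤ ‖u z‖ + ‖v z‖ + 1 := by
    have h1 : ∀ᶠ y in 𝓝 z, ‖v y‖ < ‖u z‖ + ‖v z‖ + 1 := by
      refine hva.continuousAt.norm.eventually_lt continuousAt_const ?_
      have := norm_nonneg (u z)
      linarith
    exact h1.mono fun y hy => hy.le
  have hσn : ∀ δ > 0, ∀ᶠ y in 𝓝 z, ‖σ y‖ < δ := by
    intro δ hδ
    have h1 := Metric.tendsto_nhds.1 hσ δ hδ
    filter_upwards [h1] with y hy
    rwa [h0, dist_zero_right] at hy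
  have hud : ∀ δ > 0, ∀ᶠ y in 𝓝 z, ‖u y - u z‖ < δ := by
    intro δ hδ
    filter_upwards [Metric.tendsto_nhds.1 hu.continuousAt δ hδ] with y hy
    rwa [dist_eq_norm] at hy
  have hvd : ∀ δ > 0, ∀ᶠ y in 𝓝 z, ‖v y - v z‖ < δ := by
    intro δ hδ
    filter_upwards [Metric.tendsto_nhds.1 hva.continuousAt δ hδ] with y hy
    rwa [dist_eq_norm] at hy
  have hexp' : ∀ᶠ y in 𝓝 z, ∀ m,
      ‖d y m - ∑ i, σ y i * aeval (Sum.elim (u y) (v y)) (F.P i j (L m))‖ ≤ C₀ * ‖σ y‖ ^ 2 := by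
    filter_upwards [hun, hvn, hvj, hwj, h, hσn ρ hρ] with y h1 h2 h3 h4 h5 h6 m
    obtain ⟨w', k1, k2, k3, k4⟩ := hexp j (u y) (v y) (σ y) h1 h2 h3.2.2 h3.1 h6.le
    have hww : w' = w y := by
      refine pm_inj k2 h4.1 ?_
      rw [← k3, ← h3.2.1, h5, h4.2]
    rw [hww] at k4
    exact k4 (L m)
  have hkey : ∀ ε > 0, ∀ᶠ y in 𝓝 z, ‖σ y - A₁ (d y)‖ ≤ ε * ‖σ y‖ := by
    intro ε hε
    obtain ⟨δ, hδ, hest⟩ := key_est (F := F) j L (u z) (v z) A₀ A₁ hA₀ hA₁ C₀ hC₀ ε hε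
    filter_upwards [hud δ hδ, hvd δ hδ, hσn δ hδ, hexp'] with y h1 h2 h3 h4
    exact hest (u y) (v y) (σ y) (d y) h1 h2 h3 h4
  -- `σ = O (y - z)`
  have hA₁d : DifferentiableAt ℂ (fun y => A₁ (d y)) z := A₁.differentiableAt.comp z hd
  have hbig : (fun y => A₁ (d y)) =O[𝓝 z] fun y => y - z := by
    have h1 := hA₁d.isBigO_sub
    refine h1.congr_left fun y => ?_
    rw [hdz, map_zero, sub_zero]
  have hσO : σ =O[𝓝 z] fun y => y - z := by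
    refine Asymptotics.IsBigO.trans ?_ hbig
    refine Asymptotics.IsBigO.of_bound 2 ?_
    filter_upwards [hkey (1 / 2) (by norm_num)] with y hy
    have h1 := norm_sub_norm_le (σ y) (A₁ (d y))
    linarith
  have hlit : (fun y => σ y - A₁ (d y)) =o[𝓝 z] fun y => y - z := by
    refine Asymptotics.IsLittleO.trans_isBigO ?_ hσO
    rw [Asymptotics.isLittleO_iff]
    intro ε hε
    exact hkey ε hε
  have hder : HasDerivAt (fun y => σ y - A₁ (d y)) 0 z := by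
    rw [hasDerivAt_iff_isLittleO]
    refine hlit.congr_left fun y => ?_
    rw [h0, hdz, map_zero, sub_zero, smul_zero, sub_zero, sub_zero]
  have := hder.differentiableAt.add hA₁d
  refine this.congr_of_eventuallyEq (Eventually.of_forall fun y => ?_)
  exact (sub_add_cancel _ _).symm

end Pool.Agent.AbFib
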