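import Pool.Agent.Lib_MP_1209e6_ab.C2
import Pool.Agent.Lib_MP_1209e6_ab.C3
import Pool.Agent.Lib_MP_1209e6_ab.C4

/-! PIECE C5: the good parameters. -/

set_option autoImplicit false

open Filter Topology

namespace Pool.Agent.AbFib

open Pool.Agent.CampanaFlow MvPolynomial

variable {K : Type} [Field K] [Algebra ℂ K] {n N g : ℕ} {F : Fam n N g K}

/-- Transport of local transitivity. `Φ u₀ τ (pm v₀) = pm w₀`. By `Φ.lim` (filter
`𝓝 (u₀, v₀)` restricted to `v ∈ fib u`, constant time `τ`) the points `Φ u τ (pm v)`, `Φ u τ (pm v')` have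
representatives near a multiple `w₀'` of `w₀` for `(u, v)`, `(u, v')` near `(u₀, v₀)`; by `LT Φ u₀ w₀` (after
rescaling the representatives) `Φ u σ (Φ u τ (pm v)) = Φ u τ (pm v')` with `‖σ‖ < ε`. Apply
`Φ u (-τ)` and `Φ.add`: `Φ u σ (pm v) = pm v'`. -/
theorem lt_transport (Φ : FlowAPI F) (u₀ : Fin n → ℂ) (v₀ w₀ : Fin (N + 1) → ℂ) (τ : Fin g → ℂ)
    (h₀ : v₀ ∈ F.fib u₀) (h : Φ.Φ u₀ τ (pm v₀) = pm w₀) (hw : LT Φ u₀ w₀) : LT Φ u₀ v₀ := by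
  intro ε hε
  obtain ⟨δ', hδ', hlt⟩ := hw ε hε
  set f : Filter ((Fin n → ℂ) × (Fin (N + 1) → ℂ)) :=
    𝓝 (u₀, v₀) ⊓ 𝓟 {p | p.2 ∈ F.fib p.1} with hf
  have hfst : Tendsto (fun p : (Fin n → ℂ) × (Fin (N + 1) → ℂ) => p.1) f (𝓝 u₀) :=
    (continuous_fst.tendsto (u₀, v₀)).mono_left inf_le_left
  have hsnd : Tendsto (fun p : (Fin n → ℂ) × (Fin (N + 1) → ℂ) => p.2) f (𝓝 v₀) :=
    (continuous_snd.tendsto (u₀, v₀)).mono_left inf_le_left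
  have hmem : ∀ᶠ p in f, p.2 ∈ F.fib p.1 := by
    rw [hf]
    exact eventually_inf_principal.2 (Eventually.of_forall fun p hp => hp)
  obtain ⟨w, w₀', hw1, hw2, hw3, hw4⟩ := Φ.lim f (fun p => p.1) (fun _ => τ) (fun p => p.2) u₀ τ v₀
    hfst tendsto_const_nhds hsnd hmem h₀
  obtain ⟨w', hw5, hw6⟩ := pm_rescale (v₀ := w₀) hw1 (hw3.symm.trans h)
  have hev : ∀ᶠ p in f, ‖p.1 - u₀‖ < δ' ∧ ‖w' p - w₀‖ < δ' ∧ w' p ∈ F.fib p.1 ∧
      Φ.Φ p.1 τ (pm p.2) = pm (w' p) := by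
    have e1 := Metric.tendsto_nhds.1 hfst δ' hδ'
    have e2 := Metric.tendsto_nhds.1 hw5 δ' hδ'
    filter_upwards [e1, e2, hw4] with p k1 k2 k3
    rw [dist_eq_norm] at k1 k2
    refine ⟨k1, k2, ?_, by rw [k3.2, hw6]⟩
    rw [← F.pm_mem_iff, hw6, F.pm_mem_iff]
    exact k3.1
  rw [hf, eventually_inf_principal] at hev
  obtain ⟨δ, hδ, h1⟩ := Metric.eventually_nhds_iff.1 hev
  refine ⟨δ, hδ, fun u v v' hu hv hv' hvf hvf' => ?_⟩
  have a1 := h1 (y := (u, v)) (by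
    rw [Prod.dist_eq, dist_eq_norm, dist_eq_norm]
    exact max_lt hu hv) hvf
  have a2 := h1 (y := (u, v')) (by
    rw [Prod.dist_eq, dist_eq_norm, dist_eq_norm]
    exact max_lt hu hv') hvf'
  obtain ⟨-, b1, b2, b3⟩ := a1
  obtain ⟨b0, c1, c2, c3⟩ := a2
  obtain ⟨σ, hσ, hσ1⟩ := hlt u (w' (u, v)) (w' (u, v')) b0 b1 c1 b2 c2
  refine ⟨σ, hσ, ?_⟩
  have hp : pm v ∈ F.Pts u := ⟨v, hvf, rfl⟩
  have hp' : pm v' ∈ F.Pts u := ⟨v', hvf', rfl⟩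
  have d1 : Φ.Φ u (-τ + (σ + τ)) (pm v) = Φ.Φ u (-τ) (Φ.Φ u σ (Φ.Φ u τ (pm v))) := by
    rw [Φ.add u (-τ) (σ + τ) _ hp, Φ.add u σ τ _ hp]
  have d2 : Φ.Φ u (-τ) (Φ.Φ u τ (pm v')) = pm v' := by
    rw [← Φ.add u (-τ) τ _ hp', neg_add_cancel, Φ.zero u _ hp']
  have d3 : -τ + (σ + τ) = σ := by abel
  rw [d3] at d1
  rw [d1]
  have d4 : Φ.Φ u σ (Φ.Φ u τ (pm v)) = Φ.Φ u τ (pm v') := by
    rw [show Φ.Φ u τ (pm v) = pm (w' (u, v)) from b3, show Φ.Φ u τ (pm v') = pm (w' (u, v')) from c3]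
    exact hσ1
  rw [d4, d2]

/-- A connected fibre on which `LT` holds is one orbit: the set of the `w ∈ fib u` with
`pm w = Φ u τ (pm v)` for some `τ` is relatively open (`LT` at `w`), and so is its complement (if `w` is
not in the orbit then no point near `w` is, by `LT` at `w` and the group law); connectedness
(`IsPreconnected` and two disjoint relatively open sets covering). -/
theorem orbit_of_connected (Φ : FlowAPI F) (u : Fin n → ℂ) (hc : IsPreconnected (F.fib u))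
    (hlt : ∀ v ∈ F.fib u, LT Φ u v) :
    ∀ v ∈ F.fib u, ∀ v' ∈ F.fib u, ∃ τ, Φ.Φ u τ (pm v) = pm v' := by
  intro v hv v' hv'
  by_contra hcon
  have hpv : pm v ∈ F.Pts u := ⟨v, hv, rfl⟩
  -- orbits are open
  have hd : ∀ w ∈ F.fib u, ∃ δ > 0, ∀ z ∈ F.fib u, z ∈ Metric.ball w δ →
      ((∃ τ, Φ.Φ u τ (pm v) = pm w) ↔ ∃ τ, Φ.Φ u τ (pm v) = pm z) := by
    intro w hw
    obtain ⟨δ, hδ, h⟩ := hlt w hw 1 one_pos
    refine ⟨δ, hδ, fun z hz hzb => ?_⟩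
    have hzn : ‖z - w‖ < δ := by rwa [mem_ball_iff_norm] at hzb
    have h0 : ‖u - u‖ < δ := by rwa [sub_self, norm_zero]
    have h00 : ‖w - w‖ < δ := by rwa [sub_self, norm_zero]
    constructor
    · rintro ⟨τ, hτ⟩
      obtain ⟨σ, -, hσ⟩ := h u w z h0 h00 hzn hw hz
      exact ⟨σ + τ, by rw [Φ.add u σ τ _ hpv, hτ, hσ]⟩
    · rintro ⟨τ, hτ⟩
      obtain ⟨σ, -, hσ⟩ := h u z w h0 hzn h00 hz hw
      exact ⟨σ + τ, by rw [Φ.add u σ τ _ hpv, hτ, hσ]⟩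
  choose! δ hδ hδ1 using hd
  let S : Set (Fin (N + 1) → ℂ) := {w | ∃ τ, Φ.Φ u τ (pm v) = pm w}
  let U : Set (Fin (N + 1) → ℂ) := ⋃ w ∈ F.fib u ∩ S, Metric.ball w (δ w)
  let V : Set (Fin (N + 1) → ℂ) := ⋃ w ∈ F.fib u \ S, Metric.ball w (δ w)
  have hU : IsOpen U := isOpen_biUnion fun w _ => Metric.isOpen_ball
  have hV : IsOpen V := isOpen_biUnion fun w _ => Metric.isOpen_ball
  have hsub : F.fib u ⊆ U ∪ V := by
    intro w hw
    by_cases hS : w ∈ S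
    · exact Or.inl (Set.mem_biUnion (show w ∈ F.fib u ∩ S from ⟨hw, hS⟩)
        (Metric.mem_ball_self (hδ w hw)))
    · exact Or.inr (Set.mem_biUnion (show w ∈ F.fib u \ S from ⟨hw, hS⟩)
        (Metric.mem_ball_self (hδ w hw)))
  have hUn : (F.fib u ∩ U).Nonempty := by
    refine ⟨v, hv, Set.mem_biUnion (show v ∈ F.fib u ∩ S from ⟨hv, 0, Φ.zero u _ hpv⟩)
      (Metric.mem_ball_self (hδ v hv))⟩
  have hVn : (F.fib u ∩ V).Nonempty := by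
    refine ⟨v', hv', Set.mem_biUnion (show v' ∈ F.fib u \ S from ⟨hv', hcon⟩)
      (Metric.mem_ball_self (hδ v' hv'))⟩
  obtain ⟨z, hz, hzU, hzV⟩ := hc U V hU hV hsub hUn hVn
  obtain ⟨w, hw, hzw⟩ := Set.mem_iUnion₂.1 hzU
  obtain ⟨w', hw', hzw'⟩ := Set.mem_iUnion₂.1 hzV
  exact hw'.2 ((hδ1 w' hw'.1 z hz hzw').2 ((hδ1 w hw.1 z hz hzw).1 hw.2))

/-- `h = A.c * h₀ * h₁`, `h₁` from `moving` with `j = 0`, `r = A.f`; `lt_etale`, `lt_transport`,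
`li_of_minor`, `ht_of_minor` with `A.minors`, `orbit_of_connected`. -/
theorem nonempty_good (Φ : FlowAPI F) (A : AlgPack F) (h₀ : MvPolynomial (Fin n) ℂ)
    (hh : aeval F.t h₀ ≠ 0) (hc : ∀ u, eval u h₀ ≠ 0 → IsPreconnected (F.fib u)) : Nonempty (Good Φ) := by
  obtain ⟨h₁, hh₁, hmov⟩ := moving Φ A 0 A.f A.f_ne
  have key : ∀ u, eval u (A.c * h₀ * h₁) ≠ 0 → eval u A.c ≠ 0 ∧ eval u h₀ ≠ 0 ∧ eval u h₁ ≠ 0 := by
    intro u hu
    rw [map_mul, map_mul] at hu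
    exact ⟨left_ne_zero_of_mul (left_ne_zero_of_mul hu),
      right_ne_zero_of_mul (left_ne_zero_of_mul hu), right_ne_zero_of_mul hu⟩
  have hlt : ∀ u, eval u (A.c * h₀ * h₁) ≠ 0 → ∀ v ∈ F.fib u, LT Φ u v := by
    intro u hu v hv
    obtain ⟨τ, w, hw, hw0, hΦ, hf⟩ := hmov u (key u hu).2.2 v hv
    exact lt_transport Φ u v w τ hv hΦ (lt_etale Φ A u w hw hw0 hf)
  exact ⟨{
    h := A.c * h₀ * h₁
    h_ne := by
      rw [map_mul, map_mul]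
      exact mul_ne_zero (mul_ne_zero A.c_ne hh) hh₁
    lt := hlt
    li := fun u hu v hv => li_of_minor Φ u v hv (A.minors u (key u hu).1)
    ht := fun u a b σ z hua ha hb hu hσ h0 h =>
      ht_of_minor Φ u a b σ z hua ha hb (A.minors (u z) (key (u z) hu).1) hσ h0 h
    orb := fun u hu => orbit_of_connected Φ u (hc u (key u hu).2.1) (hlt u hu) }⟩

end Pool.Agent.AbFib
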