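import Pool.Agent.Lib_MP_1209e6_ab.C0

/-! PIECE D1: uniform bound for the times on compact sets; periods are generated by bounded ones. -/

set_option autoImplicit false

open Filter Topology

namespace Pool.Agent.AbFib

open Pool.Agent.CampanaFlow MvPolynomial

variable {K : Type} [Field K] [Algebra ℂ K] {n N g : ℕ} {F : Fam n N g K}

private theorem D1_ne {u : Fin n → ℂ} {v : Fin (N + 1) → ℂ} (h : v ∈ F.fib u) :
    ((‖v‖ : ℂ)⁻¹) ≠ 0 := by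
  have h1 : v ≠ 0 := h.1
  exact inv_ne_zero (by exact_mod_cast norm_ne_zero_iff.2 h1)

private theorem D1_norm {u : Fin n → ℂ} {v : Fin (N + 1) → ℂ} (h : v ∈ F.fib u) :
    ‖((‖v‖ : ℂ)⁻¹) • v‖ = 1 := by
  have h1 : v ≠ 0 := h.1
  rw [norm_smul, norm_inv, Complex.norm_real, norm_norm]
  exact inv_mul_cancel₀ (norm_ne_zero_iff.2 h1)

/-- By contradiction: for each `k : ℕ` there are `u_k ∈ T`, `v_k, v'_k ∈ fib (u_k)`, which we scale to norm
`1`, such that all `τ` with `Φ (u_k) τ (pm v_k) = pm v'_k` have `‖τ‖ > k`. Pass to convergent subsequences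
(`IsCompact.tendsto_subseq`, the sphere is compact); the limits `v, v'` are in `fib u` (`fib_closed`), `u ∈ T`.
By `orb` there is `τ` with `Φ u τ (pm v) = pm v'`; by `Φ.lim` `Φ (u_k) τ (pm v_k) = pm w_k`, `w_k → w`,
`pm w = pm v'`; after scaling `w_k → v'`, and `lt` at `v'` with `ε = 1` gives `σ_k`, `‖σ_k‖ < 1`, with
`Φ (u_k) (σ_k + τ) (pm v_k) = pm v'_k`; contradiction for `k > ‖τ‖ + 1`. -/
theorem uniform_bound (Φ : FlowAPI F) (G : Good Φ) (T : Set (Fin n → ℂ)) (hT : IsCompact T)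
    (hg : ∀ u ∈ T, eval u G.h ≠ 0) :
    ∃ R : ℝ, 0 ≤ R ∧ ∀ u ∈ T, ∀ p ∈ F.Pts u, ∀ p' ∈ F.Pts u, ∃ τ, ‖τ‖ ≤ R ∧ Φ.Φ u τ p = p' := by
  by_contra hcon
  have H : ∀ k : ℕ, ∃ u ∈ T, ∃ v ∈ F.fib u, ∃ v' ∈ F.fib u, ‖v‖ = 1 ∧ ‖v'‖ = 1 ∧
      ∀ τ : Fin g → ℂ, ‖τ‖ ≤ k → Φ.Φ u τ (pm v) ≠ pm v' := by
    intro k
    by_contra hk
    refine hcon ⟨k, Nat.cast_nonneg k, ?_⟩
    rintro u hu _ ⟨v, hv, rfl⟩ _ ⟨v', hv', rfl⟩
    by_contra hne
    refine hk ⟨u, hu, ((‖v‖ : ℂ)⁻¹) • v, F.fib_smul (D1_ne hv) hv, ((‖v'‖ : ℂ)⁻¹) • v',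
      F.fib_smul (D1_ne hv') hv', D1_norm hv, D1_norm hv', ?_⟩
    intro τ hτ h
    rw [pm_smul (D1_ne hv), pm_smul (D1_ne hv')] at h
    exact hne ⟨τ, hτ, h⟩
  choose u hu v hv v' hv' hn hn' hne using H
  have hK := hT.prod ((isCompact_sphere (0 : Fin (N + 1) → ℂ) 1).prod
    (isCompact_sphere (0 : Fin (N + 1) → ℂ) 1))
  obtain ⟨⟨u₀, v₀, v₀'⟩, ⟨hu₀, hv₀, hv₀'⟩, φ, hφ, hlim⟩ := hK.tendsto_subseq
    (x := fun k => (u k, v k, v' k)) (fun k => ⟨hu k, by simpa using hn k, by simpa using hn' k⟩)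
  have l1 : Tendsto (fun k => u (φ k)) atTop (𝓝 u₀) := (continuous_fst.tendsto _).comp hlim
  have l2 : Tendsto (fun k => v (φ k)) atTop (𝓝 v₀) :=
    ((continuous_fst.comp continuous_snd).tendsto _).comp hlim
  have l3 : Tendsto (fun k => v' (φ k)) atTop (𝓝 v₀') :=
    ((continuous_snd.comp continuous_snd).tendsto _).comp hlim
  have n0 : v₀ ≠ 0 := by
    rintro rfl
    simp at hv₀
  have n0' : v₀' ≠ 0 := by
    rintro rfl
    simp at hv₀'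
  have m0 : v₀ ∈ F.fib u₀ := F.fib_closed l1 l2 n0 (Eventually.of_forall fun k => hv (φ k))
  have m0' : v₀' ∈ F.fib u₀ := F.fib_closed l1 l3 n0' (Eventually.of_forall fun k => hv' (φ k))
  obtain ⟨τ, hτ⟩ := G.orb u₀ (hg u₀ hu₀) v₀ m0 v₀' m0'
  obtain ⟨w, w₀, hw, -, hw₀, hev⟩ := Φ.lim atTop (fun k => u (φ k)) (fun _ => τ) (fun k => v (φ k))
    u₀ τ v₀ l1 tendsto_const_nhds l2 (Eventually.of_forall fun k => hv (φ k)) m0
  obtain ⟨w', hw', hpm⟩ := pm_rescale hw (hw₀.symm.trans hτ)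
  obtain ⟨δ, hδ, hlt⟩ := G.lt u₀ (hg u₀ hu₀) v₀' m0' 1 one_pos
  have e1 : ∀ᶠ k in atTop, ‖u (φ k) - u₀‖ < δ := by
    have := (l1.sub_const u₀).norm
    rw [sub_self, norm_zero] at this
    exact this.eventually_lt_const hδ
  have e2 : ∀ᶠ k in atTop, ‖w' k - v₀'‖ < δ := by
    have := (hw'.sub_const v₀').norm
    rw [sub_self, norm_zero] at this
    exact this.eventually_lt_const hδ
  have e3 : ∀ᶠ k in atTop, ‖v' (φ k) - v₀'‖ < δ := by
    have := (l3.sub_const v₀').norm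
    rw [sub_self, norm_zero] at this
    exact this.eventually_lt_const hδ
  have e4 : ∀ᶠ k in atTop, 1 + ‖τ‖ ≤ ((φ k : ℕ) : ℝ) :=
    (tendsto_natCast_atTop_atTop.comp hφ.tendsto_atTop).eventually_ge_atTop _
  obtain ⟨k, h1, h2, h3, h4, h5⟩ := (hev.and (e1.and (e2.and (e3.and e4)))).exists
  obtain ⟨h1a, h1b⟩ := h1
  have hmem : w' k ∈ F.fib (u (φ k)) := by
    rw [← F.pm_mem_iff, hpm k, F.pm_mem_iff]
    exact h1a
  obtain ⟨σ, hσ, hσ'⟩ := hlt (u (φ k)) (w' k) (v' (φ k)) h2 h3 h4 hmem (hv' (φ k))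
  refine hne (φ k) (σ + τ) ?_ ?_
  · exact (norm_add_le _ _).trans (by linarith)
  · rw [Φ.add _ _ _ _ (F.pm_mem_iff.2 (hv (φ k))), h1b, ← hpm k, hσ']

/-- If all pairs of points of the fibre are joined by times of norm `≤ R`, each period `lam` of `p` is a sum
of periods of norm `≤ 3 R + 1`. Proof: let `m ≥ 1` with `‖lam‖ ≤ m`; for `k ≤ m` let `ρ_k` have norm `≤ R` and
`Φ ρ_k p = Φ ((k/m) lam) p`, with `ρ_0 = ρ_m = 0`. Then `lam = ∑_{k < m} ((1/m) lam + ρ_k - ρ_{k+1})`, each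
summand `s_k` is a period: `Φ ((1/m) lam + ρ_k) p = Φ (((k+1)/m) lam) p = Φ ρ_{k+1} p`, so
`Φ s_k p = Φ (-ρ_{k+1}) (Φ ((1/m) lam + ρ_k) p) = p` (the group is commutative). -/
theorem periods (Φ : FlowAPI F) (u : Fin n → ℂ) (R : ℝ) (hR : 0 ≤ R)
    (h : ∀ p ∈ F.Pts u, ∀ p' ∈ F.Pts u, ∃ τ, ‖τ‖ ≤ R ∧ Φ.Φ u τ p = p') (p : PS N) (hp : p ∈ F.Pts u)
    (lam : Fin g → ℂ) (hlam : Φ.Φ u lam p = p) :
    ∃ (m : ℕ) (s : Fin m → Fin g → ℂ), lam = ∑ k, s k ∧ ∀ k, ‖s k‖ ≤ 3 * R + 1 ∧ Φ.Φ u (s k) p = p := by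
  obtain ⟨m, hm⟩ := exists_nat_ge (max ‖lam‖ 1)
  have hm1 : (1 : ℝ) ≤ m := (le_max_right _ _).trans hm
  have hm0 : (0 : ℝ) < m := lt_of_lt_of_le one_pos hm1
  have hmc : (m : ℂ) ≠ 0 := by
    have : m ≠ 0 := by
      rintro rfl
      simp at hm0
    exact_mod_cast this
  have hρ : ∀ k : ℕ, ∃ ρ : Fin g → ℂ, ‖ρ‖ ≤ R ∧ Φ.Φ u ρ p = Φ.Φ u (((k : ℂ) / m) • lam) p :=
    fun k => h p hp _ (Φ.mem u _ p hp)
  choose ρ hρR hρ using hρ
  obtain ⟨r, hr⟩ : ∃ r : ℕ → Fin g → ℂ, r = fun k => if k = 0 ∨ k = m then 0 else ρ k := ⟨_, rfl⟩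
  have r0 : r 0 = 0 := by simp [hr]
  have rm : r m = 0 := by simp [hr]
  have rR : ∀ k, ‖r k‖ ≤ R := by
    intro k
    rw [hr]
    dsimp only
    split_ifs
    · rw [norm_zero]
      exact hR
    · exact hρR k
  have rp : ∀ k, Φ.Φ u (r k) p = Φ.Φ u (((k : ℂ) / m) • lam) p := by
    intro k
    by_cases hk : k = 0 ∨ k = m
    · have hk' : r k = 0 := by simp [hr, hk]
      rw [hk', Φ.zero u p hp]
      rcases hk with rfl | rfl
      · simp only [Nat.cast_zero, zero_div, zero_smul]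
        exact (Φ.zero u p hp).symm
      · rw [div_self hmc, one_smul, hlam]
    · have hk' : r k = ρ k := by simp [hr, hk]
      rw [hk']
      exact hρ k
  refine ⟨m, fun k => ((1 : ℂ) / m) • lam + (r k - r (k + 1)), ?_, ?_⟩
  · rw [Finset.sum_add_distrib, Finset.sum_const, Finset.card_univ, Fintype.card_fin,
      ← Finset.sum_range (fun k => r k - r (k + 1)), Finset.sum_range_sub', r0, rm, sub_self,
      add_zero, ← Nat.cast_smul_eq_nsmul ℂ, smul_smul, mul_one_div, div_self hmc, one_smul]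
  · intro k
    constructor
    · have h1 : ‖((1 : ℂ) / m) • lam‖ ≤ 1 := by
        rw [norm_smul, norm_div, norm_one, Complex.norm_natCast, one_div, inv_mul_le_iff₀ hm0, mul_one]
        exact (le_max_left _ _).trans hm
      have h2 : ‖r k - r (k + 1)‖ ≤ R + R :=
        (norm_sub_le _ _).trans (add_le_add (rR _) (rR _))
      exact (norm_add_le _ _).trans (by linarith)
    · have h1 : ((1 : ℂ) / m) • lam + (r k - r (k + 1)) =
          -r (k + 1) + (((1 : ℂ) / m) • lam + r k) := by abel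
      have h2 : Φ.Φ u (((1 : ℂ) / m) • lam + r k) p = Φ.Φ u (r (k + 1)) p := by
        rw [Φ.add u _ _ p hp, rp, ← Φ.add u _ _ p hp, rp, ← add_smul]
        congr 2
        push_cast
        ring
      dsimp only
      rw [h1, Φ.add u _ _ p hp, h2, ← Φ.add u _ _ p hp, neg_add_cancel, Φ.zero u p hp]

end Pool.Agent.AbFib
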