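import Pool.Agent.Lib_MP_1209e6_ab.C0

/-! PIECE D2: local solutions of `Φ (τ) a = b`. -/

set_option autoImplicit false

open Filter Topology

namespace Pool.Agent.AbFib

open Pool.Agent.CampanaFlow MvPolynomial

variable {K : Type} [Field K] [Algebra ℂ K] {n N g : ℕ} {F : Fam n N g K}

/-- `τ` is a holomorphic solution of `Φ (τ) a = b` near each point of `U` -/
def IsSol (Φ : FlowAPI F) (u : ℂ → Fin n → ℂ) (a b : ℂ → PS N) (U : Set ℂ) (τ : ℂ → Fin g → ℂ) : Prop :=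
  ∀ z ∈ U, AnalyticAt ℂ τ z ∧ ∀ᶠ y in 𝓝 z, Φ.Φ (u y) (τ y) (a y) = b y

private theorem d2_period (Φ : FlowAPI F) (u : Fin n → ℂ) (p : PS N) (hp : p ∈ F.Pts u)
    (τ τ' : Fin g → ℂ) (h : Φ.Φ u τ p = Φ.Φ u τ' p) : Φ.Φ u (τ - τ') p = p := by
  have h1 : Φ.Φ u (-τ' + τ) p = Φ.Φ u (-τ') (Φ.Φ u τ p) := Φ.add u (-τ') τ p hp
  have h2 : Φ.Φ u (-τ' + τ') p = Φ.Φ u (-τ') (Φ.Φ u τ' p) := Φ.add u (-τ') τ' p hp
  rw [neg_add_cancel, Φ.zero u p hp] at h2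
  rw [sub_eq_neg_add, h1, h, ← h2]

private theorem d2_sec_ev {u : ℂ → Fin n → ℂ} {a : ℂ → PS N} {z₀ : ℂ} (h : F.Sec u a z₀) :
    ∀ᶠ z in 𝓝 z₀, F.Sec u a z := by
  obtain ⟨⟨v, hv, hv0, hav⟩, hm⟩ := h
  filter_upwards [hv.eventually_analyticAt, hv.continuousAt.eventually_ne hv0,
    hav.eventually_nhds, hm.eventually_nhds] with z h1 h2 h3 h4
  exact ⟨⟨v, h1, h2, h3⟩, h4⟩

private theorem d2_sec_flow (Φ : FlowAPI F) {u : ℂ → Fin n → ℂ} {a : ℂ → PS N} {z₀ : ℂ}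
    (hu : AnalyticAt ℂ u z₀) (h : F.Sec u a z₀) (τ : Fin g → ℂ) :
    F.Sec u (fun y => Φ.Φ (u y) τ (a y)) z₀ :=
  ⟨Φ.hol u (fun _ => τ) a z₀ hu analyticAt_const h, h.2.mono fun _ hy => Φ.mem _ _ _ hy⟩

private theorem d2_rep {u : ℂ → Fin n → ℂ} {a : ℂ → PS N} {z₀ : ℂ} (h : F.Sec u a z₀)
    (v₀ : Fin (N + 1) → ℂ) (hv₀ : a z₀ = pm v₀) :
    ∃ v : ℂ → Fin (N + 1) → ℂ, ContinuousAt v z₀ ∧ v z₀ = v₀ ∧
      ∀ᶠ y in 𝓝 z₀, a y = pm (v y) ∧ v y ∈ F.fib (u y) := by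
  obtain ⟨⟨v, hv, hv0, hav⟩, hm⟩ := h
  have h1 : pm v₀ = pm (v z₀) := hv₀.symm.trans hav.self_of_nhds
  obtain ⟨c, hc, hcv⟩ := pm_eq_iff.1 h1
  have hc1 : ContinuousAt (fun y => c • v y) z₀ := hv.continuousAt.const_smul c
  refine ⟨fun y => c • v y, hc1, hcv.symm, ?_⟩
  filter_upwards [hav, hm] with y h2 h3
  have h4 : a y = pm (c • v y) := by rw [h2, pm_smul hc]
  refine ⟨h4, ?_⟩
  rw [h4] at h3
  exact F.pm_mem_iff.1 h3

private theorem d2_inj (Φ : FlowAPI F) (G : Good Φ) {u : ℂ → Fin n → ℂ} {a : ℂ → PS N} {z₀ : ℂ}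
    (hu : ContinuousAt u z₀) (ha : F.Sec u a z₀) (hg : eval (u z₀) G.h ≠ 0) :
    ∃ r > 0, ∀ z τ τ', ‖z - z₀‖ < r → ‖τ - τ'‖ < r →
      Φ.Φ (u z) τ (a z) = Φ.Φ (u z) τ' (a z) → τ = τ' := by
  obtain ⟨v₀, hv₀⟩ := exists_pm (a z₀)
  obtain ⟨v, hvc, hvz, hv⟩ := d2_rep ha v₀ hv₀
  have hmem : v z₀ ∈ F.fib (u z₀) := hv.self_of_nhds.2
  obtain ⟨δ, hδ, hLI⟩ := G.li (u z₀) hg (v z₀) hmem
  have e1 : ∀ᶠ z in 𝓝 z₀, ‖u z - u z₀‖ < δ := by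
    have := Metric.tendsto_nhds.1 hu δ hδ
    simpa only [dist_eq_norm] using this
  have e2 : ∀ᶠ z in 𝓝 z₀, ‖v z - v z₀‖ < δ := by
    have := Metric.tendsto_nhds.1 hvc δ hδ
    simpa only [dist_eq_norm] using this
  obtain ⟨r, hr, hball⟩ := Metric.eventually_nhds_iff.1 ((e1.and e2).and hv)
  refine ⟨min r δ, lt_min hr hδ, ?_⟩
  intro z τ τ' hz hτ h
  have hz' : dist z z₀ < r := by
    rw [dist_eq_norm]
    exact lt_of_lt_of_le hz (min_le_left _ _)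
  obtain ⟨⟨h1, h2⟩, h3, h4⟩ := hball hz'
  have hp : a z ∈ F.Pts (u z) := by
    rw [h3]
    exact F.pm_mem_iff.2 h4
  have h5 : Φ.Φ (u z) (τ - τ') (a z) = a z := d2_period Φ (u z) (a z) hp τ τ' h
  rw [h3] at h5
  have h6 := hLI (u z) (v z) (τ - τ') h1 h2 h4 (lt_of_lt_of_le hτ (min_le_right _ _)) h5
  exact sub_eq_zero.1 h6

private theorem d2_trans (Φ : FlowAPI F) (G : Good Φ) {u : ℂ → Fin n → ℂ} {a b : ℂ → PS N}
    {z₀ : ℂ} (hu : ContinuousAt u z₀) (ha : F.Sec u a z₀) (hb : F.Sec u b z₀)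
    (hg : eval (u z₀) G.h ≠ 0) (hab : a z₀ = b z₀) {ε : ℝ} (hε : 0 < ε) :
    ∀ᶠ y in 𝓝 z₀, ∃ σ : Fin g → ℂ, ‖σ‖ < ε ∧ Φ.Φ (u y) σ (a y) = b y := by
  obtain ⟨v₀, hv₀⟩ := exists_pm (a z₀)
  obtain ⟨v, hvc, hvz, hv⟩ := d2_rep ha v₀ hv₀
  obtain ⟨w, hwc, hwz, hw⟩ := d2_rep hb v₀ (hab.symm.trans hv₀)
  have hmem : v₀ ∈ F.fib (u z₀) := by
    have := hv.self_of_nhds.2
    rwa [hvz] at this
  obtain ⟨δ, hδ, hLT⟩ := G.lt (u z₀) hg v₀ hmem ε hε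
  have e1 : ∀ᶠ z in 𝓝 z₀, ‖u z - u z₀‖ < δ := by
    have := Metric.tendsto_nhds.1 hu δ hδ
    simpa only [dist_eq_norm] using this
  have e2 : ∀ᶠ z in 𝓝 z₀, ‖v z - v₀‖ < δ := by
    have := Metric.tendsto_nhds.1 hvc δ hδ
    rw [hvz] at this
    simpa only [dist_eq_norm] using this
  have e3 : ∀ᶠ z in 𝓝 z₀, ‖w z - v₀‖ < δ := by
    have := Metric.tendsto_nhds.1 hwc δ hδ
    rw [hwz] at this
    simpa only [dist_eq_norm] using this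
  filter_upwards [e1, e2, e3, hv, hw] with y h1 h2 h3 h4 h5
  obtain ⟨σ, hσ, h6⟩ := hLT (u y) (v y) (w y) h1 h2 h3 h4.2 h5.2
  refine ⟨σ, hσ, ?_⟩
  rw [h4.1, h5.1, h6]

private theorem d2_sol (Φ : FlowAPI F) (G : Good Φ) (u : ℂ → Fin n → ℂ) (a b : ℂ → PS N) (z₀ : ℂ)
    (hu : AnalyticAt ℂ u z₀) (ha : F.Sec u a z₀) (hb : F.Sec u b z₀) (hg : eval (u z₀) G.h ≠ 0)
    (h : a z₀ = b z₀) :
    ∃ r > 0, ∃ τ : ℂ → Fin g → ℂ, τ z₀ = 0 ∧ IsSol Φ u a b (Metric.ball z₀ r) τ := by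
  obtain ⟨r, hr, hinj⟩ := d2_inj Φ G hu.continuousAt ha hg
  have hr4 : 0 < r / 4 := by linarith
  have e1 := d2_trans Φ G hu.continuousAt ha hb hg h hr4
  have e2 := d2_sec_ev ha
  have e3 := d2_sec_ev hb
  have e4 := hu.eventually_analyticAt
  have e5 : ∀ᶠ y in 𝓝 z₀, eval (u y) G.h ≠ 0 := by
    have hc : ContinuousAt (fun y => eval (u y) G.h) z₀ :=
      (MvPolynomial.continuous_eval G.h).continuousAt.comp hu.continuousAt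
    exact hc.eventually_ne hg
  obtain ⟨r₁, hr₁, hball⟩ := Metric.eventually_nhds_iff.1
    (e1.and (e2.and (e3.and (e4.and e5))))
  set ρ := min r₁ r with hρ
  have hρ0 : 0 < ρ := lt_min hr₁ hr
  have hB : ∀ y, y ∈ Metric.ball z₀ ρ → dist y z₀ < r₁ ∧ ‖y - z₀‖ < r := by
    intro y hy
    rw [Metric.mem_ball] at hy
    refine ⟨lt_of_lt_of_le hy (min_le_left _ _), ?_⟩
    rw [← dist_eq_norm]
    exact lt_of_lt_of_le hy (min_le_right _ _)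
  have hch : ∀ y, ∃ s : Fin g → ℂ, y ∈ Metric.ball z₀ ρ →
      ‖s‖ < r / 4 ∧ Φ.Φ (u y) s (a y) = b y := by
    intro y
    by_cases hy : y ∈ Metric.ball z₀ ρ
    · obtain ⟨s, hs⟩ := (hball (hB y hy).1).1
      exact ⟨s, fun _ => hs⟩
    · exact ⟨0, fun h' => absurd h' hy⟩
  choose σ hσ using hch
  have huniq : ∀ y ∈ Metric.ball z₀ ρ, ∀ s : Fin g → ℂ, ‖s‖ < r / 2 →
      Φ.Φ (u y) s (a y) = b y → s = σ y := by
    intro y hy s hs h'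
    refine hinj y s (σ y) (hB y hy).2 ?_ ?_
    · have h1 := (hσ y hy).1
      have h2 := norm_sub_le s (σ y)
      linarith
    · rw [h', (hσ y hy).2]
  have hcont : ∀ z₁ ∈ Metric.ball z₀ ρ, ContinuousAt σ z₁ := by
    intro z₁ hz₁
    refine Metric.tendsto_nhds.2 fun ε hε => ?_
    obtain ⟨-, s1, s2, s3, s4⟩ := hball (hB z₁ hz₁).1
    have hε' : 0 < min ε (r / 4) := lt_min hε hr4
    have t1 := d2_trans Φ G (a := fun y => Φ.Φ (u y) (σ z₁) (a y)) (b := b) s3.continuousAt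
      (d2_sec_flow Φ s3 s1 (σ z₁)) s2 s4 (hσ z₁ hz₁).2 hε'
    filter_upwards [t1, s1.2, Metric.isOpen_ball.mem_nhds hz₁] with y h1 h2 h3
    obtain ⟨s, hs, h4⟩ := h1
    have h5 : Φ.Φ (u y) (s + σ z₁) (a y) = b y := by
      rw [Φ.add (u y) s (σ z₁) (a y) h2]
      exact h4
    have h6 : ‖s + σ z₁‖ < r / 2 := by
      have := norm_add_le s (σ z₁)
      have h7 := (hσ z₁ hz₁).1
      have h8 := lt_of_lt_of_le hs (min_le_right _ _)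
      linarith
    have h7 := huniq y h3 (s + σ z₁) h6 h5
    rw [← h7, dist_eq_norm, add_sub_cancel_right]
    exact lt_of_lt_of_le hs (min_le_left _ _)
  have hsol : ∀ z ∈ Metric.ball z₀ ρ, ∀ᶠ y in 𝓝 z, Φ.Φ (u y) (σ y) (a y) = b y := by
    intro z hz
    filter_upwards [Metric.isOpen_ball.mem_nhds hz] with y hy
    exact (hσ y hy).2
  have hdiff : DifferentiableOn ℂ σ (Metric.ball z₀ ρ) := by
    intro z₁ hz₁
    refine DifferentiableAt.differentiableWithinAt ?_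
    obtain ⟨-, s1, s2, s3, s4⟩ := hball (hB z₁ hz₁).1
    have h1 : DifferentiableAt ℂ (fun y => σ y - σ z₁) z₁ := by
      refine G.ht u (fun y => Φ.Φ (u y) (σ z₁) (a y)) b (fun y => σ y - σ z₁) z₁ s3
        (d2_sec_flow Φ s3 s1 (σ z₁)) s2 s4 ((hcont z₁ hz₁).sub continuousAt_const)
        (sub_self _) ?_
      filter_upwards [hsol z₁ hz₁, s1.2] with y h2 h3
      have h4 := Φ.add (u y) (σ y - σ z₁) (σ z₁) (a y) h3
      rw [sub_add_cancel] at h4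
      change Φ.Φ (u y) (σ y - σ z₁) (Φ.Φ (u y) (σ z₁) (a y)) = b y
      rw [← h4, h2]
    have h2 : σ = fun y => (σ y - σ z₁) + σ z₁ := by
      funext y
      rw [sub_add_cancel]
    rw [h2]
    exact h1.add_const _
  refine ⟨ρ, hρ0, σ, ?_, fun z hz => ⟨?_, hsol z hz⟩⟩
  · have hz₀ : z₀ ∈ Metric.ball z₀ ρ := Metric.mem_ball_self hρ0
    refine (huniq z₀ hz₀ 0 ?_ ?_).symm
    · rw [norm_zero]
      linarith
    · rw [Φ.zero _ _ (ha.2.self_of_nhds), h]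
  · exact hdiff.analyticAt (Metric.isOpen_ball.mem_nhds hz)

/-- Two small times with the same effect near `z₀` are equal. -/
theorem sol_unique (Φ : FlowAPI F) (G : Good Φ) (u : ℂ → Fin n → ℂ) (a : ℂ → PS N) (z₀ : ℂ)
    (hu : ContinuousAt u z₀) (ha : F.Sec u a z₀) (hg : eval (u z₀) G.h ≠ 0) (τ₀ : Fin g → ℂ) :
    ∃ δ > 0, ∀ z τ τ', ‖z - z₀‖ < δ → ‖τ - τ₀‖ < δ → ‖τ' - τ₀‖ < δ →
      Φ.Φ (u z) τ (a z) = Φ.Φ (u z) τ' (a z) → τ = τ' := by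
  obtain ⟨r, hr, hinj⟩ := d2_inj Φ G hu ha hg
  refine ⟨r / 2, by linarith, ?_⟩
  intro z τ τ' hz hτ hτ' h
  refine hinj z τ τ' (by linarith) ?_ h
  have h1 : τ - τ' = (τ - τ₀) - (τ' - τ₀) := by abel
  rw [h1]
  have := norm_sub_le (τ - τ₀) (τ' - τ₀)
  linarith

/-- Local solution through `(z₀, τ₀)`. Replace `a` by `ã z = Φ (u z) τ₀ (a z)` (`Φ.hol`, constant time), so
`ã z₀ = b z₀` and we look for `σ = τ - τ₀`, `σ z₀ = 0`. Near `z₀` choose analytic representatives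
`v` of `ã` and `w` of `b`, rescaled so that `v z₀ = w z₀` (`pm_eq_iff`). `LI` with `δ₀`; `LT` with `ε ≤ δ₀/3`:
for `z` near `z₀` there is `σ z` with `‖σ z‖ < ε`, `Φ (u z) (σ z) (ã z) = b z`, unique with `‖σ‖ < ε` (`LI`,
group law). `σ` is continuous at each `z₁` near `z₀`: `Φ (u z) (σ z₁) (ã z)` and `b z` agree at `z₁`, so (the
same construction at `z₁`, `LT` at `(u z₁, b z₁)`) `b z = Φ (u z) (σ' z) (Φ (u z) (σ z₁) (ã z))` with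
`σ' z → 0` as `z → z₁`, and `σ z = σ z₁ + σ' z` by uniqueness. `G.ht` applied at each `z₁` near `z₀` to
`Φ (σ z₁) ã`, `b` and `σ - σ z₁`: differentiable at each point near `z₀`, so analytic
(`DifferentiableOn.analyticAt`). Points near `z₀` are good by continuity. -/
theorem local_sol (Φ : FlowAPI F) (G : Good Φ) (u : ℂ → Fin n → ℂ) (a b : ℂ → PS N) (z₀ : ℂ)
    (hu : AnalyticAt ℂ u z₀) (ha : F.Sec u a z₀) (hb : F.Sec u b z₀) (hg : eval (u z₀) G.h ≠ 0)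
    (τ₀ : Fin g → ℂ) (h : Φ.Φ (u z₀) τ₀ (a z₀) = b z₀) :
    ∃ r > 0, ∃ τ : ℂ → Fin g → ℂ, τ z₀ = τ₀ ∧ IsSol Φ u a b (Metric.ball z₀ r) τ := by
  obtain ⟨r, hr, σ, hσ0, hσ⟩ := d2_sol Φ G u (fun y => Φ.Φ (u y) τ₀ (a y)) b z₀ hu
    (d2_sec_flow Φ hu ha τ₀) hb hg h
  obtain ⟨r₂, hr₂, hball⟩ := Metric.eventually_nhds_iff.1 ha.2
  refine ⟨min r r₂, lt_min hr hr₂, fun y => σ y + τ₀, ?_, ?_⟩
  · change σ z₀ + τ₀ = τ₀
    rw [hσ0, zero_add]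
  · intro z hz
    obtain ⟨h1, h2⟩ := hσ z (Metric.ball_subset_ball (min_le_left _ _) hz)
    refine ⟨h1.add analyticAt_const, ?_⟩
    filter_upwards [h2, Metric.isOpen_ball.mem_nhds hz] with y h3 h4
    rw [Metric.mem_ball] at h4
    have h5 := hball (lt_of_lt_of_le h4 (min_le_right _ _))
    rw [Φ.add (u y) (σ y) τ₀ (a y) h5]
    exact h3

end Pool.Agent.AbFib
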