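import Pool.Agent.Lib_MP_1209e6_ab.D1
import Pool.Agent.Lib_MP_1209e6_ab.D2

/-! PIECE D3: solutions through all initial values have a uniform radius; continuation along segments. -/

set_option autoImplicit false

open Filter Topology

namespace Pool.Agent.AbFib

open Pool.Agent.CampanaFlow MvPolynomial

variable {K : Type} [Field K] [Algebra ℂ K] {n N g : ℕ} {F : Fam n N g K}

theorem d3_sec_evt {u : ℂ → Fin n → ℂ} {a : ℂ → PS N} {z : ℂ}
    (ha : F.Sec u a z) : ∀ᶠ w in 𝓝 z, F.Sec u a w := by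
  obtain ⟨⟨v, hv, hv0, hv1⟩, h2⟩ := ha
  filter_upwards [hv.eventually_analyticAt, hv.continuousAt.eventually_ne hv0,
    hv1.eventually_nhds, h2.eventually_nhds] with w h1 h3 h4 h5
  exact ⟨⟨v, h1, h3, h4⟩, h5⟩

theorem d3_good_evt {u : ℂ → Fin n → ℂ} {z : ℂ} (hu : ContinuousAt u z)
    (h : MvPolynomial (Fin n) ℂ) (hg : eval (u z) h ≠ 0) : ∀ᶠ w in 𝓝 z, eval (u w) h ≠ 0 := by
  have h1 : ContinuousAt (fun w => eval (u w) h) z :=
    (MvPolynomial.continuous_eval h).continuousAt.comp hu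
  exact h1.eventually_ne hg

/-- the limit of solutions is a solution -/
theorem d3_lim (Φ : FlowAPI F) (u : ℂ → Fin n → ℂ) (a b : ℂ → PS N) (z₀ : ℂ)
    (hu : ContinuousAt u z₀) (ha : F.Sec u a z₀) (hb : F.Sec u b z₀) (z : ℕ → ℂ)
    (τ : ℕ → Fin g → ℂ) (τ₀ : Fin g → ℂ) (hz : Tendsto z atTop (𝓝 z₀))
    (hτ : Tendsto τ atTop (𝓝 τ₀)) (h : ∀ᶠ k in atTop, Φ.Φ (u (z k)) (τ k) (a (z k)) = b (z k)) :
    Φ.Φ (u z₀) τ₀ (a z₀) = b z₀ := by
  obtain ⟨⟨v, hv, hv0, hv1⟩, hv2⟩ := ha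
  obtain ⟨⟨v', hv', hv0', hv1'⟩, hv2'⟩ := hb
  have h1 : ∀ᶠ y in 𝓝 z₀, v y ∈ F.fib (u y) := by
    filter_upwards [hv1, hv2] with y hy hy2
    rw [hy] at hy2
    exact F.pm_mem_iff.1 hy2
  have h2 : ∀ᶠ k in atTop, v (z k) ∈ F.fib (u (z k)) := hz.eventually h1
  obtain ⟨w, w₀, hw, hw₀, hw1, hw2⟩ := Φ.lim atTop (fun k => u (z k)) τ (fun k => v (z k)) (u z₀) τ₀
    (v z₀) (hu.tendsto.comp hz) hτ (hv.continuousAt.tendsto.comp hz) h2 h1.self_of_nhds
  rw [hv1.self_of_nhds, hw1, hv1'.self_of_nhds]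
  refine pm_lim hw (hv'.continuousAt.tendsto.comp hz) hw₀.1 hv0' ?_
  filter_upwards [hw2, h, hz.eventually hv1, hz.eventually hv1'] with k hk1 hk2 hk3 hk4
  change pm (w k) = pm (v' (z k))
  rw [← hk1.2, ← hk3, hk2, hk4]

/-- Bounded initial values. By contradiction: for all `k` there are `z_k ∈ ball z₀ (1/(k+1))`, `‖τ_k‖ ≤ R`
with `Φ (τ_k) (a z_k) = b z_k` and no solution on `ball z₀ (1/(k+1))` through `(z_k, τ_k)`. A subsequence of
`τ_k` converges to `τ₀`, `Φ (τ₀) (a z₀) = b z₀` (`Φ.lim` with local representatives of `a`, `b`; limits of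
representatives of the same points are representatives of the same point: if `pm v_k = pm w_k`, `v_k → v ≠ 0`,
`w_k → w ≠ 0`, then `pm v = pm w`). `local_sol` gives a solution `τ` on `ball z₀ r`, `τ z₀ = τ₀`; by
`sol_unique` `τ z_k = τ_k` for large `k`: contradiction. -/
theorem uniform_sol_bounded (Φ : FlowAPI F) (G : Good Φ) (u : ℂ → Fin n → ℂ) (a b : ℂ → PS N) (z₀ : ℂ)
    (hu : AnalyticAt ℂ u z₀) (ha : F.Sec u a z₀) (hb : F.Sec u b z₀) (hg : eval (u z₀) G.h ≠ 0)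
    (R : ℝ) : ∃ r > 0, ∀ z₁ ∈ Metric.ball z₀ r, ∀ τ₁ : Fin g → ℂ, ‖τ₁‖ ≤ R →
      Φ.Φ (u z₁) τ₁ (a z₁) = b z₁ → ∃ τ, τ z₁ = τ₁ ∧ IsSol Φ u a b (Metric.ball z₀ r) τ := by
  by_contra hcon
  push Not at hcon
  have h1 : ∀ k : ℕ, (0 : ℝ) < 1 / ((k : ℝ) + 1) := fun k => Nat.one_div_pos_of_nat
  choose z hz τ hτR hτ hno using fun k : ℕ => hcon (1 / ((k : ℝ) + 1)) (h1 k)
  have hz0 : Tendsto z atTop (𝓝 z₀) := by
    rw [Metric.tendsto_atTop]
    intro ε hε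
    obtain ⟨K, hK⟩ := exists_nat_one_div_lt hε
    refine ⟨K, fun k hk => (Metric.mem_ball.1 (hz k)).trans_le ?_⟩
    refine le_trans ?_ hK.le
    exact Nat.one_div_le_one_div hk
  obtain ⟨τ₀, -, φ, hφ, hlim⟩ := (isCompact_closedBall (0 : Fin g → ℂ) R).tendsto_subseq
    (x := τ) fun k => by simpa using hτR k
  have hsub : Tendsto (fun k => z (φ k)) atTop (𝓝 z₀) := hz0.comp hφ.tendsto_atTop
  have h0 : Φ.Φ (u z₀) τ₀ (a z₀) = b z₀ :=
    d3_lim Φ u a b z₀ hu.continuousAt ha hb _ _ τ₀ hsub hlim (Eventually.of_forall fun k => hτ (φ k))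
  obtain ⟨r, hr, σ, hσ0, hσ⟩ := local_sol Φ G u a b z₀ hu ha hb hg τ₀ h0
  obtain ⟨δ, hδ, huniq⟩ := sol_unique Φ G u a z₀ hu.continuousAt ha hg τ₀
  have hz00 : z₀ ∈ Metric.ball z₀ r := Metric.mem_ball_self hr
  have hσc : Tendsto (fun k => σ (z (φ k))) atTop (𝓝 τ₀) := by
    rw [← hσ0]
    exact (hσ z₀ hz00).1.continuousAt.tendsto.comp hsub
  have e1 : ∀ᶠ k in atTop, z (φ k) ∈ Metric.ball z₀ (min r δ) :=
    hsub.eventually (Metric.ball_mem_nhds _ (lt_min hr hδ))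
  have e2 : ∀ᶠ k in atTop, σ (z (φ k)) ∈ Metric.ball τ₀ δ :=
    hσc.eventually (Metric.ball_mem_nhds _ hδ)
  have e3 : ∀ᶠ k in atTop, τ (φ k) ∈ Metric.ball τ₀ δ :=
    hlim.eventually (Metric.ball_mem_nhds _ hδ)
  have e4 : ∀ᶠ k in atTop, 1 / ((φ k : ℝ) + 1) < r := by
    have h2 : Tendsto (fun k : ℕ => 1 / ((φ k : ℝ) + 1)) atTop (𝓝 0) :=
      tendsto_one_div_add_atTop_nhds_zero_nat.comp hφ.tendsto_atTop
    exact h2.eventually (gt_mem_nhds hr)
  obtain ⟨k, hk1, hk2, hk3, hk4⟩ := (e1.and (e2.and (e3.and e4))).exists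
  have hk1' : z (φ k) ∈ Metric.ball z₀ r := Metric.ball_subset_ball (min_le_left _ _) hk1
  have hk1'' : z (φ k) ∈ Metric.ball z₀ δ := Metric.ball_subset_ball (min_le_right _ _) hk1
  have heq : σ (z (φ k)) = τ (φ k) := by
    refine huniq (z (φ k)) _ _ (by rwa [Metric.mem_ball, dist_eq_norm] at hk1'')
      (by rwa [Metric.mem_ball, dist_eq_norm] at hk2) (by rwa [Metric.mem_ball, dist_eq_norm] at hk3) ?_
    rw [(hσ _ hk1').2.self_of_nhds, hτ]
  exact hno (φ k) σ heq fun y hy => hσ y (Metric.ball_subset_ball hk4.le hy)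

/-- sums of solutions -/
theorem d3_add (Φ : FlowAPI F) {u : ℂ → Fin n → ℂ} {a b : ℂ → PS N} {U : Set ℂ}
    {τ σ : ℂ → Fin g → ℂ} (ha : ∀ z ∈ U, F.Sec u a z) (hτ : IsSol Φ u a b U τ)
    (hσ : IsSol Φ u a a U σ) : IsSol Φ u a b U (fun z => τ z + σ z) := by
  intro z hz
  refine ⟨(hτ z hz).1.fun_add (hσ z hz).1, ?_⟩
  filter_upwards [(hτ z hz).2, (hσ z hz).2, (ha z hz).2] with y h1 h2 h3
  rw [Φ.add _ _ _ _ h3, h2, h1]

theorem d3_zero (Φ : FlowAPI F) {u : ℂ → Fin n → ℂ} {a : ℂ → PS N} {U : Set ℂ}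
    (ha : ∀ z ∈ U, F.Sec u a z) : IsSol Φ u a a U (fun _ => 0) := by
  intro z hz
  refine ⟨analyticAt_const, ?_⟩
  filter_upwards [(ha z hz).2] with y h3
  rw [Φ.zero _ _ h3]

theorem d3_sum (Φ : FlowAPI F) {u : ℂ → Fin n → ℂ} {a : ℂ → PS N} {U : Set ℂ}
    (ha : ∀ z ∈ U, F.Sec u a z) {ι : Type} (s : Finset ι) (τ : ι → ℂ → Fin g → ℂ)
    (hτ : ∀ i, IsSol Φ u a a U (τ i)) : IsSol Φ u a a U (fun z => ∑ i ∈ s, τ i z) := by
  classical
  induction s using Finset.induction_on with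
  | empty => simpa using d3_zero Φ ha
  | insert i s hi ih =>
    have := d3_add Φ ha (hτ i) ih
    simpa [Finset.sum_insert hi] using this

/-- All initial values. `uniform_bound` for the compact set `u '' closedBall z₀ r₀` gives `R`; let `r` be the
minimum of the radii of `uniform_sol_bounded` for `(a, b, R)` and for `(a, a, 3 R + 1)` (smaller radii are
also fine: restrict solutions). Let `σ` be a solution on the ball through `(z₁, τ')`, `‖τ'‖ ≤ R`. Then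
`τ₁ - τ'` is a period of `a z₁`, by `periods` it is a sum of periods `s k` of norm `≤ 3 R + 1`, which are values
at `z₁` of solutions for `(a, a)`; add them to `σ`. -/
theorem uniform_sol (Φ : FlowAPI F) (G : Good Φ) (u : ℂ → Fin n → ℂ) (a b : ℂ → PS N) (z₀ : ℂ)
    (hu : AnalyticAt ℂ u z₀) (ha : F.Sec u a z₀) (hb : F.Sec u b z₀) (hg : eval (u z₀) G.h ≠ 0) :
    ∃ r > 0, ∀ z₁ ∈ Metric.ball z₀ r, ∀ τ₁ : Fin g → ℂ,
      Φ.Φ (u z₁) τ₁ (a z₁) = b z₁ → ∃ τ, τ z₁ = τ₁ ∧ IsSol Φ u a b (Metric.ball z₀ r) τ := by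
  have hev : ∀ᶠ w in 𝓝 z₀, eval (u w) G.h ≠ 0 ∧ F.Sec u a w ∧ F.Sec u b w ∧ AnalyticAt ℂ u w :=
    (d3_good_evt hu.continuousAt _ hg).and ((d3_sec_evt ha).and ((d3_sec_evt hb).and
      hu.eventually_analyticAt))
  obtain ⟨r₀, hr₀, hball⟩ := Metric.nhds_basis_closedBall.eventually_iff.1 hev
  have hT : IsCompact (u '' Metric.closedBall z₀ r₀) :=
    (isCompact_closedBall z₀ r₀).image_of_continuousOn fun w hw =>
      (hball hw).2.2.2.continuousAt.continuousWithinAt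
  obtain ⟨R, hR, hbd⟩ := uniform_bound Φ G _ hT (by
    rintro _ ⟨w, hw, rfl⟩
    exact (hball hw).1)
  obtain ⟨r₁, hr₁, h1⟩ := uniform_sol_bounded Φ G u a b z₀ hu ha hb hg R
  obtain ⟨r₂, hr₂, h2⟩ := uniform_sol_bounded Φ G u a a z₀ hu ha ha hg (3 * R + 1)
  refine ⟨min r₀ (min r₁ r₂), lt_min hr₀ (lt_min hr₁ hr₂), fun z₁ hz₁ τ₁ hτ₁ => ?_⟩
  have hz0 : z₁ ∈ Metric.closedBall z₀ r₀ :=
    Metric.ball_subset_closedBall (Metric.ball_subset_ball (min_le_left _ _) hz₁)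
  have hzr1 : z₁ ∈ Metric.ball z₀ r₁ :=
    Metric.ball_subset_ball ((min_le_right _ _).trans (min_le_left _ _)) hz₁
  have hzr2 : z₁ ∈ Metric.ball z₀ r₂ :=
    Metric.ball_subset_ball ((min_le_right _ _).trans (min_le_right _ _)) hz₁
  obtain ⟨-, hsa, hsb, -⟩ := hball hz0
  have hpa : a z₁ ∈ F.Pts (u z₁) := hsa.2.self_of_nhds
  have hpb : b z₁ ∈ F.Pts (u z₁) := hsb.2.self_of_nhds
  obtain ⟨τ', hτ'R, hτ'⟩ := hbd (u z₁) ⟨z₁, hz0, rfl⟩ _ hpa _ hpb
  obtain ⟨σ, hσ1, hσ⟩ := h1 z₁ hzr1 τ' hτ'R hτ'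
  have hper : Φ.Φ (u z₁) (τ₁ - τ') (a z₁) = a z₁ := by
    rw [sub_eq_neg_add, Φ.add _ _ _ _ hpa, hτ₁, ← hτ', ← Φ.add _ _ _ _ hpa, neg_add_cancel,
      Φ.zero _ _ hpa]
  obtain ⟨m, s, hsum, hs⟩ := periods Φ (u z₁) R hR (hbd (u z₁) ⟨z₁, hz0, rfl⟩) (a z₁) hpa
    (τ₁ - τ') hper
  choose S hS1 hS using fun k => h2 z₁ hzr2 (s k) (hs k).1 (hs k).2
  have hsecball : ∀ z ∈ Metric.ball z₀ (min r₀ (min r₁ r₂)), F.Sec u a z := fun z hz =>
    (hball (Metric.ball_subset_closedBall (Metric.ball_subset_ball (min_le_left _ _) hz))).2.1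
  refine ⟨fun z => σ z + ∑ k, S k z, ?_, ?_⟩
  · change σ z₁ + ∑ k, S k z₁ = τ₁
    rw [hσ1, Finset.sum_congr rfl fun k _ => hS1 k, ← hsum, add_sub_cancel]
  · refine d3_add Φ hsecball (fun z hz => hσ z ?_) (d3_sum Φ hsecball _ _ fun k z hz => hS k z ?_)
    · exact Metric.ball_subset_ball ((min_le_right _ _).trans (min_le_left _ _)) hz
    · exact Metric.ball_subset_ball ((min_le_right _ _).trans (min_le_right _ _)) hz

/-- two solutions with the same value at a point agree near it -/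
theorem d3_eventuallyEq (Φ : FlowAPI F) (G : Good Φ) (u : ℂ → Fin n → ℂ) (a b : ℂ → PS N) (z₀ : ℂ)
    (hu : ContinuousAt u z₀) (ha : F.Sec u a z₀) (hg : eval (u z₀) G.h ≠ 0)
    (τ τ' : ℂ → Fin g → ℂ) (hτ : IsSol Φ u a b {z₀} τ) (hτ' : IsSol Φ u a b {z₀} τ')
    (h : τ z₀ = τ' z₀) : τ =ᶠ[𝓝 z₀] τ' := by
  obtain ⟨δ, hδ, huniq⟩ := sol_unique Φ G u a z₀ hu ha hg (τ z₀)
  obtain ⟨h1, h2⟩ := hτ z₀ rfl
  obtain ⟨h1', h2'⟩ := hτ' z₀ rfl
  have e1 : ∀ᶠ y in 𝓝 z₀, τ y ∈ Metric.ball (τ z₀) δ :=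
    h1.continuousAt.eventually (Metric.ball_mem_nhds _ hδ)
  have e2 : ∀ᶠ y in 𝓝 z₀, τ' y ∈ Metric.ball (τ z₀) δ := by
    have := h1'.continuousAt.eventually (Metric.ball_mem_nhds (τ' z₀) hδ)
    rwa [← h] at this
  filter_upwards [Metric.ball_mem_nhds z₀ hδ, e1, e2, h2, h2'] with y hy hy1 hy2 hy3 hy4
  refine huniq y _ _ (by rwa [Metric.mem_ball, dist_eq_norm] at hy)
    (by rwa [Metric.mem_ball, dist_eq_norm] at hy1) (by rwa [Metric.mem_ball, dist_eq_norm] at hy2) ?_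
  rw [hy3, hy4]

/-- Continuation along a segment. By the Lebesgue number lemma there is `r > 0` such that for each `z₁` in the
segment and each `τ₁` with `Φ (τ₁) (a z₁) = b z₁` there is a solution on `ball z₁ r` through `(z₁, τ₁)`. Divide
the segment by points `s_0 = z₀, …, s_m = z₁` with `|s_{i+1} - s_i| < r / 2`; solutions `τ_i` on `ball s_i r`,
`τ_{i+1}` through `(s_{i+1}, τ_i (s_{i+1}))`; start with any `τ_0`, which exists by `G.orb`. `τ_{i+1} = τ_i`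
near `s_{i+1}` (`sol_unique`, continuity), hence on the convex set `ball s_i r ∩ ball s_{i+1} r`
(`AnalyticOnNhd.eqOn_of_preconnected_of_eventuallyEq`). If `i < k` and `z ∈ ball s_i r ∩ ball s_k r`, then
`z ∈ ball s_l r` for all `i ≤ l ≤ k` (convexity of the distance), so `τ_i z = τ_k z`. So the `τ_i` define a
solution near the segment. -/
theorem segment_sol (Φ : FlowAPI F) (G : Good Φ) (u : ℂ → Fin n → ℂ) (a b : ℂ → PS N) (z₀ z₁ : ℂ)
    (hu : ∀ z, AnalyticAt ℂ u z)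
    (h : ∀ z ∈ segment ℝ z₀ z₁, eval (u z) G.h ≠ 0 ∧ F.Sec u a z ∧ F.Sec u b z) :
    ∃ τ, IsSol Φ u a b (segment ℝ z₀ z₁) τ := by
  have hcomp : IsCompact (segment ℝ z₀ z₁) := by
    rw [segment_eq_image_lineMap]
    exact isCompact_Icc.image (AffineMap.lineMap_continuous)
  choose! r hr hrs using fun z (hz : z ∈ segment ℝ z₀ z₁) =>
    uniform_sol Φ G u a b z (hu z) (h z hz).2.1 (h z hz).2.2 (h z hz).1
  obtain ⟨δ, hδ, hleb⟩ := lebesgue_number_lemma_of_metric (ι := segment ℝ z₀ z₁)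
    (c := fun i => Metric.ball (i : ℂ) (r i)) hcomp (fun i => Metric.isOpen_ball)
    (fun z hz => Set.mem_iUnion.2 ⟨⟨z, hz⟩, Metric.mem_ball_self (hr z hz)⟩)
  have hsol : ∀ z ∈ segment ℝ z₀ z₁, ∀ τ₁ : Fin g → ℂ, Φ.Φ (u z) τ₁ (a z) = b z →
      ∃ τ, τ z = τ₁ ∧ IsSol Φ u a b (Metric.ball z δ) τ := by
    intro z hz τ₁ hτ₁
    obtain ⟨i, hi⟩ := hleb z hz
    obtain ⟨τ, h1, h2⟩ := hrs i i.2 z (hi (Metric.mem_ball_self hδ)) τ₁ hτ₁
    exact ⟨τ, h1, fun y hy => h2 y (hi hy)⟩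
  -- parametrization
  set d : ℂ := z₁ - z₀ with hd
  have hmem : ∀ t : ℝ, t ∈ Set.Icc (0 : ℝ) 1 → z₀ + t * d ∈ segment ℝ z₀ z₁ := by
    intro t ht
    rw [segment_eq_image']
    exact ⟨t, ht, by simp [hd]⟩
  have hmem' : ∀ z ∈ segment ℝ z₀ z₁, ∃ t ∈ Set.Icc (0 : ℝ) 1, z = z₀ + t * d := by
    intro z hz
    rw [segment_eq_image'] at hz
    obtain ⟨t, ht, rfl⟩ := hz
    exact ⟨t, ht, by simp [hd]⟩
  -- start
  have hz0 : z₀ ∈ segment ℝ z₀ z₁ := left_mem_segment ℝ z₀ z₁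
  have hstart : ∃ τ, IsSol Φ u a b {z₀} τ := by
    obtain ⟨hg, hsa, hsb⟩ := h z₀ hz0
    obtain ⟨v, hv, hav⟩ := hsa.2.self_of_nhds
    obtain ⟨v', hv', hbv⟩ := hsb.2.self_of_nhds
    obtain ⟨τ₀, hτ₀⟩ := G.orb (u z₀) hg v hv v' hv'
    rw [← hav, ← hbv] at hτ₀
    obtain ⟨τ, -, hτ⟩ := hsol z₀ hz0 τ₀ hτ₀
    exact ⟨τ, fun y hy => hτ y (by rw [Set.mem_singleton_iff.1 hy]; exact Metric.mem_ball_self hδ)⟩
  by_cases hd0 : d = 0
  · obtain ⟨τ, hτ⟩ := hstart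
    refine ⟨τ, fun z hz => hτ z ?_⟩
    obtain ⟨t, -, rfl⟩ := hmem' z hz
    simp [hd0]
  obtain ⟨m, hm⟩ := exists_nat_gt (‖d‖ / δ)
  have hm0 : 0 < (m : ℝ) := lt_of_le_of_lt (by positivity) hm
  have hdm : ‖d‖ / m < δ := by
    rw [div_lt_iff₀ hδ] at hm
    rw [div_lt_iff₀ hm0, mul_comm]
    exact hm
  have key : ∀ k : ℕ, k ≤ m → ∃ τ, ∀ t ∈ Set.Icc (0 : ℝ) (k / m),
      IsSol Φ u a b {z₀ + t * d} τ := by
    intro k
    induction k with
    | zero =>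
      intro _
      obtain ⟨τ, hτ⟩ := hstart
      refine ⟨τ, fun t ht => ?_⟩
      have : t = 0 := le_antisymm (by simpa using ht.2) ht.1
      simpa [this] using hτ
    | succ k ih =>
      intro hk
      obtain ⟨τ, hτ⟩ := ih (by omega)
      set s : ℝ := k / m with hs
      have hs0 : 0 ≤ s := by positivity
      have hs1 : s ≤ 1 := by
        rw [hs, div_le_one hm0]
        exact_mod_cast (by omega : k ≤ m)
      have hsseg := hmem s ⟨hs0, hs1⟩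
      have hτs := hτ s ⟨hs0, le_rfl⟩
      obtain ⟨σ, hσ1, hσ⟩ := hsol _ hsseg (τ (z₀ + s * d)) (hτs _ rfl).2.self_of_nhds
      have hσs : IsSol Φ u a b {z₀ + s * d} σ := fun y hy =>
        hσ y (by rw [Set.mem_singleton_iff.1 hy]; exact Metric.mem_ball_self hδ)
      have heq : τ =ᶠ[𝓝 (z₀ + s * d)] σ :=
        d3_eventuallyEq Φ G u a b _ (hu _).continuousAt (h _ hsseg).2.1 (h _ hsseg).1 τ σ hτs hσs
          hσ1.symm
      -- the real coordinate along the segment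
      have hℓc : Continuous fun w : ℂ => ((w - z₀) / d).re := by fun_prop
      have hℓ : ∀ t : ℝ, ((z₀ + t * d - z₀) / d).re = t := by
        intro t
        rw [add_sub_cancel_left, mul_div_cancel_right₀ _ hd0, Complex.ofReal_re]
      refine ⟨fun w => if ((w - z₀) / d).re ≤ s then τ w else σ w, fun t ht => ?_⟩
      rintro z hz
      rw [Set.mem_singleton_iff] at hz
      subst hz
      have hcongr : ∀ (ρ : ℂ → Fin g → ℂ), IsSol Φ u a b {z₀ + t * d} ρ →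
          (fun w => if ((w - z₀) / d).re ≤ s then τ w else σ w) =ᶠ[𝓝 (z₀ + t * d)] ρ →
          AnalyticAt ℂ (fun w => if ((w - z₀) / d).re ≤ s then τ w else σ w) (z₀ + t * d) ∧
          ∀ᶠ y in 𝓝 (z₀ + t * d),
            Φ.Φ (u y) (if ((y - z₀) / d).re ≤ s then τ y else σ y) (a y) = b y := by
        intro ρ hρ hρe
        obtain ⟨h1, h2⟩ := hρ _ rfl
        refine ⟨h1.congr hρe.symm, ?_⟩
        filter_upwards [h2, hρe] with y hy1 hy2
        rw [hy2]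
        exact hy1
      rcases lt_trichotomy t s with hts | hts | hts
      · refine hcongr τ (hτ t ⟨ht.1, hts.le⟩) ?_
        have : ∀ᶠ w in 𝓝 (z₀ + t * d), ((w - z₀) / d).re < s := by
          refine hℓc.continuousAt.eventually (gt_mem_nhds ?_)
          change ((z₀ + t * d - z₀) / d).re < s
          rw [hℓ]; exact hts
        filter_upwards [this] with w hw
        rw [if_pos hw.le]
      · subst hts
        refine hcongr τ hτs ?_
        filter_upwards [heq] with w hw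
        split_ifs
        · rfl
        · exact hw.symm
      · refine hcongr σ ?_ ?_
        · intro y hy
          rw [Set.mem_singleton_iff] at hy
          subst hy
          refine hσ _ ?_
          rw [Metric.mem_ball, dist_eq_norm]
          have h3 : z₀ + t * d - (z₀ + s * d) = ((t - s : ℝ) : ℂ) * d := by push_cast; ring
          rw [h3, norm_mul, Complex.norm_real, Real.norm_eq_abs, abs_of_pos (sub_pos.2 hts)]
          have h4 : t - s ≤ 1 / m := by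
            have := ht.2
            push_cast at this
            rw [hs]
            have h5 : ((k : ℝ) + 1) / m = k / m + 1 / m := by ring
            linarith
          calc (t - s) * ‖d‖ ≤ 1 / m * ‖d‖ := by gcongr
            _ = ‖d‖ / m := by ring
            _ < δ := hdm
        · have : ∀ᶠ w in 𝓝 (z₀ + t * d), s < ((w - z₀) / d).re := by
            refine hℓc.continuousAt.eventually (lt_mem_nhds ?_)
            change s < ((z₀ + t * d - z₀) / d).re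
            rw [hℓ]; exact hts
          filter_upwards [this] with w hw
          rw [if_neg (not_le.2 hw)]
  obtain ⟨τ, hτ⟩ := key m le_rfl
  refine ⟨τ, fun z hz => ?_⟩
  obtain ⟨t, ht, rfl⟩ := hmem' z hz
  exact hτ t ⟨ht.1, by rw [div_self hm0.ne']; exact ht.2⟩ _ rfl

end Pool.Agent.AbFib
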