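import Mathlib
import Pool.Agent.Lib_MP_1209e6_fl.Defs

/-!
# Abelian fibrations over `ℂ^n`: definitions

`MP_1209e6_ag`. Statement-level definitions: `co`, `Fibre`, `IsAbelianFibration`, `HasLocalSections`.
The rest (`PS`, `pm`, `Fam`, `FlowAPI`, …) is only used in the proof.
-/

set_option autoImplicit false

open Filter Topology

namespace Pool.Agent.AbFib

open Pool.Agent.CampanaFlow

section models

variable {K : Type} [Field K] [Algebra ℂ K] {n N : ℕ}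

/-- The coordinates `t_1, …, t_n, x_0/x_j, …, x_N/x_j` in the chart `x_j ≠ 0`. -/
def co {k : Type} [Field k] {n N : ℕ} (t : Fin n → k) (x : Fin (N + 1) → k) (j : Fin (N + 1)) :
    Fin n ⊕ Fin (N + 1) → k :=
  Sum.elim t fun l => x l / x j

/-- The cone over the fibre at `u ∈ ℂ^n` of the closure `W` of the point `(t, [x_0 : … : x_N])` in
`ℂ^n × P^N`: all nonzero `v` such that `(u, [v])` satisfies all polynomial relations over `ℂ` between the
coordinates of `(t, [x])`, in all the charts `x_j ≠ 0` which contain it. -/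
def Fibre (t : Fin n → K) (x : Fin (N + 1) → K) (u : Fin n → ℂ) : Set (Fin (N + 1) → ℂ) :=
  {v | v ≠ 0 ∧ ∀ j, v j ≠ 0 → ∀ p : MvPolynomial (Fin n ⊕ Fin (N + 1)) ℂ,
    MvPolynomial.aeval (co t x j) p = 0 → MvPolynomial.aeval (co u v j) p = 0}

/-- `K` is the function field of a projective variety `V` over `k = ℂ(t_1, …, t_n)` (with generic point
`[x_0 : … : x_N]`) which has commuting global vector fields `D_1, …, D_g` which span the tangent space at
each point: they span the `k`-linear derivations of `K`, and in each chart the minors of the matrix of the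
`D_i (x_l / x_j)` generate the unit ideal. Moreover the general fibre over `ℂ^n` is connected. -/
structure IsAbelianFibration (t : Fin n → K) (x : Fin (N + 1) → K) : Prop where
  ne_zero : ∀ l, x l ≠ 0
  gen : IntermediateField.adjoin ℂ (Set.range (co t x 0)) = ⊤
  fields : ∃ (g : ℕ) (D : Fin g → Derivation ℂ K K),
    (∀ i, GlobalField (IntermediateField.adjoin ℂ (Set.range t)) x (D i)) ∧
    (∀ i i' f, D i (D i' f) = D i' (D i f)) ∧
    (∀ E : Derivation ℂ K K, (∀ a, E (t a) = 0) → E ∈ Submodule.span K (Set.range D)) ∧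
    ∀ j, ∃ c : (Fin g → Fin (N + 1)) → K,
      (∀ L, c L ∈ Chart (IntermediateField.adjoin ℂ (Set.range t)) x j) ∧
      ∑ L, c L * Matrix.det (Matrix.of fun i m => D i (x (L m) / x j)) = 1
  connected : ∃ h : MvPolynomial (Fin n) ℂ, MvPolynomial.aeval t h ≠ 0 ∧
    ∀ u, MvPolynomial.eval u h ≠ 0 → IsPreconnected (Fibre t x u)

/-- The family has local holomorphic sections in codimension one off the coordinate hyperplanes: there is
a set `H` of polynomials whose common divisors are monomials such that there is a holomorphic local section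
at each `u ∈ (ℂ^*)^n` which is not a common zero of `H`. -/
def HasLocalSections (t : Fin n → K) (x : Fin (N + 1) → K) : Prop :=
  ∃ H : Set (MvPolynomial (Fin n) ℂ),
    (∀ p, (∀ h ∈ H, p ∣ h) → ∃ s : Fin n →₀ ℕ, p ∣ MvPolynomial.monomial s 1) ∧
    ∀ u : Fin n → ℂ, (∀ a, u a ≠ 0) → (∃ h ∈ H, MvPolynomial.eval u h ≠ 0) →
      ∃ σ : (Fin n → ℂ) → Fin (N + 1) → ℂ, AnalyticAt ℂ σ u ∧ ∀ᶠ u' in 𝓝 u, σ u' ∈ Fibre t x u'

/-- `u : ℂ → ℂ^n` is a Zariski dense meromorphic curve in the base (the closure of the point `t`): a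
polynomial vanishes at `t` if and only if it vanishes along `u` (off the poles). -/
def IsDenseCurve (t : Fin n → K) (u : ℂ → Fin n → ℂ) : Prop :=
  (∀ z, MeromorphicAt u z) ∧ ∀ p : MvPolynomial (Fin n) ℂ, MvPolynomial.aeval t p = 0 ↔
    ∀ z₀, ∀ᶠ z in 𝓝[≠] z₀, MvPolynomial.eval (u z) p = 0

/-- The curve `u` lifts locally: near each `z₀ ∈ ℂ` there is a holomorphic `v` with values `v z` in the
fibre over `u z` for `z ≠ z₀`. -/
def LiftsLocally (t : Fin n → K) (x : Fin (N + 1) → K) (u : ℂ → Fin n → ℂ) : Prop :=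
  ∀ z₀, ∃ v : ℂ → Fin (N + 1) → ℂ, AnalyticAt ℂ v z₀ ∧ ∀ᶠ z in 𝓝[≠] z₀, v z ∈ Fibre t x (u z)

end models

section points

variable {N : ℕ}

/-- `ℂ^(N+1)` modulo nonzero scalars -/
def PS (N : ℕ) : Type := MulAction.orbitRel.Quotient ℂˣ (Fin (N + 1) → ℂ)

/-- the class of a vector -/
def pm (v : Fin (N + 1) → ℂ) : PS N := Quotient.mk (MulAction.orbitRel ℂˣ (Fin (N + 1) → ℂ)) v

theorem pm_eq_iff {v w : Fin (N + 1) → ℂ} : pm v = pm w ↔ ∃ c : ℂ, c ≠ 0 ∧ v = c • w := by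
  constructor
  · intro h
    obtain ⟨c, hc⟩ := MulAction.orbitRel_apply.1 (Quotient.exact h)
    exact ⟨c, c.ne_zero, hc.symm⟩
  · rintro ⟨c, hc, rfl⟩
    exact Quotient.sound (MulAction.orbitRel_apply.2 ⟨Units.mk0 c hc, rfl⟩)

theorem pm_smul {c : ℂ} (hc : c ≠ 0) (v : Fin (N + 1) → ℂ) : pm (c • v) = pm v :=
  pm_eq_iff.2 ⟨c, hc, rfl⟩

theorem exists_pm (p : PS N) : ∃ v, p = pm v := by
  obtain ⟨v, hv⟩ := Quotient.exists_rep p
  exact ⟨v, hv.symm⟩

/-- the curve of points `a` is holomorphic near `z` -/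
def HolAt (a : ℂ → PS N) (z : ℂ) : Prop :=
  ∃ v : ℂ → Fin (N + 1) → ℂ, AnalyticAt ℂ v z ∧ v z ≠ 0 ∧ ∀ᶠ w in 𝓝 z, a w = pm (v w)

end points

/-- A family of projective varieties over `ℂ^n` with commuting vector fields `E i` along the fibres which
extend over ALL fibres (polynomial coefficients `P i j l` in all charts). -/
structure Fam (n N g : ℕ) (K : Type) [Field K] [Algebra ℂ K] where
  t : Fin n → K
  x : Fin (N + 1) → K
  E : Fin g → Derivation ℂ K K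
  P : Fin g → Fin (N + 1) → Fin (N + 1) → MvPolynomial (Fin n ⊕ Fin (N + 1)) ℂ
  x_ne : ∀ l, x l ≠ 0
  Et : ∀ i a, E i (t a) = 0
  EX : ∀ i j l, E i (x l / x j) = MvPolynomial.aeval (co t x j) (P i j l)
  comm : ∀ i i' f, E i (E i' f) = E i' (E i f)

namespace Fam

variable {K : Type} [Field K] [Algebra ℂ K] {n N g : ℕ} (F : Fam n N g K)

/-- the cone over the fibre at `u` -/
def fib (u : Fin n → ℂ) : Set (Fin (N + 1) → ℂ) := Fibre F.t F.x u

/-- the points of the fibre at `u` -/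
def Pts (u : Fin n → ℂ) : Set (PS N) := {p | ∃ v ∈ F.fib u, p = pm v}

/-- value at `(u, v)` of the minor of the matrix of the vector fields in the chart `j` -/
noncomputable def minor (j : Fin (N + 1)) (L : Fin g → Fin (N + 1)) (u : Fin n → ℂ)
    (v : Fin (N + 1) → ℂ) : ℂ :=
  Matrix.det (Matrix.of fun i m => MvPolynomial.aeval (Sum.elim u v) (F.P i j (L m)))

/-- the curve of points `a` over the base curve `u` is holomorphic near `z` and is a section -/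
def Sec (u : ℂ → Fin n → ℂ) (a : ℂ → PS N) (z : ℂ) : Prop :=
  HolAt a z ∧ ∀ᶠ w in 𝓝 z, a w ∈ F.Pts (u w)

end Fam

/-- The action of `ℂ^g` on the fibres. -/
structure FlowAPI {K : Type} [Field K] [Algebra ℂ K] {n N g : ℕ} (F : Fam n N g K) where
  Φ : (Fin n → ℂ) → (Fin g → ℂ) → PS N → PS N
  mem : ∀ u τ p, p ∈ F.Pts u → Φ u τ p ∈ F.Pts u
  zero : ∀ u p, p ∈ F.Pts u → Φ u 0 p = p
  add : ∀ u σ τ p, p ∈ F.Pts u → Φ u (σ + τ) p = Φ u σ (Φ u τ p)
  expand : ∀ M : ℝ, ∃ ρ C : ℝ, 0 < ρ ∧ 0 ≤ C ∧ ∀ j u v τ, ‖u‖ ≤ M → ‖v‖ ≤ M → v ∈ F.fib u →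
    v j = 1 → ‖τ‖ ≤ ρ → ∃ w ∈ F.fib u, w j = 1 ∧ Φ u τ (pm v) = pm w ∧
      ∀ l, ‖w l - v l - ∑ i, τ i * MvPolynomial.aeval (Sum.elim u v) (F.P i j l)‖ ≤ C * ‖τ‖ ^ 2
  lim : ∀ {α : Type} (f : Filter α) (u : α → Fin n → ℂ) (τ : α → Fin g → ℂ)
    (v : α → Fin (N + 1) → ℂ) (u₀ : Fin n → ℂ) (τ₀ : Fin g → ℂ) (v₀ : Fin (N + 1) → ℂ),
    Tendsto u f (𝓝 u₀) → Tendsto τ f (𝓝 τ₀) → Tendsto v f (𝓝 v₀) →
    (∀ᶠ a in f, v a ∈ F.fib (u a)) → v₀ ∈ F.fib u₀ →
    ∃ (w : α → Fin (N + 1) → ℂ) (w₀ : Fin (N + 1) → ℂ), Tendsto w f (𝓝 w₀) ∧ w₀ ∈ F.fib u₀ ∧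
      Φ u₀ τ₀ (pm v₀) = pm w₀ ∧
      ∀ᶠ a in f, w a ∈ F.fib (u a) ∧ Φ (u a) (τ a) (pm (v a)) = pm (w a)
  hol : ∀ (u : ℂ → Fin n → ℂ) (τ : ℂ → Fin g → ℂ) (a : ℂ → PS N) (z : ℂ), AnalyticAt ℂ u z →
    AnalyticAt ℂ τ z → F.Sec u a z → HolAt (fun w => Φ (u w) (τ w) (a w)) z

/-- Algebraic facts about the family. `minors`: over general `u` the vector fields are independent at each
point. `f`, `L`, `G`: in the chart `0`, on the open set `f ≠ 0` the functions `y_l`, `l ∈ L`, are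
coordinates (the other coordinates are simple roots of polynomials over them). `move`: a function of a
chart which is not zero is nonzero at points whose coordinates `L` (local coordinates) are general. -/
structure AlgPack {K : Type} [Field K] [Algebra ℂ K] {n N g : ℕ} (F : Fam n N g K) where
  c : MvPolynomial (Fin n) ℂ
  c_ne : MvPolynomial.aeval F.t c ≠ 0
  minors : ∀ u, MvPolynomial.eval u c ≠ 0 → ∀ v ∈ F.fib u, ∀ j, v j = 1 →
    ∃ L : Fin g → Fin (N + 1), F.minor j L u v ≠ 0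
  f : MvPolynomial (Fin n ⊕ Fin (N + 1)) ℂ
  f_ne : MvPolynomial.aeval (co F.t F.x 0) f ≠ 0
  L : Fin g → Fin (N + 1)
  G : Fin (N + 1) → Polynomial (MvPolynomial (Fin n ⊕ Fin g) ℂ)
  root : ∀ l u, ∀ v ∈ F.fib u, v 0 = 1 →
    (G l).eval₂ (MvPolynomial.aeval (Sum.elim u fun m => v (L m))).toRingHom (v l) = 0
  simple : ∀ u, ∀ v ∈ F.fib u, v 0 = 1 → MvPolynomial.aeval (Sum.elim u v) f ≠ 0 →
    F.minor 0 L u v ≠ 0 ∧ ∀ l, (Polynomial.derivative (G l)).eval₂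
      (MvPolynomial.aeval (Sum.elim u fun m => v (L m))).toRingHom (v l) ≠ 0
  move : ∀ j (r : MvPolynomial (Fin n ⊕ Fin (N + 1)) ℂ), MvPolynomial.aeval (co F.t F.x j) r ≠ 0 →
    ∃ h : MvPolynomial (Fin n) ℂ, MvPolynomial.aeval F.t h ≠ 0 ∧
      ∀ u, MvPolynomial.eval u h ≠ 0 → ∀ v₀ ∈ F.fib u,
      v₀ j = 1 → ∀ L : Fin g → Fin (N + 1), F.minor j L u v₀ ≠ 0 →
      ∃ H : MvPolynomial (Fin g) ℂ, H ≠ 0 ∧ ∀ v ∈ F.fib u, v j = 1 →
        MvPolynomial.aeval (Sum.elim u v) r = 0 → MvPolynomial.eval (fun m => v (L m)) H = 0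

/-- Abstract data for the construction of a global section by gluing. -/
structure GlueData (g : ℕ) (M : Type) where
  act : ℂ → (Fin g → ℂ) → M → M
  Sec : (ℂ → M) → ℂ → Prop
  B : Set ℂ
  disc : ∀ z, ∀ᶠ w in 𝓝[≠] z, w ∉ B
  congr : ∀ a a' z, a =ᶠ[𝓝 z] a' → Sec a z → Sec a' z
  evt : ∀ a z, Sec a z → ∀ᶠ w in 𝓝 z, Sec a w
  hact : ∀ a τ z, Sec a z → AnalyticAt ℂ τ z → Sec (fun w => act w (τ w) (a w)) z
  add : ∀ a z σ τ, Sec a z → act z (σ + τ) (a z) = act z σ (act z τ (a z))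
  zero : ∀ a z, Sec a z → act z 0 (a z) = a z
  loc : ∀ z, ∃ a, Sec a z
  trans : ∀ z₀ z₁ a b, (∀ z ∈ segment ℝ z₀ z₁, z ∉ B ∧ Sec a z ∧ Sec b z) →
    ∃ τ : ℂ → Fin g → ℂ, ∀ z ∈ segment ℝ z₀ z₁, AnalyticAt ℂ τ z ∧
      ∀ᶠ w in 𝓝 z, act w (τ w) (a w) = b w

end Pool.Agent.AbFib
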