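import Mathlib

/-! PIECE E1: splitting of a holomorphic function near a segment. -/

set_option autoImplicit false

open Filter Topology

namespace Pool.Agent.AbFib

private theorem cauchy_analytic {E : Type} [NormedAddCommGroup E] [NormedSpace ℂ E] [CompleteSpace E]
    (f : ℝ → E) (γ : ℝ → ℂ) (a b : ℝ) (hab : a ≤ b)
    (hf : ContinuousOn f (Set.Icc a b)) (hγ : Continuous γ) (z₀ : ℂ)
    (hz : ∀ t ∈ Set.Icc a b, γ t ≠ z₀) :
    AnalyticAt ℂ (fun z => ∫ t in a..b, (γ t - z)⁻¹ • f t) z₀ := by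
  have hcomp : IsCompact (γ '' Set.Icc a b) := isCompact_Icc.image hγ
  have hopen : IsOpen (γ '' Set.Icc a b)ᶜ := hcomp.isClosed.isOpen_compl
  have hz₀ : z₀ ∈ (γ '' Set.Icc a b)ᶜ := by
    rintro ⟨t, ht, h⟩; exact hz t ht h
  have hd : DifferentiableOn ℂ (fun z => ∫ t in a..b, (γ t - z)⁻¹ • f t) (γ '' Set.Icc a b)ᶜ := by
    intro z₁ hz₁
    apply DifferentiableAt.differentiableWithinAt
    obtain ⟨δ, hδ, hball⟩ := Metric.isOpen_iff.1 hopen z₁ hz₁
    have hfar : ∀ z ∈ Metric.ball z₁ (δ / 2), ∀ t ∈ Set.Icc a b, δ / 2 ≤ ‖γ t - z‖ := by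
      intro z hz t ht
      by_contra hcon
      push Not at hcon
      have h1 : γ t ∈ Metric.ball z₁ δ := by
        rw [Metric.mem_ball, dist_eq_norm] at hz ⊢
        calc ‖γ t - z₁‖ = ‖(γ t - z) + (z - z₁)‖ := by congr 1; ring
          _ ≤ ‖γ t - z‖ + ‖z - z₁‖ := norm_add_le _ _
          _ < δ := by linarith
      exact hball h1 ⟨t, ht, rfl⟩
    have hne : ∀ z ∈ Metric.ball z₁ (δ / 2), ∀ t ∈ Set.Icc a b, γ t - z ≠ 0 := by
      intro z hz t ht h0
      have := hfar z hz t ht
      rw [h0, norm_zero] at this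
      linarith
    have hu : Set.uIcc a b = Set.Icc a b := Set.uIcc_of_le hab
    have hcont : ∀ z ∈ Metric.ball z₁ (δ / 2), ContinuousOn (fun t => (γ t - z)⁻¹ • f t) (Set.Icc a b) := by
      intro z hz
      exact ((hγ.continuousOn.sub continuousOn_const).inv₀ (hne z hz)).smul hf
    have hcont' : ∀ z ∈ Metric.ball z₁ (δ / 2),
        ContinuousOn (fun t => ((γ t - z) ^ 2)⁻¹ • f t) (Set.Icc a b) := by
      intro z hz
      exact (((hγ.continuousOn.sub continuousOn_const).pow 2).inv₀
        (fun t ht => pow_ne_zero 2 (hne z hz t ht))).smul hf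
    have hmem : z₁ ∈ Metric.ball z₁ (δ / 2) := Metric.mem_ball_self (by positivity)
    have key := intervalIntegral.hasDerivAt_integral_of_dominated_loc_of_deriv_le
      (𝕜 := ℂ) (μ := MeasureTheory.volume) (a := a) (b := b)
      (F := fun z t => (γ t - z)⁻¹ • f t) (F' := fun z t => ((γ t - z) ^ 2)⁻¹ • f t) (x₀ := z₁)
      (bound := fun t => ((δ / 2) ^ 2)⁻¹ * ‖f t‖)
      (s := Metric.ball z₁ (δ / 2)) (Metric.ball_mem_nhds z₁ (by positivity))
      (by
        filter_upwards [Metric.ball_mem_nhds z₁ (show (0:ℝ) < δ / 2 by positivity)] with z hz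
        have := (hcont z hz).intervalIntegrable_of_Icc (μ := MeasureTheory.volume) hab
        rw [intervalIntegrable_iff] at this
        exact this.aestronglyMeasurable)
      ((hcont z₁ hmem).intervalIntegrable_of_Icc hab)
      (by
        have := (hcont' z₁ hmem).intervalIntegrable_of_Icc (μ := MeasureTheory.volume) hab
        rw [intervalIntegrable_iff] at this
        exact this.aestronglyMeasurable)
      (by
        refine Filter.Eventually.of_forall fun t ht z hz => ?_
        have ht' : t ∈ Set.Icc a b := by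
          rw [Set.uIoc_of_le hab] at ht
          exact ⟨ht.1.le, ht.2⟩
        rw [norm_smul, norm_inv, norm_pow]
        have h1 := hfar z hz t ht'
        gcongr)
      (by
        have : ContinuousOn (fun t => ((δ / 2) ^ 2)⁻¹ * ‖f t‖) (Set.Icc a b) :=
          continuousOn_const.mul hf.norm
        exact this.intervalIntegrable_of_Icc hab)
      (by
        refine Filter.Eventually.of_forall fun t ht z hz => ?_
        have ht' : t ∈ Set.Icc a b := by
          rw [Set.uIoc_of_le hab] at ht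
          exact ⟨ht.1.le, ht.2⟩
        have h1 : HasDerivAt (fun z => γ t - z) (-1) z := by
          simpa using (hasDerivAt_id z).const_sub (γ t)
        have h2 : HasDerivAt (fun z => (γ t - z)⁻¹) (((γ t - z) ^ 2)⁻¹) z := by
          have := h1.fun_inv (hne z hz t ht')
          rwa [neg_neg, one_div] at this
        exact h2.smul_const (f t))
    exact key.2.differentiableAt
  exact hd.analyticAt (hopen.mem_nhds hz₀)

/-- the boundary integral of a rectangle -/
private noncomputable def bd {E : Type} [NormedAddCommGroup E] [NormedSpace ℂ E] (x₀ x₁ y₀ y₁ : ℝ)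
    (f : ℂ → E) : E :=
  (∫ x : ℝ in x₀..x₁, f (x + y₀ * Complex.I)) - (∫ x : ℝ in x₀..x₁, f (x + y₁ * Complex.I)) +
      Complex.I • (∫ y : ℝ in y₀..y₁, f (x₁ + y * Complex.I)) -
      Complex.I • (∫ y : ℝ in y₀..y₁, f (x₀ + y * Complex.I))

private theorem side_h (x₀ x₁ y : ℝ) (z : ℂ) (h : z.im ≠ y) :
    (∫ x : ℝ in x₀..x₁, ((x : ℂ) + y * Complex.I - z)⁻¹) =
      Complex.log (x₁ + y * Complex.I - z) - Complex.log (x₀ + y * Complex.I - z) := by
  apply intervalIntegral.integral_eq_sub_of_hasDerivAt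
    (f := fun x : ℝ => Complex.log ((x : ℂ) + y * Complex.I - z))
  · intro t _
    have hs : ((t : ℂ) + y * Complex.I - z) ∈ Complex.slitPlane := by
      right
      simp
      intro h0
      exact h (by linarith)
    have hd : HasDerivAt (fun x : ℝ => ((x : ℂ) + y * Complex.I - z)) 1 t :=
      ((Complex.ofRealCLM.hasDerivAt (x := t)).add_const _).sub_const _
    have := hd.clog_real hs
    simpa using this
  · apply ContinuousOn.intervalIntegrable
    apply ContinuousOn.inv₀
    · exact (((Complex.continuous_ofReal.add continuous_const).sub continuous_const)).continuousOn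
    · intro t _ h0
      have := congrArg Complex.im h0
      simp at this
      exact h (by linarith)

private theorem side_r (x y₀ y₁ : ℝ) (z : ℂ) (h : z.re < x) :
    Complex.I • (∫ y : ℝ in y₀..y₁, ((x : ℂ) + y * Complex.I - z)⁻¹) =
      Complex.log (x + y₁ * Complex.I - z) - Complex.log (x + y₀ * Complex.I - z) := by
  rw [← intervalIntegral.integral_smul]
  apply intervalIntegral.integral_eq_sub_of_hasDerivAt
    (f := fun y : ℝ => Complex.log ((x : ℂ) + y * Complex.I - z))
  · intro t _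
    have hs : ((x : ℂ) + t * Complex.I - z) ∈ Complex.slitPlane := by
      left
      simp
      exact h
    have hd : HasDerivAt (fun y : ℝ => ((x : ℂ) + y * Complex.I - z)) Complex.I t := by
      have := (((Complex.ofRealCLM.hasDerivAt (x := t)).mul_const Complex.I).const_add (x : ℂ)).sub_const z
      simpa using this
    have := hd.clog_real hs
    simpa [div_eq_mul_inv] using this
  · apply ContinuousOn.intervalIntegrable
    refine ContinuousOn.fun_const_smul ?_ _
    apply ContinuousOn.inv₀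
    · exact (((continuous_const.add (Complex.continuous_ofReal.mul continuous_const)).sub continuous_const)).continuousOn
    · intro t _ h0
      have := congrArg Complex.re h0
      simp at this
      linarith

private theorem side_l (x y₀ y₁ : ℝ) (z : ℂ) (h : x < z.re) :
    Complex.I • (∫ y : ℝ in y₀..y₁, ((x : ℂ) + y * Complex.I - z)⁻¹) =
      Complex.log (-(x + y₁ * Complex.I - z)) - Complex.log (-(x + y₀ * Complex.I - z)) := by
  rw [← intervalIntegral.integral_smul]
  apply intervalIntegral.integral_eq_sub_of_hasDerivAt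
    (f := fun y : ℝ => Complex.log (-((x : ℂ) + y * Complex.I - z)))
  · intro t _
    have hs : -((x : ℂ) + t * Complex.I - z) ∈ Complex.slitPlane := by
      left
      simp
      exact h
    have hd : HasDerivAt (fun y : ℝ => -((x : ℂ) + y * Complex.I - z)) (-Complex.I) t := by
      have := ((((Complex.ofRealCLM.hasDerivAt (x := t)).mul_const Complex.I).const_add (x : ℂ)).sub_const z).fun_neg
      simpa using this
    have := hd.clog_real hs
    rw [neg_div_neg_eq] at this
    simpa [div_eq_mul_inv] using this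
  · apply ContinuousOn.intervalIntegrable
    refine ContinuousOn.fun_const_smul ?_ _
    apply ContinuousOn.inv₀
    · exact (((continuous_const.add (Complex.continuous_ofReal.mul continuous_const)).sub continuous_const)).continuousOn
    · intro t _ h0
      have := congrArg Complex.re h0
      simp at this
      linarith

private theorem log_sub_log_neg (ζ : ℂ) (h : 0 < ζ.im) :
    Complex.log ζ - Complex.log (-ζ) = Real.pi * Complex.I := by
  apply Complex.ext
  · simp [Complex.log_re]
  · simp [Complex.log_im, Complex.arg_neg_eq_arg_sub_pi_of_im_pos h]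

private theorem bd_inv (x₀ x₁ y₀ y₁ : ℝ) (z : ℂ) (h1 : x₀ < z.re)
    (h2 : z.re < x₁) (h3 : y₀ < z.im) (h4 : z.im < y₁) :
    bd x₀ x₁ y₀ y₁ (fun w => (w - z)⁻¹) = 2 * Real.pi * Complex.I := by
  unfold bd
  rw [side_h x₀ x₁ y₀ z h3.ne', side_h x₀ x₁ y₁ z h4.ne, side_r x₁ y₀ y₁ z h2, side_l x₀ y₀ y₁ z h1]
  have e1 := log_sub_log_neg (x₀ + y₁ * Complex.I - z) (by simp; linarith)
  have e2 := log_sub_log_neg (-(x₀ + y₀ * Complex.I - z)) (by simp; linarith)
  rw [neg_neg] at e2
  linear_combination e1 + e2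

private theorem rect_formula {E : Type} [NormedAddCommGroup E] [NormedSpace ℂ E] [CompleteSpace E]
    (x₀ x₁ y₀ y₁ : ℝ) (τ : ℂ → E)
    (hτ : ∀ w : ℂ, w.re ∈ Set.Icc x₀ x₁ → w.im ∈ Set.Icc y₀ y₁ → DifferentiableAt ℂ τ w) (z : ℂ)
    (h1 : x₀ < z.re) (h2 : z.re < x₁) (h3 : y₀ < z.im) (h4 : z.im < y₁) :
    bd x₀ x₁ y₀ y₁ (fun w => (w - z)⁻¹ • τ w) = (2 * Real.pi * Complex.I : ℂ) • τ z := by
  have hx : x₀ ≤ x₁ := by linarith
  have hy : y₀ ≤ y₁ := by linarith
  have hcont : ∀ w : ℂ, w.re ∈ Set.Icc x₀ x₁ → w.im ∈ Set.Icc y₀ y₁ → ContinuousAt τ w :=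
    fun w a b => (hτ w a b).continuousAt
  have hnhds : (Set.uIcc x₀ x₁ ×ℂ Set.uIcc y₀ y₁) ∈ 𝓝 z := by
    rw [Set.uIcc_of_le hx, Set.uIcc_of_le hy]
    rw [← mem_interior_iff_mem_nhds, Complex.interior_reProdIm, interior_Icc, interior_Icc]
    exact ⟨⟨h1, h2⟩, ⟨h3, h4⟩⟩
  have hD : DifferentiableOn ℂ (dslope τ z) (Set.uIcc x₀ x₁ ×ℂ Set.uIcc y₀ y₁) := by
    rw [Complex.differentiableOn_dslope hnhds]
    intro w hw
    rw [Set.uIcc_of_le hx, Set.uIcc_of_le hy] at hw
    exact (hτ w hw.1 hw.2).differentiableWithinAt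
  have h0 := Complex.integral_boundary_rect_eq_zero_of_differentiableOn (dslope τ z)
    (x₀ + y₀ * Complex.I) (x₁ + y₁ * Complex.I) (by simpa using hD)
  have r1 : ((x₀ : ℂ) + y₀ * Complex.I).re = x₀ := by simp
  have r2 : ((x₀ : ℂ) + y₀ * Complex.I).im = y₀ := by simp
  have r3 : ((x₁ : ℂ) + y₁ * Complex.I).re = x₁ := by simp
  have r4 : ((x₁ : ℂ) + y₁ * Complex.I).im = y₁ := by simp
  rw [r1, r2, r3, r4] at h0
  have hds : ∀ w : ℂ, w ≠ z → dslope τ z w = (w - z)⁻¹ • τ w - (w - z)⁻¹ • τ z := by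
    intro w hw
    rw [dslope_of_ne _ hw, slope_def_module, smul_sub]
  -- horizontal sides
  have hh : ∀ y : ℝ, y ∈ Set.Icc y₀ y₁ → z.im ≠ y →
      (∫ x : ℝ in x₀..x₁, dslope τ z (x + y * Complex.I)) =
        (∫ x : ℝ in x₀..x₁, ((x : ℂ) + y * Complex.I - z)⁻¹ • τ (x + y * Complex.I)) -
          (∫ x : ℝ in x₀..x₁, ((x : ℂ) + y * Complex.I - z)⁻¹) • τ z := by
    intro y hy' hne
    have hw : ∀ x : ℝ, (x : ℂ) + y * Complex.I - z ≠ 0 := by
      intro x h0
      have := congrArg Complex.im h0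
      simp at this
      exact hne (by linarith)
    have hc : Continuous fun x : ℝ => ((x : ℂ) + y * Complex.I) :=
      Complex.continuous_ofReal.add continuous_const
    have hci : Continuous fun x : ℝ => ((x : ℂ) + y * Complex.I - z)⁻¹ :=
      (hc.sub continuous_const).inv₀ hw
    rw [← intervalIntegral.integral_smul_const, ← intervalIntegral.integral_sub]
    · apply intervalIntegral.integral_congr
      intro x _
      exact hds _ (sub_ne_zero.1 (hw x))
    · apply ContinuousOn.intervalIntegrable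
      rw [Set.uIcc_of_le hx]
      refine hci.continuousOn.smul ?_
      intro x hx'
      have := hcont ((x : ℂ) + y * Complex.I) (by simpa using hx') (by simpa using hy')
      exact (ContinuousAt.comp (f := fun x : ℝ => ((x : ℂ) + y * Complex.I)) this
        hc.continuousAt).continuousWithinAt
    · exact (hci.smul continuous_const).intervalIntegrable _ _
  have hv : ∀ x : ℝ, x ∈ Set.Icc x₀ x₁ → z.re ≠ x →
      (∫ y : ℝ in y₀..y₁, dslope τ z (x + y * Complex.I)) =
        (∫ y : ℝ in y₀..y₁, ((x : ℂ) + y * Complex.I - z)⁻¹ • τ (x + y * Complex.I)) -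
          (∫ y : ℝ in y₀..y₁, ((x : ℂ) + y * Complex.I - z)⁻¹) • τ z := by
    intro x hx' hne
    have hw : ∀ y : ℝ, (x : ℂ) + y * Complex.I - z ≠ 0 := by
      intro y h0
      have := congrArg Complex.re h0
      simp at this
      exact hne (by linarith)
    have hc : Continuous fun y : ℝ => ((x : ℂ) + y * Complex.I) :=
      continuous_const.add (Complex.continuous_ofReal.mul continuous_const)
    have hci : Continuous fun y : ℝ => ((x : ℂ) + y * Complex.I - z)⁻¹ :=
      (hc.sub continuous_const).inv₀ hw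
    rw [← intervalIntegral.integral_smul_const, ← intervalIntegral.integral_sub]
    · apply intervalIntegral.integral_congr
      intro y _
      exact hds _ (sub_ne_zero.1 (hw y))
    · apply ContinuousOn.intervalIntegrable
      rw [Set.uIcc_of_le hy]
      refine hci.continuousOn.smul ?_
      intro y hy'
      have := hcont ((x : ℂ) + y * Complex.I) (by simpa using hx') (by simpa using hy')
      exact (ContinuousAt.comp (f := fun y : ℝ => ((x : ℂ) + y * Complex.I)) this
        hc.continuousAt).continuousWithinAt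
    · exact (hci.smul continuous_const).intervalIntegrable _ _
  rw [hh y₀ ⟨le_rfl, hy⟩ h3.ne', hh y₁ ⟨hy, le_rfl⟩ h4.ne, hv x₀ ⟨le_rfl, hx⟩ h1.ne',
    hv x₁ ⟨hx, le_rfl⟩ h2.ne] at h0
  rw [← bd_inv x₀ x₁ y₀ y₁ z h1 h2 h3 h4]
  unfold bd
  rw [sub_smul, add_smul, sub_smul]
  rw [← sub_eq_zero]
  rw [← h0]
  simp only [smul_sub, smul_assoc]
  abel

/-- For `x y c d ε` let `T` be the rectangle with corners `(x - ε, c - ε)` and `(x + ε, d + ε)`. There is
`J ≠ 0` (`= 2 π i`) such that for `z` in the interior of `T` the sum of the four side integrals of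
`1 / (w - z)` is `J`: either by primitives (`Complex.log (w - z)` is a primitive on the right, top and bottom
sides, `Complex.log (z - w)` on the left side, and `log ζ - log (-ζ) = ± π i`), or by showing that it is
constant in `z` (its derivative is `∮ 1/(w - z)^2 = 0`) and has positive imaginary part at the centre.

Splitting. `τ` is analytic near the segment `{x₁} × [c, d]`, so on a neighbourhood of some `T`
(compactness). For `z` in the interior of `T` the function `w ↦ dslope τ z w` is analytic near `T`, so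
its boundary integral is `0` (`Complex.integral_boundary_rect_eq_zero_of_differentiableOn`), i.e.
`∮ τ w / (w - z) = J τ z`. Put `τ₁ z = J⁻¹ (right + top + bottom sides)` and `τ₂ z = - J⁻¹ (left side)`
(integrals of `τ w / (w - z)`): `τ = τ₁ - τ₂` in the interior; each side integral is analytic in `z` off the
side (differentiate under the integral sign, `hasDerivAt_integral_of_dominated_loc_of_deriv_le`). It is
enough to treat each of the `g` components. -/
theorem split_vertical {g : ℕ} (τ : ℂ → Fin g → ℂ) (x c d : ℝ)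
    (h : ∀ z : ℂ, z.re = x → z.im ∈ Set.Icc c d → AnalyticAt ℂ τ z) :
    ∃ τ₁ τ₂ : ℂ → Fin g → ℂ, (∀ z : ℂ, z.re ≤ x → z.im ∈ Set.Icc c d → AnalyticAt ℂ τ₁ z) ∧
      (∀ z : ℂ, x ≤ z.re → z.im ∈ Set.Icc c d → AnalyticAt ℂ τ₂ z) ∧
      ∀ z : ℂ, z.re = x → z.im ∈ Set.Icc c d → ∀ᶠ w in 𝓝 z, τ w = τ₁ w - τ₂ w := by
  by_cases hcd : c ≤ d
  swap
  · refine ⟨0, 0, ?_, ?_, ?_⟩
    · intro z _ hz; exact absurd (hz.1.trans hz.2) hcd
    · intro z _ hz; exact absurd (hz.1.trans hz.2) hcd
    · intro z _ hz; exact absurd (hz.1.trans hz.2) hcd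
  -- the compact segment
  set S : Set ℂ := (fun t : ℝ => ((x : ℂ) + t * Complex.I)) '' Set.Icc c d with hS
  have hScomp : IsCompact S := isCompact_Icc.image
    (continuous_const.add (Complex.continuous_ofReal.mul continuous_const))
  have hSsub : S ⊆ {z | AnalyticAt ℂ τ z} := by
    rintro _ ⟨t, ht, rfl⟩
    exact h _ (by simp) (by simpa using ht)
  obtain ⟨δ, hδ, hthick⟩ := hScomp.exists_thickening_subset_open (isOpen_analyticAt ℂ τ) hSsub
  set ε : ℝ := δ / 3 with hε
  have hε0 : 0 < ε := by positivity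
  have hrect : ∀ w : ℂ, w.re ∈ Set.Icc (x - ε) (x + ε) → w.im ∈ Set.Icc (c - ε) (d + ε) →
      AnalyticAt ℂ τ w := by
    intro w hw1 hw2
    apply hthick
    rw [Metric.mem_thickening_iff]
    refine ⟨(x : ℂ) + (max c (min d w.im) : ℝ) * Complex.I, ⟨_, ⟨le_max_left _ _,
      max_le hcd (min_le_left _ _)⟩, rfl⟩, ?_⟩
    rw [dist_eq_norm]
    have hb1 : |w.re - x| ≤ ε := by
      rw [abs_le]; constructor <;> linarith [hw1.1, hw1.2]
    have hb2 : |w.im - max c (min d w.im)| ≤ ε := by
      rcases le_total d w.im with h1 | h1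
      · rw [min_eq_left h1, max_eq_right hcd, abs_le]
        constructor <;> linarith [hw2.1, hw2.2]
      · rw [min_eq_right h1]
        rcases le_total c w.im with h2 | h2
        · rw [max_eq_right h2, sub_self, abs_zero]; exact hε0.le
        · rw [max_eq_left h2, abs_le]
          constructor <;> linarith [hw2.1, hw2.2]
    calc ‖w - ((x : ℂ) + (max c (min d w.im) : ℝ) * Complex.I)‖
        ≤ |(w - ((x : ℂ) + (max c (min d w.im) : ℝ) * Complex.I)).re| +
          |(w - ((x : ℂ) + (max c (min d w.im) : ℝ) * Complex.I)).im| := Complex.norm_le_abs_re_add_abs_im _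
      _ = |w.re - x| + |w.im - max c (min d w.im)| := by simp
      _ < δ := by linarith
  have hx : x - ε ≤ x + ε := by linarith
  have hy : c - ε ≤ d + ε := by linarith
  have hchor : ∀ y : ℝ, Continuous fun x : ℝ => ((x : ℂ) + y * Complex.I) := fun y =>
      Complex.continuous_ofReal.add continuous_const
  have hcver : ∀ x : ℝ, Continuous fun y : ℝ => ((x : ℂ) + y * Complex.I) := fun x =>
      continuous_const.add (Complex.continuous_ofReal.mul continuous_const)
  have hch : ∀ y ∈ Set.Icc (c - ε) (d + ε),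
      ContinuousOn (fun s : ℝ => τ ((s : ℂ) + y * Complex.I)) (Set.Icc (x - ε) (x + ε)) := by
    intro y hy' s hs
    have := (hrect ((s : ℂ) + y * Complex.I) (by simpa using hs) (by simpa using hy')).continuousAt
    exact (ContinuousAt.comp (f := fun x : ℝ => ((x : ℂ) + y * Complex.I)) this
        (hchor y).continuousAt).continuousWithinAt
  have hcv : ∀ s ∈ Set.Icc (x - ε) (x + ε),
      ContinuousOn (fun y : ℝ => τ ((s : ℂ) + y * Complex.I)) (Set.Icc (c - ε) (d + ε)) := by
    intro s hs y hy'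
    have := (hrect ((s : ℂ) + y * Complex.I) (by simpa using hs) (by simpa using hy')).continuousAt
    exact (ContinuousAt.comp (f := fun y : ℝ => ((s : ℂ) + y * Complex.I)) this
        (hcver s).continuousAt).continuousWithinAt
  have hJ : (2 * Real.pi * Complex.I : ℂ) ≠ 0 := Complex.two_pi_I_ne_zero
  refine ⟨fun z => (2 * Real.pi * Complex.I : ℂ)⁻¹ •
      ((∫ s : ℝ in (x - ε)..(x + ε), ((s : ℂ) + (c - ε : ℝ) * Complex.I - z)⁻¹ • τ (s + (c - ε : ℝ) * Complex.I)) -
      (∫ s : ℝ in (x - ε)..(x + ε), ((s : ℂ) + (d + ε : ℝ) * Complex.I - z)⁻¹ • τ (s + (d + ε : ℝ) * Complex.I)) +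
      Complex.I • (∫ y : ℝ in (c - ε)..(d + ε), (((x + ε : ℝ) : ℂ) + y * Complex.I - z)⁻¹ • τ ((x + ε : ℝ) + y * Complex.I))),
    fun z => (2 * Real.pi * Complex.I : ℂ)⁻¹ •
      (Complex.I • (∫ y : ℝ in (c - ε)..(d + ε), (((x - ε : ℝ) : ℂ) + y * Complex.I - z)⁻¹ • τ ((x - ε : ℝ) + y * Complex.I))),
    ?_, ?_, ?_⟩
  · intro z hz1 hz2
    have a1 := cauchy_analytic (fun s : ℝ => τ ((s : ℂ) + (c - ε : ℝ) * Complex.I))
      (fun s : ℝ => (s : ℂ) + (c - ε : ℝ) * Complex.I) (x - ε) (x + ε) hx
      (hch _ ⟨le_rfl, hy⟩) (hchor _) z (by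
        intro t _ h0
        have := congrArg Complex.im h0
        simp at this
        linarith [hz2.1])
    have a2 := cauchy_analytic (fun s : ℝ => τ ((s : ℂ) + (d + ε : ℝ) * Complex.I))
      (fun s : ℝ => (s : ℂ) + (d + ε : ℝ) * Complex.I) (x - ε) (x + ε) hx
      (hch _ ⟨hy, le_rfl⟩) (hchor _) z (by
        intro t _ h0
        have := congrArg Complex.im h0
        simp at this
        linarith [hz2.2])
    have a3 := cauchy_analytic (fun y : ℝ => τ (((x + ε : ℝ) : ℂ) + y * Complex.I))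
      (fun y : ℝ => ((x + ε : ℝ) : ℂ) + y * Complex.I) (c - ε) (d + ε) hy
      (hcv _ ⟨hx, le_rfl⟩) (hcver _) z (by
        intro t _ h0
        have := congrArg Complex.re h0
        simp at this
        linarith)
    exact analyticAt_const.fun_smul ((a1.fun_sub a2).fun_add (analyticAt_const.fun_smul a3))
  · intro z hz1 hz2
    have a3 := cauchy_analytic (fun y : ℝ => τ (((x - ε : ℝ) : ℂ) + y * Complex.I))
      (fun y : ℝ => ((x - ε : ℝ) : ℂ) + y * Complex.I) (c - ε) (d + ε) hy
      (hcv _ ⟨le_rfl, hx⟩) (hcver _) z (by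
        intro t _ h0
        have := congrArg Complex.re h0
        simp at this
        linarith)
    exact analyticAt_const.fun_smul (analyticAt_const.fun_smul a3)
  · intro z hz1 hz2
    have hnhds : ((Set.Ioo (x - ε) (x + ε)) ×ℂ (Set.Ioo (c - ε) (d + ε))) ∈ 𝓝 z := by
      apply (isOpen_Ioo.reProdIm isOpen_Ioo).mem_nhds
      exact ⟨⟨by linarith, by linarith⟩, ⟨by linarith [hz2.1], by linarith [hz2.2]⟩⟩
    filter_upwards [hnhds] with w hw
    have hf := rect_formula (x - ε) (x + ε) (c - ε) (d + ε) τ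
      (fun w a b => (hrect w a b).differentiableAt) w hw.1.1 hw.1.2 hw.2.1 hw.2.2
    unfold bd at hf
    rw [← smul_sub]
    have := congrArg (fun v => (2 * Real.pi * Complex.I : ℂ)⁻¹ • v) hf
    simp only [] at this
    rw [inv_smul_smul₀ hJ] at this
    exact this.symm

/-- The same after the rotation `z ↦ θ z`, `θ ≠ 0`: apply `split_vertical` to `τ (θ⁻¹ z)`. -/
theorem split {g : ℕ} (τ : ℂ → Fin g → ℂ) (θ : ℂ) (hθ : θ ≠ 0) (x c d : ℝ)
    (h : ∀ z : ℂ, (θ * z).re = x → (θ * z).im ∈ Set.Icc c d → AnalyticAt ℂ τ z) :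
    ∃ τ₁ τ₂ : ℂ → Fin g → ℂ, (∀ z : ℂ, (θ * z).re ≤ x → (θ * z).im ∈ Set.Icc c d → AnalyticAt ℂ τ₁ z) ∧
      (∀ z : ℂ, x ≤ (θ * z).re → (θ * z).im ∈ Set.Icc c d → AnalyticAt ℂ τ₂ z) ∧
      ∀ z : ℂ, (θ * z).re = x → (θ * z).im ∈ Set.Icc c d → ∀ᶠ w in 𝓝 z, τ w = τ₁ w - τ₂ w := by
  have hmul : ∀ (a z : ℂ), AnalyticAt ℂ (fun z => a * z) z := fun a z => analyticAt_const.mul analyticAt_id
  obtain ⟨τ₁, τ₂, h1, h2, h3⟩ := split_vertical (fun z => τ (θ⁻¹ * z)) x c d (by
    intro z hz1 hz2
    have h0 : θ * (θ⁻¹ * z) = z := by field_simp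
    have := h (θ⁻¹ * z) (by rw [h0]; exact hz1) (by rw [h0]; exact hz2)
    exact AnalyticAt.fun_comp (f := fun z => θ⁻¹ * z) this (hmul _ _))
  refine ⟨fun z => τ₁ (θ * z), fun z => τ₂ (θ * z), ?_, ?_, ?_⟩
  · intro z hz1 hz2
    exact AnalyticAt.fun_comp (f := fun z => θ * z) (h1 _ hz1 hz2) (hmul _ _)
  · intro z hz1 hz2
    exact AnalyticAt.fun_comp (f := fun z => θ * z) (h2 _ hz1 hz2) (hmul _ _)
  · intro z hz1 hz2
    have ht : Tendsto (fun w => θ * w) (𝓝 z) (𝓝 (θ * z)) := (continuous_const.mul continuous_id).continuousAt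
    filter_upwards [ht.eventually (h3 _ hz1 hz2)] with w hw
    have h0 : θ⁻¹ * (θ * w) = w := by field_simp
    rw [h0] at hw
    exact hw

end Pool.Agent.AbFib
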