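import Pool.Agent.Lib_MP_1209e6_ab.Defs
import Pool.Agent.Lib_MP_1209e6_ab.E1

/-! PIECE E2: gluing of two sections along an edge. -/

set_option autoImplicit false

open Filter Topology

namespace Pool.Agent.AbFib

/-- polynomial approximation of a function analytic near a closed ball on a smaller ball -/
private theorem exists_poly {g : ℕ} (f : ℂ → Fin g → ℂ) (r r' η : ℝ) (hr : r < r') (hη : 0 < η)
    (hf : ∀ z ∈ Metric.closedBall (0 : ℂ) r', AnalyticAt ℂ f z) :
    ∃ P : ℂ → Fin g → ℂ, Differentiable ℂ P ∧ ∀ z, ‖z‖ ≤ r → ‖f z - P z‖ ≤ η := by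
  rcases lt_or_ge r 0 with h0 | h0
  · exact ⟨fun _ => 0, differentiable_const _, fun z hz =>
      absurd ((norm_nonneg z).trans hz) (not_le.2 h0)⟩
  · have hd : DifferentiableOn ℂ f (Metric.closedBall (0 : ℂ) (r'.toNNReal : ℝ)) := fun z hz => by
      rw [Real.coe_toNNReal r' (h0.trans hr.le)] at hz
      exact (hf z hz).differentiableAt.differentiableWithinAt
    have hr' : 0 < r'.toNNReal := Real.toNNReal_pos.2 (h0.trans_lt hr)
    have hps := hd.hasFPowerSeriesOnBall hr'
    obtain ⟨r'', h1, h2⟩ := exists_between hr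
    have hlt : ((r''.toNNReal : NNReal) : ENNReal) < (r'.toNNReal : NNReal) := by
      rw [ENNReal.coe_lt_coe]
      exact (Real.toNNReal_lt_toNNReal_iff (h0.trans_lt hr)).2 h2
    have hu := hps.tendstoUniformlyOn hlt
    rw [Metric.tendstoUniformlyOn_iff] at hu
    obtain ⟨m, hm⟩ := (hu η hη).exists
    refine ⟨fun z => (cauchyPowerSeries f 0 (r'.toNNReal : ℝ)).partialSum m z, ?_, fun z hz => ?_⟩
    · have : (fun z => (cauchyPowerSeries f 0 (r'.toNNReal : ℝ)).partialSum m z) = fun z : ℂ =>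
          ∑ k ∈ Finset.range m, z ^ k • (cauchyPowerSeries f 0 (r'.toNNReal : ℝ)).coeff k := by
        funext z
        exact Finset.sum_congr rfl fun k _ => FormalMultilinearSeries.apply_eq_pow_smul_coeff
      rw [this]
      fun_prop
    · have hz' : z ∈ Metric.ball (0 : ℂ) (r''.toNNReal : ℝ) := by
        rw [Real.coe_toNNReal r'' (h0.trans h1.le), mem_ball_zero_iff]
        exact hz.trans_lt h1
      have h3 := hm z hz'
      rw [zero_add, dist_eq_norm] at h3
      exact h3.le

namespace GlueData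

variable {g : ℕ} {M : Type} (D : GlueData g M)

/-- the closed rectangle with lower left corner `(x, y)` and upper right corner `(x', y')` -/
def rect (x x' y y' : ℝ) : Set ℂ := {z | z.re ∈ Set.Icc x x' ∧ z.im ∈ Set.Icc y y'}

/-- Let `Lf`, `Rt` be contained in the strip `(θ z).im ∈ [c, d]`, on the two sides of the line
`(θ z).re = s`, both containing the edge `(θ z).re = s, (θ z).im ∈ [c, d]`, which has no bad points. `a` is
a section near `Lf`, `b` a section near `Rt`. Then there is a section `e` near `Lf ∪ Rt`, `e = ε · a` near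
`Lf`, with `ε` analytic near `Lf` and small on a ball whose larger concentric closed ball is
contained in `Lf`.

Proof: `D.trans` on the edge (a segment; for `c > d` all is trivial with `e = a` on one side) gives `τ`
with `act τ a = b` near the edge. `split`: `τ = τ₁ - τ₂` near the edge. `τ₁` is analytic near `closedBall 0 r'`
`⊆ Lf`, so some polynomial `p` (partial sum of its Taylor series at `0`,
`DifferentiableOn.hasFPowerSeriesOnBall` and uniform convergence on smaller balls) satisfies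
`‖τ₁ - p‖ ≤ η` on `closedBall 0 r`. (If `r < 0` nothing is needed.) Replace `τ₁` by `ε = τ₁ - p` and `τ₂` by
`τ₂ - p`. Put `e w = act w (ε w) (a w)` if `(θ w).re ≤ s`, else `act w ((τ₂ - p) w) (b w)`. Near the
edge both expressions agree: `ε = (τ₂ - p) + τ`, `D.add`. -/
theorem glue (θ : ℂ) (hθ : θ ≠ 0) (s c d : ℝ) (Lf Rt : Set ℂ)
    (hL : ∀ z ∈ Lf, (θ * z).re ≤ s ∧ (θ * z).im ∈ Set.Icc c d)
    (hR : ∀ z ∈ Rt, s ≤ (θ * z).re ∧ (θ * z).im ∈ Set.Icc c d)
    (hE : ∀ z, (θ * z).re = s → (θ * z).im ∈ Set.Icc c d → z ∈ Lf ∧ z ∈ Rt ∧ z ∉ D.B)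
    (a b : ℂ → M) (ha : ∀ z ∈ Lf, D.Sec a z) (hb : ∀ z ∈ Rt, D.Sec b z) (r r' η : ℝ) (hr : r < r')
    (hη : 0 < η) (hball : Metric.closedBall 0 r' ⊆ Lf) :
    ∃ (e : ℂ → M) (ε : ℂ → Fin g → ℂ), (∀ z ∈ Lf ∪ Rt, D.Sec e z) ∧
      (∀ z ∈ Lf, AnalyticAt ℂ ε z ∧ ∀ᶠ w in 𝓝 z, e w = D.act w (ε w) (a w)) ∧
      ∀ z, ‖z‖ ≤ r → ‖ε z‖ ≤ η := by
  rcases lt_or_ge d c with hcd | hcd
  · -- the strip is empty
    have hLe : ∀ z, z ∉ Lf := fun z hz => by
      have := (hL z hz).2
      exact absurd (this.1.trans this.2) (not_le.2 hcd)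
    have hRe : ∀ z, z ∉ Rt := fun z hz => by
      have := (hR z hz).2
      exact absurd (this.1.trans this.2) (not_le.2 hcd)
    refine ⟨a, fun _ => 0, fun z hz => ?_, fun z hz => absurd hz (hLe z), fun z _ => ?_⟩
    · rcases hz with hz | hz
      · exact absurd hz (hLe z)
      · exact absurd hz (hRe z)
    · simpa using hη.le
  -- the edge
  have hedge : ∀ z ∈ segment ℝ (θ⁻¹ * (s + c * Complex.I)) (θ⁻¹ * (s + d * Complex.I)),
      (θ * z).re = s ∧ (θ * z).im ∈ Set.Icc c d := by
    rintro z ⟨p, q, hp, hq, hpq, rfl⟩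
    have h1 : θ * (p • (θ⁻¹ * (s + c * Complex.I)) + q • (θ⁻¹ * (s + d * Complex.I))) =
        (s : ℂ) + ((p * c + q * d : ℝ) : ℂ) * Complex.I := by
      have h2 : (p : ℂ) + q = 1 := by exact_mod_cast hpq
      rw [Complex.real_smul, Complex.real_smul]
      push_cast
      field_simp
      linear_combination (s : ℂ) * h2
    rw [h1]
    have h3 : ((s : ℂ) + ((p * c + q * d : ℝ) : ℂ) * Complex.I).re = s := by
      simp [Complex.add_re, Complex.mul_re]
    have h4 : ((s : ℂ) + ((p * c + q * d : ℝ) : ℂ) * Complex.I).im = p * c + q * d := by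
      simp [Complex.add_im, Complex.mul_im]
    rw [h3, h4]
    refine ⟨rfl, ?_, ?_⟩
    · calc c = p * c + q * c := by rw [← add_mul, hpq, one_mul]
        _ ≤ p * c + q * d := by gcongr
    · calc p * c + q * d ≤ p * d + q * d := by gcongr
        _ = d := by rw [← add_mul, hpq, one_mul]
  have hedge' : ∀ z, (θ * z).re = s → (θ * z).im ∈ Set.Icc c d →
      z ∈ segment ℝ (θ⁻¹ * (s + c * Complex.I)) (θ⁻¹ * (s + d * Complex.I)) := by
    intro z h1 h2
    have h3 : (θ * z).im ∈ segment ℝ c d := by rwa [segment_eq_Icc hcd]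
    obtain ⟨p, q, hp, hq, hpq, h4⟩ := h3
    refine ⟨p, q, hp, hq, hpq, ?_⟩
    have h5 : (p : ℂ) + q = 1 := by exact_mod_cast hpq
    have h6 : θ * z = s + ((p * c + q * d : ℝ) : ℂ) * Complex.I := by
      rw [← Complex.re_add_im (θ * z), h1, ← h4]
      simp only [smul_eq_mul]
    have h7 : z = θ⁻¹ * (s + ((p * c + q * d : ℝ) : ℂ) * Complex.I) := by
      rw [← h6]
      field_simp
    rw [h7, Complex.real_smul, Complex.real_smul]
    push_cast
    linear_combination (θ⁻¹ * (s : ℂ)) * h5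
  obtain ⟨τ, hτ⟩ := D.trans (θ⁻¹ * (s + c * Complex.I)) (θ⁻¹ * (s + d * Complex.I)) a b
    fun z hz => by
      obtain ⟨h1, h2⟩ := hedge z hz
      obtain ⟨h3, h4, h5⟩ := hE z h1 h2
      exact ⟨h5, ha z h3, hb z h4⟩
  obtain ⟨τ₁, τ₂, h1, h2, h12⟩ := split τ θ hθ s c d fun z hz hz' => (hτ z (hedge' z hz hz')).1
  obtain ⟨P, hP, hPn⟩ := exists_poly τ₁ r r' η hr hη fun z hz =>
    h1 z (hL z (hball hz)).1 (hL z (hball hz)).2
  -- both expressions agree near the edge
  have hag : ∀ z, (θ * z).re = s → (θ * z).im ∈ Set.Icc c d →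
      ∀ᶠ w in 𝓝 z, D.act w (τ₂ w - P w) (b w) = D.act w (τ₁ w - P w) (a w) := by
    intro z hz hz'
    filter_upwards [(hτ z (hedge' z hz hz')).2, h12 z hz hz', D.evt a z (ha z (hE z hz hz').1)] with
      w k1 k2 k3
    rw [← k1, ← D.add a w _ _ k3]
    congr 1
    rw [k2]
    abel
  have hcont : Continuous fun w : ℂ => (θ * w).re := by fun_prop
  classical
  let e : ℂ → M := fun w => if (θ * w).re ≤ s then D.act w (τ₁ w - P w) (a w) else
    D.act w (τ₂ w - P w) (b w)
  have heL : ∀ z ∈ Lf, ∀ᶠ w in 𝓝 z, e w = D.act w (τ₁ w - P w) (a w) := by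
    intro z hz
    rcases (hL z hz).1.lt_or_eq with h | h
    · filter_upwards [hcont.continuousAt.eventually_lt continuousAt_const h] with w hw
      exact if_pos hw.le
    · filter_upwards [hag z h (hL z hz).2] with w hw
      by_cases hc : (θ * w).re ≤ s
      · exact if_pos hc
      · exact (if_neg hc).trans hw
  have heR : ∀ z ∈ Rt, ∀ᶠ w in 𝓝 z, e w = D.act w (τ₂ w - P w) (b w) := by
    intro z hz
    rcases (hR z hz).1.lt_or_eq with h | h
    · filter_upwards [continuousAt_const.eventually_lt hcont.continuousAt h] with w hw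
      exact if_neg (not_le.2 hw)
    · filter_upwards [hag z h.symm (hR z hz).2] with w hw
      by_cases hc : (θ * w).re ≤ s
      · exact (if_pos hc).trans hw.symm
      · exact if_neg hc
  refine ⟨e, fun w => τ₁ w - P w, fun z hz => ?_, fun z hz => ⟨?_, heL z hz⟩, hPn⟩
  · rcases hz with hz | hz
    · exact D.congr _ e z ((heL z hz).mono fun w hw => hw.symm)
        (D.hact a (fun w => τ₁ w - P w) z (ha z hz)
          ((h1 z (hL z hz).1 (hL z hz).2).sub (hP.analyticAt z)))
    · exact D.congr _ e z ((heR z hz).mono fun w hw => hw.symm)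
        (D.hact b (fun w => τ₂ w - P w) z (hb z hz)
          ((h2 z (hR z hz).1 (hR z hz).2).sub (hP.analyticAt z)))
  · exact (h1 z (hL z hz).1 (hL z hz).2).sub (hP.analyticAt z)

end GlueData

end Pool.Agent.AbFib
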