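import Pool.Agent.Lib_MP_1209e6_ab.E2

/-! PIECE E3: sections near rectangles with good sides. -/

set_option autoImplicit false

open Filter Topology

namespace Pool.Agent.AbFib

namespace GlueData

variable {g : ℕ} {M : Type} (D : GlueData g M)

/-- real numbers which are not real parts of bad points -/
def GX : Set ℝ := {x | ∀ z ∈ D.B, z.re ≠ x}

/-- real numbers which are not imaginary parts of bad points -/
def GY : Set ℝ := {y | ∀ z ∈ D.B, z.im ≠ y}

theorem e3_countable : D.B.Countable := by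
  have hcl : ∀ K : Set ℂ, IsCompact K → (D.B ∩ K).Finite := by
    intro K hK
    by_contra hinf
    have hinf' : (D.B ∩ K).Infinite := hinf
    obtain ⟨z, -, hz⟩ := hinf'.exists_accPt_of_subset_isCompact hK Set.inter_subset_right
    rw [accPt_iff_frequently_nhdsNE] at hz
    exact hz ((D.disc z).mono fun w hw hw' => hw hw'.1)
  have hU : D.B = ⋃ k : ℕ, D.B ∩ Metric.closedBall 0 k := by
    ext z
    simp only [Set.mem_iUnion, Set.mem_inter_iff, Metric.mem_closedBall, dist_zero_right]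
    constructor
    · intro hz
      obtain ⟨k, hk⟩ := exists_nat_ge ‖z‖
      exact ⟨k, hz, hk⟩
    · rintro ⟨k, hz, -⟩
      exact hz
  rw [hU]
  exact Set.countable_iUnion fun k => (hcl _ (isCompact_closedBall 0 _)).countable

theorem e3_exists (S : Set ℝ) (hS : S.Countable) (x x' : ℝ) (h : x < x') :
    ∃ y ∉ S, x < y ∧ y < x' := by
  have h1 : ¬ (Set.Ioo x x').Countable := fun hc => absurd (Cardinal.Real.Ioo_countable_iff.1 hc) (not_le.2 h)
  by_contra hcon
  push Not at hcon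
  refine h1 (hS.mono fun y hy => ?_)
  by_contra hyS
  exact absurd (hcon y hyS hy.1) (not_le.2 hy.2)

/-- `D.B` is countable (closed and discrete in `ℂ`), so there are good numbers in each open interval. -/
theorem exists_GX (x x' : ℝ) (h : x < x') : ∃ y ∈ D.GX, x < y ∧ y < x' := by
  obtain ⟨y, hy, h1⟩ := e3_exists _ (D.e3_countable.image Complex.re) x x' h
  exact ⟨y, fun z hz he => hy ⟨z, hz, he⟩, h1⟩

theorem exists_GY (x x' : ℝ) (h : x < x') : ∃ y ∈ D.GY, x < y ∧ y < x' := by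
  obtain ⟨y, hy, h1⟩ := e3_exists _ (D.e3_countable.image Complex.im) x x' h
  exact ⟨y, fun z hz he => hy ⟨z, hz, he⟩, h1⟩

/-- gluing two rectangles along a vertical edge -/
theorem e3_glue_x (x m x' y y' : ℝ) (hm : m ∈ D.GX) (h1 : x ≤ m) (h2 : m ≤ x')
    (a b : ℂ → M) (ha : ∀ z ∈ rect x m y y', D.Sec a z) (hb : ∀ z ∈ rect m x' y y', D.Sec b z) :
    ∃ e, ∀ z ∈ rect x x' y y', D.Sec e z := by
  obtain ⟨e, ε, he, -, -⟩ := D.glue 1 one_ne_zero m y y' (rect x m y y') (rect m x' y y')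
    (fun z hz => by simpa using ⟨hz.1.2, hz.2⟩) (fun z hz => by simpa using ⟨hz.1.1, hz.2⟩)
    (fun z hz1 hz2 => by
      rw [one_mul] at hz1 hz2
      exact ⟨⟨⟨by rw [hz1]; exact h1, hz1.le⟩, hz2⟩, ⟨⟨hz1.ge, by rw [hz1]; exact h2⟩, hz2⟩,
        fun hB => hm z hB hz1⟩)
    a b ha hb (-2) (-1) 1 (by norm_num) one_pos (by
      rw [Metric.closedBall_eq_empty.2 (by norm_num)]
      exact Set.empty_subset _)
  refine ⟨e, fun z hz => he z ?_⟩
  rcases le_total z.re m with h | h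
  · exact Or.inl ⟨⟨hz.1.1, h⟩, hz.2⟩
  · exact Or.inr ⟨⟨h, hz.1.2⟩, hz.2⟩

/-- gluing two rectangles along a horizontal edge -/
theorem e3_glue_y (x x' y m y' : ℝ) (hm : m ∈ D.GY) (h1 : y ≤ m) (h2 : m ≤ y')
    (a b : ℂ → M) (ha : ∀ z ∈ rect x x' y m, D.Sec a z) (hb : ∀ z ∈ rect x x' m y', D.Sec b z) :
    ∃ e, ∀ z ∈ rect x x' y y', D.Sec e z := by
  have hre : ∀ z : ℂ, (-Complex.I * z).re = z.im := fun z => by simp
  have him : ∀ z : ℂ, (-Complex.I * z).im = -z.re := fun z => by simp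
  obtain ⟨e, ε, he, -, -⟩ := D.glue (-Complex.I) (neg_ne_zero.2 Complex.I_ne_zero) m (-x') (-x)
    (rect x x' y m) (rect x x' m y')
    (fun z hz => by
      rw [hre, him]
      exact ⟨hz.2.2, neg_le_neg hz.1.2, neg_le_neg hz.1.1⟩)
    (fun z hz => by
      rw [hre, him]
      exact ⟨hz.2.1, neg_le_neg hz.1.2, neg_le_neg hz.1.1⟩)
    (fun z hz1 hz2 => by
      rw [hre] at hz1
      rw [him] at hz2
      have h3 : z.re ∈ Set.Icc x x' := ⟨neg_le_neg_iff.1 hz2.2, neg_le_neg_iff.1 hz2.1⟩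
      exact ⟨⟨h3, by rw [hz1]; exact ⟨h1, le_rfl⟩⟩, ⟨h3, by rw [hz1]; exact ⟨le_rfl, h2⟩⟩,
        fun hB => hm z hB hz1⟩)
    a b ha hb (-2) (-1) 1 (by norm_num) one_pos (by
      rw [Metric.closedBall_eq_empty.2 (by norm_num)]
      exact Set.empty_subset _)
  refine ⟨e, fun z hz => he z ?_⟩
  rcases le_total z.im m with h | h
  · exact Or.inl ⟨hz.1, ⟨hz.2.1, h⟩⟩
  · exact Or.inr ⟨hz.1, ⟨h, hz.2.2⟩⟩

/-- Cutting an interval: if a property of pairs `(x, x')` of good numbers holds for short intervals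
(of length `≤ ε`) inside `[X, X']` and is stable under union at good points, it holds for all. -/
theorem e3_induct (S : Set ℝ) (hS : ∀ x x' : ℝ, x < x' → ∃ y ∈ S, x < y ∧ y < x')
    (P : ℝ → ℝ → Prop) (X X' ε : ℝ) (hε : 0 < ε)
    (hshort : ∀ x ∈ S, ∀ x' ∈ S, X ≤ x → x < x' → x' ≤ X' → x' - x ≤ ε → P x x')
    (hglue : ∀ x m x', x ∈ S → m ∈ S → x' ∈ S → X ≤ x → x' ≤ X' → x < m → m < x' → P x m →
      P m x' → P x x') :
    ∀ x ∈ S, ∀ x' ∈ S, X ≤ x → x < x' → x' ≤ X' → P x x' := by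
  have key : ∀ k : ℕ, ∀ x ∈ S, ∀ x' ∈ S, X ≤ x → x < x' → x' ≤ X' → x' - x ≤ (3 / 2) ^ k * ε →
      P x x' := by
    intro k
    induction k with
    | zero =>
      intro x hx x' hx' h1 h2 h3 h4
      exact hshort x hx x' hx' h1 h2 h3 (by simpa using h4)
    | succ k ih =>
      intro x hx x' hx' h1 h2 h3 h4
      obtain ⟨m, hm, hm1, hm2⟩ := hS (x + (x' - x) / 3) (x' - (x' - x) / 3) (by linarith)
      have hxm : x < m := by linarith
      have hmx : m < x' := by linarith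
      have h5 : 2 / 3 * (x' - x) ≤ (3 / 2) ^ k * ε := by
        rw [pow_succ] at h4
        nlinarith [h4]
      exact hglue x m x' hx hm hx' h1 h3 hxm hmx
        (ih x hx m hm h1 hxm (by linarith) (by linarith))
        (ih m hm x' hx' (by linarith) hmx h3 (by linarith))
  intro x hx x' hx' h1 h2 h3
  obtain ⟨k, hk⟩ := pow_unbounded_of_one_lt ((x' - x) / ε) (by norm_num : (1 : ℝ) < 3 / 2)
  refine key k x hx x' hx' h1 h2 h3 ?_
  rw [div_lt_iff₀ hε] at hk
  exact hk.le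

/-- A section near each closed rectangle with good sides. The rectangle is compact, and each point has a
neighbourhood on which there is a section (`D.loc`, `D.evt`), so there is `δ > 0` (Lebesgue number) such that
there is a section near each subset of diameter `< δ`. For the general case halve the width until it is
`< δ / 2`, then the height: the statement for all good subrectangles of width `≤ (3/2)^k δ/2` and height
`≤ δ/2` there is a section is proved by induction on `k`, cutting at a good `x` in the middle third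
(`exists_GX`) and `glue` with `θ = 1` (`r = -2, r' = -1`, the closed ball is empty); then the
same for the height, with `θ = - I` (so that `(θ z).re = z.im`, `(θ z).im = - z.re`) and arbitrary width. -/
theorem exists_rect (x x' y y' : ℝ) (hx : x ∈ D.GX) (hx' : x' ∈ D.GX) (hy : y ∈ D.GY)
    (hy' : y' ∈ D.GY) (h1 : x < x') (h2 : y < y') : ∃ a, ∀ z ∈ rect x x' y y', D.Sec a z := by
  have hcomp : IsCompact (rect x x' y y') := by
    have h3 : rect x x' y y' = Set.Icc x x' ×ℂ Set.Icc y y' := rfl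
    rw [h3]
    exact isCompact_Icc.reProdIm isCompact_Icc
  have hloc : ∀ z : ℂ, ∃ r > 0, ∃ a, ∀ w ∈ Metric.ball z r, D.Sec a w := by
    intro z
    obtain ⟨a, ha⟩ := D.loc z
    obtain ⟨r, hr, hball⟩ := Metric.nhds_basis_ball.eventually_iff.1 (D.evt a z ha)
    exact ⟨r, hr, a, hball⟩
  choose r hr a ha using hloc
  obtain ⟨δ, hδ, hleb⟩ := lebesgue_number_lemma_of_metric (ι := ℂ)
    (c := fun z => Metric.ball z (r z)) hcomp (fun z => Metric.isOpen_ball)
    (fun z hz => Set.mem_iUnion.2 ⟨z, Metric.mem_ball_self (hr z)⟩)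
  have hsmall : ∀ s s' t t' : ℝ, x ≤ s → s < s' → s' ≤ x' → s' - s ≤ δ / 3 → y ≤ t → t < t' →
      t' ≤ y' → t' - t ≤ δ / 3 → ∃ a, ∀ z ∈ rect s s' t t', D.Sec a z := by
    intro s s' t t' hs1 hs2 hs3 hs4 ht1 ht2 ht3 ht4
    have hmem : (⟨s, t⟩ : ℂ) ∈ rect x x' y y' :=
      ⟨⟨hs1, hs2.le.trans hs3⟩, ⟨ht1, ht2.le.trans ht3⟩⟩
    obtain ⟨i, hi⟩ := hleb _ hmem
    refine ⟨a i, fun z hz => ha i z (hi ?_)⟩
    rw [Metric.mem_ball, dist_eq_norm]
    have h3 : ‖z - ⟨s, t⟩‖ ≤ |z.re - s| + |z.im - t| := Complex.norm_le_abs_re_add_abs_im _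
    have h4 : |z.re - s| ≤ δ / 3 := by
      rw [abs_of_nonneg (sub_nonneg.2 hz.1.1)]
      have := hz.1.2
      linarith
    have h5 : |z.im - t| ≤ δ / 3 := by
      rw [abs_of_nonneg (sub_nonneg.2 hz.2.1)]
      have := hz.2.2
      linarith
    linarith
  have hδ3 : 0 < δ / 3 := by positivity
  -- widths
  have hwide : ∀ t t' : ℝ, y ≤ t → t < t' → t' ≤ y' → t' - t ≤ δ / 3 →
      ∀ s ∈ D.GX, ∀ s' ∈ D.GX, x ≤ s → s < s' → s' ≤ x' → ∃ a, ∀ z ∈ rect s s' t t', D.Sec a z := by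
    intro t t' ht1 ht2 ht3 ht4
    refine e3_induct D.GX D.exists_GX (fun s s' => ∃ a, ∀ z ∈ rect s s' t t', D.Sec a z) x x' (δ / 3)
      hδ3 ?_ ?_
    · intro s _ s' _ hs1 hs2 hs3 hs4
      exact hsmall s s' t t' hs1 hs2 hs3 hs4 ht1 ht2 ht3 ht4
    · rintro s m s' - hm - - - hsm hms ⟨a, ha⟩ ⟨b, hb⟩
      exact D.e3_glue_x s m s' t t' hm hsm.le hms.le a b ha hb
  have hall := e3_induct D.GY D.exists_GY (fun t t' => ∃ a, ∀ z ∈ rect x x' t t', D.Sec a z) y y'
    (δ / 3) hδ3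
    (fun t _ t' _ ht1 ht2 ht3 ht4 => hwide t t' ht1 ht2 ht3 ht4 x hx x' hx' le_rfl h1 le_rfl)
    (by
      rintro t m t' - hm - - - htm hmt ⟨a, ha⟩ ⟨b, hb⟩
      exact D.e3_glue_y x x' t m t' hm htm.le hmt.le a b ha hb)
  exact hall y hy y' hy' le_rfl h2 le_rfl

end GlueData

end Pool.Agent.AbFib
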