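import Pool.Agent.Lib_MP_1209e6_ab.E3

/-! PIECE E4: the global section. -/

set_option autoImplicit false

open Filter Topology

namespace Pool.Agent.AbFib

namespace GlueData

variable {g : ℕ} {M : Type} (D : GlueData g M)

private theorem mem_rect {x x' y y' : ℝ} {z : ℂ} :
    z ∈ rect x x' y y' ↔ (x ≤ z.re ∧ z.re ≤ x') ∧ y ≤ z.im ∧ z.im ≤ y' := Iff.rfl

/-- composition of two corrections -/
private theorem comp_step {a e e' : ℂ → M} {ε ε' : ℂ → Fin g → ℂ} {z : ℂ} (ha : D.Sec a z)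
    (h : AnalyticAt ℂ ε z ∧ ∀ᶠ w in 𝓝 z, e w = D.act w (ε w) (a w))
    (h' : AnalyticAt ℂ ε' z ∧ ∀ᶠ w in 𝓝 z, e' w = D.act w (ε' w) (e w)) :
    AnalyticAt ℂ (fun w => ε' w + ε w) z ∧
      ∀ᶠ w in 𝓝 z, e' w = D.act w (ε' w + ε w) (a w) := by
  refine ⟨h'.1.add h.1, ?_⟩
  filter_upwards [h.2, h'.2, D.evt a z ha] with w h1 h2 h3
  rw [h2, h1, D.add a w _ _ h3]

/-- Enlarging a good rectangle to a bigger good one, in four steps (right, left, top, bottom; `glue` with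
`θ = 1, -1, -I, I` and the sections on the four added rectangles from `exists_rect`), each time with
`η / 4`; the composition of the four corrections is their sum (`D.add`). -/
theorem enlarge (x₁ x₂ x₃ x₄ y₁ y₂ y₃ y₄ : ℝ) (hx1 : x₁ ∈ D.GX) (hx2 : x₂ ∈ D.GX) (hx3 : x₃ ∈ D.GX)
    (hx4 : x₄ ∈ D.GX) (hy1 : y₁ ∈ D.GY) (hy2 : y₂ ∈ D.GY) (hy3 : y₃ ∈ D.GY) (hy4 : y₄ ∈ D.GY)
    (h1 : x₁ < x₂) (h2 : x₂ < x₃) (h3 : x₃ < x₄) (h4 : y₁ < y₂) (h5 : y₂ < y₃) (h6 : y₃ < y₄)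
    (r r' η : ℝ) (hr : r < r') (hη : 0 < η) (hball : Metric.closedBall 0 r' ⊆ rect x₂ x₃ y₂ y₃)
    (a : ℂ → M) (ha : ∀ z ∈ rect x₂ x₃ y₂ y₃, D.Sec a z) :
    ∃ (e : ℂ → M) (ε : ℂ → Fin g → ℂ), (∀ z ∈ rect x₁ x₄ y₁ y₄, D.Sec e z) ∧
      (∀ z ∈ rect x₂ x₃ y₂ y₃, AnalyticAt ℂ ε z ∧ ∀ᶠ w in 𝓝 z, e w = D.act w (ε w) (a w)) ∧
      ∀ z, ‖z‖ ≤ r → ‖ε z‖ ≤ η := by
  have hη4 : 0 < η / 4 := by positivity
  -- right
  obtain ⟨b1, hb1⟩ := D.exists_rect x₃ x₄ y₂ y₃ hx3 hx4 hy2 hy3 h3 h5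
  obtain ⟨e1, ε1, he1, hε1, hn1⟩ := D.glue 1 one_ne_zero x₃ y₂ y₃ (rect x₂ x₃ y₂ y₃)
    (rect x₃ x₄ y₂ y₃)
    (fun z hz => by rw [one_mul]; rw [mem_rect] at hz; exact ⟨hz.1.2, hz.2⟩)
    (fun z hz => by rw [one_mul]; rw [mem_rect] at hz; exact ⟨hz.1.1, hz.2⟩)
    (fun z hz hz' => by
      rw [one_mul] at hz hz'
      exact ⟨mem_rect.2 ⟨⟨by linarith, by linarith⟩, hz'⟩, mem_rect.2 ⟨⟨by linarith, by linarith⟩, hz'⟩,
        fun hB => hx3 z hB hz⟩)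
    a b1 ha hb1 r r' (η / 4) hr hη4 hball
  have hs1 : ∀ z ∈ rect x₂ x₄ y₂ y₃, D.Sec e1 z := fun z hz => he1 z (by
    rw [mem_rect] at hz
    rcases le_total z.re x₃ with h | h
    · exact Or.inl (mem_rect.2 ⟨⟨hz.1.1, h⟩, hz.2⟩)
    · exact Or.inr (mem_rect.2 ⟨⟨h, hz.1.2⟩, hz.2⟩))
  -- left
  obtain ⟨b2, hb2⟩ := D.exists_rect x₁ x₂ y₂ y₃ hx1 hx2 hy2 hy3 h1 h5
  obtain ⟨e2, ε2, he2, hε2, hn2⟩ := D.glue (-1) (by norm_num) (-x₂) (-y₃) (-y₂) (rect x₂ x₄ y₂ y₃)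
    (rect x₁ x₂ y₂ y₃)
    (fun z hz => by
      rw [neg_one_mul, Complex.neg_re, Complex.neg_im]
      rw [mem_rect] at hz
      exact ⟨by linarith, by linarith, by linarith⟩)
    (fun z hz => by
      rw [neg_one_mul, Complex.neg_re, Complex.neg_im]
      rw [mem_rect] at hz
      exact ⟨by linarith, by linarith, by linarith⟩)
    (fun z hz hz' => by
      rw [neg_one_mul] at hz hz'
      rw [Complex.neg_re] at hz
      rw [Complex.neg_im] at hz'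
      have h7 : z.re = x₂ := by linarith
      exact ⟨mem_rect.2 ⟨⟨by linarith, by linarith⟩, by linarith [hz'.2], by linarith [hz'.1]⟩,
        mem_rect.2 ⟨⟨by linarith, by linarith⟩, by linarith [hz'.2], by linarith [hz'.1]⟩,
        fun hB => hx2 z hB h7⟩)
    e1 b2 hs1 hb2 r r' (η / 4) hr hη4
    (hball.trans fun z hz => by
      rw [mem_rect] at hz ⊢
      exact ⟨⟨hz.1.1, by linarith⟩, hz.2⟩)
  have hs2 : ∀ z ∈ rect x₁ x₄ y₂ y₃, D.Sec e2 z := fun z hz => he2 z (by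
    rw [mem_rect] at hz
    rcases le_total z.re x₂ with h | h
    · exact Or.inr (mem_rect.2 ⟨⟨hz.1.1, h⟩, hz.2⟩)
    · exact Or.inl (mem_rect.2 ⟨⟨h, hz.1.2⟩, hz.2⟩))
  -- top
  obtain ⟨b3, hb3⟩ := D.exists_rect x₁ x₄ y₃ y₄ hx1 hx4 hy3 hy4 (by linarith) h6
  have hI : ∀ z : ℂ, (-Complex.I * z).re = z.im ∧ (-Complex.I * z).im = -z.re := fun z => by
    simp [Complex.mul_re, Complex.mul_im]
  have hI' : ∀ z : ℂ, (Complex.I * z).re = -z.im ∧ (Complex.I * z).im = z.re := fun z => by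
    simp [Complex.mul_re, Complex.mul_im]
  obtain ⟨e3, ε3, he3, hε3, hn3⟩ := D.glue (-Complex.I) (neg_ne_zero.2 Complex.I_ne_zero) y₃ (-x₄)
    (-x₁) (rect x₁ x₄ y₂ y₃) (rect x₁ x₄ y₃ y₄)
    (fun z hz => by
      rw [(hI z).1, (hI z).2]
      rw [mem_rect] at hz
      exact ⟨hz.2.2, by linarith, by linarith⟩)
    (fun z hz => by
      rw [(hI z).1, (hI z).2]
      rw [mem_rect] at hz
      exact ⟨hz.2.1, by linarith, by linarith⟩)
    (fun z hz hz' => by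
      rw [(hI z).1] at hz
      rw [(hI z).2] at hz'
      exact ⟨mem_rect.2 ⟨⟨by linarith [hz'.2], by linarith [hz'.1]⟩, by linarith, by linarith⟩,
        mem_rect.2 ⟨⟨by linarith [hz'.2], by linarith [hz'.1]⟩, by linarith, by linarith⟩,
        fun hB => hy3 z hB hz⟩)
    e2 b3 hs2 hb3 r r' (η / 4) hr hη4
    (hball.trans fun z hz => by
      rw [mem_rect] at hz ⊢
      exact ⟨⟨by linarith, by linarith⟩, hz.2⟩)
  have hs3 : ∀ z ∈ rect x₁ x₄ y₂ y₄, D.Sec e3 z := fun z hz => he3 z (by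
    rw [mem_rect] at hz
    rcases le_total z.im y₃ with h | h
    · exact Or.inl (mem_rect.2 ⟨hz.1, hz.2.1, h⟩)
    · exact Or.inr (mem_rect.2 ⟨hz.1, h, hz.2.2⟩))
  -- bottom
  obtain ⟨b4, hb4⟩ := D.exists_rect x₁ x₄ y₁ y₂ hx1 hx4 hy1 hy2 (by linarith) h4
  obtain ⟨e4, ε4, he4, hε4, hn4⟩ := D.glue Complex.I Complex.I_ne_zero (-y₂) x₁ x₄
    (rect x₁ x₄ y₂ y₄) (rect x₁ x₄ y₁ y₂)
    (fun z hz => by
      rw [(hI' z).1, (hI' z).2]
      rw [mem_rect] at hz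
      exact ⟨by linarith, hz.1⟩)
    (fun z hz => by
      rw [(hI' z).1, (hI' z).2]
      rw [mem_rect] at hz
      exact ⟨by linarith, hz.1⟩)
    (fun z hz hz' => by
      rw [(hI' z).1] at hz
      rw [(hI' z).2] at hz'
      have h7 : z.im = y₂ := by linarith
      exact ⟨mem_rect.2 ⟨hz', by linarith, by linarith⟩,
        mem_rect.2 ⟨hz', by linarith, by linarith⟩,
        fun hB => hy2 z hB h7⟩)
    e3 b4 hs3 hb4 r r' (η / 4) hr hη4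
    (hball.trans fun z hz => by
      rw [mem_rect] at hz ⊢
      exact ⟨⟨by linarith, by linarith⟩, by linarith, by linarith⟩)
  refine ⟨e4, fun w => ε4 w + (ε3 w + (ε2 w + ε1 w)), fun z hz => he4 z ?_, fun z hz => ?_,
    fun z hz => ?_⟩
  · rw [mem_rect] at hz
    rcases le_total z.im y₂ with h | h
    · exact Or.inr (mem_rect.2 ⟨hz.1, hz.2.1, h⟩)
    · exact Or.inl (mem_rect.2 ⟨hz.1, h, hz.2.2⟩)
  · have hz0 := hz
    rw [mem_rect] at hz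
    have k1 := hε1 z hz0
    have k2 := hε2 z (mem_rect.2 ⟨⟨hz.1.1, by linarith⟩, hz.2⟩)
    have k3 := hε3 z (mem_rect.2 ⟨⟨by linarith, by linarith⟩, hz.2⟩)
    have k4 := hε4 z (mem_rect.2 ⟨⟨by linarith, by linarith⟩, by linarith, by linarith⟩)
    exact D.comp_step (ha z hz0) (D.comp_step (ha z hz0) (D.comp_step (ha z hz0) k1 k2) k3) k4
  · have k1 := hn1 z hz
    have k2 := hn2 z hz
    have k3 := hn3 z hz
    have k4 := hn4 z hz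
    calc ‖ε4 z + (ε3 z + (ε2 z + ε1 z))‖ ≤ ‖ε4 z‖ + (‖ε3 z‖ + (‖ε2 z‖ + ‖ε1 z‖)) :=
          (norm_add_le _ _).trans (add_le_add le_rfl ((norm_add_le _ _).trans
            (add_le_add le_rfl (norm_add_le _ _))))
      _ ≤ η := by linarith

/-- Choose good rectangles `Q_k` with `closedBall 0 (k+1) ⊆ Q_k ⊆ interior Q_{k+1}` (`exists_GX`,
`exists_GY`), a section `a_0` near `Q_0` (`exists_rect`), and recursively `a_{k+1}` near `Q_{k+1}` with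
`a_{k+1} = ε_k · a_k` near `Q_k`, `‖ε_k‖ ≤ 2^-k` on `‖z‖ ≤ k` (`enlarge`). For `‖z‖ < k` put
`S_k = ∑_{j ≥ k} ε_j`, analytic on `ball 0 k` (uniformly convergent:
`differentiableOn_tsum_of_summable_norm`). `S_k = S_{k+1} + ε_k` gives
`act (S_k) (a_k) = act (S_{k+1}) (a_{k+1})` on `ball 0 k` (`D.add`; `Sec` at all points of `Q_k`). Define
`e z = act z (S_k z) (a_k z)` with `k = ⌈‖z‖⌉₊ + 1`; near each `z₀` it equals `act (S_k) (a_k)` for one fixed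
large `k`, so it is a section (`hact`, `congr`). -/
theorem exists_section : ∃ a, ∀ z, D.Sec a z := by
  -- good coordinates
  have hX : ∀ k : ℕ, ∃ y ∈ D.GX, (k : ℝ) + 1 < y ∧ y < k + 2 := fun k =>
    D.exists_GX _ _ (by linarith)
  have hX' : ∀ k : ℕ, ∃ y ∈ D.GX, -((k : ℝ) + 2) < y ∧ y < -((k : ℝ) + 1) := fun k =>
    D.exists_GX _ _ (by linarith)
  have hY : ∀ k : ℕ, ∃ y ∈ D.GY, (k : ℝ) + 1 < y ∧ y < k + 2 := fun k =>
    D.exists_GY _ _ (by linarith)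
  have hY' : ∀ k : ℕ, ∃ y ∈ D.GY, -((k : ℝ) + 2) < y ∧ y < -((k : ℝ) + 1) := fun k =>
    D.exists_GY _ _ (by linarith)
  choose xr hxr hxr1 hxr2 using hX
  choose xl hxl hxl1 hxl2 using hX'
  choose yt hyt hyt1 hyt2 using hY
  choose yb hyb hyb1 hyb2 using hY'
  set Q : ℕ → Set ℂ := fun k => rect (xl k) (xr k) (yb k) (yt k) with hQ
  have hQball : ∀ k : ℕ, Metric.closedBall (0 : ℂ) ((k : ℝ) + 1) ⊆ Q k := fun k z hz => by
    rw [mem_closedBall_zero_iff] at hz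
    have h1 := (abs_le.1 (Complex.abs_re_le_norm z))
    have h2 := (abs_le.1 (Complex.abs_im_le_norm z))
    exact mem_rect.2 ⟨⟨by linarith [hxl2 k, h1.1], by linarith [hxr1 k, h1.2]⟩,
      by linarith [hyb2 k, h2.1], by linarith [hyt1 k, h2.2]⟩
  have hk0 : ∀ k : ℕ, (0 : ℝ) ≤ k := fun k => Nat.cast_nonneg k
  -- one step
  have hstep : ∀ (k : ℕ) (a : {a : ℂ → M // ∀ z ∈ Q k, D.Sec a z}),
      ∃ (e : {a : ℂ → M // ∀ z ∈ Q (k + 1), D.Sec a z}) (ε : ℂ → Fin g → ℂ),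
        (∀ z ∈ Q k, AnalyticAt ℂ ε z ∧ ∀ᶠ w in 𝓝 z, e.1 w = D.act w (ε w) (a.1 w)) ∧
        ∀ z, ‖z‖ ≤ k → ‖ε z‖ ≤ (1 / 2 : ℝ) ^ k := by
    intro k a
    have hc : ((k + 1 : ℕ) : ℝ) = k + 1 := by push_cast; ring
    obtain ⟨e, ε, h1, h2, h3⟩ := D.enlarge (xl (k + 1)) (xl k) (xr k) (xr (k + 1)) (yb (k + 1)) (yb k)
      (yt k) (yt (k + 1)) (hxl _) (hxl _) (hxr _) (hxr _) (hyb _) (hyb _) (hyt _) (hyt _)
      (by linarith [hxl2 (k + 1), hxl1 k]) (by linarith [hxl2 k, hxr1 k, hk0 k])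
      (by linarith [hxr1 (k + 1), hxr2 k])
      (by linarith [hyb2 (k + 1), hyb1 k]) (by linarith [hyb2 k, hyt1 k, hk0 k])
      (by linarith [hyt1 (k + 1), hyt2 k])
      k (k + 1) ((1 / 2 : ℝ) ^ k) (by linarith) (by positivity) (hQball k) a.1 a.2
    exact ⟨⟨e, h1⟩, ε, h2, h3⟩
  choose e ε h1 h2 using hstep
  obtain ⟨a0, ha0⟩ := D.exists_rect (xl 0) (xr 0) (yb 0) (yt 0) (hxl 0) (hxr 0) (hyb 0) (hyt 0)
    (by linarith [hxl2 0, hxr1 0, hk0 0]) (by linarith [hyb2 0, hyt1 0, hk0 0])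
  let A : ∀ k : ℕ, {a : ℂ → M // ∀ z ∈ Q k, D.Sec a z} := fun k =>
    Nat.rec ⟨a0, ha0⟩ (fun k a => e k a) k
  have hA : ∀ k, A (k + 1) = e k (A k) := fun k => rfl
  let δ : ℕ → ℂ → Fin g → ℂ := fun k => ε k (A k)
  have hδ : ∀ k, ∀ z ∈ Q k, AnalyticAt ℂ (δ k) z ∧
      ∀ᶠ w in 𝓝 z, (A (k + 1)).1 w = D.act w (δ k w) ((A k).1 w) := fun k z hz => h1 k (A k) z hz
  have hδn : ∀ k : ℕ, ∀ z : ℂ, ‖z‖ ≤ k → ‖δ k z‖ ≤ (1 / 2 : ℝ) ^ k := fun k => h2 k (A k)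
  -- the tails
  let S : ℕ → ℂ → Fin g → ℂ := fun k z => ∑' j, δ (k + j) z
  have hbound : ∀ (k j : ℕ) (z : ℂ), ‖z‖ < k → ‖δ (k + j) z‖ ≤ (1 / 2 : ℝ) ^ j := fun k j z hz =>
    (hδn (k + j) z (by push_cast; linarith [hk0 j])).trans
      (pow_le_pow_of_le_one (by norm_num) (by norm_num) (by omega))
  have hsum : ∀ (k : ℕ) (z : ℂ), ‖z‖ < k → Summable fun j => δ (k + j) z := fun k z hz =>
    Summable.of_norm_bounded (summable_geometric_of_lt_one (by norm_num) (by norm_num))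
      fun j => hbound k j z hz
  have hS : ∀ (k : ℕ) (z : ℂ), ‖z‖ < k → S k z = S (k + 1) z + δ k z := fun k z hz => by
    change ∑' j, δ (k + j) z = ∑' j, δ (k + 1 + j) z + δ k z
    rw [(hsum k z hz).tsum_eq_zero_add, add_comm, Nat.add_zero]
    congr 1
    exact tsum_congr fun j => by rw [show k + (j + 1) = k + 1 + j by omega]
  have hSan : ∀ (k : ℕ) (z : ℂ), ‖z‖ < k → AnalyticAt ℂ (S k) z := fun k z hz => by
    have hd : DifferentiableOn ℂ (fun z => ∑' j, δ (k + j) z) (Metric.ball 0 k) := by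
      refine Complex.differentiableOn_tsum_of_summable_norm
        (summable_geometric_of_lt_one (r := (1 / 2 : ℝ)) (by norm_num) (by norm_num)) (fun j => ?_)
        Metric.isOpen_ball fun j w hw => hbound k j w (mem_ball_zero_iff.1 hw)
      intro w hw
      refine (hδ (k + j) w (hQball (k + j) ?_)).1.differentiableAt.differentiableWithinAt
      rw [mem_closedBall_zero_iff]
      have := mem_ball_zero_iff.1 hw
      push_cast
      linarith [hk0 j]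
    exact hd.analyticAt (Metric.isOpen_ball.mem_nhds (mem_ball_zero_iff.2 hz))
  -- the candidates agree
  have hmemQ : ∀ (k : ℕ) (z : ℂ), ‖z‖ < k → z ∈ Q k := fun k z hz =>
    hQball k (mem_closedBall_zero_iff.2 (by linarith))
  have hstep' : ∀ (k : ℕ) (z : ℂ), ‖z‖ < k →
      D.act z (S (k + 1) z) ((A (k + 1)).1 z) = D.act z (S k z) ((A k).1 z) := fun k z hz => by
    rw [hS k z hz, D.add _ z _ _ ((A k).2 z (hmemQ k z hz)),
      ← (hδ k z (hmemQ k z hz)).2.self_of_nhds]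
  have hagree : ∀ (k m : ℕ) (z : ℂ), ‖z‖ < k →
      D.act z (S (k + m) z) ((A (k + m)).1 z) = D.act z (S k z) ((A k).1 z) := fun k m z hz => by
    induction m with
    | zero => rfl
    | succ m ih =>
      rw [← ih]
      exact hstep' (k + m) z (by push_cast; linarith [hk0 m])
  refine ⟨fun z => D.act z (S (⌈‖z‖⌉₊ + 1) z) ((A (⌈‖z‖⌉₊ + 1)).1 z), fun z₀ => ?_⟩
  set K := ⌈‖z₀‖⌉₊ + 2 with hK
  have hz0 : ‖z₀‖ < (⌈‖z₀‖⌉₊ : ℝ) + 1 := by linarith [Nat.le_ceil ‖z₀‖]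
  have hzK : ‖z₀‖ < (K : ℝ) := by rw [hK]; push_cast; linarith
  refine D.congr (fun z => D.act z (S K z) ((A K).1 z)) _ z₀ ?_
    (D.hact _ _ z₀ ((A K).2 z₀ (hmemQ K z₀ hzK)) (hSan K z₀ hzK))
  have hev : ∀ᶠ w in 𝓝 z₀, ‖w‖ < (⌈‖z₀‖⌉₊ : ℝ) + 1 :=
    continuous_norm.continuousAt.eventually_lt continuousAt_const hz0
  filter_upwards [hev] with w hw
  have hle : ⌈‖w‖⌉₊ ≤ ⌈‖z₀‖⌉₊ + 1 := Nat.ceil_le.2 (by push_cast; exact hw.le)
  obtain ⟨m, hm⟩ : ∃ m, K = ⌈‖w‖⌉₊ + 1 + m := ⟨K - (⌈‖w‖⌉₊ + 1), by omega⟩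
  rw [hm]
  refine hagree (⌈‖w‖⌉₊ + 1) m w ?_
  push_cast
  linarith [Nat.le_ceil ‖w‖]

end GlueData

end Pool.Agent.AbFib
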