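import Mathlib

/-! PIECE F1: the base curve, growth. -/

set_option autoImplicit false

open Filter Topology

namespace Pool.Agent.AbFib

open MvPolynomial

/-- the curve `z ↦ (exp (c_a + z^(e_a)))_a` -/
noncomputable def bcg {n : ℕ} (e : Fin n → ℕ) (c : Fin n → ℂ) (z : ℂ) (a : Fin n) : ℂ :=
  Complex.exp (c a + z ^ e a)

theorem bcg_diff {n : ℕ} (e : Fin n → ℕ) (c : Fin n → ℂ) : Differentiable ℂ (bcg e c) := by
  refine differentiable_pi.2 fun a => ?_
  change Differentiable ℂ fun z => Complex.exp (c a + z ^ e a)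
  fun_prop

/-- the exponent polynomial of the monomial `s` -/
noncomputable def gp {n : ℕ} (e : Fin n → ℕ) (s : Fin n →₀ ℕ) : Polynomial ℝ :=
  ∑ a, Polynomial.C (s a : ℝ) * Polynomial.X ^ e a

theorem gp_coeff {n : ℕ} (e : Fin n → ℕ) (he : StrictMono e) (s : Fin n →₀ ℕ) (a : Fin n) :
    (gp e s).coeff (e a) = s a := by
  unfold gp
  rw [Polynomial.finset_sum_coeff, Finset.sum_eq_single a]
  · rw [Polynomial.coeff_C_mul_X_pow, if_pos rfl]
  · intro b _ hb
    rw [Polynomial.coeff_C_mul_X_pow, if_neg]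
    exact fun h => hb (he.injective h).symm
  · exact fun h => absurd (Finset.mem_univ a) h

theorem gp_coeff_zero {n : ℕ} (e : Fin n → ℕ) (he0 : ∀ a, 0 < e a) (s : Fin n →₀ ℕ) :
    (gp e s).coeff 0 = 0 := by
  unfold gp
  rw [Polynomial.finset_sum_coeff]
  refine Finset.sum_eq_zero fun b _ => ?_
  rw [Polynomial.coeff_C_mul_X_pow, if_neg (he0 b).ne]

theorem gp_tendsto {n : ℕ} (e : Fin n → ℕ) (he : StrictMono e) (he0 : ∀ a, 0 < e a)
    (s s' : Fin n →₀ ℕ) (h : s ≠ s') :
    Tendsto (fun x : ℝ => (gp e s - gp e s').eval x) atTop atTop ∨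
      Tendsto (fun x : ℝ => (gp e s' - gp e s).eval x) atTop atTop := by
  have hne : gp e s - gp e s' ≠ 0 := by
    intro h0
    apply h
    ext a
    have h1 := gp_coeff e he s a
    rw [sub_eq_zero.1 h0, gp_coeff e he s' a] at h1
    exact_mod_cast h1.symm
  have hdeg : 0 < (gp e s - gp e s').degree := by
    by_contra hcon
    have h1 := Polynomial.eq_C_of_degree_le_zero (not_lt.1 hcon)
    rw [Polynomial.coeff_sub, gp_coeff_zero e he0, gp_coeff_zero e he0, sub_zero,
      Polynomial.C_0] at h1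
    exact hne h1
  rcases le_total 0 (gp e s - gp e s').leadingCoeff with h1 | h1
  · exact Or.inl (Polynomial.tendsto_atTop_of_leadingCoeff_nonneg _ hdeg h1)
  · right
    rw [← neg_sub (gp e s) (gp e s')]
    refine Polynomial.tendsto_atTop_of_leadingCoeff_nonneg _ ?_ ?_
    · rwa [Polynomial.degree_neg]
    · rw [Polynomial.leadingCoeff_neg]
      linarith

theorem exists_gp_max {n : ℕ} (e : Fin n → ℕ) (he : StrictMono e) (he0 : ∀ a, 0 < e a)
    (S : Finset (Fin n →₀ ℕ)) (hS : S.Nonempty) :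
    ∃ s₀ ∈ S, ∀ s ∈ S, s ≠ s₀ →
      Tendsto (fun x : ℝ => (gp e s₀ - gp e s).eval x) atTop atTop := by
  classical
  induction hS using Finset.Nonempty.cons_induction with
  | singleton a =>
    refine ⟨a, Finset.mem_singleton_self a, fun s hs hne => ?_⟩
    exact absurd (Finset.mem_singleton.1 hs) hne
  | cons a S ha hS ih =>
    obtain ⟨s₀, hs₀, hmax⟩ := ih
    have hne : a ≠ s₀ := fun h => ha (h ▸ hs₀)
    rcases gp_tendsto e he he0 a s₀ hne with h1 | h1
    · refine ⟨a, Finset.mem_cons_self a S, fun s hs hsa => ?_⟩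
      rcases Finset.mem_cons.1 hs with h2 | h2
      · exact absurd h2 hsa
      · by_cases h3 : s = s₀
        · rw [h3]; exact h1
        · have h4 := h1.atTop_add_atTop (hmax s h2 h3)
          refine h4.congr fun x => ?_
          simp only [Polynomial.eval_sub]
          ring
    · refine ⟨s₀, Finset.mem_cons_of_mem hs₀, fun s hs hsa => ?_⟩
      rcases Finset.mem_cons.1 hs with h2 | h2
      · rw [h2]; exact h1
      · exact hmax s h2 hsa

/-- the exponent of the monomial `s` on the curve -/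
noncomputable def ge {n : ℕ} (e : Fin n → ℕ) (c : Fin n → ℂ) (s : Fin n →₀ ℕ) (z : ℂ) : ℂ :=
  ∑ a, (s a : ℂ) * (c a + z ^ e a)

theorem prod_bcg {n : ℕ} (e : Fin n → ℕ) (c : Fin n → ℂ) (s : Fin n →₀ ℕ) (z : ℂ) :
    ∏ a, bcg e c z a ^ s a = Complex.exp (ge e c s z) := by
  unfold ge bcg
  rw [Complex.exp_sum]
  exact Finset.prod_congr rfl fun a _ => (Complex.exp_nat_mul _ _).symm

theorem re_ge {n : ℕ} (e : Fin n → ℕ) (c : Fin n → ℂ) (s : Fin n →₀ ℕ) (x : ℝ) :
    (ge e c s x).re = (∑ a, (s a : ℝ) * (c a).re) + (gp e s).eval x := by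
  unfold ge gp
  rw [Complex.re_sum, Polynomial.eval_finset_sum, ← Finset.sum_add_distrib]
  refine Finset.sum_congr rfl fun a _ => ?_
  rw [← Complex.ofReal_pow, ← Complex.ofReal_natCast, Complex.re_ofReal_mul, Complex.add_re,
    Complex.ofReal_re, Polynomial.eval_mul, Polynomial.eval_C, Polynomial.eval_pow,
    Polynomial.eval_X, mul_add]

/-- Growth: for real `x` the monomial `u^s` at `u = bcg e c x` is `exp (∑ s_a c_a + p_s (x))` with
`p_s (x) = ∑ s_a x^(e_a)`: pairwise different real polynomials in `x` without constant term (`e` is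
injective, `e_a > 0`), and `p_s - p_s'` tends to `+∞` or to `-∞` for `s ≠ s'`, according to the sign of
`s_a - s'_a` for the last `a` with `s_a ≠ s'_a`. Let `s₀` be the element of the support which is largest
in this order; `‖Q (u)‖ ≥ ‖u^{s₀}‖ (‖coeff s₀‖ - ∑_{s ≠ s₀} ‖coeff s‖ ‖u^s‖ / ‖u^{s₀}‖)` and the sum
tends to `0`. -/
theorem bcg_ne {n : ℕ} (e : Fin n → ℕ) (he : StrictMono e) (he0 : ∀ a, 0 < e a) (c : Fin n → ℂ)
    (Q : MvPolynomial (Fin n) ℂ) (hQ : Q ≠ 0) :
    ∀ᶠ x : ℝ in atTop, eval (bcg e c x) Q ≠ 0 := by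
  classical
  obtain ⟨s₀, hs₀, hmax⟩ := exists_gp_max e he he0 Q.support
    (MvPolynomial.support_nonempty.2 hQ)
  have hterm : ∀ s ∈ Q.support, s ≠ s₀ → Tendsto (fun x : ℝ => Q.coeff s *
      (Complex.exp (ge e c s x) * Complex.exp (-ge e c s₀ x))) atTop (𝓝 0) := by
    intro s hs hne
    have h1 : Tendsto (fun x : ℝ => ‖Complex.exp (ge e c s x) * Complex.exp (-ge e c s₀ x)‖)
        atTop (𝓝 0) := by
      have h2 : Tendsto (fun x : ℝ => ((∑ a, (s a : ℝ) * (c a).re) - ∑ a, (s₀ a : ℝ) * (c a).re)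
          + -(gp e s₀ - gp e s).eval x) atTop atBot :=
        tendsto_atBot_add_const_left _ _ (tendsto_neg_atTop_atBot.comp (hmax s hs hne))
      refine (Real.tendsto_exp_atBot.comp h2).congr fun x => ?_
      rw [← Complex.exp_add, Complex.norm_exp, Complex.add_re, Complex.neg_re, re_ge, re_ge,
        Function.comp_apply, Polynomial.eval_sub]
      congr 1
      ring
    have h3 := (tendsto_zero_iff_norm_tendsto_zero.2 h1).const_mul (Q.coeff s)
    rwa [mul_zero] at h3
  have hsum : Tendsto (fun x : ℝ => eval (bcg e c x) Q * Complex.exp (-ge e c s₀ x)) atTop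
      (𝓝 (Q.coeff s₀)) := by
    have h1 : ∀ x : ℝ, eval (bcg e c x) Q * Complex.exp (-ge e c s₀ x)
        = Q.coeff s₀ + ∑ s ∈ Q.support.erase s₀, Q.coeff s *
            (Complex.exp (ge e c s x) * Complex.exp (-ge e c s₀ x)) := by
      intro x
      rw [MvPolynomial.eval_eq', Finset.sum_mul, ← Finset.add_sum_erase _ _ hs₀]
      congr 1
      · rw [prod_bcg, mul_assoc, ← Complex.exp_add, add_neg_cancel, Complex.exp_zero, mul_one]
      · refine Finset.sum_congr rfl fun s _ => ?_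
        rw [prod_bcg, mul_assoc]
    simp only [h1]
    have h2 := tendsto_finset_sum (Q.support.erase s₀) (fun s hs =>
      hterm s (Finset.mem_of_mem_erase hs) (Finset.ne_of_mem_erase hs))
    have h3 := (tendsto_const_nhds (x := Q.coeff s₀)).add h2
    simpa using h3
  have hne : Q.coeff s₀ ≠ 0 := MvPolynomial.mem_support_iff.1 hs₀
  refine (hsum.eventually_ne hne).mono fun x hx h0 => hx ?_
  rw [h0, zero_mul]

/-- `z ↦ eval (bcg e c z) Q` is entire and not identically zero, so its zeros are isolated. -/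
theorem bcg_disc {n : ℕ} (e : Fin n → ℕ) (he : StrictMono e) (he0 : ∀ a, 0 < e a) (c : Fin n → ℂ)
    (Q : MvPolynomial (Fin n) ℂ) (hQ : Q ≠ 0) (z : ℂ) :
    ∀ᶠ w in 𝓝[≠] z, eval (bcg e c w) Q ≠ 0 := by
  have hdiff : Differentiable ℂ fun w => eval (bcg e c w) Q := by
    simp only [MvPolynomial.eval_eq']
    have h1 := differentiable_pi.1 (bcg_diff e c)
    refine Differentiable.fun_sum fun s _ => ?_
    refine Differentiable.const_mul ?_ _
    refine Differentiable.fun_finset_prod fun a _ => ?_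
    exact (h1 a).pow _
  have han : AnalyticOnNhd ℂ (fun w => eval (bcg e c w) Q) Set.univ :=
    fun w _ => hdiff.analyticAt w
  rcases (han z (Set.mem_univ z)).eventually_eq_zero_or_eventually_ne_zero with h | h
  · exfalso
    have h1 := han.eqOn_zero_of_preconnected_of_eventuallyEq_zero isPreconnected_univ
      (Set.mem_univ z) h
    obtain ⟨x, hx⟩ := (bcg_ne e he he0 c Q hQ).exists
    exact hx (h1 (Set.mem_univ (x : ℂ)))
  · exact h

/-- the base curve `z ↦ (exp (c_a + z^(a+1)))_a` -/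
noncomputable def bc {n : ℕ} (c : Fin n → ℂ) (z : ℂ) : Fin n → ℂ := bcg (fun a => (a : ℕ) + 1) c z

theorem bc_ne {n : ℕ} (c : Fin n → ℂ) (Q : MvPolynomial (Fin n) ℂ) (hQ : Q ≠ 0) :
    ∀ᶠ x : ℝ in atTop, eval (bc c x) Q ≠ 0 :=
  bcg_ne _ (fun _ _ h => Nat.add_lt_add_right h 1) (fun _ => Nat.succ_pos _) c Q hQ

theorem bc_disc {n : ℕ} (c : Fin n → ℂ) (Q : MvPolynomial (Fin n) ℂ) (hQ : Q ≠ 0) (z : ℂ) :
    ∀ᶠ w in 𝓝[≠] z, eval (bc c w) Q ≠ 0 :=
  bcg_disc _ (fun _ _ h => Nat.add_lt_add_right h 1) (fun _ => Nat.succ_pos _) c Q hQ z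

end Pool.Agent.AbFib
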