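import Mathlib

/-! PIECE F2: common divisors and ideals (Gauss). -/

set_option autoImplicit false

namespace Pool.Agent.AbFib

open Polynomial

/-- clearing denominators in the ideal generated by `H` -/
theorem exists_mul_mem {B : Type} [CommRing B] [IsDomain B] (J : Ideal (Polynomial B))
    (p : Polynomial B)
    (hp : p.map (algebraMap B (FractionRing B)) ∈
      J.map (Polynomial.mapRingHom (algebraMap B (FractionRing B)))) :
    ∃ b : B, b ≠ 0 ∧ C b * p ∈ J := by
  have key : ∀ q ∈ J.map (Polynomial.mapRingHom (algebraMap B (FractionRing B))),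
      ∃ b : B, b ≠ 0 ∧ ∃ r ∈ J, C (algebraMap B (FractionRing B) b) * q
        = r.map (algebraMap B (FractionRing B)) := by
    intro q hq
    refine Submodule.span_induction (p := fun q _ => ∃ b : B, b ≠ 0 ∧ ∃ r ∈ J,
      C (algebraMap B (FractionRing B) b) * q = r.map (algebraMap B (FractionRing B)))
      ?_ ?_ ?_ ?_ hq
    · rintro _ ⟨r, hr, rfl⟩
      exact ⟨1, one_ne_zero, r, hr, by simp⟩
    · exact ⟨1, one_ne_zero, 0, J.zero_mem, by simp⟩
    · rintro x y _ _ ⟨b, hb, r, hr, h1⟩ ⟨b', hb', r', hr', h2⟩
      refine ⟨b * b', mul_ne_zero hb hb', C b' * r + C b * r',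
        J.add_mem (J.mul_mem_left _ hr) (J.mul_mem_left _ hr'), ?_⟩
      rw [Polynomial.map_add, Polynomial.map_mul, Polynomial.map_mul, ← h1, ← h2, map_C, map_C,
        map_mul, C_mul]
      ring
    · rintro a x _ ⟨b, hb, r, hr, h1⟩
      obtain ⟨c, hc, h2⟩ := IsLocalization.integerNormalization_spec (nonZeroDivisors B) a
      refine ⟨b * c, mul_ne_zero hb (nonZeroDivisors.ne_zero hc),
        IsLocalization.integerNormalization (nonZeroDivisors B) a * r, J.mul_mem_left _ hr, ?_⟩
      rw [Polynomial.map_mul, ← h1, h2, Algebra.smul_def, Polynomial.algebraMap_apply, map_mul,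
        C_mul, smul_eq_mul]
      ring
  obtain ⟨b, hb, r, hr, h⟩ := key _ hp
  refine ⟨b, hb, ?_⟩
  have h1 : (C b * p).map (algebraMap B (FractionRing B))
      = r.map (algebraMap B (FractionRing B)) := by
    rw [Polynomial.map_mul, map_C, h]
  rw [Polynomial.map_injective _ (IsFractionRing.injective B (FractionRing B)) h1]
  exact hr

/-- Let `L` be the fraction field of `B`. `H` contains a nonzero element (else `D = 0` divides all of `H`, but
`0` does not divide `C b * X ^ k`). The ideal of `L[X]` generated by the image of `H` is generated by one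
`D₀ ≠ 0`; let `D ∈ B[X]` be primitive with image associated to `D₀` (clear denominators,
`IsLocalization.integerNormalization`, `primPart`; `B` has a `NormalizedGCDMonoid` structure,
`UniqueFactorizationMonoid.toNormalizedGCDMonoid`). For `h ∈ H` the image of `D` divides the image of `h`
in `L[X]`, hence that of `h.primPart`, and by Gauss
(`Polynomial.IsPrimitive.dvd_of_fraction_map_dvd_fraction_map`) `D ∣ h.primPart ∣ h`. By hypothesis
`D ∣ C b * X ^ k`, so `X ^ k` is in the ideal generated by the image of `H` in `L[X]`: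
`X ^ k = ∑ g_i h_i` with `g_i ∈ L[X]`; multiply by a common denominator `b' ≠ 0` of the `g_i`. -/
theorem exists_mem_span {B : Type} [CommRing B] [IsDomain B] [UniqueFactorizationMonoid B]
    (H : Set (Polynomial B))
    (hH : ∀ D : Polynomial B, (∀ h ∈ H, D ∣ h) → ∃ (b : B) (k : ℕ), b ≠ 0 ∧ D ∣ C b * X ^ k) :
    ∃ (b : B) (k : ℕ), b ≠ 0 ∧ C b * X ^ k ∈ Ideal.span H := by
  let : NormalizedGCDMonoid B := Nonempty.some inferInstance
  have hinj : Function.Injective (algebraMap B (FractionRing B)) :=
    IsFractionRing.injective B (FractionRing B)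
  obtain ⟨D₀, hD₀⟩ := (inferInstance : IsPrincipalIdealRing (Polynomial (FractionRing B))).principal
    ((Ideal.span H).map (Polynomial.mapRingHom (algebraMap B (FractionRing B))))
  have hmem : ∀ h ∈ H, D₀ ∣ h.map (algebraMap B (FractionRing B)) := by
    intro h hh
    rw [← Ideal.mem_span_singleton, Ideal.span, ← hD₀]
    exact Ideal.mem_map_of_mem _ (Ideal.subset_span hh)
  have hne : D₀ ≠ 0 := by
    rintro rfl
    obtain ⟨b, k, hb, h0⟩ := hH 0 (fun h hh => by
      have h1 := zero_dvd_iff.1 (hmem h hh)
      rw [(Polynomial.map_eq_zero_iff hinj).1 h1])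
    have h2 := zero_dvd_iff.1 h0
    exact (mul_ne_zero (C_ne_zero.2 hb) (pow_ne_zero _ X_ne_zero)) h2
  obtain ⟨m, hm, hspec⟩ := IsLocalization.integerNormalization_spec (nonZeroDivisors B) D₀
  have hm0 : m ≠ 0 := nonZeroDivisors.ne_zero hm
  set q := IsLocalization.integerNormalization (nonZeroDivisors B) D₀ with hq
  have hq0 : q ≠ 0 := by
    intro h0
    rw [h0, Polynomial.map_zero, Algebra.smul_def, Polynomial.algebraMap_apply] at hspec
    have := hspec.symm
    rw [mul_eq_zero, C_eq_zero] at this
    rcases this with h | h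
    · exact hm0 (hinj (by rw [h, map_zero]))
    · exact hne h
  have hcont : q.content ≠ 0 := by
    rw [Ne, content_eq_zero_iff]
    exact hq0
  have hfac : C (algebraMap B (FractionRing B) q.content)
      * q.primPart.map (algebraMap B (FractionRing B))
      = C (algebraMap B (FractionRing B) m) * D₀ := by
    have h1 := congrArg (Polynomial.map (algebraMap B (FractionRing B)))
      q.eq_C_content_mul_primPart
    rw [hspec, Polynomial.map_mul, map_C, Algebra.smul_def, Polynomial.algebraMap_apply] at h1
    exact h1.symm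
  have hum : IsUnit (C (algebraMap B (FractionRing B) m)) := by
    rw [isUnit_C]
    exact IsUnit.mk0 _ (fun h => hm0 (hinj (by rw [h, map_zero])))
  have huc : IsUnit (C (algebraMap B (FractionRing B) q.content)) := by
    rw [isUnit_C]
    exact IsUnit.mk0 _ (fun h => hcont (hinj (by rw [h, map_zero])))
  have h1 : q.primPart.map (algebraMap B (FractionRing B)) ∣ D₀ := by
    rw [← hum.dvd_mul_left, ← hfac]
    exact dvd_mul_left _ _
  have h2 : D₀ ∣ q.primPart.map (algebraMap B (FractionRing B)) := by
    rw [← huc.dvd_mul_left, hfac]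
    exact dvd_mul_left _ _
  obtain ⟨b, k, hb, hk⟩ := hH q.primPart (fun h hh =>
    q.isPrimitive_primPart.dvd_of_fraction_map_dvd_fraction_map (K := FractionRing B)
      (h1.trans (hmem h hh)))
  have h3 : (C b * X ^ k).map (algebraMap B (FractionRing B)) ∈
      (Ideal.span H).map (Polynomial.mapRingHom (algebraMap B (FractionRing B))) := by
    rw [hD₀]
    exact Ideal.mem_span_singleton.2 (h2.trans (Polynomial.map_dvd _ hk))
  obtain ⟨b', hb', h4⟩ := exists_mul_mem _ _ h3
  refine ⟨b' * b, k, mul_ne_zero hb' hb, ?_⟩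
  rw [C_mul, mul_assoc]
  exact h4

end Pool.Agent.AbFib
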