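import Pool.Agent.Lib_MP_1209e6_ab.F1
import Pool.Agent.Lib_MP_1209e6_ab.F2

/-! PIECE F3: the base curve avoids the common zeros of `H`. -/

set_option autoImplicit false

open Filter Topology

namespace Pool.Agent.AbFib

open MvPolynomial

/-- a set without accumulation point in `ℂ` is countable -/
theorem countable_of_disc (Z : Set ℂ) (h : ∀ z, ∀ᶠ w in 𝓝[≠] z, w ∉ Z) : Z.Countable := by
  have hd : DiscreteTopology Z := by
    rw [discreteTopology_subtype_iff]
    intro x _
    rw [← disjoint_iff, Filter.disjoint_principal_right]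
    exact h x
  exact Set.countable_coe_iff.1 (countable_of_Lindelof_of_discrete (X := Z))

/-- fibres of `exp` are countable -/
theorem countable_exp_fibre (a r : ℂ) : {c : ℂ | Complex.exp (c + a) = r}.Countable := by
  rcases Set.eq_empty_or_nonempty {c : ℂ | Complex.exp (c + a) = r} with h | ⟨c1, hc1⟩
  · rw [h]
    exact Set.countable_empty
  · refine (Set.countable_range fun m : ℤ => c1 + m * (2 * Real.pi * Complex.I)).mono ?_
    intro c hc
    have h1 : Complex.exp (c + a) = Complex.exp (c1 + a) :=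
      (show Complex.exp (c + a) = r from hc).trans (show Complex.exp (c1 + a) = r from hc1).symm
    obtain ⟨m, hm⟩ := Complex.exp_eq_exp_iff_exists_int.1 h1
    refine ⟨m, ?_⟩
    linear_combination -hm

/-- `finSuccEquiv` of a monomial -/
theorem finSuccEquiv_monomial {n : ℕ} (s : Fin (n + 1) →₀ ℕ) :
    finSuccEquiv ℂ n (monomial s 1)
      = Polynomial.C (monomial (Finsupp.tail s) 1) * Polynomial.X ^ (s 0) := by
  ext i m
  rw [finSuccEquiv_coeff_coeff, Polynomial.coeff_C_mul_X_pow, coeff_monomial]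
  by_cases hi : i = s 0
  · rw [if_pos hi, coeff_monomial]
    by_cases hm : Finsupp.tail s = m
    · rw [if_pos hm, if_pos]
      rw [hi, ← hm, Finsupp.cons_tail]
    · rw [if_neg hm, if_neg]
      intro h
      apply hm
      rw [h, Finsupp.tail_cons]
  · rw [if_neg hi, coeff_zero, if_neg]
    intro h
    apply hi
    rw [h, Finsupp.cons_zero]

theorem bcg_cons {n : ℕ} (e : Fin (n + 1) → ℕ) (c₀ : ℂ) (c' : Fin n → ℂ) (z : ℂ) :
    bcg e (Fin.cons c₀ c' : Fin (n + 1) → ℂ) z
      = (Fin.cons (Complex.exp (c₀ + z ^ e 0)) (bcg (fun a => e a.succ) c' z)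
          : Fin (n + 1) → ℂ) := by
  funext a
  refine Fin.cases ?_ (fun a => ?_) a
  · simp [bcg]
  · simp [bcg]

/-- Induction on `n`. `n = 0`: some `h ∈ H` is nonzero (else `p = 0` divides all of `H`), a constant.

`n + 1`: `finSuccEquiv ℂ n` identifies `MvPolynomial (Fin (n+1)) ℂ` with `B[T]`, `B = MvPolynomial (Fin n) ℂ`,
`T = X 0`. Let `H' ⊆ B` be the set of all coefficients of all `finSuccEquiv h`, `h ∈ H`. If `p` divides all
elements of `H'` then `C p` divides all `finSuccEquiv h` (`Polynomial.C_dvd_iff_dvd_coeff`), so the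
corresponding polynomial divides a monomial, i.e. `C p ∣ C (monomial s 1) * T^k`, so `p ∣ monomial s 1`.
The induction hypothesis for `H'`, `e ∘ Fin.succ` gives `c'`: for every `z` some coefficient of some `h ∈ H`
does not vanish at `u' z = bcg (e ∘ succ) c' z`. `exists_mem_span` for `H` in `B[T]` (a divisor of a
monomial divides `C b * T^k`) gives `b ≠ 0` with `C b * T^k` in the ideal generated by `H`. The set
`Z = {z | eval (u' z) b = 0}` is countable (`bcg_disc`; a subset of `ℂ` without accumulation point is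
countable). For `z ∈ Z` take `h_z ∈ H` with a coefficient nonzero at `u' z`: as a polynomial in `T` it has
finitely many roots; the set of the `c₀ ∈ ℂ` such that `exp (c₀ + z^(e 0))` is one of them is countable
(`Complex.exp` has countable fibres). So there is `c₀` outside all these sets (`ℂ` is uncountable), and
`c = Fin.cons c₀ c'` works: for `z ∈ Z` by the choice, and for `z ∉ Z` since
`b (u' z) T^k ≠ 0` at `T = exp (..)`, so not all `h ∈ H` vanish (`Submodule.span_induction`). -/
theorem exists_bcg {n : ℕ} (e : Fin n → ℕ) (he : StrictMono e) (he0 : ∀ a, 0 < e a)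
    (H : Set (MvPolynomial (Fin n) ℂ))
    (hH : ∀ p, (∀ h ∈ H, p ∣ h) → ∃ s : Fin n →₀ ℕ, p ∣ monomial s 1) :
    ∃ c : Fin n → ℂ, ∀ z, ∃ h ∈ H, eval (bcg e c z) h ≠ 0 := by
  induction n with
  | zero =>
    refine ⟨fun a => a.elim0, fun z => ?_⟩
    by_contra hcon
    push Not at hcon
    obtain ⟨s, hs⟩ := hH 0 (fun h hh => by
      have h1 := hcon h hh
      rw [MvPolynomial.eq_C_of_isEmpty h, eval_C] at h1
      rw [MvPolynomial.eq_C_of_isEmpty h, h1, C_0])
    have h2 := zero_dvd_iff.1 hs
    rw [monomial_eq_zero] at h2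
    exact one_ne_zero h2
  | succ n ih =>
    -- the coefficients
    have hdiv : ∀ D : Polynomial (MvPolynomial (Fin n) ℂ),
        (∀ h ∈ H, D ∣ finSuccEquiv ℂ n h) → ∃ s : Fin (n + 1) →₀ ℕ,
          D ∣ Polynomial.C (monomial (Finsupp.tail s) 1) * Polynomial.X ^ (s 0) := by
      intro D hD
      obtain ⟨s, hs⟩ := hH ((finSuccEquiv ℂ n).symm D) (fun h hh => by
        have := map_dvd (finSuccEquiv ℂ n).symm (hD h hh)
        rwa [AlgEquiv.symm_apply_apply] at this)
      refine ⟨s, ?_⟩
      have := map_dvd (finSuccEquiv ℂ n) hs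
      rwa [AlgEquiv.apply_symm_apply, finSuccEquiv_monomial] at this
    obtain ⟨c', hc'⟩ := ih (fun a => e a.succ)
      (fun a b h => he (Fin.succ_lt_succ_iff.2 h)) (fun a => he0 _)
      {b | ∃ h ∈ H, ∃ i, (finSuccEquiv ℂ n h).coeff i = b} (fun p hp => by
        obtain ⟨s, hs⟩ := hdiv (Polynomial.C p) (fun h hh => by
          rw [Polynomial.C_dvd_iff_dvd_coeff]
          exact fun i => hp _ ⟨h, hh, i, rfl⟩)
        rw [Polynomial.C_dvd_iff_dvd_coeff] at hs
        have := hs (s 0)
        rw [Polynomial.coeff_C_mul_X_pow, if_pos rfl] at this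
        exact ⟨_, this⟩)
    obtain ⟨b, k, hb, hbk⟩ := exists_mem_span ((finSuccEquiv ℂ n) '' H) (fun D hD => by
      obtain ⟨s, hs⟩ := hdiv D (fun h hh => hD _ ⟨h, hh, rfl⟩)
      refine ⟨_, _, ?_, hs⟩
      rw [Ne, monomial_eq_zero]
      exact one_ne_zero)
    -- the bad parameters
    have hZ : {z | eval (bcg (fun a => e a.succ) c' z) b = 0}.Countable := by
      refine countable_of_disc _ fun z => ?_
      refine (bcg_disc (fun a => e a.succ) (fun a b h => he (Fin.succ_lt_succ_iff.2 h))
        (fun a => he0 _) c' b hb z).mono fun w hw => hw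
    have hbad : ∀ z : ℂ, ∃ h ∈ H, {c₀ : ℂ | Polynomial.eval (Complex.exp (c₀ + z ^ e 0))
        (Polynomial.map (eval (bcg (fun a => e a.succ) c' z)) (finSuccEquiv ℂ n h)) = 0}.Countable := by
      intro z
      obtain ⟨_, ⟨h, hh, i, rfl⟩, hne⟩ := hc' z
      refine ⟨h, hh, ?_⟩
      have hP : Polynomial.map (eval (bcg (fun a => e a.succ) c' z)) (finSuccEquiv ℂ n h) ≠ 0 := by
        intro h0
        apply hne
        rw [← Polynomial.coeff_map, h0, Polynomial.coeff_zero]
      have hfin := (Polynomial.map (eval (bcg (fun a => e a.succ) c' z))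
        (finSuccEquiv ℂ n h)).roots.toFinset.finite_toSet.countable
      refine (hfin.biUnion fun r _ => countable_exp_fibre (z ^ e 0) r).mono ?_
      intro c₀ hc₀
      simp only [Set.mem_iUnion]
      refine ⟨Complex.exp (c₀ + z ^ e 0), ?_, rfl⟩
      rw [Finset.mem_coe, Multiset.mem_toFinset, Polynomial.mem_roots hP]
      exact hc₀
    choose hz hzH hzc using hbad
    obtain ⟨c₀, hc₀⟩ := ((hZ.biUnion fun z _ => hzc z).dense_compl ℂ).nonempty
    refine ⟨Fin.cons c₀ c', fun z => ?_⟩
    by_cases hzZ : eval (bcg (fun a => e a.succ) c' z) b = 0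
    · refine ⟨hz z, hzH z, ?_⟩
      rw [bcg_cons, eval_eq_eval_mv_eval']
      intro h0
      apply hc₀
      simp only [Set.mem_iUnion]
      exact ⟨z, hzZ, h0⟩
    · by_contra hcon
      push Not at hcon
      let ψ : Polynomial (MvPolynomial (Fin n) ℂ) →+* ℂ :=
        (Polynomial.evalRingHom (Complex.exp (c₀ + z ^ e 0))).comp
          (Polynomial.mapRingHom (eval (bcg (fun a => e a.succ) c' z)))
      have hle : Ideal.span ((finSuccEquiv ℂ n) '' H) ≤ RingHom.ker ψ := by
        rw [Ideal.span_le]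
        rintro _ ⟨h, hh, rfl⟩
        have h1 := hcon h hh
        rw [bcg_cons, eval_eq_eval_mv_eval'] at h1
        exact h1
      have h2 : ψ (Polynomial.C b * Polynomial.X ^ k) = 0 := hle hbk
      have h3 : ψ (Polynomial.C b * Polynomial.X ^ k)
          = eval (bcg (fun a => e a.succ) c' z) b * Complex.exp (c₀ + z ^ e 0) ^ k := by
        simp [ψ]
      rw [h3] at h2
      exact (mul_ne_zero hzZ (pow_ne_zero _ (Complex.exp_ne_zero _))) h2

theorem exists_bc {n : ℕ} (H : Set (MvPolynomial (Fin n) ℂ))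
    (hH : ∀ p, (∀ h ∈ H, p ∣ h) → ∃ s : Fin n →₀ ℕ, p ∣ monomial s 1) :
    ∃ c : Fin n → ℂ, ∀ z, ∃ h ∈ H, eval (bc c z) h ≠ 0 :=
  exists_bcg _ (fun _ _ h => Nat.add_lt_add_right h 1) (fun _ => Nat.succ_pos _) H hH

end Pool.Agent.AbFib
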