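import Mathlib

/-! PIECE G1: linear algebra for the density. -/

set_option autoImplicit false

open Filter Topology

namespace Pool.Agent.AbFib

private theorem G1_step {V T : Type} [AddCommGroup V] [Module ℂ V] [Nonempty T]
    (ev : ℕ → T → V →ₗ[ℂ] ℂ)
    (h : ∀ f : V, f ≠ 0 → ∀ᶠ m : ℕ in atTop, ∃ τ, ev m τ f ≠ 0) (n : ℕ) :
    ∀ (K : Submodule ℂ V), FiniteDimensional ℂ K → Module.finrank ℂ K ≤ n → ∀ m₀ : ℕ,
      ∃ m₁ : ℕ, m₀ ≤ m₁ ∧ ∃ τ : ℕ → T, ∀ f ∈ K,
        (∀ m, m₀ ≤ m → m < m₁ → ev m (τ m) f = 0) → f = 0 := by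
  classical
  induction n with
  | zero =>
    intro K hK hd m₀
    refine ⟨m₀, le_rfl, fun _ => Classical.arbitrary T, fun f hf _ => ?_⟩
    have h0 : K = ⊥ := Submodule.finrank_eq_zero.1 (Nat.le_zero.1 hd)
    rw [h0] at hf
    exact (Submodule.mem_bot ℂ).1 hf
  | succ n ih =>
    intro K hK hd m₀
    by_cases hb : K = ⊥
    · refine ⟨m₀, le_rfl, fun _ => Classical.arbitrary T, fun f hf _ => ?_⟩
      rw [hb] at hf
      exact (Submodule.mem_bot ℂ).1 hf
    · obtain ⟨f₀, hf₀, hne⟩ := Submodule.exists_mem_ne_zero_of_ne_bot hb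
      obtain ⟨M, hM, τ₀, hτ₀⟩ : ∃ M, m₀ ≤ M ∧ ∃ τ, ev M τ f₀ ≠ 0 := by
        obtain ⟨N, hN⟩ := eventually_atTop.1 (h f₀ hne)
        exact ⟨max m₀ N, le_max_left _ _, hN _ (le_max_right _ _)⟩
      have hlt : K ⊓ LinearMap.ker (ev M τ₀) < K := by
        refine lt_of_le_of_ne inf_le_left fun he => hτ₀ ?_
        have h1 : f₀ ∈ K ⊓ LinearMap.ker (ev M τ₀) := by
          rw [he]
          exact hf₀
        exact LinearMap.mem_ker.1 h1.2
      have hfr := Submodule.finrank_lt_finrank_of_lt hlt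
      obtain ⟨m₁, hm₁, τ, hτ⟩ := ih (K ⊓ LinearMap.ker (ev M τ₀))
        (Submodule.finiteDimensional_of_le inf_le_left) (by omega) (M + 1)
      refine ⟨m₁, by omega, Function.update τ M τ₀, fun f hf hz => hτ f ⟨hf, ?_⟩ ?_⟩
      · have h1 := hz M hM (by omega)
        rw [Function.update_self] at h1
        exact LinearMap.mem_ker.2 h1
      · intro m h1 h2
        have h3 := hz m (by omega) h2
        rwa [Function.update_of_ne (by omega)] at h3

/-- `V` has a countable spanning set `s`; `W d = span (s '' {0..d-1})` is finite dimensional. Claim: for each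
`d` and `m₀` there are finitely many naturals `m ∈ [m₀, m₁)` and a choice of `τ m` on them, such that each
`f ∈ W d` with `ev m (τ m) f = 0` for all these `m` is `0`: induction on the dimension of the common kernel on
`W d` (take `f ≠ 0` in it; `h` gives a new `m` and `τ` with `ev m τ f ≠ 0`). Do this for `d = 0, 1, 2, …` with
`m₀` the `m₁` of the previous step, and combine the choices (`τ m` arbitrary at the other `m`). -/
theorem choose_times {V T : Type} [AddCommGroup V] [Module ℂ V] [Nonempty T] (s : ℕ → V)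
    (hs : Submodule.span ℂ (Set.range s) = ⊤) (ev : ℕ → T → V →ₗ[ℂ] ℂ)
    (h : ∀ f : V, f ≠ 0 → ∀ᶠ m : ℕ in atTop, ∃ τ, ev m τ f ≠ 0) :
    ∃ τ : ℕ → T, ∀ f : V, f ≠ 0 → ∃ m, ev m (τ m) f ≠ 0 := by
  classical
  set W : ℕ → Submodule ℂ V := fun d => Submodule.span ℂ (s '' (Finset.range d : Set ℕ)) with hW
  have hfin : ∀ d, FiniteDimensional ℂ (W d) := fun d =>
    FiniteDimensional.span_of_finite ℂ ((Finset.finite_toSet _).image s)
  have key : ∀ d m₀ : ℕ, ∃ m₁ : ℕ, m₀ ≤ m₁ ∧ ∃ τ : ℕ → T, ∀ f ∈ W d,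
      (∀ m, m₀ ≤ m → m < m₁ → ev m (τ m) f = 0) → f = 0 := fun d m₀ =>
    G1_step ev h _ (W d) (hfin d) le_rfl m₀
  choose nx hnx τ hτ using key
  let a : ℕ → ℕ := fun d => Nat.rec 0 (fun d b => nx d b) d
  have ha : ∀ d, a (d + 1) = nx d (a d) := fun d => rfl
  have hmono : Monotone a := monotone_nat_of_le_succ fun d => by
    rw [ha]
    exact hnx d (a d)
  have huniq : ∀ d d' m, a d ≤ m → m < a (d + 1) → a d' ≤ m → m < a (d' + 1) → d = d' := by
    intro d d' m h1 h2 h3 h4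
    by_contra hne
    rcases lt_or_gt_of_ne hne with hlt | hlt
    · have := hmono (show d + 1 ≤ d' from hlt)
      omega
    · have := hmono (show d' + 1 ≤ d from hlt)
      omega
  obtain ⟨g, hg⟩ : ∃ g : ℕ → T, ∀ d m, a d ≤ m → m < a (d + 1) → g m = τ d (a d) m := by
    have hex : ∀ m, ∃ x : T, ∀ d, a d ≤ m → m < a (d + 1) → x = τ d (a d) m := by
      intro m
      by_cases hm : ∃ d, a d ≤ m ∧ m < a (d + 1)
      · obtain ⟨d₀, h1, h2⟩ := hm
        exact ⟨τ d₀ (a d₀) m, fun d h3 h4 => by rw [huniq d₀ d m h1 h2 h3 h4]⟩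
      · exact ⟨Classical.arbitrary T, fun d h3 h4 => absurd ⟨d, h3, h4⟩ hm⟩
    choose g hg using hex
    exact ⟨g, fun d m => hg m d⟩
  refine ⟨g, fun f hf => ?_⟩
  by_contra hcon
  push Not at hcon
  obtain ⟨d, hd⟩ : ∃ d, f ∈ W d := by
    have hf' : f ∈ Submodule.span ℂ (Set.range s) := by
      rw [hs]
      exact Submodule.mem_top
    obtain ⟨t, ht1, ht2⟩ := Submodule.mem_span_finite_of_mem_span hf'
    have hmem : ∀ x ∈ t, ∃ i, s i = x := fun x hx => ht1 hx
    choose! idx hidx using hmem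
    refine ⟨(t.sup idx) + 1, Submodule.span_mono ?_ ht2⟩
    intro x hx
    refine ⟨idx x, ?_, hidx x hx⟩
    have := Finset.le_sup (f := idx) hx
    simp only [Finset.coe_range, Set.mem_Iio]
    omega
  refine hf (hτ d (a d) f hd fun m h1 h2 => ?_)
  rw [← ha] at h2
  rw [← hg d m h1 h2]
  exact hcon m

end Pool.Agent.AbFib
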