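import Mathlib

/-! PIECE I1: interpolation at a sequence of points in disjoint annuli. -/

set_option autoImplicit false

open Filter Topology

namespace Pool.Agent.AbFib

private theorem Z_ne (Z : ℕ → ℂ) (hZ : ∀ m : ℕ, (m : ℝ) ≤ ‖Z m‖ ∧ ‖Z m‖ ≤ m + 1 / 2) {j n : ℕ}
    (hj : j < n) : Z n ≠ Z j := by
  intro h
  have h1 := (hZ n).1
  have h2 := (hZ j).2
  rw [h] at h1
  have h3 : (j : ℝ) + 1 ≤ n := by exact_mod_cast hj
  linarith

private theorem interp_step (Z : ℕ → ℂ) (hZ : ∀ m : ℕ, (m : ℝ) ≤ ‖Z m‖ ∧ ‖Z m‖ ≤ m + 1 / 2)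
    (n : ℕ) (w : ℂ) : ∃ g : ℂ → ℂ, Differentiable ℂ g ∧
    (∀ j : ℕ, j < n → g (Z j) = 0) ∧ g (Z n) = w ∧
    (1 ≤ n → ∀ z : ℂ, ‖z‖ ≤ (n : ℝ) / 2 → ‖g z‖ ≤ (1 / 2 : ℝ) ^ n) := by
  rcases Nat.eq_zero_or_pos n with h0 | hn
  · subst h0
    exact ⟨fun _ => w, differentiable_const w, fun j hj => absurd hj (Nat.not_lt_zero j), rfl,
      fun h => absurd h (by norm_num)⟩
  have hnR : (0 : ℝ) < n := by exact_mod_cast hn
  have hZpos : 0 < ‖Z n‖ := lt_of_lt_of_le hnR (hZ n).1
  have hn0 : Z n ≠ 0 := norm_pos_iff.1 hZpos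
  have hn1 : (1 : ℝ) ≤ n := by exact_mod_cast hn
  set P : ℂ → ℂ := fun z => ∏ j ∈ Finset.range n, (z - Z j) with hP
  have hPn : P (Z n) ≠ 0 := by
    rw [hP]
    apply Finset.prod_ne_zero_iff.2
    intro j hj
    rw [Finset.mem_range] at hj
    rw [sub_ne_zero]
    exact Z_ne Z hZ hj
  set c : ℂ := w / P (Z n) with hc
  set A : ℝ := ‖c‖ * (2 * n) ^ n + 1 with hA
  have hA0 : 0 < A := by positivity
  obtain ⟨M, hM⟩ := exists_pow_lt_of_lt_one (show (0 : ℝ) < (1 / 2) ^ n / A by positivity)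
    (show (1 / 2 : ℝ) < 1 by norm_num)
  refine ⟨fun z => c * P z * (z / Z n) ^ M, ?_, ?_, ?_, ?_⟩
  · have hPd : Differentiable ℂ P := by
      rw [hP]
      fun_prop
    fun_prop
  · intro j hj
    have : P (Z j) = 0 := by
      rw [hP]
      exact Finset.prod_eq_zero (Finset.mem_range.2 hj) (sub_self _)
    simp only [this]
    ring
  · simp only
    rw [div_self hn0, one_pow, mul_one, hc, div_mul_cancel₀ _ hPn]
  · intro _ z hz
    have hPz : ‖P z‖ ≤ (2 * n) ^ n := by
      rw [hP]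
      simp only
      rw [norm_prod]
      calc ∏ j ∈ Finset.range n, ‖z - Z j‖ ≤ ∏ _j ∈ Finset.range n, (2 * n : ℝ) := by
            apply Finset.prod_le_prod
            · intro j _
              exact norm_nonneg _
            · intro j hj
              rw [Finset.mem_range] at hj
              have hj' : (j : ℝ) + 1 ≤ n := by exact_mod_cast hj
              have hj2 := (hZ j).2
              calc ‖z - Z j‖ ≤ ‖z‖ + ‖Z j‖ := norm_sub_le _ _
                _ ≤ 2 * n := by linarith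
        _ = (2 * n : ℝ) ^ n := by simp
    have hzn : ‖z / Z n‖ ≤ 1 / 2 := by
      rw [norm_div, div_le_iff₀ hZpos]
      have := (hZ n).1
      linarith
    calc ‖c * P z * (z / Z n) ^ M‖ = ‖c‖ * ‖P z‖ * ‖z / Z n‖ ^ M := by
          rw [norm_mul, norm_mul, norm_pow]
      _ ≤ ‖c‖ * (2 * n) ^ n * (1 / 2) ^ M := by
          apply mul_le_mul (mul_le_mul_of_nonneg_left hPz (norm_nonneg _))
            (pow_le_pow_left₀ (norm_nonneg _) hzn _) (by positivity) (by positivity)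
      _ ≤ A * ((1 / 2) ^ n / A) := by
          apply mul_le_mul _ hM.le (by positivity) hA0.le
          rw [hA]
          linarith
      _ = (1 / 2) ^ n := by field_simp

/-- As `interp_nat` (`Pool/Agent/Lib_MP_1209e6_fl/W2.lean`, naturals instead of `Z m`): the `Z m` are distinct,
`ψ = ∑_n g_n` with `g_n (Z j) = 0` for `j < n`, `g_n (Z n) = v n - ∑_{k < n} g_k (Z n)` and `‖g_n‖ ≤ 2^-n` on
`‖z‖ ≤ n / 2` (`n ≥ 1`): `g_n z = w ∏_{j<n} (z - Z j) / (Z n - Z j) * (z / Z n)^k` with `k` large, as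
`‖z / Z n‖ ≤ 1/2`. -/
theorem interp_seq (Z : ℕ → ℂ) (hZ : ∀ m : ℕ, (m : ℝ) ≤ ‖Z m‖ ∧ ‖Z m‖ ≤ m + 1 / 2) (v : ℕ → ℂ) :
    ∃ ψ : ℂ → ℂ, Differentiable ℂ ψ ∧ ∀ m, ψ (Z m) = v m := by
  choose G hG1 hG2 hG3 hG4 using interp_step Z hZ
  set s : ℕ → ℂ → ℂ := fun n => Nat.rec (fun _ => 0) (fun k f z => f z + G k (v k - f (Z k)) z) n
    with hs
  have hs0 : ∀ z, s 0 z = 0 := fun z => rfl
  have hsS : ∀ n z, s (n + 1) z = s n z + G n (v n - s n (Z n)) z := fun n z => rfl
  set g : ℕ → ℂ → ℂ := fun n => G n (v n - s n (Z n)) with hg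
  have hsum : ∀ n z, s n z = ∑ k ∈ Finset.range n, g k z := by
    intro n z
    induction n with
    | zero => simp [hs0]
    | succ n ih => rw [hsS, ih, Finset.sum_range_succ]
  have hgd : ∀ k, Differentiable ℂ (g k) := fun k => hG1 k _
  have hgj : ∀ k j : ℕ, j < k → g k (Z j) = 0 := fun k j hj => hG2 k _ j hj
  have hgn : ∀ k : ℕ, g k (Z k) = v k - s k (Z k) := fun k => hG3 k _
  have hgb : ∀ k : ℕ, 1 ≤ k → ∀ z : ℂ, ‖z‖ ≤ (k : ℝ) / 2 → ‖g k z‖ ≤ (1 / 2 : ℝ) ^ k :=
    fun k hk z hz => hG4 k _ hk z hz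
  refine ⟨fun z => ∑' k, g k z, ?_, ?_⟩
  · intro z
    set R : ℝ := ‖z‖ + 1 with hR
    have hR0 : 0 < R := by positivity
    obtain ⟨N, hN⟩ := exists_nat_ge (2 * R)
    have hbd : ∀ k, ∃ C : ℝ, ∀ x ∈ Metric.closedBall (0 : ℂ) R, ‖g k x‖ ≤ C := fun k =>
      (isCompact_closedBall (0 : ℂ) R).exists_bound_of_continuousOn (hgd k).continuous.continuousOn
    choose C hC using hbd
    have hN1 : 1 ≤ N := by
      rcases Nat.eq_zero_or_pos N with h | h
      · subst h
        simp only [Nat.cast_zero] at hN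
        linarith
      · exact h
    have hu : Summable (fun k => if N ≤ k then (1 / 2 : ℝ) ^ k else C k) := by
      apply (summable_nat_add_iff N).1
      have : (fun k => if N ≤ k + N then (1 / 2 : ℝ) ^ (k + N) else C (k + N)) =
          fun k => (1 / 2 : ℝ) ^ (k + N) := by
        funext k
        rw [if_pos (Nat.le_add_left _ _)]
      rw [this]
      exact (summable_nat_add_iff N).2 summable_geometric_two
    have hd := Complex.differentiableOn_tsum_of_summable_norm (U := Metric.ball (0 : ℂ) R) hu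
      (fun k => (hgd k).differentiableOn) Metric.isOpen_ball (fun k x hx => by
        have hx' : ‖x‖ < R := by simpa using hx
        split_ifs with h
        · apply hgb k (hN1.trans h) x
          have : (N : ℝ) ≤ k := by exact_mod_cast h
          linarith
        · exact hC k x (Metric.ball_subset_closedBall hx))
    exact (hd z (by simp [hR])).differentiableAt (Metric.isOpen_ball.mem_nhds (by simp [hR]))
  · intro n
    have h1 : ∑' k, g k (Z n) = ∑ k ∈ Finset.range (n + 1), g k (Z n) := by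
      apply tsum_eq_sum
      intro k hk
      rw [Finset.mem_range, not_lt] at hk
      exact hgj k n (by omega)
    simp only
    rw [h1, Finset.sum_range_succ, ← hsum, hgn]
    ring

end Pool.Agent.AbFib
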