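import Pool.Agent.Lib_MP_1209e6_ab.G1
import Pool.Agent.Lib_MP_1209e6_ab.C2
import Pool.Agent.Lib_MP_1209e6_ab.I1

/-! PIECE G2: the dense section. -/

set_option autoImplicit false

open Filter Topology

namespace Pool.Agent.AbFib

open Pool.Agent.CampanaFlow MvPolynomial

variable {K : Type} [Field K] [Algebra ℂ K] {n N g : ℕ} {F : Fam n N g K}

/-- the chart ring has a countable spanning set -/
private theorem exists_span (F : Fam n N g K) (j : Fin (N + 1)) :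
    ∃ s : ℕ → F.R j, Submodule.span ℂ (Set.range s) = ⊤ := by
  obtain ⟨e, he⟩ := exists_surjective_nat (Fin n ⊕ Fin (N + 1) →₀ ℕ)
  refine ⟨fun k => aeval (F.Y j) (monomial (e k) (1 : ℂ)), ?_⟩
  rw [eq_top_iff]
  rintro f -
  obtain ⟨p, rfl⟩ := F.exists_poly j f
  rw [p.as_sum, map_sum]
  refine Submodule.sum_mem _ fun s _ => ?_
  obtain ⟨k, rfl⟩ := he s
  have h1 : monomial (e k) (coeff (e k) p) = coeff (e k) p • monomial (e k) (1 : ℂ) := by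
    rw [smul_monomial, smul_eq_mul, mul_one]
  rw [h1, map_smul]
  exact Submodule.smul_mem _ _ (Submodule.subset_span ⟨k, rfl⟩)

open Classical in
/-- evaluation at the point `Φ u τ p` of the chart `0`, and `0` if it is not in the chart -/
private noncomputable def evp (Φ : FlowAPI F) (u : Fin n → ℂ) (τ : Fin g → ℂ) (p : PS N) :
    F.R 0 →ₗ[ℂ] ℂ :=
  if h : ∃ q : F.R 0 →ₐ[ℂ] ℂ, ∃ v, v ∈ F.fib u ∧ v 0 = 1 ∧ Φ.Φ u τ p = pm v ∧ F.IsHom 0 u v q then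
    (Classical.choose h).toLinearMap
  else 0

private theorem evp_ne {Φ : FlowAPI F} {u : Fin n → ℂ} {τ : Fin g → ℂ} {p : PS N}
    {r : MvPolynomial (Fin n ⊕ Fin (N + 1)) ℂ} (h : evp Φ u τ p (aeval (F.Y 0) r) ≠ 0) :
    ∃ v, v ∈ F.fib u ∧ v 0 = 1 ∧ Φ.Φ u τ p = pm v ∧ aeval (Sum.elim u v) r ≠ 0 := by
  classical
  by_cases h1 : ∃ q : F.R 0 →ₐ[ℂ] ℂ, ∃ v, v ∈ F.fib u ∧ v 0 = 1 ∧ Φ.Φ u τ p = pm v ∧
      F.IsHom 0 u v q
  · obtain ⟨v, hv, hv0, hΦ, hq⟩ := Classical.choose_spec h1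
    have h2 : evp Φ u τ p (aeval (F.Y 0) r) = Classical.choose h1 (aeval (F.Y 0) r) := by
      rw [evp, dif_pos h1]
      rfl
    rw [h2, F.isHom_aeval hq] at h
    exact ⟨v, hv, hv0, hΦ, h⟩
  · rw [evp, dif_neg h1] at h
    exact absurd rfl h

private theorem ne_evp {Φ : FlowAPI F} {u : Fin n → ℂ} {τ : Fin g → ℂ} {p : PS N}
    {r : MvPolynomial (Fin n ⊕ Fin (N + 1)) ℂ} {w : Fin (N + 1) → ℂ} (hw : w ∈ F.fib u)
    (hw0 : w 0 = 1) (hΦ : Φ.Φ u τ p = pm w) (hr : aeval (Sum.elim u w) r ≠ 0) :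
    evp Φ u τ p (aeval (F.Y 0) r) ≠ 0 := by
  classical
  obtain ⟨q, hq⟩ := F.exists_isHom hw hw0
  have h1 : ∃ q : F.R 0 →ₐ[ℂ] ℂ, ∃ v, v ∈ F.fib u ∧ v 0 = 1 ∧ Φ.Φ u τ p = pm v ∧
      F.IsHom 0 u v q := ⟨q, w, hw, hw0, hΦ, hq⟩
  obtain ⟨v, hv, hv0, hΦ', hq'⟩ := Classical.choose_spec h1
  have h2 : evp Φ u τ p (aeval (F.Y 0) r) = Classical.choose h1 (aeval (F.Y 0) r) := by
    rw [evp, dif_pos h1]
    rfl
  have h3 : v = w := pm_inj hv0 hw0 (by rw [← hΦ', hΦ])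
  rw [h2, F.isHom_aeval hq', h3]
  exact hr

/-- `choose_times` with `V = F.R 0`, `T = ℂ × (Fin g → ℂ)`, `ev m (z, τ) = evp Φ (u z) τ (a z)` if `z` is in the
annulus `m ≤ ‖z‖ ≤ m + 1/2`, and `0` otherwise. If `f = aeval (F.Y 0) r ≠ 0` take `h` from `moving Φ A 0 r`;
`eval (u z) h ≠ 0` for some `z` in the annulus (isolated zeros), and `moving` gives `τ`. Then entire
functions with the values `τ m` at the points `Z m` (`interp_seq`). -/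
theorem dense_section (Φ : FlowAPI F) (A : AlgPack F) (u : ℂ → Fin n → ℂ)
    (hd : ∀ Q : MvPolynomial (Fin n) ℂ, aeval F.t Q ≠ 0 → ∀ z, ∀ᶠ w in 𝓝[≠] z, eval (u w) Q ≠ 0)
    (a : ℂ → PS N) (ha : ∀ z, F.Sec u a z) :
    ∃ τ : ℂ → Fin g → ℂ, Differentiable ℂ τ ∧ ∀ r : MvPolynomial (Fin n ⊕ Fin (N + 1)) ℂ,
      aeval (co F.t F.x 0) r ≠ 0 → ∃ (z : ℂ) (v : Fin (N + 1) → ℂ), v ∈ F.fib (u z) ∧ v 0 = 1 ∧
        Φ.Φ (u z) (τ z) (a z) = pm v ∧ aeval (Sum.elim (u z) v) r ≠ 0 := by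
  classical
  have hne : ∀ r : MvPolynomial (Fin n ⊕ Fin (N + 1)) ℂ, aeval (co F.t F.x 0) r ≠ 0 ↔
      aeval (F.Y 0) r ≠ (0 : F.R 0) := by
    intro r
    rw [not_iff_not, ← F.aeval_Y_coe]
    exact ZeroMemClass.coe_eq_zero
  obtain ⟨s, hs⟩ := exists_span F 0
  -- points in the annuli
  have hann : ∀ (m : ℕ) (Q : MvPolynomial (Fin n) ℂ), aeval F.t Q ≠ 0 →
      ∃ z : ℂ, (m : ℝ) ≤ ‖z‖ ∧ ‖z‖ ≤ m + 1 / 2 ∧ eval (u z) Q ≠ 0 := by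
    intro m Q hQ
    have h1 := hd Q hQ ((m : ℂ) + 1 / 4)
    have h2 : ∀ᶠ w in 𝓝[≠] ((m : ℂ) + 1 / 4), dist w ((m : ℂ) + 1 / 4) < 1 / 4 :=
      mem_nhdsWithin_of_mem_nhds (Metric.ball_mem_nhds _ (by norm_num : (0 : ℝ) < 1 / 4))
    obtain ⟨w, hw1, hw2⟩ := (h1.and h2).exists
    have h3 : ‖(m : ℂ) + 1 / 4‖ = m + 1 / 4 := by
      have : (m : ℂ) + 1 / 4 = ((m + 1 / 4 : ℝ) : ℂ) := by push_cast; ring
      rw [this, Complex.norm_real, Real.norm_of_nonneg (by positivity)]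
    rw [dist_eq_norm] at hw2
    have h4 := norm_sub_norm_le w ((m : ℂ) + 1 / 4)
    have h5 := norm_sub_norm_le ((m : ℂ) + 1 / 4) w
    rw [norm_sub_rev] at h5
    rw [h3] at h4 h5
    exact ⟨w, by linarith, by linarith, hw1⟩
  let ev : ℕ → ℂ × (Fin g → ℂ) → F.R 0 →ₗ[ℂ] ℂ := fun m p =>
    if (m : ℝ) ≤ ‖p.1‖ ∧ ‖p.1‖ ≤ m + 1 / 2 then evp Φ (u p.1) p.2 (a p.1) else 0
  obtain ⟨T, hT⟩ := choose_times (T := ℂ × (Fin g → ℂ)) s hs ev (by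
      intro f hf
      obtain ⟨r, rfl⟩ := F.exists_poly 0 f
      obtain ⟨h, hh, hm⟩ := moving Φ A 0 r ((hne r).2 hf)
      refine Eventually.of_forall fun m => ?_
      obtain ⟨z, hz1, hz2, hz3⟩ := hann m h hh
      obtain ⟨v, hv, hav⟩ := (ha z).2.self_of_nhds
      obtain ⟨τ, w, hw, hw0, hΦ, hr⟩ := hm _ hz3 v hv
      rw [← hav] at hΦ
      refine ⟨(z, τ), ?_⟩
      change (if (m : ℝ) ≤ ‖z‖ ∧ ‖z‖ ≤ m + 1 / 2 then evp Φ (u z) τ (a z) else 0) _ ≠ 0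
      rw [if_pos ⟨hz1, hz2⟩]
      exact ne_evp hw hw0 hΦ hr)
  let Z : ℕ → ℂ := fun m => if (m : ℝ) ≤ ‖(T m).1‖ ∧ ‖(T m).1‖ ≤ m + 1 / 2 then (T m).1 else m
  have hZ : ∀ m : ℕ, (m : ℝ) ≤ ‖Z m‖ ∧ ‖Z m‖ ≤ m + 1 / 2 := by
    intro m
    by_cases h : (m : ℝ) ≤ ‖(T m).1‖ ∧ ‖(T m).1‖ ≤ m + 1 / 2
    · simp only [Z, if_pos h]
      exact h
    · simp only [Z, if_neg h, Complex.norm_natCast]
      exact ⟨le_rfl, by linarith⟩
  choose ψ hψ1 hψ2 using fun i => interp_seq Z hZ fun m => (T m).2 i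
  refine ⟨fun z i => ψ i z, differentiable_pi.2 hψ1, fun r hr => ?_⟩
  obtain ⟨m, hm⟩ := hT _ ((hne r).1 hr)
  have hcond : (m : ℝ) ≤ ‖(T m).1‖ ∧ ‖(T m).1‖ ≤ m + 1 / 2 := by
    by_contra hcon
    apply hm
    change (if (m : ℝ) ≤ ‖(T m).1‖ ∧ ‖(T m).1‖ ≤ m + 1 / 2 then
      evp Φ (u (T m).1) (T m).2 (a (T m).1) else 0) _ = 0
    rw [if_neg hcon]
    rfl
  have hZm : Z m = (T m).1 := by
    simp only [Z, if_pos hcond]
  have h1 : (fun i => ψ i (T m).1) = (T m).2 := by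
    funext i
    rw [← hZm]
    exact hψ2 i m
  have hm' : evp Φ (u (T m).1) (T m).2 (a (T m).1) (aeval (F.Y 0) r) ≠ 0 := by
    have : ev m (T m) = evp Φ (u (T m).1) (T m).2 (a (T m).1) := if_pos hcond
    rwa [this] at hm
  obtain ⟨v, hv, hv0, hΦ, h2⟩ := evp_ne hm'
  refine ⟨(T m).1, v, hv, hv0, ?_, h2⟩
  change Φ.Φ (u (T m).1) (fun i => ψ i (T m).1) (a (T m).1) = pm v
  rw [h1]
  exact hΦ

end Pool.Agent.AbFib
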