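import Pool.Agent.Lib_MP_1209e6_ab.B1
import Pool.Agent.Lib_MP_1209e6_fl.D6
import Pool.Agent.Lib_MP_1209e6_fl.W4

/-! PIECE H1: from a dense section to an entire curve. -/

set_option autoImplicit false

open Filter Topology

namespace Pool.Agent.AbFib

open Pool.Agent.Campana Pool.Agent.CampanaFlow MvPolynomial

variable {n N g : ℕ}

/-- extension of a point to a localization -/
private theorem h1_ext {K : Type} [Field K] [Algebra ℂ K] {R S : Subalgebra ℂ K} {β : K}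
    (hβR : β ∈ R) (hS : ∀ f ∈ S, ∃ m : ℕ, f * β ^ m ∈ R) (q : R →ₐ[ℂ] ℂ)
    (hq : q ⟨β, hβR⟩ ≠ 0) :
    ∃ γ : S →ₐ[ℂ] ℂ, ∀ (f : S) (m : ℕ) (h : (f : K) * β ^ m ∈ R),
      γ f = q ⟨(f : K) * β ^ m, h⟩ / q ⟨β, hβR⟩ ^ m := by
  choose M hM using hS
  set b : R := ⟨β, hβR⟩ with hb
  have key : ∀ (f : K) (m m' : ℕ) (h : f * β ^ m ∈ R) (h' : f * β ^ m' ∈ R),
      q ⟨f * β ^ m, h⟩ / q b ^ m = q ⟨f * β ^ m', h'⟩ / q b ^ m' := by
    intro f m m' h h'
    rw [div_eq_div_iff (pow_ne_zero _ hq) (pow_ne_zero _ hq), ← map_pow, ← map_pow, ← map_mul,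
      ← map_mul]
    congr 1
    apply Subtype.ext
    change f * β ^ m * β ^ m' = f * β ^ m' * β ^ m
    ring
  refine ⟨{
    toFun := fun f => q ⟨(f : K) * β ^ M f f.2, hM f f.2⟩ / q b ^ M f f.2
    map_one' := ?_
    map_mul' := ?_
    map_zero' := ?_
    map_add' := ?_
    commutes' := ?_ }, ?_⟩
  · have h : ((1 : S) : K) * β ^ 0 ∈ R := by
      rw [pow_zero, mul_one]
      exact R.one_mem
    have : (⟨((1 : S) : K) * β ^ 0, h⟩ : R) = 1 := Subtype.ext (by
      change (1 : K) * β ^ 0 = 1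
      rw [pow_zero, mul_one])
    rw [key _ _ 0 _ h, this, map_one, pow_zero, div_one]
  · intro f f'
    have h : ((f * f' : S) : K) * β ^ (M f f.2 + M f' f'.2) ∈ R := by
      have e : ((f * f' : S) : K) * β ^ (M f f.2 + M f' f'.2) =
          ((f : K) * β ^ M f f.2) * ((f' : K) * β ^ M f' f'.2) := by
        change ((f : K) * f') * β ^ (M f f.2 + M f' f'.2) = _
        ring
      rw [e]
      exact R.mul_mem (hM _ _) (hM _ _)
    rw [key _ _ _ _ h, div_mul_div_comm, ← pow_add, ← map_mul]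
    congr 2
    apply Subtype.ext
    change ((f : K) * f') * β ^ (M f f.2 + M f' f'.2) =
      ((f : K) * β ^ M f f.2) * ((f' : K) * β ^ M f' f'.2)
    ring
  · have h : ((0 : S) : K) * β ^ 0 ∈ R := by
      change (0 : K) * β ^ 0 ∈ R
      rw [zero_mul]
      exact R.zero_mem
    change q _ / q b ^ _ = 0
    have : (⟨((0 : S) : K) * β ^ 0, h⟩ : R) = 0 := Subtype.ext (by
      change (0 : K) * β ^ 0 = 0
      rw [zero_mul])
    rw [key _ _ 0 _ h, this, map_zero, zero_div]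
  · intro f f'
    have h1 : (f : K) * β ^ (M f f.2 + M f' f'.2) ∈ R := by
      rw [pow_add, ← mul_assoc]
      exact R.mul_mem (hM _ _) (R.pow_mem hβR _)
    have h2 : (f' : K) * β ^ (M f f.2 + M f' f'.2) ∈ R := by
      rw [pow_add, mul_comm (β ^ _), ← mul_assoc]
      exact R.mul_mem (hM _ _) (R.pow_mem hβR _)
    have h : ((f + f' : S) : K) * β ^ (M f f.2 + M f' f'.2) ∈ R := by
      change ((f : K) + f') * β ^ (M f f.2 + M f' f'.2) ∈ R
      rw [add_mul]
      exact R.add_mem h1 h2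
    change q _ / q b ^ _ = q _ / q b ^ _ + q _ / q b ^ _
    rw [key _ _ _ _ h, key _ _ _ _ h1, key _ _ _ _ h2, ← add_div, ← map_add]
    congr 2
    apply Subtype.ext
    change ((f : K) + f') * β ^ (M f f.2 + M f' f'.2) = (f : K) * β ^ (M f f.2 + M f' f'.2) +
      (f' : K) * β ^ (M f f.2 + M f' f'.2)
    ring
  · intro r
    have h : ((algebraMap ℂ S r : S) : K) * β ^ 0 ∈ R := by
      rw [pow_zero, mul_one]
      exact R.algebraMap_mem r
    change q _ / q b ^ _ = _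
    have : (⟨((algebraMap ℂ S r : S) : K) * β ^ 0, h⟩ : R) = algebraMap ℂ R r :=
      Subtype.ext (by
        change (algebraMap ℂ K r) * β ^ 0 = algebraMap ℂ K r
        rw [pow_zero, mul_one])
    rw [key _ _ 0 _ h, this, AlgHom.commutes, pow_zero, div_one]
  · intro f m h
    exact key _ _ _ _ _

private theorem h1_ana {σ : Type} (p : MvPolynomial σ ℂ) (f : ℂ → σ → ℂ) (z : ℂ)
    (h : ∀ s, AnalyticAt ℂ (fun w => f w s) z) : AnalyticAt ℂ (fun w => aeval (f w) p) z := by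
  induction p using MvPolynomial.induction_on with
  | C a =>
    simp only [MvPolynomial.aeval_C]
    exact analyticAt_const
  | add p q hp hq =>
    simp only [map_add]
    exact hp.add hq
  | mul_X p s hp =>
    simp only [map_mul, aeval_X]
    exact hp.mul (h s)

private theorem h1_mer {σ : Type} (p : MvPolynomial σ ℂ) (f : ℂ → σ → ℂ) (z : ℂ)
    (h : ∀ s, MeromorphicAt (fun w => f w s) z) : MeromorphicAt (fun w => aeval (f w) p) z := by
  induction p using MvPolynomial.induction_on with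
  | C a =>
    simp only [MvPolynomial.aeval_C]
    exact MeromorphicAt.const _ _
  | add p q hp hq =>
    simp only [map_add]
    exact hp.add hq
  | mul_X p s hp =>
    simp only [map_mul, aeval_X]
    exact hp.mul (h s)

private theorem h1_norm {N : ℕ} {v w : Fin (N + 1) → ℂ} (hv : v 0 = 1) (h : pm w = pm v) :
    w 0 ≠ 0 ∧ v = fun l => w l / w 0 := by
  obtain ⟨c, hc, rfl⟩ := pm_eq_iff.1 h
  have h0 : (c • v) 0 = c := by rw [Pi.smul_apply, hv, smul_eq_mul, mul_one]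
  refine ⟨by rw [h0]; exact hc, ?_⟩
  funext l
  rw [h0, Pi.smul_apply, smul_eq_mul, mul_div_cancel_left₀ _ hc]

/-- the curve of points of a suitable open affine subset which belongs to a section -/
private theorem h1_curve {K : Type} [Field K] [Algebra ℂ K] (F : Fam n N g K)
    (hgen : IntermediateField.adjoin ℂ (Set.range (co F.t F.x 0)) = ⊤) (u : ℂ → Fin n → ℂ)
    (hu : Differentiable ℂ u) (a : ℂ → PS N) (ha : ∀ z, F.Sec u a z)
    (hdense : ∀ r : MvPolynomial (Fin n ⊕ Fin (N + 1)) ℂ, aeval (co F.t F.x 0) r ≠ 0 →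
      ∃ (z : ℂ) (v : Fin (N + 1) → ℂ), v ∈ F.fib (u z) ∧ v 0 = 1 ∧ a z = pm v ∧
        aeval (Sum.elim (u z) v) r ≠ 0) (T : Finset K) :
    ∃ (S : Subalgebra ℂ K) (γ : ℂ → S →ₐ[ℂ] ℂ) (B : Set ℂ), (T : Set K) ⊆ S ∧
      IsCurve Set.univ γ B ∧ ∀ f : S, (∀ z, z ∉ B → γ z f = 0) → f = 0 := by
  classical
  obtain ⟨S, -, hTS, hRS, hβ⟩ := spread (α := Unit) (fun _ => F.R 0)
    (fun _ => Subalgebra.fg_def.2 ⟨_, Set.finite_range _, rfl⟩) (by
      intro _ y
      have hy : y ∈ IntermediateField.adjoin ℂ (Set.range (co F.t F.x 0)) := by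
        rw [hgen]
        trivial
      rw [IntermediateField.mem_adjoin_iff_div] at hy
      obtain ⟨r, hr, s, hs, h⟩ := hy
      by_cases hs0 : s = 0
      · refine ⟨0, Subalgebra.zero_mem _, 1, Subalgebra.one_mem _, one_ne_zero, ?_⟩
        rw [h, hs0, div_zero, zero_div]
      · exact ⟨r, hr, s, hs, hs0, h⟩) T
  obtain ⟨β, hβR, hβ0, hβi, hβloc⟩ := hβ ()
  have hRpoly : ∀ y ∈ F.R 0, ∃ p : MvPolynomial (Fin n ⊕ Fin (N + 1)) ℂ,
      y = aeval (co F.t F.x 0) p := by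
    intro y hy
    rw [Fam.R, Algebra.adjoin_range_eq_range_aeval] at hy
    obtain ⟨p, hp⟩ := hy
    exact ⟨p, hp.symm⟩
  have hY : ∀ (p : MvPolynomial (Fin n ⊕ Fin (N + 1)) ℂ) (h : aeval (co F.t F.x 0) p ∈ F.R 0),
      (⟨aeval (co F.t F.x 0) p, h⟩ : F.R 0) = aeval (F.Y 0) p := by
    intro p h
    apply Subtype.ext
    have h2 := MvPolynomial.comp_aeval_apply (R := ℂ) (f := F.Y 0) (F.R 0).val p
    exact h2.symm
  obtain ⟨b, hb⟩ := hRpoly β hβR
  -- good points
  let Good : ℂ → (Fin (N + 1) → ℂ) → Prop := fun z v =>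
    v ∈ F.fib (u z) ∧ v 0 = 1 ∧ a z = pm v ∧ aeval (Sum.elim (u z) v) b ≠ 0
  let B : Set ℂ := {z | ¬ ∃ v, Good z v}
  obtain ⟨z₁, v₁, hv₁⟩ : ∃ z v, Good z v := by
    obtain ⟨z, v, h⟩ := hdense b (by rw [← hb]; exact hβ0)
    exact ⟨z, v, h⟩
  have hpt : ∀ z, ∃ z' v, Good z' v ∧ (z ∉ B → z' = z) := by
    intro z
    by_cases hz : z ∈ B
    · exact ⟨z₁, v₁, hv₁, fun h => absurd hz h⟩
    · obtain ⟨v, hv⟩ := not_not.1 hz
      exact ⟨z, v, hv, fun _ => rfl⟩
  choose z' V hV hz' using hpt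
  have hqex : ∀ z, ∃ q, F.IsHom 0 (u (z' z)) (V z) q := fun z =>
    F.exists_isHom (hV z).1 (hV z).2.1
  choose q hq using hqex
  have hqp : ∀ z (p : MvPolynomial (Fin n ⊕ Fin (N + 1)) ℂ) (h : aeval (co F.t F.x 0) p ∈ F.R 0),
      q z ⟨aeval (co F.t F.x 0) p, h⟩ = aeval (Sum.elim (u (z' z)) (V z)) p := by
    intro z p h
    rw [hY, F.isHom_aeval (hq z)]
  have hqβ : ∀ z, q z ⟨β, hβR⟩ = aeval (Sum.elim (u (z' z)) (V z)) b := by
    intro z
    have : (⟨β, hβR⟩ : F.R 0) = ⟨aeval (co F.t F.x 0) b, hb ▸ hβR⟩ := Subtype.ext hb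
    rw [this, hqp]
  have hγex : ∀ z, ∃ γ : S →ₐ[ℂ] ℂ, ∀ (f : S) (m : ℕ) (h : (f : K) * β ^ m ∈ F.R 0),
      γ f = q z ⟨(f : K) * β ^ m, h⟩ / q z ⟨β, hβR⟩ ^ m := fun z =>
    h1_ext hβR hβloc (q z) (by rw [hqβ]; exact (hV z).2.2.2)
  choose γ hγ using hγex
  -- polynomial formula
  have hform : ∀ f : S, ∃ (m : ℕ) (p : MvPolynomial (Fin n ⊕ Fin (N + 1)) ℂ),
      (f : K) * β ^ m = aeval (co F.t F.x 0) p ∧ ∀ z, γ z f =
        aeval (Sum.elim (u (z' z)) (V z)) p / aeval (Sum.elim (u (z' z)) (V z)) b ^ m := by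
    intro f
    obtain ⟨m, hm⟩ := hβloc f f.2
    obtain ⟨p, hp⟩ := hRpoly _ hm
    refine ⟨m, p, hp, fun z => ?_⟩
    rw [hγ z f m hm, hqβ]
    have : (⟨(f : K) * β ^ m, hm⟩ : F.R 0) = ⟨aeval (co F.t F.x 0) p, hp ▸ hm⟩ := Subtype.ext hp
    rw [this, hqp]
  -- local structure
  have hloc : ∀ z₀, ∃ v : ℂ → Fin (N + 1) → ℂ, AnalyticAt ℂ v z₀ ∧ v z₀ ≠ 0 ∧
      ∀ᶠ w in 𝓝 z₀, a w = pm (v w) ∧ v w ∈ F.fib (u w) := by
    intro z₀
    obtain ⟨⟨v, hv, hv0, hav⟩, hP⟩ := ha z₀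
    refine ⟨v, hv, hv0, ?_⟩
    filter_upwards [hav, hP] with w h1 h2
    refine ⟨h1, ?_⟩
    rw [h1, F.pm_mem_iff] at h2
    exact h2
  have hcoord : ∀ {v : ℂ → Fin (N + 1) → ℂ} {z₀ : ℂ}, AnalyticAt ℂ v z₀ → ∀ l,
      AnalyticAt ℂ (fun w => v w l) z₀ := fun hv l => analyticAt_pi_iff.1 hv l
  have huan : ∀ z₀ l, AnalyticAt ℂ (fun w => u w l) z₀ := by
    intro z₀ l
    exact analyticAt_pi_iff.1 (hu.analyticAt z₀) l
  have hdich : ∀ z₀, (∀ᶠ w in 𝓝 z₀, w ∈ B) ∨ ∀ᶠ w in 𝓝[≠] z₀, w ∉ B := by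
    intro z₀
    obtain ⟨v, hv, hv0, hav⟩ := hloc z₀
    obtain ⟨j', hj'⟩ : ∃ j', v z₀ j' ≠ 0 := by
      by_contra hcon
      push Not at hcon
      exact hv0 (funext hcon)
    obtain ⟨b', d, hb'⟩ := change_chart b 0 j'
    have hne : ∀ᶠ w in 𝓝 z₀, v w j' ≠ 0 := (hcoord hv j').continuousAt.eventually_ne hj'
    have hiff : ∀ᶠ w in 𝓝 z₀, (w ∈ B ↔ aeval (co (u w) (v w) j') b' = 0) := by
      filter_upwards [hav, hne] with w hw hwj
      rw [hb' (u w) (v w) hwj]
      constructor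
      · intro hB
        by_contra hcon
        have h1 := left_ne_zero_of_mul hcon
        have h2 := right_ne_zero_of_mul hcon
        have h3 : v w 0 ≠ 0 := by
          intro h
          apply h1
          rw [h, zero_div, zero_pow (Nat.succ_ne_zero d)]
        apply hB
        refine ⟨(v w 0)⁻¹ • v w, F.fib_smul (inv_ne_zero h3) hw.2, ?_, ?_, ?_⟩
        · rw [Pi.smul_apply, smul_eq_mul, inv_mul_cancel₀ h3]
        · rw [hw.1, pm_smul (inv_ne_zero h3)]
        · have e : (Sum.elim (u w) ((v w 0)⁻¹ • v w) : Fin n ⊕ Fin (N + 1) → ℂ) =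
              co (u w) (v w) 0 := by
            rw [co]
            congr 1
            funext l
            rw [Pi.smul_apply, smul_eq_mul, div_eq_inv_mul]
          rw [e]
          exact h2
      · rintro h ⟨x, hx1, hx2, hx3, hx4⟩
        obtain ⟨h5, h6⟩ := h1_norm hx2 (hw.1.symm.trans hx3)
        rw [h6] at hx4
        rcases mul_eq_zero.1 h with h7 | h7
        · exact (pow_ne_zero _ (div_ne_zero h5 hwj)) h7
        · exact hx4 h7
    have hana : AnalyticAt ℂ (fun w => aeval (co (u w) (v w) j') b') z₀ := by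
      apply h1_ana
      rintro (l | l)
      · exact huan z₀ l
      · exact (hcoord hv l).div (hcoord hv j') hj'
    rcases hana.eventually_eq_zero_or_eventually_ne_zero with h | h
    · left
      filter_upwards [h, hiff] with w h1 h2
      exact h2.2 h1
    · right
      filter_upwards [h, hiff.filter_mono nhdsWithin_le_nhds] with w h1 h2
      exact fun h3 => h1 (h2.1 h3)
  have hdisc : ∀ z₀, ∀ᶠ w in 𝓝[≠] z₀, w ∉ B := by
    intro z₂
    refine (hdich z₂).resolve_left fun h2 => ?_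
    let O : Set ℂ := {z | ∀ᶠ w in 𝓝 z, w ∈ B}
    have hO : IsClopen O := by
      constructor
      · rw [← isOpen_compl_iff, isOpen_iff_mem_nhds]
        intro z hz
        have h := (hdich z).resolve_left hz
        rw [eventually_nhdsWithin_iff] at h
        filter_upwards [h] with w hw hwO
        by_cases hwz : w = z
        · rw [hwz] at hwO
          exact hz hwO
        · exact hw hwz (mem_of_mem_nhds hwO)
      · rw [isOpen_iff_mem_nhds]
        intro z hz
        exact eventually_eventually_nhds.2 hz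
    rcases isClopen_iff.1 hO with h | h
    · have : z₂ ∈ O := h2
      rw [h] at this
      exact this
    · have h2 : z₁ ∈ O := h ▸ Set.mem_univ z₁
      have h3 : z₁ ∈ B := mem_of_mem_nhds h2
      exact h3 ⟨v₁, hv₁⟩
  have hnorm : ∀ (v : ℂ → Fin (N + 1) → ℂ) w, w ∉ B → a w = pm (v w) →
      v w 0 ≠ 0 ∧ z' w = w ∧ V w = fun l => v w l / v w 0 := by
    intro v w hw h
    have h1 := hz' w hw
    have h2 := (hV w).2.2.1
    rw [h1] at h2
    obtain ⟨h3, h4⟩ := h1_norm (hV w).2.1 (h.symm.trans h2)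
    exact ⟨h3, h1, h4⟩
  have hval : ∀ (v : ℂ → Fin (N + 1) → ℂ) w, w ∉ B → a w = pm (v w) →
      (Sum.elim (u (z' w)) (V w) : Fin n ⊕ Fin (N + 1) → ℂ) = co (u w) (v w) 0 := by
    intro v w hw h
    obtain ⟨-, h2, h3⟩ := hnorm v w hw h
    rw [h2, h3, co]
  refine ⟨S, γ, B, hTS, ⟨fun z _ => hdisc z, ?_, ?_⟩, ?_⟩
  · -- analytic
    intro f z₀ _ hz₀
    obtain ⟨m, p, -, hf⟩ := hform f
    obtain ⟨v, hv, hv0, hav⟩ := hloc z₀
    have hBe : ∀ᶠ w in 𝓝 z₀, w ∉ B := by
      have h := hdisc z₀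
      rw [eventually_nhdsWithin_iff] at h
      filter_upwards [h] with w hw
      by_cases hwz : w = z₀
      · rw [hwz]
        exact hz₀
      · exact hw hwz
    have hz0 := hnorm v z₀ hz₀ hav.self_of_nhds.1
    have hco : ∀ s, AnalyticAt ℂ (fun w => co (u w) (v w) 0 s) z₀ := by
      rintro (l | l)
      · exact huan z₀ l
      · exact (hcoord hv l).div (hcoord hv 0) hz0.1
    have hbne : aeval (co (u z₀) (v z₀) 0) b ≠ 0 := by
      rw [← hval v z₀ hz₀ hav.self_of_nhds.1]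
      exact (hV z₀).2.2.2
    have hA : AnalyticAt ℂ (fun w => aeval (co (u w) (v w) 0) p /
        aeval (co (u w) (v w) 0) b ^ m) z₀ :=
      (h1_ana p _ z₀ hco).div ((h1_ana b _ z₀ hco).pow m) (pow_ne_zero _ hbne)
    refine hA.congr ?_
    filter_upwards [hBe, hav] with w h1 h2
    rw [hf w, hval v w h1 h2.1]
  · -- meromorphic
    intro f z₀ _
    obtain ⟨m, p, -, hf⟩ := hform f
    obtain ⟨v, hv, hv0, hav⟩ := hloc z₀
    have hco : ∀ s, MeromorphicAt (fun w => co (u w) (v w) 0 s) z₀ := by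
      rintro (l | l)
      · exact (huan z₀ l).meromorphicAt
      · exact (hcoord hv l).meromorphicAt.div (hcoord hv 0).meromorphicAt
    have hA : MeromorphicAt (fun w => aeval (co (u w) (v w) 0) p /
        aeval (co (u w) (v w) 0) b ^ m) z₀ :=
      (h1_mer p _ z₀ hco).div ((h1_mer b _ z₀ hco).pow m)
    refine hA.congr ?_
    filter_upwards [hdisc z₀, hav.filter_mono nhdsWithin_le_nhds] with w h1 h2
    rw [hf w, hval v w h1 h2.1]
  · -- dense
    intro f hf0
    by_contra hne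
    obtain ⟨m, p, hp, hf⟩ := hform f
    have hfne : (f : K) ≠ 0 := fun h => hne (Subtype.ext h)
    obtain ⟨z, v, hv1, hv2, hv3, hv4⟩ := hdense (p * b) (by
      rw [map_mul, ← hp, ← hb]
      exact mul_ne_zero (mul_ne_zero hfne (pow_ne_zero _ hβ0)) hβ0)
    rw [map_mul] at hv4
    have hz : z ∉ B := fun h => h ⟨v, hv1, hv2, hv3, right_ne_zero_of_mul hv4⟩
    have h1 := hf0 z hz
    have h2 := hz' z hz
    have h3 : V z = v := by
      have h4 := (hV z).2.2.1
      rw [h2] at h4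
      obtain ⟨-, h6⟩ := h1_norm (hV z).2.1 (hv3.symm.trans h4)
      rw [h6]
      funext l
      rw [hv2, div_one]
    rw [hf z, h2, h3] at h1
    rcases div_eq_zero_iff.1 h1 with h | h
    · exact left_ne_zero_of_mul hv4 h
    · exact pow_ne_zero m (right_ne_zero_of_mul hv4) h

/-- `spread` with `α = Unit`, `R = F.R 0`, `T` = the `ratio P l l₀` (for some `l₀` with `X l₀ ∉ P`, `hP`) gives
`S ⊇ F.R 0`, `β ∈ F.R 0`, `β ≠ 0`, `β⁻¹ ∈ S`, `f β^m ∈ F.R 0` for all `f ∈ S`. Let `β = aeval (F.Y 0) b`. Let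
`B` be the set of the `z` such that `a z` has no representative `v` with `v 0 = 1`, `v ∈ fib (u z)`,
`aeval (u z, v) b ≠ 0`. Off `B` let `q z : F.R 0 →ₐ ℂ` be the homomorphism of `(u z, v)` and
`γ z : S →ₐ ℂ` its extension: `γ z f = q z (f β^m) / (q z β)^m` (independent of `m`, so a homomorphism; on
`B` take any homomorphism, e.g. `γ z₁` for one `z₁ ∉ B`).
`B` is discrete: near each `z₀`, `a = pm (v w)` with `v` analytic; `w ∈ B` iff `v w 0 = 0` or
`aeval (u w, v w / v w 0) b = 0`, i.e. iff `v w 0 * (v w 0)^d * aeval (…) b = 0` for large `d` (`change_chart`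
in all charts, or multiply out): an analytic function `φ` of `w`. Either `φ` is not zero in a punctured
neighbourhood or zero near `z₀`. The set of the `z₀` near which all points are in `B` is open and closed (by
this dichotomy), so it is empty or `ℂ`; it is not `ℂ` by `hdense` for `r = b` (`ℂ` is connected).
Analytic and meromorphic: near `z₀`, off `B`, `γ w f = q w (f β^m) / (q w β)^m` is a quotient of polynomials
in the analytic functions `u w`, `v w / v w 0` (`v w 0` not identically zero near `z₀`).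
Dense: if `γ z f = 0` for all `z ∉ B` and `f ≠ 0` then `f β^(m+1) = aeval (F.Y 0) r ≠ 0`, and `hdense` for
`r` gives `z ∉ B` (`β (a z) ≠ 0` since `r` contains the factor `b`: take `r = r' * b`) with `q z (f β^m) ≠ 0`.
Conclude by `brody_of_curve`. -/
theorem brody_of_section {m : ℕ} (P : Ideal (MvPolynomial (Fin (m + 1)) ℂ)) [P.IsPrime]
    (hP : IsVariety P) {K : Type} [Field K] [Algebra ℂ K] (J : FunField P →ₐ[ℂ] K)
    (F : Fam n N g K)
    (hgen : IntermediateField.adjoin ℂ (Set.range (co F.t F.x 0)) = ⊤) (u : ℂ → Fin n → ℂ)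
    (hu : Differentiable ℂ u) (a : ℂ → PS N) (ha : ∀ z, F.Sec u a z)
    (hdense : ∀ r : MvPolynomial (Fin n ⊕ Fin (N + 1)) ℂ, aeval (co F.t F.x 0) r ≠ 0 →
      ∃ (z : ℂ) (v : Fin (N + 1) → ℂ), v ∈ F.fib (u z) ∧ v 0 = 1 ∧ a z = pm v ∧
        aeval (Sum.elim (u z) v) r ≠ 0) :
    BrodySpecial P := by
  classical
  obtain ⟨l₀, hl₀⟩ := hP.2.2
  obtain ⟨S, γ, B, hT, hcurve, hd⟩ := h1_curve F hgen u hu a ha hdense
    (Finset.univ.image fun l => J (ratio P l l₀))
  let jS : S.comap J →ₐ[ℂ] S :=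
    (J.comp (S.comap J).val).codRestrict S fun x => x.2
  refine brody_of_curve P hP l₀ hl₀ (S.comap J) (fun l => hT (by simp))
    (fun z => (γ z).comp jS) B ⟨hcurve.disc, fun f z hz hzB => hcurve.ana (jS f) z hz hzB,
      fun f z hz => hcurve.mer (jS f) z hz⟩ fun f hf => ?_
  have h1 : jS f = 0 := hd (jS f) fun z hz => hf z hz
  have h2 : J (f : FunField P) = 0 := congrArg Subtype.val h1
  exact Subtype.ext ((map_eq_zero J).1 h2)

end Pool.Agent.AbFib
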