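import Pool.Agent.Lib_MP_1209e6_ab.Defs

/-! PIECE K1: the field `K(E)` and derivations. -/

set_option autoImplicit false

open Filter Topology

namespace Pool.Agent.AbFib

variable (K : Type) [Field K] [Algebra ℂ K]

/-- the field `K(E)` of rational functions in one variable `E` -/
abbrev KE : Type := FractionRing (Polynomial K)

/-- the inclusion of `K` -/
noncomputable def jE : K →ₐ[ℂ] KE K :=
  (IsScalarTower.toAlgHom ℂ (Polynomial K) (KE K)).comp (Polynomial.CAlgHom (R := ℂ) (A := K))

/-- the variable -/
noncomputable def vE : KE K := algebraMap (Polynomial K) (KE K) Polynomial.X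

theorem jE_apply (a : K) : jE K a = algebraMap (Polynomial K) (KE K) (Polynomial.C a) := rfl

/-- value of a polynomial at the variable -/
theorem eval₂_vE (p : Polynomial K) :
    p.eval₂ (jE K).toRingHom (vE K) = algebraMap (Polynomial K) (KE K) p := by
  induction p using Polynomial.induction_on' with
  | add p q hp hq => rw [Polynomial.eval₂_add, hp, hq, map_add]
  | monomial n a =>
    rw [Polynomial.eval₂_monomial, ← Polynomial.C_mul_X_pow_eq_monomial, map_mul, map_pow]
    rfl

/-- `E` is transcendental over `K` -/
theorem eval₂_vE_ne {p : Polynomial K} (hp : p ≠ 0) : p.eval₂ (jE K).toRingHom (vE K) ≠ 0 := by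
  rw [eval₂_vE]
  exact (map_ne_zero_iff _ (IsFractionRing.injective (Polynomial K) (KE K))).2 hp

/-- `K(E)` is generated by `K` and `E` -/
theorem KE_div (w : KE K) : ∃ p q : Polynomial K, q ≠ 0 ∧
    w = p.eval₂ (jE K).toRingHom (vE K) / q.eval₂ (jE K).toRingHom (vE K) := by
  obtain ⟨p, q, hq, h⟩ := IsFractionRing.div_surjective (A := Polynomial K) w
  refine ⟨p, q, nonZeroDivisors.ne_zero hq, ?_⟩
  rw [eval₂_vE, eval₂_vE, h]

variable {K}

/-- the derivation of `K[X]` given by a derivation of the coefficients -/
private noncomputable def polyFun (D : Derivation ℂ K K) (p : Polynomial K) : Polynomial K :=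
  ∑ i ∈ p.support, Polynomial.monomial i (D (p.coeff i))

private theorem polyFun_coeff (D : Derivation ℂ K K) (p : Polynomial K) (n : ℕ) :
    (polyFun D p).coeff n = D (p.coeff n) := by
  classical
  rw [polyFun, Polynomial.finsetSum_coeff]
  simp only [Polynomial.coeff_monomial]
  rw [Finset.sum_ite_eq' p.support n]
  split_ifs with h
  · rfl
  · rw [Polynomial.notMem_support_iff.1 h, map_zero]

private noncomputable def polyDer (D : Derivation ℂ K K) : Derivation ℂ (Polynomial K) (Polynomial K) :=
  Derivation.mk'
    { toFun := polyFun D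
      map_add' := fun p q => by
        ext n
        simp only [polyFun_coeff, Polynomial.coeff_add, map_add]
      map_smul' := fun c p => by
        ext n
        simp only [polyFun_coeff, Polynomial.coeff_smul, Derivation.map_smul, RingHom.id_apply] }
    fun p q => by
      ext n
      change (polyFun D (p * q)).coeff n = (p * polyFun D q + q * polyFun D p).coeff n
      rw [polyFun_coeff, Polynomial.coeff_mul, map_sum, mul_comm q, Polynomial.coeff_add,
        Polynomial.coeff_mul, Polynomial.coeff_mul, ← Finset.sum_add_distrib]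
      refine Finset.sum_congr rfl fun ij _ => ?_
      rw [polyFun_coeff, polyFun_coeff, Derivation.leibniz, smul_eq_mul, smul_eq_mul]
      ring

private theorem quot_rule {L : Type} [Field L] (x y a b dx dy da db : L) (hy : y ≠ 0)
    (hb : b ≠ 0) : ((x * da + a * dx) * (y * b) - x * a * (y * db + b * dy)) / (y * b) ^ 2 =
      x / y * ((da * b - a * db) / b ^ 2) + a / b * ((dx * y - x * dy) / y ^ 2) := by
  field_simp
  ring

/-- extension of a derivation to the fraction field -/
private theorem exists_der_frac {A : Type} [CommRing A] [IsDomain A] [Algebra ℂ A]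
    (d : Derivation ℂ A A) : ∃ d' : Derivation ℂ (FractionRing A) (FractionRing A),
      ∀ a, d' (algebraMap A _ a) = algebraMap A _ (d a) := by
  classical
  let L := FractionRing A
  let ι : A → L := algebraMap A L
  have hι : ∀ {b : A}, b ≠ 0 → ι b ≠ 0 := fun hb =>
    (map_ne_zero_iff _ (IsFractionRing.injective A L)).2 hb
  have hι0 : ∀ {a b : A}, ι a = ι b → a = b := fun h => IsFractionRing.injective A L h
  have hex : ∀ w : L, ∃ ab : A × A, ab.2 ≠ 0 ∧ w = ι ab.1 / ι ab.2 := by
    intro w
    obtain ⟨p, q, hq, h⟩ := IsFractionRing.div_surjective (A := A) w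
    exact ⟨(p, q), nonZeroDivisors.ne_zero hq, h.symm⟩
  choose r hr0 hr using hex
  let f : L → L := fun w => (ι (d (r w).1) * ι (r w).2 - ι (r w).1 * ι (d (r w).2)) / ι (r w).2 ^ 2
  have key : ∀ (w : L) (a b : A), b ≠ 0 → w = ι a / ι b →
      f w = (ι (d a) * ι b - ι a * ι (d b)) / ι b ^ 2 := by
    intro w a b hb h
    have h1 := hι (hr0 w)
    have h2 := hι hb
    have h3 : (r w).1 * b = a * (r w).2 := by
      apply hι0
      change algebraMap A L _ = algebraMap A L _
      rw [map_mul, map_mul]
      have := (hr w).symm.trans h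
      rwa [div_eq_div_iff h1 h2] at this
    have h4 := congrArg d h3
    rw [Derivation.leibniz, Derivation.leibniz, smul_eq_mul, smul_eq_mul, smul_eq_mul,
      smul_eq_mul] at h4
    have h5 := congrArg (algebraMap A L) h3
    have h6 := congrArg (algebraMap A L) h4
    rw [map_mul, map_mul] at h5
    rw [map_add, map_add, map_mul, map_mul, map_mul, map_mul] at h6
    change (algebraMap A L (d (r w).1) * algebraMap A L (r w).2 -
      algebraMap A L (r w).1 * algebraMap A L (d (r w).2)) / algebraMap A L (r w).2 ^ 2 =
      (algebraMap A L (d a) * algebraMap A L b - algebraMap A L a * algebraMap A L (d b)) /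
        algebraMap A L b ^ 2
    change algebraMap A L (r w).2 ≠ 0 at h1
    change algebraMap A L b ≠ 0 at h2
    rw [div_eq_div_iff (pow_ne_zero _ h1) (pow_ne_zero _ h2)]
    generalize algebraMap A L (d (r w).1) = dx at *
    generalize algebraMap A L (r w).1 = x at *
    generalize algebraMap A L (d (r w).2) = dy at *
    generalize algebraMap A L (r w).2 = y at *
    generalize algebraMap A L (d a) = da at *
    generalize algebraMap A L a = a' at *
    generalize algebraMap A L (d b) = db at *
    generalize algebraMap A L b = b' at *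
    -- h5 : x * b' = a' * y ; h6 : x * db + b' * dx = a' * dy + y * da
    linear_combination (b' * y) * h6 - (b' * dy + y * db) * h5
  have hsm : ∀ (c : ℂ) (a : A), algebraMap A L (c • a) = c • algebraMap A L a := fun c a =>
    map_smul (IsScalarTower.toAlgHom ℂ A L) c a
  refine ⟨Derivation.mk'
    { toFun := f
      map_add' := ?_
      map_smul' := ?_ } ?_, ?_⟩
  · intro w w'
    have h1 := hι (hr0 w)
    have h2 := hι (hr0 w')
    rw [key (w + w') ((r w).1 * (r w').2 + (r w').1 * (r w).2) ((r w).2 * (r w').2)
      (mul_ne_zero (hr0 w) (hr0 w')) ?_]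
    · change algebraMap A L _ ≠ 0 at h1 h2
      simp only [f, ι, map_add, map_mul, Derivation.leibniz, smul_eq_mul]
      field_simp
      ring
    · conv_lhs => rw [hr w, hr w']
      change algebraMap A L _ ≠ 0 at h1 h2
      simp only [ι, map_add, map_mul]
      field_simp
  · intro c w
    have h1 := hι (hr0 w)
    rw [key (c • w) (c • (r w).1) (r w).2 (hr0 w) ?_]
    · simp only [f, ι, Derivation.map_smul, RingHom.id_apply]
      rw [hsm, hsm, smul_mul_assoc, smul_mul_assoc, ← smul_sub, smul_div_assoc]
    · conv_lhs => rw [hr w]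
      simp only [ι]
      rw [hsm, smul_div_assoc]
  · intro w w'
    have h1 := hι (hr0 w)
    have h2 := hι (hr0 w')
    change f (w * w') = w * f w' + w' * f w
    rw [key (w * w') ((r w).1 * (r w').1) ((r w).2 * (r w').2)
      (mul_ne_zero (hr0 w) (hr0 w')) ?_]
    · change algebraMap A L _ ≠ 0 at h1 h2
      have e3 : f w = (ι (d (r w).1) * ι (r w).2 - ι (r w).1 * ι (d (r w).2)) / ι (r w).2 ^ 2 := rfl
      have e4 : f w' = (ι (d (r w').1) * ι (r w').2 - ι (r w').1 * ι (d (r w').2)) /
        ι (r w').2 ^ 2 := rfl
      have e5 : w * f w' + w' * f w = (ι (r w).1 / ι (r w).2) * f w' +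
        (ι (r w').1 / ι (r w').2) * f w := by
        rw [← hr w, ← hr w']
      rw [e5, e3, e4]
      simp only [ι, map_add, map_mul, Derivation.leibniz, smul_eq_mul]
      exact quot_rule _ _ _ _ _ _ _ _ h1 h2
    · conv_lhs => rw [hr w, hr w']
      simp only [ι, map_mul]
      rw [div_mul_div_comm]
  · intro a
    change f (ι a) = ι (d a)
    rw [key (ι a) a 1 one_ne_zero (by simp only [ι, map_one, div_one])]
    simp only [ι, map_one, Derivation.map_one_eq_zero, map_zero, mul_zero, sub_zero, mul_one,
      one_pow, div_one]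

/-- Each derivation of `K` extends to `K(E)` with `E ↦ 0`. -/
theorem exists_der_KE (D : Derivation ℂ K K) : ∃ D' : Derivation ℂ (KE K) (KE K),
    (∀ a, D' (jE K a) = jE K (D a)) ∧ D' (vE K) = 0 := by
  obtain ⟨D', hD'⟩ := exists_der_frac (polyDer D)
  have hC : ∀ a, polyDer D (Polynomial.C a) = Polynomial.C (D a) := by
    intro a
    ext n
    change (polyFun D (Polynomial.C a)).coeff n = _
    rw [polyFun_coeff, Polynomial.coeff_C, Polynomial.coeff_C]
    split_ifs
    · rfl
    · exact map_zero _
  refine ⟨D', fun a => ?_, ?_⟩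
  · rw [jE_apply, hD', hC, jE_apply]
  · rw [vE, hD']
    have : polyDer D Polynomial.X = 0 := by
      ext n
      change (polyFun D Polynomial.X).coeff n = _
      rw [polyFun_coeff, Polynomial.coeff_X]
      split_ifs
      · rw [Derivation.map_one_eq_zero, Polynomial.coeff_zero]
      · rw [map_zero, Polynomial.coeff_zero]
    rw [this, map_zero]

/-- a derivation of `K(E)` is determined by its values on `K` and at `E` -/
theorem der_KE_ext {D₁ D₂ : Derivation ℂ (KE K) (KE K)} (h : ∀ a, D₁ (jE K a) = D₂ (jE K a))
    (h' : D₁ (vE K) = D₂ (vE K)) : D₁ = D₂ := by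
  have hp : ∀ p : Polynomial K, D₁ (p.eval₂ (jE K).toRingHom (vE K)) =
      D₂ (p.eval₂ (jE K).toRingHom (vE K)) := by
    intro p
    induction p using Polynomial.induction_on' with
    | add p q hp hq => rw [Polynomial.eval₂_add, map_add, map_add, hp, hq]
    | monomial n a =>
      rw [Polynomial.eval₂_monomial, Derivation.leibniz, Derivation.leibniz,
        Derivation.leibniz_pow, Derivation.leibniz_pow, h']
      have : D₁ ((jE K).toRingHom a) = D₂ ((jE K).toRingHom a) := h a
      rw [this]
  refine Derivation.ext fun w => ?_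
  obtain ⟨p, q, hq, rfl⟩ := KE_div K w
  rw [Derivation.leibniz_div, Derivation.leibniz_div, hp, hp]

end Pool.Agent.AbFib
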