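import Pool.Agent.Lib_MP_1209e6_ab.K1

/-! PIECE K2: the cone over the base. -/

set_option autoImplicit false

open Filter Topology

namespace Pool.Agent.AbFib

open MvPolynomial

/-- homogeneous coordinates `(e, e t_1, …, e t_n)` of the point `t` -/
def cone {k : Type} [Mul k] {n : ℕ} (e : k) (t : Fin n → k) : Fin (n + 1) → k :=
  Fin.cons e fun a => e * t a

private theorem cone_zero {k : Type} [Mul k] {n : ℕ} (e : k) (t : Fin n → k) : cone e t 0 = e := rfl

private theorem cone_succ {k : Type} [Mul k] {n : ℕ} (e : k) (t : Fin n → k) (a : Fin n) :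
    cone e t a.succ = e * t a := rfl

private theorem eq_cone {k : Type} [Field k] {n : ℕ} (b : Fin (n + 1) → k) (hb : b 0 ≠ 0) :
    b = cone (b 0) fun a => b a.succ / b 0 := by
  funext a
  refine Fin.cases ?_ (fun a => ?_) a
  · rfl
  · rw [cone_succ]
    field_simp

/-- Homogenization in the first variables, by induction on `p` (`MvPolynomial.induction_on`): constants
`d = 0`; sums `p' = p₁' X_0^d₂ + p₂' X_0^d₁`; `p * X (inl a)`: multiply by `X (inl a.succ)`, `d + 1`;
`p * X (inr s)`: multiply by `X (inr s)`. -/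
theorem homog_cone {n : ℕ} {σ : Type} (p : MvPolynomial (Fin n ⊕ σ) ℂ) :
    ∃ (p' : MvPolynomial (Fin (n + 1) ⊕ σ) ℂ) (d : ℕ), ∀ {k : Type} [Field k] [Algebra ℂ k] (e : k)
      (t : Fin n → k) (y : σ → k), aeval (Sum.elim (cone e t) y) p' = e ^ d * aeval (Sum.elim t y) p := by
  induction p using MvPolynomial.induction_on with
  | C a =>
    refine ⟨C a, 0, ?_⟩
    intro k _ _ e t y
    simp
  | add p₁ p₂ h₁ h₂ =>
    obtain ⟨p₁', d₁, h₁⟩ := h₁
    obtain ⟨p₂', d₂, h₂⟩ := h₂
    refine ⟨p₁' * X (Sum.inl 0) ^ d₂ + p₂' * X (Sum.inl 0) ^ d₁, d₁ + d₂, ?_⟩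
    intro k _ _ e t y
    simp only [map_add, map_mul, map_pow, aeval_X, Sum.elim_inl, cone_zero, h₁, h₂]
    ring
  | mul_X p i h =>
    obtain ⟨p', d, h⟩ := h
    rcases i with a | s
    · refine ⟨p' * X (Sum.inl a.succ), d + 1, ?_⟩
      intro k _ _ e t y
      simp only [map_mul, aeval_X, Sum.elim_inl, cone_succ, h]
      ring
    · refine ⟨p' * X (Sum.inr s), d, ?_⟩
      intro k _ _ e t y
      simp only [map_mul, aeval_X, Sum.elim_inr, h]
      ring

/-- Substitution: `q` is the image of `p'` under `X (inl 0) ↦ X`, `X (inl a.succ) ↦ X * C (X (inl a))`,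
`X (inr s) ↦ C (X (inr s))`. -/
theorem subst_cone {n : ℕ} {σ : Type} (p' : MvPolynomial (Fin (n + 1) ⊕ σ) ℂ) :
    ∃ q : Polynomial (MvPolynomial (Fin n ⊕ σ) ℂ), ∀ {k : Type} [Field k] [Algebra ℂ k] (e : k)
      (t : Fin n → k) (y : σ → k), aeval (Sum.elim (cone e t) y) p' =
        q.eval₂ (aeval (Sum.elim t y)).toRingHom e := by
  induction p' using MvPolynomial.induction_on with
  | C a =>
    refine ⟨Polynomial.C (C a), ?_⟩
    intro k _ _ e t y
    simp
  | add p₁ p₂ h₁ h₂ =>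
    obtain ⟨q₁, h₁⟩ := h₁
    obtain ⟨q₂, h₂⟩ := h₂
    refine ⟨q₁ + q₂, ?_⟩
    intro k _ _ e t y
    rw [map_add, h₁, h₂, Polynomial.eval₂_add]
  | mul_X p i h =>
    obtain ⟨q, h⟩ := h
    rcases i with a | s
    · refine Fin.cases ?_ (fun a => ?_) a
      · refine ⟨q * Polynomial.X, ?_⟩
        intro k _ _ e t y
        rw [map_mul, h, Polynomial.eval₂_mul, Polynomial.eval₂_X, aeval_X, Sum.elim_inl, cone_zero]
      · refine ⟨q * (Polynomial.X * Polynomial.C (X (Sum.inl a))), ?_⟩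
        intro k _ _ e t y
        rw [map_mul, h, Polynomial.eval₂_mul, Polynomial.eval₂_mul, Polynomial.eval₂_X,
          Polynomial.eval₂_C, aeval_X, Sum.elim_inl, cone_succ]
        simp
    · refine ⟨q * Polynomial.C (X (Sum.inr s)), ?_⟩
      intro k _ _ e t y
      rw [map_mul, h, Polynomial.eval₂_mul, Polynomial.eval₂_C, aeval_X, Sum.elim_inr]
      simp

variable {K : Type} [Field K] [Algebra ℂ K] {n N : ℕ}

/-- generic point of the cone over the base -/
noncomputable def tC (t : Fin n → K) : Fin (n + 1) → KE K := cone (vE K) fun a => jE K (t a)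

/-- the homogeneous coordinates `x` in `K(E)` -/
noncomputable def xC (x : Fin (N + 1) → K) : Fin (N + 1) → KE K := fun l => jE K (x l)

/-- the same for polynomials in `t` alone -/
private theorem subst_cone0 (Q : MvPolynomial (Fin (n + 1)) ℂ) :
    ∃ q : Polynomial (MvPolynomial (Fin n) ℂ), ∀ {k : Type} [Field k] [Algebra ℂ k] (e : k)
      (t : Fin n → k), aeval (cone e t) Q = q.eval₂ (aeval t).toRingHom e := by
  induction Q using MvPolynomial.induction_on with
  | C a =>
    refine ⟨Polynomial.C (C a), ?_⟩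
    intro k _ _ e t
    simp
  | add p₁ p₂ h₁ h₂ =>
    obtain ⟨q₁, h₁⟩ := h₁
    obtain ⟨q₂, h₂⟩ := h₂
    refine ⟨q₁ + q₂, ?_⟩
    intro k _ _ e t
    rw [map_add, h₁, h₂, Polynomial.eval₂_add]
  | mul_X p i h =>
    obtain ⟨q, h⟩ := h
    refine Fin.cases ?_ (fun a => ?_) i
    · refine ⟨q * Polynomial.X, ?_⟩
      intro k _ _ e t
      rw [map_mul, h, Polynomial.eval₂_mul, Polynomial.eval₂_X, aeval_X, cone_zero]
    · refine ⟨q * (Polynomial.X * Polynomial.C (X a)), ?_⟩
      intro k _ _ e t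
      rw [map_mul, h, Polynomial.eval₂_mul, Polynomial.eval₂_mul, Polynomial.eval₂_X,
        Polynomial.eval₂_C, aeval_X, cone_succ]
      simp

private theorem homog_cone0 (p : MvPolynomial (Fin n) ℂ) :
    ∃ (p' : MvPolynomial (Fin (n + 1)) ℂ) (d : ℕ), ∀ {k : Type} [Field k] [Algebra ℂ k] (e : k)
      (t : Fin n → k), aeval (cone e t) p' = e ^ d * aeval t p := by
  induction p using MvPolynomial.induction_on with
  | C a =>
    refine ⟨C a, 0, ?_⟩
    intro k _ _ e t
    simp
  | add p₁ p₂ h₁ h₂ =>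
    obtain ⟨p₁', d₁, h₁⟩ := h₁
    obtain ⟨p₂', d₂, h₂⟩ := h₂
    refine ⟨p₁' * X 0 ^ d₂ + p₂' * X 0 ^ d₁, d₁ + d₂, ?_⟩
    intro k _ _ e t
    simp only [map_add, map_mul, map_pow, aeval_X, cone_zero, h₁, h₂]
    ring
  | mul_X p i h =>
    obtain ⟨p', d, h⟩ := h
    refine ⟨p' * X i.succ, d + 1, ?_⟩
    intro k _ _ e t
    simp only [map_mul, aeval_X, cone_succ, h]
    ring

private theorem jE_aeval {σ : Type} (f : σ → K) (p : MvPolynomial σ ℂ) :
    aeval (fun s => jE K (f s)) p = jE K (aeval f p) := by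
  have h := MvPolynomial.comp_aeval_apply (B := KE K) f (jE K) p
  exact h.symm

private theorem jE_inj : Function.Injective (jE K) := (jE K).toRingHom.injective

private theorem vE_ne : vE K ≠ 0 := by
  have h := eval₂_vE_ne K (p := Polynomial.X) Polynomial.X_ne_zero
  rwa [Polynomial.eval₂_X] at h

/-- A polynomial `Q` with `aeval (tC t) Q ≠ 0`: some coefficient `q_i` of `subst_cone` has
`aeval t q_i ≠ 0`; stated as needed for `dense_cone`. (`σ = Empty` or `rename Sum.inl`.) -/
theorem subst_tC (t : Fin n → K) (Q : MvPolynomial (Fin (n + 1)) ℂ) :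
    ∃ q : Polynomial (MvPolynomial (Fin n) ℂ),
      (aeval (tC t) Q ≠ 0 → ∃ i, aeval t (q.coeff i) ≠ 0) ∧
      ∀ (e : ℂ) (u : Fin n → ℂ), eval (cone e u) Q = q.eval₂ (aeval u).toRingHom e := by
  obtain ⟨q, hq⟩ := subst_cone0 Q
  refine ⟨q, fun h => ?_, fun e u => ?_⟩
  · by_contra hc
    push Not at hc
    refine h ?_
    rw [tC, hq, Polynomial.eval₂_eq_sum_range]
    refine Finset.sum_eq_zero fun i _ => ?_
    have h1 : (aeval fun a => jE K (t a)).toRingHom (q.coeff i) = jE K (aeval t (q.coeff i)) :=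
      jE_aeval t (q.coeff i)
    rw [h1, hc i, map_zero, zero_mul]
  · rw [← hq e u]
    rfl

/-- the homogenization of a polynomial in `t` alone -/
theorem homog_tC (t : Fin n → K) (h : MvPolynomial (Fin n) ℂ) :
    ∃ (h' : MvPolynomial (Fin (n + 1)) ℂ), (aeval t h ≠ 0 → aeval (tC t) h' ≠ 0) ∧
      ∀ b : Fin (n + 1) → ℂ, eval b h' ≠ 0 → b 0 ≠ 0 ∧ eval (fun a => b a.succ / b 0) h ≠ 0 := by
  obtain ⟨p', d, hp⟩ := homog_cone0 h
  refine ⟨p' * X 0, fun hh => ?_, fun b hb => ?_⟩
  · rw [map_mul, aeval_X, tC, hp, cone_zero, jE_aeval]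
    refine mul_ne_zero (mul_ne_zero (pow_ne_zero _ vE_ne) ?_) vE_ne
    intro h0
    exact hh (jE_inj (h0.trans (map_zero _).symm))
  · rw [map_mul, eval_X] at hb
    have hb0 : b 0 ≠ 0 := right_ne_zero_of_mul hb
    have hb1 : eval b p' ≠ 0 := left_ne_zero_of_mul hb
    refine ⟨hb0, fun h0 => hb1 ?_⟩
    have h2 : aeval b p' = (b 0) ^ d * aeval (fun a => b a.succ / b 0) h := by
      rw [← hp, ← eq_cone b hb0]
    have h3 : aeval (fun a => b a.succ / b 0) h = (0 : ℂ) := h0
    rw [h3, mul_zero] at h2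
    exact h2

/-- The fibres do not change. `⊆`: a relation `p (t, x/x_j) = 0` gives by `homog_cone` a relation
`p' (tC t, x/x_j) = E^d p = 0`, so `p' (b, v/v_j) = 0 = b_0^d p (b/b_0, v/v_j)`. `⊇`: a relation
`p' (tC t, x/x_j) = 0` is `∑ E^i q_i (t, x/x_j) = 0` (`subst_cone`), so all `q_i (t, x/x_j) = 0` (`eval₂_vE_ne`)
and `p' (b, v/v_j) = ∑ b_0^i q_i (b/b_0, v/v_j) = 0`. (`b = cone (b 0) (b/b_0)`.) -/
theorem fibre_cone (t : Fin n → K) (x : Fin (N + 1) → K) (b : Fin (n + 1) → ℂ) (hb : b 0 ≠ 0) :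
    Fibre (tC t) (xC x) b = Fibre t x fun a => b a.succ / b 0 := by
  have hco : ∀ j, co (tC t) (xC x) j =
      Sum.elim (cone (vE K) fun a => jE K (t a)) fun l => jE K (x l / x j) := by
    intro j
    unfold co tC xC
    congr 1
    funext l
    rw [map_div₀]
  have hcoj : ∀ j, (Sum.elim (fun a => jE K (t a)) fun l => jE K (x l / x j)) =
      fun s => jE K (co t x j s) := by
    intro j
    funext s
    rcases s with a | l <;> rfl
  have hbv : ∀ (v : Fin (N + 1) → ℂ) j, co b v j =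
      Sum.elim (cone (b 0) fun a => b a.succ / b 0) fun l => v l / v j := by
    intro v j
    unfold co
    rw [← eq_cone b hb]
  ext v
  constructor
  · rintro ⟨hv0, hv⟩
    refine ⟨hv0, fun j hj p hp => ?_⟩
    obtain ⟨p', d, h'⟩ := homog_cone p
    have h1 : aeval (co (tC t) (xC x) j) p' = 0 := by
      rw [hco, h', hcoj, jE_aeval, hp, map_zero, mul_zero]
    have h2 := hv j hj p' h1
    rw [hbv, h'] at h2
    exact (mul_eq_zero.1 h2).resolve_left (pow_ne_zero _ hb)
  · rintro ⟨hv0, hv⟩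
    refine ⟨hv0, fun j hj p hp => ?_⟩
    obtain ⟨q, hq⟩ := subst_cone p
    rw [hco, hq] at hp
    have h1 : q.map (aeval (R := ℂ) (co t x j)).toRingHom = 0 := by
      by_contra hne
      refine eval₂_vE_ne K hne ?_
      rw [Polynomial.eval₂_map]
      have h3 : (jE K).toRingHom.comp (aeval (R := ℂ) (co t x j)).toRingHom =
          (aeval (R := ℂ) (Sum.elim (fun a => jE K (t a)) fun l => jE K (x l / x j))).toRingHom := by
        rw [hcoj]
        refine RingHom.ext fun r => ?_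
        exact (jE_aeval (co t x j) r).symm
      rw [h3]
      exact hp
    rw [hbv, hq, Polynomial.eval₂_eq_sum_range]
    refine Finset.sum_eq_zero fun i _ => ?_
    have h2 : aeval (co t x j) (q.coeff i) = 0 := by
      have h4 := congrArg (fun r => Polynomial.coeff r i) h1
      simp only [Polynomial.coeff_map, Polynomial.coeff_zero] at h4
      exact h4
    have h5 := hv j hj _ h2
    have h6 : (aeval (Sum.elim (fun a => b a.succ / b 0) fun l => v l / v j)).toRingHom (q.coeff i) =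
        0 := h5
    rw [h6, zero_mul]

end Pool.Agent.AbFib
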