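import Pool.Agent.Lib_MP_1209e6_ab.K2
import Pool.Agent.Lib_MP_1209e6_ab.A1
import Pool.Agent.Lib_MP_1209e6_ab.A2

/-! PIECE K3: the abelian fibration over the cone. -/

set_option autoImplicit false

open Filter Topology

namespace Pool.Agent.AbFib

open Pool.Agent.CampanaFlow MvPolynomial

variable {K : Type} [Field K] [Algebra ℂ K] {n N : ℕ}

/-- `jE` is the structure map of `K(E)` over `K` -/
private theorem jE_mul (a : K) (w : KE K) : jE K a * w = a • w := by
  rw [Algebra.smul_def]
  rfl

private theorem jE_inj : Function.Injective (jE K) := (jE K).toRingHom.injective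

private theorem vE_ne : vE K ≠ 0 := by
  intro h
  have h1 := eval₂_vE_ne K (p := Polynomial.X) Polynomial.X_ne_zero
  rw [Polynomial.eval₂_X] at h1
  exact h1 h

/-- a derivation which kills generators of the field is zero on the field -/
private theorem der_adjoin {k : Type} [Field k] [Algebra ℂ k] (D : Derivation ℂ k k) {s : Set k}
    (h : ∀ y ∈ s, D y = 0) : ∀ y ∈ IntermediateField.adjoin ℂ s, D y = 0 := by
  intro y hy
  induction hy using IntermediateField.adjoin_induction with
  | mem x hx => exact h x hx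
  | algebraMap x => exact Derivation.map_algebraMap _ _
  | add x y hx hy ihx ihy => rw [map_add, ihx, ihy, add_zero]
  | inv x hx ihx => rw [Derivation.leibniz_inv, ihx, smul_zero]
  | mul x y hx hy ihx ihy => rw [Derivation.leibniz, ihx, ihy, smul_zero, smul_zero, add_zero]

private theorem tC_zero (t : Fin n → K) : tC t 0 = vE K := rfl

private theorem tC_succ (t : Fin n → K) (a : Fin n) : tC t a.succ = vE K * jE K (t a) := rfl

private theorem jE_t (t : Fin n → K) (a : Fin n) : jE K (t a) = tC t a.succ / tC t 0 := by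
  rw [tC_zero, tC_succ, eq_div_iff vE_ne, mul_comm]

/-- `jE` maps the field generated by `s` into each field which contains the images of the generators -/
private theorem jE_adjoin {s : Set K} {k' : IntermediateField ℂ (KE K)} (h : ∀ y ∈ s, jE K y ∈ k') :
    ∀ y ∈ IntermediateField.adjoin ℂ s, jE K y ∈ k' := by
  have h1 : IntermediateField.adjoin ℂ s ≤ k'.comap (jE K) := by
    rw [IntermediateField.adjoin_le_iff]
    exact fun y hy => h y hy
  exact fun y hy => h1 hy

private theorem jE_k (t : Fin n → K) : ∀ y ∈ IntermediateField.adjoin ℂ (Set.range t),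
    jE K y ∈ IntermediateField.adjoin ℂ (Set.range (tC t)) := by
  refine jE_adjoin ?_
  rintro _ ⟨a, rfl⟩
  rw [jE_t]
  exact div_mem (IntermediateField.subset_adjoin ℂ _ ⟨_, rfl⟩)
    (IntermediateField.subset_adjoin ℂ _ ⟨_, rfl⟩)

private theorem jE_div (x : Fin (N + 1) → K) (l j : Fin (N + 1)) :
    xC x l / xC x j = jE K (x l / x j) := by
  rw [map_div₀]
  rfl

private theorem jE_chart (t : Fin n → K) (x : Fin (N + 1) → K) (j : Fin (N + 1)) :
    ∀ f ∈ Chart (IntermediateField.adjoin ℂ (Set.range t)) x j,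
      jE K f ∈ Chart (IntermediateField.adjoin ℂ (Set.range (tC t))) (xC x) j := by
  have h1 : Chart (IntermediateField.adjoin ℂ (Set.range t)) x j ≤
      (Chart (IntermediateField.adjoin ℂ (Set.range (tC t))) (xC x) j).comap (jE K) := by
    refine Algebra.adjoin_le ?_
    rintro y (hy | ⟨l, rfl⟩)
    · exact Algebra.subset_adjoin (Or.inl (jE_k t y hy))
    · refine Algebra.subset_adjoin (Or.inr ⟨l, ?_⟩)
      exact jE_div x l j
  exact fun f hf => h1 hf

/-- `Der_k (K, K(E))` is spanned by the `D i`. Take `F` and `c` from `exists_fam t x h` (`F.E` spans), so some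
minor `L` of the chart `0` is nonzero (`minor_generic`, as in `nonempty_algPack`), `alg_of_minor`: every
`w ∈ K` is algebraic over `ℂ(t, x_(L m)/x_0)`. Write `Δ` for `D₀` restricted to `K`. Solve
`Δ (x_(L m)/x_0) = ∑ a_i jE (F.E i (x_(L m)/x_0))` for `a_i ∈ K(E)` (invertible matrix); then
`D₀ - ∑ a_i (F.E i)'` kills `t`, `x_(L m)/x_0` and `E`, hence `K` (algebraic, characteristic zero), so it is `0`
by `der_KE_ext`. Finally `(F.E i)'` is a `K(E)`-combination of the `D' i` since `F.E i` is a
`K`-combination of the `D i` (or choose `F.E i = c • D i`; or do the argument directly with `D`). -/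
theorem span_cone (t : Fin n → K) (x : Fin (N + 1) → K) (h : IsAbelianFibration t x) {g : ℕ}
    (D : Fin g → Derivation ℂ K K) (hD : ∀ E : Derivation ℂ K K, (∀ a, E (t a) = 0) →
      E ∈ Submodule.span K (Set.range D)) (D' : Fin g → Derivation ℂ (KE K) (KE K))
    (h1 : ∀ i a, D' i (jE K a) = jE K (D i a)) (h2 : ∀ i, D' i (vE K) = 0)
    (D₀ : Derivation ℂ (KE K) (KE K)) (h3 : ∀ a, D₀ (tC t a) = 0) :
    D₀ ∈ Submodule.span (KE K) (Set.range D') := by
  classical
  have hv : D₀ (vE K) = 0 := h3 0
  have ht : ∀ a, D₀ (jE K (t a)) = 0 := fun a => by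
    have h4 := h3 a.succ
    rw [tC_succ, Derivation.leibniz, hv, smul_zero, add_zero, smul_eq_mul] at h4
    exact (mul_eq_zero.1 h4).resolve_left vE_ne
  let B := Module.Basis.ofVectorSpace K (KE K)
  let ι := Module.Basis.ofVectorSpaceIndex K (KE K)
  -- the coordinates of `D₀` restricted to `K`
  let δ : ι → Derivation ℂ K K := fun b => Derivation.mk'
    { toFun := fun a => B.coord b (D₀ (jE K a))
      map_add' := fun a a' => by rw [map_add, map_add, map_add]
      map_smul' := fun c a => by
        rw [map_smul, Derivation.map_smul, RingHom.id_apply, ← algebraMap_smul K c (D₀ (jE K a)),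
          map_smul, algebraMap_smul] }
    fun a a' => by
      change B.coord b (D₀ (jE K (a * a'))) = a • B.coord b (D₀ (jE K a')) + a' • B.coord b (D₀ (jE K a))
      rw [map_mul, Derivation.leibniz, smul_eq_mul, smul_eq_mul, jE_mul, jE_mul, map_add, map_smul,
        map_smul]
  have hδ : ∀ b a, δ b a = B.repr (D₀ (jE K a)) b := fun b a => rfl
  have hspan : ∀ b, ∃ c : Fin g → K, ∑ i, c i • D i = δ b := fun b =>
    (Submodule.mem_span_range_iff_exists_fun K).1 (hD (δ b) fun a => by
      rw [hδ, ht, map_zero]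
      rfl)
  choose c hc using hspan
  let S : Finset ι := Finset.univ.biUnion fun s => (B.repr (D₀ (jE K (co t x 0 s)))).support
  have hS : ∀ b, b ∉ S → δ b = 0 := by
    intro b hb
    have h4 : ∀ s, δ b (co t x 0 s) = 0 := by
      intro s
      by_contra h5
      exact hb (Finset.mem_biUnion.2 ⟨s, Finset.mem_univ s, Finsupp.mem_support_iff.2 h5⟩)
    refine Derivation.ext fun a => ?_
    refine der_adjoin (δ b) (s := Set.range (co t x 0)) ?_ a (h.gen ▸ IntermediateField.mem_top)
    rintro _ ⟨s, rfl⟩
    exact h4 s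
  have hsum : ∀ a, D₀ (jE K a) = ∑ i, (∑ b ∈ S, c b i • B b) * jE K (D i a) := by
    intro a
    have h4 := B.linearCombination_repr (D₀ (jE K a))
    have h8 : (B.repr (D₀ (jE K a))).support ⊆ S := by
      intro b hb
      by_contra hb'
      rw [Finsupp.mem_support_iff, ← hδ, hS b hb'] at hb
      exact hb rfl
    rw [Finsupp.linearCombination_apply, Finsupp.sum_of_support_subset _ h8
      (fun b r => r • B b) (fun b _ => zero_smul _ _)] at h4
    rw [← h4]
    simp_rw [Finset.sum_mul]
    rw [Finset.sum_comm]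
    refine Finset.sum_congr rfl fun b _ => ?_
    rw [← hδ, ← hc b]
    have h5 : (∑ i, c b i • D i) a = ∑ i, c b i * D i a := by
      have h6 := map_sum (Derivation.coeFnAddMonoidHom (R := ℂ) (A := K) (M := K))
        (fun i => c b i • D i) Finset.univ
      have h7 := congrFun h6 a
      rw [Finset.sum_apply] at h7
      exact h7
    rw [h5, Finset.sum_smul]
    refine Finset.sum_congr rfl fun i _ => ?_
    rw [mul_comm _ (jE K (D i a)), jE_mul, smul_smul, mul_comm]
  refine (Submodule.mem_span_range_iff_exists_fun (KE K)).2 ⟨fun i => ∑ b ∈ S, c b i • B b, ?_⟩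
  have h5 : ∀ w, (∑ i, (∑ b ∈ S, c b i • B b) • D' i) w = ∑ i, (∑ b ∈ S, c b i • B b) * D' i w := by
    intro w
    have h6 := map_sum (Derivation.coeFnAddMonoidHom (R := ℂ) (A := KE K) (M := KE K))
      (fun i => (∑ b ∈ S, c b i • B b) • D' i) Finset.univ
    have h7 := congrFun h6 w
    rw [Finset.sum_apply] at h7
    exact h7
  refine der_KE_ext (fun a => ?_) ?_
  · rw [h5, hsum]
    exact Finset.sum_congr rfl fun i _ => by rw [h1]
  · rw [h5, hv]
    exact Finset.sum_eq_zero fun i _ => by rw [h2, mul_zero]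

/-- The fields `D' i` from `exists_der_KE`. `jE` maps `ℂ(t)` into `ℂ(tC t)` (`jE (t a) = tC t a.succ / tC t 0`)
and charts into charts; `D' i` preserves the charts by `D7_pres`; commutation by `der_KE_ext` applied to
`⁅D' i, D' i'⁆ = 0`; `span_cone`; `h` for connectedness from `homog_tC`, `fibre_cone`. -/
theorem cone_abelian (t : Fin n → K) (x : Fin (N + 1) → K) (h : IsAbelianFibration t x) :
    IsAbelianFibration (tC t) (xC x) := by
  classical
  obtain ⟨g, D, hG, hcomm, hspan, hmin⟩ := h.fields
  choose D' h1 h2 using fun i => exists_der_KE (D i)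
  have hDt : ∀ i a, D i (t a) = 0 := fun i a =>
    (hG i).1 _ (IntermediateField.subset_adjoin ℂ _ ⟨a, rfl⟩)
  have hDC : ∀ i a, D' i (tC t a) = 0 := by
    intro i a
    refine Fin.cases ?_ (fun a => ?_) a
    · exact h2 i
    · rw [tC_succ, Derivation.leibniz, h2, h1, hDt, map_zero, smul_zero, smul_zero, add_zero]
  have hDk : ∀ i, ∀ a ∈ IntermediateField.adjoin ℂ (Set.range (tC t)), D' i a = 0 := by
    intro i
    refine der_adjoin (D' i) ?_
    rintro _ ⟨a, rfl⟩
    exact hDC i a
  refine ⟨fun l => ?_, ?_, ⟨g, D', fun i => ⟨hDk i, fun j => ?_⟩, ?_, fun E hE => ?_, fun j => ?_⟩, ?_⟩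
  · exact fun h0 => h.ne_zero l (jE_inj (h0.trans (map_zero _).symm))
  · rw [eq_top_iff]
    intro w _
    have hj : ∀ y : K, jE K y ∈ IntermediateField.adjoin ℂ (Set.range (co (tC t) (xC x) 0)) := by
      intro y
      refine jE_adjoin (s := Set.range (co t x 0)) ?_ y (h.gen ▸ IntermediateField.mem_top)
      rintro _ ⟨s, rfl⟩
      cases s with
      | inl a =>
        change jE K (t a) ∈ _
        rw [jE_t]
        exact div_mem (IntermediateField.subset_adjoin ℂ _ ⟨Sum.inl a.succ, rfl⟩)
          (IntermediateField.subset_adjoin ℂ _ ⟨Sum.inl 0, rfl⟩)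
      | inr l =>
        change jE K (x l / x 0) ∈ _
        rw [← jE_div]
        exact IntermediateField.subset_adjoin ℂ _ ⟨Sum.inr l, rfl⟩
    have hvE : vE K ∈ IntermediateField.adjoin ℂ (Set.range (co (tC t) (xC x) 0)) :=
      IntermediateField.subset_adjoin ℂ _ ⟨Sum.inl 0, rfl⟩
    have hev : ∀ p : Polynomial K, p.eval₂ (jE K).toRingHom (vE K) ∈
        IntermediateField.adjoin ℂ (Set.range (co (tC t) (xC x) 0)) := by
      intro p
      rw [Polynomial.eval₂_eq_sum_range]
      exact sum_mem fun i _ => mul_mem (hj _) (pow_mem hvE i)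
    obtain ⟨p, q, -, rfl⟩ := KE_div K w
    exact div_mem (hev p) (hev q)
  · have h3 := D7_pres (D' i) (Chart (IntermediateField.adjoin ℂ (Set.range (tC t))) (xC x) j)
      ((IntermediateField.adjoin ℂ (Set.range (tC t)) : Set (KE K)) ∪ Set.range fun l => xC x l / xC x j)
      le_rfl
    refine h3 ?_
    rintro y (hy | ⟨l, rfl⟩)
    · rw [hDk i y hy]
      exact Subalgebra.zero_mem _
    · change D' i (xC x l / xC x j) ∈ _
      rw [jE_div, h1]
      exact jE_chart t x j _ ((hG i).2 j _ (Algebra.subset_adjoin (Or.inr ⟨l, rfl⟩)))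
  · intro i i' f
    have h3 : ⁅D' i, D' i'⁆ = 0 := by
      refine der_KE_ext (fun a => ?_) ?_
      · rw [Derivation.commutator_apply, h1, h1, h1, h1, hcomm, sub_self]
        rfl
      · rw [Derivation.commutator_apply, h2, h2, map_zero, map_zero, sub_self]
        rfl
    have h4 := Derivation.commutator_apply (D1 := D' i) (D2 := D' i') f
    rw [h3] at h4
    exact (sub_eq_zero.1 h4.symm)
  · exact span_cone t x h D hspan D' h1 h2 E hE
  · obtain ⟨c, hc, hs⟩ := hmin j
    refine ⟨fun L => jE K (c L), fun L => jE_chart t x j _ (hc L), ?_⟩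
    have h3 := congrArg (jE K) hs
    rw [map_sum, map_one] at h3
    rw [← h3]
    refine Finset.sum_congr rfl fun L _ => ?_
    rw [map_mul, AlgHom.map_det]
    congr 2
    ext i m
    change D' i (xC x (L m) / xC x j) = jE K (D i (x (L m) / x j))
    rw [jE_div, h1]
  · obtain ⟨p, hp, hcon⟩ := h.connected
    obtain ⟨p', hp', hb⟩ := homog_tC t p
    refine ⟨p', hp' hp, fun b hb' => ?_⟩
    obtain ⟨hb0, hb1⟩ := hb b hb'
    rw [fibre_cone t x b hb0]
    exact hcon _ hb1

end Pool.Agent.AbFib
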