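import Pool.Agent.Lib_MP_1209e6_ab.A1
import Pool.Agent.Lib_MP_1209e6_ab.A3
import Pool.Agent.Lib_MP_1209e6_ab.B8
import Pool.Agent.Lib_MP_1209e6_ab.C5
import Pool.Agent.Lib_MP_1209e6_ab.D3
import Pool.Agent.Lib_MP_1209e6_ab.E4
import Pool.Agent.Lib_MP_1209e6_ab.F3
import Pool.Agent.Lib_MP_1209e6_ab.G2
import Pool.Agent.Lib_MP_1209e6_ab.H1

/-! Assembly. -/

set_option autoImplicit false

open Filter Topology

namespace Pool.Agent.AbFib

open Pool.Agent.Campana Pool.Agent.CampanaFlow MvPolynomial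

variable {K : Type} [Field K] [Algebra ℂ K] {n N g : ℕ}

/-- sections are stable under the flow -/
theorem sec_flow {F : Fam n N g K} (Φ : FlowAPI F) {u : ℂ → Fin n → ℂ} {a : ℂ → PS N}
    {τ : ℂ → Fin g → ℂ} {z : ℂ} (hu : AnalyticAt ℂ u z) (hτ : AnalyticAt ℂ τ z) (ha : F.Sec u a z) :
    F.Sec u (fun w => Φ.Φ (u w) (τ w) (a w)) z := by
  refine ⟨Φ.hol u τ a z hu hτ ha, ?_⟩
  filter_upwards [ha.2] with w hw
  exact Φ.mem _ _ _ hw

theorem sec_congr {F : Fam n N g K} {u : ℂ → Fin n → ℂ} {a a' : ℂ → PS N} {z : ℂ}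
    (h : a =ᶠ[𝓝 z] a') (ha : F.Sec u a z) : F.Sec u a' z := by
  obtain ⟨⟨v, hv, hv0, hv1⟩, h2⟩ := ha
  refine ⟨⟨v, hv, hv0, ?_⟩, ?_⟩
  · filter_upwards [h, hv1] with w hw hw1
    rw [← hw, hw1]
  · filter_upwards [h, h2] with w hw hw1
    rwa [← hw]

theorem sec_evt {F : Fam n N g K} {u : ℂ → Fin n → ℂ} {a : ℂ → PS N} {z : ℂ}
    (ha : F.Sec u a z) : ∀ᶠ w in 𝓝 z, F.Sec u a w := by
  obtain ⟨⟨v, hv, hv0, hv1⟩, h2⟩ := ha
  filter_upwards [hv.eventually_analyticAt, hv.continuousAt.eventually_ne hv0,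
    hv1.eventually_nhds, h2.eventually_nhds] with w h1 h3 h4 h5
  exact ⟨⟨v, h1, h3, h4⟩, h5⟩

/-- the gluing data over a base curve -/
noncomputable def glueData {F : Fam n N g K} (Φ : FlowAPI F) (G : Good Φ) (u : ℂ → Fin n → ℂ)
    (hu : ∀ z, AnalyticAt ℂ u z)
    (hd : ∀ Q : MvPolynomial (Fin n) ℂ, aeval F.t Q ≠ 0 → ∀ z, ∀ᶠ w in 𝓝[≠] z, eval (u w) Q ≠ 0)
    (hloc : ∀ z, ∃ a, F.Sec u a z) : GlueData g (PS N) where
  act z := Φ.Φ (u z)
  Sec := F.Sec u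
  B := {z | eval (u z) G.h = 0}
  disc z := hd G.h G.h_ne z
  congr a a' z h ha := sec_congr h ha
  evt a z ha := sec_evt ha
  hact a τ z ha hτ := sec_flow Φ (hu z) hτ ha
  add a z σ τ ha := Φ.add _ _ _ _ ha.2.self_of_nhds
  zero a z ha := Φ.zero _ _ ha.2.self_of_nhds
  loc := hloc
  trans z₀ z₁ a b h := segment_sol Φ G u a b z₀ z₁ hu fun z hz => h z hz

/-- Entire base curves: `K` contains the function field of the variety of `P`. -/
theorem of_entire {m : ℕ} (P : Ideal (MvPolynomial (Fin (m + 1)) ℂ)) [P.IsPrime] (hP : IsVariety P)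
    (J : FunField P →ₐ[ℂ] K) (t : Fin n → K) (x : Fin (N + 1) → K) (h : IsAbelianFibration t x)
    (u : ℂ → Fin n → ℂ) (hu : Differentiable ℂ u)
    (hd : ∀ Q : MvPolynomial (Fin n) ℂ, aeval t Q ≠ 0 → ∀ z, ∀ᶠ w in 𝓝[≠] z, eval (u w) Q ≠ 0)
    (hl : ∀ z, ∃ v : ℂ → Fin (N + 1) → ℂ, AnalyticAt ℂ v z ∧ v z ≠ 0 ∧
      ∀ᶠ w in 𝓝[≠] z, v w ∈ Fibre t x (u w)) : BrodySpecial P := by
  obtain ⟨g, F, rfl, rfl, hspan, c₀, hc₀, hc⟩ := exists_fam t x h
  obtain ⟨A⟩ := nonempty_algPack F hspan c₀ hc₀ hc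
  obtain ⟨Φ⟩ := F.nonempty_flowAPI
  obtain ⟨h₀, hh₀, hconn⟩ := h.connected
  obtain ⟨G⟩ := nonempty_good Φ A h₀ hh₀ hconn
  have hua : ∀ z, AnalyticAt ℂ u z := fun z => hu.analyticAt z
  have hloc : ∀ z, ∃ a, F.Sec u a z := by
    intro z
    obtain ⟨v, hv, hv0, hv1⟩ := hl z
    have hvz : v z ∈ F.fib (u z) := F.fib_closed (f := 𝓝[≠] z)
      ((hua z).continuousAt.tendsto.mono_left nhdsWithin_le_nhds)
      (hv.continuousAt.tendsto.mono_left nhdsWithin_le_nhds) hv0 hv1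
    have hvn : ∀ᶠ w in 𝓝 z, v w ∈ F.fib (u w) := by
      rw [eventually_nhdsWithin_iff] at hv1
      filter_upwards [hv1] with w hw
      by_cases hwz : w = z
      · rw [hwz]
        exact hvz
      · exact hw hwz
    refine ⟨fun w => pm (v w), ⟨v, hv, hv0, Filter.Eventually.of_forall fun _ => rfl⟩, ?_⟩
    filter_upwards [hvn] with w hw
    exact ⟨_, hw, rfl⟩
  obtain ⟨a, ha⟩ := (glueData Φ G u hua hd hloc).exists_section
  obtain ⟨τ, hτ, hdense⟩ := dense_section Φ A u hd a ha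
  exact brody_of_section P hP J F h.gen u hu (fun z => Φ.Φ (u z) (τ z) (a z))
    (fun z => sec_flow Φ (hua z) (hτ.analyticAt z) (ha z)) hdense

theorem bc_diff (c : Fin n → ℂ) : Differentiable ℂ (bc c) := bcg_diff _ c

/-- Fibrations over projective space with local sections in codimension one off the coordinate
hyperplanes. -/
theorem main {m : ℕ} (P : Ideal (MvPolynomial (Fin (m + 1)) ℂ)) [P.IsPrime] (hP : IsVariety P)
    (t : Fin n → FunField P) (x : Fin (N + 1) → FunField P) (h : IsAbelianFibration t x)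
    (hs : HasLocalSections t x) : BrodySpecial P := by
  obtain ⟨H, hH, hsec⟩ := hs
  obtain ⟨c, hcH⟩ := exists_bc H hH
  have hu : ∀ z, AnalyticAt ℂ (bc c) z := fun z => (bc_diff c).analyticAt z
  refine of_entire P hP (AlgHom.id ℂ _) t x h (bc c) (bc_diff c)
    (fun Q hQ => bc_disc c Q fun h0 => hQ (by rw [h0, map_zero])) fun z => ?_
  obtain ⟨σ, hσ, hσ1⟩ := hsec (bc c z) (fun a => Complex.exp_ne_zero _) (hcH z)
  have h1 : ∀ᶠ w in 𝓝 z, σ (bc c w) ∈ Fibre t x (bc c w) := (hu z).continuousAt.eventually hσ1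
  exact ⟨fun w => σ (bc c w), hσ.comp (hu z), h1.self_of_nhds.1, h1.filter_mono nhdsWithin_le_nhds⟩

end Pool.Agent.AbFib
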