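import Pool.Agent.Lib_MP_1209e6_ab.N1
import Pool.Agent.Lib_MP_1209e6_ab.K2
import Pool.Agent.Lib_MP_1209e6_ab.G1
import Pool.Agent.Lib_MP_1209e6_ab.I1

/-! PIECE N2: a dense entire curve in the cone. -/

set_option autoImplicit false

open Filter Topology

namespace Pool.Agent.AbFib

open MvPolynomial

variable {K : Type} [Field K] [Algebra ℂ K] {n : ℕ}

/-- an entire function which is nonzero somewhere has isolated zeros -/
theorem entire_ne {f : ℂ → ℂ} (hf : Differentiable ℂ f) {z₁ : ℂ} (h : f z₁ ≠ 0) (z : ℂ) :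
    ∀ᶠ w in 𝓝[≠] z, f w ≠ 0 := by
  rcases (hf.analyticAt z).eventually_eq_zero_or_eventually_ne_zero with h0 | h0
  · exfalso
    apply h
    have h1 : AnalyticOnNhd ℂ f Set.univ := fun w _ => hf.analyticAt w
    exact h1.eqOn_zero_of_preconnected_of_eventuallyEq_zero isPreconnected_univ (Set.mem_univ z) h0
      (Set.mem_univ z₁)
  · exact h0

/-- With `θ, U` from `clear_poles`, `θ^d p (u) = p' (θ, U)` is entire (`homog_cone` or `subst`), where it
does not vanish identically near one point it has isolated zeros everywhere. -/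
theorem dense_ne {t : Fin n → K} {u : ℂ → Fin n → ℂ} (hu : IsDenseCurve t u)
    (p : MvPolynomial (Fin n) ℂ) (hp : aeval t p ≠ 0) (z₀ : ℂ) :
    ∀ᶠ z in 𝓝[≠] z₀, eval (u z) p ≠ 0 := by
  have hmer : ∀ z, MeromorphicAt (fun w => eval (u w) p) z := by
    intro z
    have hc : ∀ a, MeromorphicAt (fun w => u w a) z := fun a => by
      obtain ⟨k, hk⟩ := hu.1 z
      exact ⟨k, analyticAt_pi_iff.1 hk a⟩
    clear hp
    induction p using MvPolynomial.induction_on with
    | C a =>
      simp only [eval_C]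
      exact MeromorphicAt.const _ _
    | add p q hp hq =>
      simp only [map_add]
      exact hp.add hq
    | mul_X p s hp =>
      simp only [map_mul, eval_X]
      exact hp.mul (hc s)
  obtain ⟨z₁, hz₁⟩ : ∃ z₁, ¬ ∀ᶠ z in 𝓝[≠] z₁, eval (u z) p = 0 := by
    by_contra hcon
    push Not at hcon
    exact hp ((hu.2 p).2 hcon)
  have h1 : meromorphicOrderAt (fun w => eval (u w) p) z₁ ≠ ⊤ := by
    intro h
    exact hz₁ (meromorphicOrderAt_eq_top_iff.1 h)
  have hon : MeromorphicOn (fun w => eval (u w) p) Set.univ := fun z _ => hmer z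
  have h2 := (hon.exists_meromorphicOrderAt_ne_top_iff_forall isConnected_univ).1
    ⟨⟨z₁, Set.mem_univ _⟩, h1⟩ ⟨z₀, Set.mem_univ _⟩
  exact (meromorphicOrderAt_ne_top_iff_eventually_ne_zero (hmer z₀)).1 h2

private theorem n2_subst (t : Fin n → K) (Q : MvPolynomial (Fin (n + 1)) ℂ) :
    ∃ q : Polynomial (MvPolynomial (Fin n) ℂ),
      (aeval (tC t) Q = 0 ↔ ∀ i, aeval t (q.coeff i) = 0) ∧
      ∀ (e : ℂ) (u : Fin n → ℂ), eval (cone e u) Q = q.eval₂ (aeval u).toRingHom e := by
  obtain ⟨q, hq⟩ := subst_cone (n := n) (σ := Empty) (rename Sum.inl Q)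
  let ρ : MvPolynomial (Fin n ⊕ Empty) ℂ →ₐ[ℂ] MvPolynomial (Fin n) ℂ :=
    aeval (Sum.elim X Empty.elim)
  have hρ : ∀ {k : Type} [Field k] [Algebra ℂ k] (u : Fin n → k)
      (r : MvPolynomial (Fin n ⊕ Empty) ℂ),
      aeval u (ρ r) = aeval (Sum.elim u (Empty.elim : Empty → k)) r := by
    intro k _ _ u r
    have h := MvPolynomial.comp_aeval_apply (R := ℂ) (f := Sum.elim X Empty.elim)
      (aeval u : MvPolynomial (Fin n) ℂ →ₐ[ℂ] k) r
    rw [h]
    congr 2
    funext s
    rcases s with s | s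
    · simp
    · exact s.elim
  have hQ : ∀ {k : Type} [Field k] [Algebra ℂ k] (e : k) (u : Fin n → k),
      aeval (cone e u) Q = (q.map ρ.toRingHom).eval₂ (aeval (R := ℂ) u).toRingHom e := by
    intro k _ _ e u
    have h := hq e u (Empty.elim : Empty → k)
    rw [aeval_rename, Sum.elim_comp_inl] at h
    rw [h, Polynomial.eval₂_map]
    congr 1
    refine RingHom.ext fun r => ?_
    exact (hρ u r).symm
  refine ⟨q.map ρ.toRingHom, ?_, fun e u => hQ e u⟩
  have h1 := hQ (vE K) (fun a => jE K (t a))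
  have h2 : (q.map ρ.toRingHom).eval₂ (aeval (R := ℂ) fun a => jE K (t a)).toRingHom (vE K) =
      ((q.map ρ.toRingHom).map (aeval (R := ℂ) t).toRingHom).eval₂ (jE K).toRingHom (vE K) := by
    rw [Polynomial.eval₂_map (aeval (R := ℂ) t).toRingHom]
    congr 1
    refine RingHom.ext fun r => ?_
    exact (MvPolynomial.comp_aeval_apply (R := ℂ) (f := t) (jE K) r).symm
  rw [h2] at h1
  change aeval (tC t) Q = _ at h1
  rw [h1]
  constructor
  · intro h i
    by_contra hne
    refine eval₂_vE_ne K ?_ h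
    intro h0
    apply hne
    have h3 := congrArg (fun r => Polynomial.coeff r i) h0
    simpa [Polynomial.coeff_map] using h3
  · intro h
    have h0 : (q.map ρ.toRingHom).map (aeval (R := ℂ) t).toRingHom = 0 := by
      refine Polynomial.ext fun i => ?_
      rw [Polynomial.coeff_map, Polynomial.coeff_zero]
      exact h i
    rw [h0, Polynomial.eval₂_zero]

private theorem n2_exists {P : Polynomial ℂ} (hP : P ≠ 0) {c : ℂ} (hc : c ≠ 0) :
    ∃ σ : ℂ, P.eval (Complex.exp σ * c) ≠ 0 := by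
  obtain ⟨e, he⟩ : ∃ e : ℂ, (Polynomial.X * P).eval e ≠ 0 := by
    by_contra hcon
    push Not at hcon
    have h : Polynomial.X * P = 0 := Polynomial.funext fun e => by rw [hcon e, Polynomial.eval_zero]
    rcases mul_eq_zero.1 h with h | h
    · exact Polynomial.X_ne_zero h
    · exact hP h
  rw [Polynomial.eval_mul, Polynomial.eval_X] at he
  have he0 : e ≠ 0 := left_ne_zero_of_mul he
  refine ⟨Complex.log (e / c), ?_⟩
  rw [Complex.exp_log (div_ne_zero he0 hc), div_mul_cancel₀ _ hc]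
  exact right_ne_zero_of_mul he

/-- `U' = exp ψ • (θ, U)`, `ψ` entire. Choice of `ψ`: `choose_times` with `V = MvPolynomial (Fin (n+1)) ℂ ⧸ N`,
`N = {Q | aeval (tC t) Q = 0}` (spanned by the classes of the monomials), `T = ℂ × ℂ`,
`ev m (z, σ) Q = eval (exp σ • (θ z, U z)) Q` if `m ≤ ‖z‖ ≤ m + 1/2` and `θ z ≠ 0`, `U z = θ z • u z` and all
relations of `t` hold at `u z`, else `0`; it vanishes on `N`: by `subst_tC` a relation `Q` has coefficients
`q_i` with `aeval t (q_i) = 0`, so they vanish at `u z`. If `Q ∉ N` some `aeval t (q_i) ≠ 0`, so there is `z`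
in the annulus (even near any given point) with `eval (u z) q_i ≠ 0` (`dense_ne`), and then `exp σ` which is not
a root of the nonzero polynomial `∑ (e θ z)^i q_i (u z)` in `e`. `interp_seq` gives `ψ (Z m) = σ m`.
Then `eval (U' (Z m)) Q ≠ 0` for some `m` and `entire_ne`. (If it is difficult to have all relations of `t` at
`u z` for one `z`: for each fixed `Q` they hold off a discrete set, and the ideal of relations is finitely
generated.) -/
theorem dense_cone {t : Fin n → K} {u : ℂ → Fin n → ℂ} (hu : IsDenseCurve t u) :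
    ∃ U' : ℂ → Fin (n + 1) → ℂ, Differentiable ℂ U' ∧
      (∀ z, ∀ᶠ w in 𝓝[≠] z, U' w 0 ≠ 0 ∧ ∀ a, U' w a.succ = U' w 0 * u w a) ∧
      ∀ Q : MvPolynomial (Fin (n + 1)) ℂ, aeval (tC t) Q ≠ 0 → ∀ z, ∀ᶠ w in 𝓝[≠] z,
        eval (U' w) Q ≠ 0 := by
  classical
  obtain ⟨θ, U, hθ, hU, hθ0, hUθ⟩ := clear_poles u hu.1
  -- relations hold off a discrete set
  have hrel : ∀ z₀, ∀ᶠ z in 𝓝[≠] z₀, ∀ p, aeval t p = 0 → eval (u z) p = 0 := by
    intro z₀
    obtain ⟨S, hS⟩ := (isNoetherian_def.1 (inferInstance :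
      IsNoetherianRing (MvPolynomial (Fin n) ℂ))) (RingHom.ker (aeval (R := ℂ) t).toRingHom)
    have h1 : ∀ᶠ z in 𝓝[≠] z₀, ∀ p ∈ S, eval (u z) p = 0 := by
      rw [Filter.eventually_all_finset]
      intro p hp
      refine (hu.2 p).1 ?_ z₀
      have : p ∈ RingHom.ker (aeval (R := ℂ) t).toRingHom := by
        rw [← hS]
        exact Submodule.subset_span hp
      exact this
    filter_upwards [h1] with z hz p hp
    have hpm : p ∈ Submodule.span (MvPolynomial (Fin n) ℂ) (S : Set (MvPolynomial (Fin n) ℂ)) := by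
      rw [hS]
      exact hp
    have hle : Submodule.span (MvPolynomial (Fin n) ℂ) (S : Set (MvPolynomial (Fin n) ℂ)) ≤
        RingHom.ker (eval (u z)) := by
      rw [Submodule.span_le]
      intro r hr
      exact hz r hr
    exact hle hpm
  let b : ℂ → Fin (n + 1) → ℂ := fun z => Fin.cons (θ z) (U z)
  let good : ℕ → ℂ → Prop := fun m z => ((m : ℝ) ≤ ‖z‖ ∧ ‖z‖ ≤ m + 1 / 2) ∧ θ z ≠ 0 ∧
    U z = θ z • u z ∧ ∀ p, aeval t p = 0 → eval (u z) p = 0
  have hbz : ∀ m z, good m z → ∀ σ : ℂ, Complex.exp σ • b z = cone (Complex.exp σ * θ z) (u z) := by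
    intro m z hz σ
    funext a
    refine Fin.cases ?_ (fun a => ?_) a
    · simp [b, cone]
    · simp only [b, cone, Pi.smul_apply, Fin.cons_succ, smul_eq_mul]
      rw [hz.2.2.1, Pi.smul_apply, smul_eq_mul]
      ring
  let N : Submodule ℂ (MvPolynomial (Fin (n + 1)) ℂ) := LinearMap.ker (aeval (R := ℂ) (tC t)).toLinearMap
  have hN : ∀ Q, Q ∈ N ↔ aeval (tC t) Q = 0 := fun Q => LinearMap.mem_ker
  let evl : ℕ → ℂ × ℂ → MvPolynomial (Fin (n + 1)) ℂ →ₗ[ℂ] ℂ := fun m τ =>
    if good m τ.1 then (aeval (R := ℂ) (Complex.exp τ.2 • b τ.1)).toLinearMap else 0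
  have hevl : ∀ m τ, good m τ.1 → ∀ Q, evl m τ Q = eval (Complex.exp τ.2 • b τ.1) Q := by
    intro m τ h Q
    simp only [evl, if_pos h]
    rfl
  have hNker : ∀ m τ, N ≤ LinearMap.ker (evl m τ) := by
    intro m τ Q hQ
    rw [LinearMap.mem_ker]
    by_cases hg : good m τ.1
    · rw [hevl m τ hg, hbz m τ.1 hg]
      obtain ⟨q, hq1, hq2⟩ := n2_subst t Q
      rw [hq2, Polynomial.eval₂_eq_sum_range]
      refine Finset.sum_eq_zero fun i _ => ?_
      have h1 : (aeval (R := ℂ) (u τ.1)).toRingHom (q.coeff i) = 0 :=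
        hg.2.2.2 _ (hq1.1 ((hN Q).1 hQ) i)
      rw [h1, zero_mul]
    · simp only [evl, if_neg hg, LinearMap.zero_apply]
  let ev : ℕ → ℂ × ℂ → (MvPolynomial (Fin (n + 1)) ℂ ⧸ N) →ₗ[ℂ] ℂ := fun m τ =>
    N.liftQ (evl m τ) (hNker m τ)
  obtain ⟨f, hf⟩ := exists_surjective_nat (Fin (n + 1) →₀ ℕ)
  obtain ⟨τ, hτ⟩ := choose_times (V := MvPolynomial (Fin (n + 1)) ℂ ⧸ N) (T := ℂ × ℂ)
    (fun k => N.mkQ (monomial (f k) 1)) (by
      have h1 : Submodule.span ℂ (Set.range fun k => (monomial (f k) (1 : ℂ))) = ⊤ := by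
        rw [eq_top_iff]
        intro Q _
        rw [Q.as_sum]
        refine Submodule.sum_mem _ fun s _ => ?_
        obtain ⟨k, hk⟩ := hf s
        have : monomial s (coeff s Q) = coeff s Q • monomial (f k) (1 : ℂ) := by
          rw [hk, smul_monomial, smul_eq_mul, mul_one]
        rw [this]
        exact Submodule.smul_mem _ _ (Submodule.subset_span ⟨k, rfl⟩)
      have h2 : Set.range (fun k => N.mkQ (monomial (f k) (1 : ℂ))) =
          N.mkQ '' Set.range fun k => (monomial (f k) (1 : ℂ)) := by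
        rw [← Set.range_comp]
        rfl
      rw [h2, ← Submodule.map_span, h1, Submodule.map_top, Submodule.range_mkQ])
    ev (by
      intro g hg
      obtain ⟨Q, rfl⟩ := Submodule.mkQ_surjective N g
      have hQ : aeval (tC t) Q ≠ 0 := by
        intro h
        apply hg
        rw [Submodule.mkQ_apply, Submodule.Quotient.mk_eq_zero]
        exact (hN Q).2 h
      obtain ⟨q, hq1, hq2⟩ := n2_subst t Q
      obtain ⟨i, hi⟩ : ∃ i, aeval t (q.coeff i) ≠ 0 := by
        by_contra hcon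
        push Not at hcon
        exact hQ (hq1.2 hcon)
      refine Filter.Eventually.of_forall fun m => ?_
      have hopen : ∀ᶠ z in 𝓝[≠] (((m : ℝ) + 1 / 4 : ℝ) : ℂ), (m : ℝ) ≤ ‖z‖ ∧ ‖z‖ ≤ m + 1 / 2 := by
        refine Filter.Eventually.filter_mono nhdsWithin_le_nhds ?_
        have hn : ‖(((m : ℝ) + 1 / 4 : ℝ) : ℂ)‖ = (m : ℝ) + 1 / 4 := by
          rw [Complex.norm_real, Real.norm_of_nonneg (by positivity)]
        have hc : ContinuousAt (fun z : ℂ => ‖z‖) (((m : ℝ) + 1 / 4 : ℝ) : ℂ) :=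
          continuous_norm.continuousAt
        have h1 := hc.eventually (eventually_ge_nhds
          (show (m : ℝ) < ‖(((m : ℝ) + 1 / 4 : ℝ) : ℂ)‖ by
            rw [hn]
            linarith))
        have h2 := hc.eventually (eventually_le_nhds
          (show ‖(((m : ℝ) + 1 / 4 : ℝ) : ℂ)‖ < (m : ℝ) + 1 / 2 by
            rw [hn]
            linarith))
        filter_upwards [h1, h2] with z h3 h4
        exact ⟨h3, h4⟩
      obtain ⟨z, hz1, hz2, hz3, hz4, hz5⟩ := (hopen.and ((hθ0 _).and ((hUθ _).and ((hrel _).and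
        (dense_ne hu (q.coeff i) hi _))))).exists
      have hg : good m z := ⟨hz1, hz2, hz3, hz4⟩
      have hP : q.map (aeval (R := ℂ) (u z)).toRingHom ≠ 0 := by
        intro h
        apply hz5
        have h3 := congrArg (fun r => Polynomial.coeff r i) h
        simpa [Polynomial.coeff_map] using h3
      obtain ⟨σ, hσ⟩ := n2_exists hP hz2
      refine ⟨(z, σ), ?_⟩
      change evl m (z, σ) Q ≠ 0
      rw [hevl m (z, σ) hg, hbz m z hg, hq2]
      rwa [Polynomial.eval_map] at hσ)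
  let Z : ℕ → ℂ := fun m => if (m : ℝ) ≤ ‖(τ m).1‖ ∧ ‖(τ m).1‖ ≤ m + 1 / 2 then (τ m).1 else (m : ℂ)
  have hZ : ∀ m : ℕ, (m : ℝ) ≤ ‖Z m‖ ∧ ‖Z m‖ ≤ m + 1 / 2 := by
    intro m
    by_cases h : (m : ℝ) ≤ ‖(τ m).1‖ ∧ ‖(τ m).1‖ ≤ m + 1 / 2
    · simp only [Z, if_pos h]
      exact h
    · simp only [Z, if_neg h, Complex.norm_natCast]
      exact ⟨le_rfl, by linarith⟩
  obtain ⟨ψ, hψ, hψZ⟩ := interp_seq Z hZ fun m => (τ m).2
  have hbd : Differentiable ℂ b := by
    rw [differentiable_pi]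
    intro a
    refine Fin.cases ?_ (fun a => ?_) a
    · exact hθ
    · exact (differentiable_pi.1 hU) a
  have hU' : Differentiable ℂ fun z => Complex.exp (ψ z) • b z := hψ.cexp.smul hbd
  refine ⟨fun z => Complex.exp (ψ z) • b z, hU', ?_, ?_⟩
  · intro z
    filter_upwards [hθ0 z, hUθ z] with w h1 h2
    refine ⟨?_, fun a => ?_⟩
    · simp only [b, Pi.smul_apply, Fin.cons_zero, smul_eq_mul]
      exact mul_ne_zero (Complex.exp_ne_zero _) h1
    · simp only [b, Pi.smul_apply, Fin.cons_zero, Fin.cons_succ, smul_eq_mul]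
      rw [h2, Pi.smul_apply, smul_eq_mul]
      ring
  · intro Q hQ z
    have hne : N.mkQ Q ≠ 0 := by
      intro h
      rw [Submodule.mkQ_apply, Submodule.Quotient.mk_eq_zero] at h
      exact hQ ((hN Q).1 h)
    obtain ⟨m, hm⟩ := hτ _ hne
    change evl m (τ m) Q ≠ 0 at hm
    have hg : good m (τ m).1 := by
      by_contra hg
      apply hm
      simp only [evl, if_neg hg, LinearMap.zero_apply]
    rw [hevl m (τ m) hg] at hm
    have hZm : Z m = (τ m).1 := by
      simp only [Z, if_pos hg.1]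
    have hdiff : Differentiable ℂ fun w => eval (Complex.exp (ψ w) • b w) Q := by
      have hcoord : ∀ a, Differentiable ℂ fun w => (Complex.exp (ψ w) • b w) a := fun a =>
        (differentiable_pi.1 hU') a
      clear hm hne hQ
      induction Q using MvPolynomial.induction_on with
      | C a =>
        simp only [eval_C]
        exact differentiable_const _
      | add p q hp hq =>
        simp only [map_add]
        exact hp.add hq
      | mul_X p s hp =>
        simp only [map_mul, eval_X]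
        exact hp.mul (hcoord s)
    refine entire_ne hdiff (z₁ := Z m) ?_ z
    have : ψ (Z m) = (τ m).2 := hψZ m
    rw [this, hZm]
    exact hm

end Pool.Agent.AbFib
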