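import Pool.Agent.Lib_MP_1209e6_ab.N3

/-! PIECE N4: the base curve of a Zariski dense entire curve. -/

set_option autoImplicit false

open Filter Topology

namespace Pool.Agent.AbFib

open Pool.Agent.Campana MvPolynomial

private theorem N4_pole {ι : Type} [Fintype ι] (f : ℂ → ι → ℂ) (z₀ : ℂ)
    (hf : ∀ a, MeromorphicAt (fun w => f w a) z₀) :
    ∃ k : ℕ, AnalyticAt ℂ (fun w => (w - z₀) ^ k • f w) z₀ := by
  classical
  choose m hm using hf
  refine ⟨Finset.univ.sup m, analyticAt_pi_iff.2 fun a => ?_⟩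
  have hle : m a ≤ Finset.univ.sup m := Finset.le_sup (Finset.mem_univ a)
  have h1 : AnalyticAt ℂ (fun w => (w - z₀) ^ (Finset.univ.sup m - m a) •
      ((w - z₀) ^ m a • f w a)) z₀ :=
    ((analyticAt_id.sub analyticAt_const).pow _).smul (hm a)
  refine h1.congr (Eventually.of_forall fun w => ?_)
  change (w - z₀) ^ (Finset.univ.sup m - m a) • (w - z₀) ^ m a • f w a =
    (w - z₀) ^ Finset.univ.sup m • f w a
  rw [smul_smul, ← pow_add, Nat.sub_add_cancel hle]

/-- From `exists_eval` for `σ = Fin n ⊕ Fin (N+1)`, `φ = Sum.elim t x`: `u z a = e z (inl a)`; near `z₀`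
`v z = (z - z₀)^k • (e z (inr l))_l` with `k` large, changed at `z₀` so that it is analytic at `z₀`
(`MeromorphicAt`). For `z` near `z₀`, `z ≠ z₀`: `v z ≠ 0` as `x 0 ≠ 0`; if `v z j ≠ 0` and
`aeval (co t x j) p = 0`, then `p' (t, x) = x_j^d p (t, x/x_j) = 0` for the homogenization `p'` of `p` in the
variables `inr` (`subst_frac` with `B = X (inr j)`, `A (inl a) = X (inl a) * X (inr j)`,
`A (inr l) = X (inr l)`), so `p' (e z) = 0` and `aeval (co (u z) (v z) j) p = 0` (`co` is invariant under
scaling of `v`). -/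
theorem curve_of_brody {m n N : ℕ} (P : Ideal (MvPolynomial (Fin (m + 1)) ℂ)) [P.IsPrime]
    (hP : IsVariety P) (hB : BrodySpecial P) (t : Fin n → FunField P)
    (x : Fin (N + 1) → FunField P) (hx : ∀ l, x l ≠ 0) :
    ∃ u, IsDenseCurve t u ∧ LiftsLocally t x u := by
  obtain ⟨e, he1, he2, he3⟩ := exists_eval P hP hB (Sum.elim t x)
  refine ⟨fun z a => e z (Sum.inl a), ⟨?_, ?_⟩, ?_⟩
  · intro z
    exact N4_pole (fun z a => e z (Sum.inl a)) z fun a => he1 z (Sum.inl a)
  · intro p
    have key : ∀ w, aeval (e w) (rename Sum.inl p : MvPolynomial (Fin n ⊕ Fin (N + 1)) ℂ) =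
        eval (fun a => e w (Sum.inl a)) p := by
      intro w
      rw [aeval_rename, aeval_eq_eval]
      rfl
    have key2 : aeval (Sum.elim t x) (rename Sum.inl p : MvPolynomial (Fin n ⊕ Fin (N + 1)) ℂ) =
        aeval t p := by
      rw [aeval_rename, Sum.elim_comp_inl]
    constructor
    · intro hp z₀
      filter_upwards [he2 z₀] with w hw
      rw [← key w]
      exact hw _ (key2.trans hp)
    · intro h
      by_contra hp
      have h1 := he3 (rename Sum.inl p) (by rw [key2]; exact hp) 0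
      obtain ⟨w, hw1, hw2⟩ := (h1.and (h 0)).exists
      rw [key w] at hw1
      exact hw1 hw2
  · intro z₀
    obtain ⟨k, hk⟩ := N4_pole (fun z l => e z (Sum.inr l)) z₀ fun l => he1 z₀ (Sum.inr l)
    refine ⟨_, hk, ?_⟩
    have h0 := he3 (X (Sum.inr 0)) (by rw [aeval_X, Sum.elim_inr]; exact hx 0) z₀
    filter_upwards [he2 z₀, h0, self_mem_nhdsWithin] with w hw1 hw2 hw3
    have hne : (w - z₀) ^ k ≠ 0 := pow_ne_zero _ (sub_ne_zero.2 hw3)
    refine ⟨?_, ?_⟩
    · intro hv
      have h1 := congrFun hv 0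
      rw [Pi.smul_apply, smul_eq_mul, Pi.zero_apply] at h1
      rw [aeval_X] at hw2
      exact mul_ne_zero hne hw2 h1
    · intro j hj p hp
      have hej : e w (Sum.inr j) ≠ 0 := by
        intro h
        apply hj
        rw [Pi.smul_apply, smul_eq_mul, h, mul_zero]
      obtain ⟨R', d, hR⟩ := subst_frac p
        (Sum.elim (fun a => X (Sum.inl a) * X (Sum.inr j)) fun l => X (Sum.inr l))
        (X (Sum.inr j) : MvPolynomial (Fin n ⊕ Fin (N + 1)) ℂ)
      have h1 := hR (Sum.elim t x) (by rw [aeval_X, Sum.elim_inr]; exact hx j)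
      have e1 : (fun s => aeval (Sum.elim t x) ((Sum.elim (fun a => X (Sum.inl a) * X (Sum.inr j))
          fun l => X (Sum.inr l) : Fin n ⊕ Fin (N + 1) → MvPolynomial (Fin n ⊕ Fin (N + 1)) ℂ) s) /
          aeval (Sum.elim t x) (X (Sum.inr j) : MvPolynomial (Fin n ⊕ Fin (N + 1)) ℂ)) =
          co t x j := by
        funext s
        rcases s with a | l
        · simp only [Sum.elim_inl, map_mul, aeval_X, Sum.elim_inr, co]
          exact mul_div_cancel_right₀ _ (hx j)
        · simp only [Sum.elim_inr, aeval_X, co]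
      rw [e1, hp, mul_zero] at h1
      have h2 := hw1 R' h1
      have h3 := hR (e w) (by rw [aeval_X]; exact hej)
      rw [h2] at h3
      have h4 := (mul_eq_zero.1 h3.symm).resolve_left
        (pow_ne_zero _ (by rw [aeval_X]; exact hej))
      have e2 : (fun s => aeval (e w) ((Sum.elim (fun a => X (Sum.inl a) * X (Sum.inr j))
          fun l => X (Sum.inr l) : Fin n ⊕ Fin (N + 1) → MvPolynomial (Fin n ⊕ Fin (N + 1)) ℂ) s) /
          aeval (e w) (X (Sum.inr j) : MvPolynomial (Fin n ⊕ Fin (N + 1)) ℂ)) =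
          co (fun a => e w (Sum.inl a)) ((w - z₀) ^ k • fun l => e w (Sum.inr l)) j := by
        funext s
        rcases s with a | l
        · simp only [Sum.elim_inl, map_mul, aeval_X, co]
          exact mul_div_cancel_right₀ _ hej
        · simp only [Sum.elim_inr, aeval_X, co, Pi.smul_apply, smul_eq_mul]
          exact (mul_div_mul_left _ _ hne).symm
      rw [e2] at h4
      exact h4

end Pool.Agent.AbFib
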