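import Pool.Agent.Lib_MP_1209e6_ab.Main
import Pool.Agent.Lib_MP_1209e6_ab.K3
import Pool.Agent.Lib_MP_1209e6_ab.N2
import Pool.Agent.Lib_MP_1209e6_ab.N4

/-! Assembly of the lifting theorem. -/

set_option autoImplicit false

open Filter Topology

namespace Pool.Agent.AbFib

open Pool.Agent.Campana Pool.Agent.CampanaFlow MvPolynomial

variable {K : Type} [Field K] [Algebra ℂ K] {n N g : ℕ}

/-- a local lift may be divided by a power of `z - z₀` -/
theorem lift_ne {t : Fin n → K} {x : Fin (N + 1) → K} {u : ℂ → Fin n → ℂ} {z₀ : ℂ}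
    {v : ℂ → Fin (N + 1) → ℂ} (hv : AnalyticAt ℂ v z₀)
    (h : ∀ᶠ z in 𝓝[≠] z₀, v z ∈ Fibre t x (u z)) :
    ∃ w : ℂ → Fin (N + 1) → ℂ, AnalyticAt ℂ w z₀ ∧ w z₀ ≠ 0 ∧
      ∀ᶠ z in 𝓝[≠] z₀, w z ∈ Fibre t x (u z) := by
  have hne : ¬ ∀ᶠ z in 𝓝 z₀, v z = 0 := by
    intro h0
    obtain ⟨z, h1, h2⟩ := (h.and (h0.filter_mono nhdsWithin_le_nhds)).exists
    exact h1.1 h2
  obtain ⟨k, w, hw, hw0, hwv⟩ := hv.exists_eventuallyEq_pow_smul_nonzero_iff.2 hne
  refine ⟨w, hw, hw0, ?_⟩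
  filter_upwards [h, hwv.filter_mono nhdsWithin_le_nhds, self_mem_nhdsWithin] with z h1 h2 h3
  have hz : (z - z₀) ^ k ≠ 0 := pow_ne_zero _ (sub_ne_zero.2 h3)
  have h4 : w z = ((z - z₀) ^ k)⁻¹ • v z := by
    rw [h2, smul_smul, inv_mul_cancel₀ hz, one_smul]
  rw [h4]
  refine ⟨smul_ne_zero (inv_ne_zero hz) h1.1, fun j hj p hp => ?_⟩
  have h5 : v z j ≠ 0 := by
    intro h0
    apply hj
    rw [Pi.smul_apply, h0, smul_zero]
  have h6 : co (u z) (((z - z₀) ^ k)⁻¹ • v z) j = co (u z) (v z) j :=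
    Fam.co_smul j (u z) (v z) (inv_ne_zero hz)
  rw [h6]
  exact h1.2 j h5 p hp

/-- The lifting theorem: `X` has a Zariski dense entire curve if and only if the base has a Zariski dense
meromorphic curve which lifts locally. -/
theorem main_iff {m : ℕ} (P : Ideal (MvPolynomial (Fin (m + 1)) ℂ)) [P.IsPrime] (hP : IsVariety P)
    (t : Fin n → FunField P) (x : Fin (N + 1) → FunField P) (h : IsAbelianFibration t x) :
    BrodySpecial P ↔ ∃ u, IsDenseCurve t u ∧ LiftsLocally t x u := by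
  constructor
  · intro hB
    exact curve_of_brody P hP hB t x h.ne_zero
  · rintro ⟨u, hu, hl⟩
    obtain ⟨U, hU, hUu, hUd⟩ := dense_cone hu
    refine of_entire P hP (jE (FunField P)) (tC t) (xC x) (cone_abelian t x h) U hU hUd fun z => ?_
    obtain ⟨v, hv, hv1⟩ := hl z
    obtain ⟨w, hw, hw0, hw1⟩ := lift_ne hv hv1
    refine ⟨w, hw, hw0, ?_⟩
    filter_upwards [hw1, hUu z] with y h1 h2
    have h3 : (fun a : Fin n => U y a.succ / U y 0) = u y := by
      funext a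
      rw [h2.2 a, mul_div_cancel_left₀ _ h2.1]
    rw [fibre_cone t x (U y) h2.1, h3]
    exact h1

end Pool.Agent.AbFib
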