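import Pool.Agent.Lib_MP_1209e6_fl.W1

/-! PIECE N1: clearing the poles of a meromorphic curve. -/

set_option autoImplicit false

open Filter Topology

namespace Pool.Agent.AbFib

open Pool.Agent.CampanaFlow

/-- `weierstrass` (file `Lib_MP_1209e6_fl/W1.lean`; see also the use in `W4.lean`, `brody_of_curve`): let `m z` be
a natural number with `(w - z)^(m z) • u w` analytic at `z` (after changing the value at `z`), `m z = 0` where
`u` is analytic, so `m = 0` off a discrete set. `θ` entire with zeros of order `m z` at `z`; `θ • u` has only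
removable singularities. -/
theorem clear_poles {n : ℕ} (u : ℂ → Fin n → ℂ) (hu : ∀ z, MeromorphicAt u z) :
    ∃ (θ : ℂ → ℂ) (U : ℂ → Fin n → ℂ), Differentiable ℂ θ ∧ Differentiable ℂ U ∧
      (∀ z, ∀ᶠ w in 𝓝[≠] z, θ w ≠ 0) ∧ ∀ z, ∀ᶠ w in 𝓝[≠] z, U w = θ w • u w := by
  classical
  have h : ∀ z, ∃ m : ℕ, AnalyticAt ℂ (fun w => (w - z) ^ m • u w) z ∧
      (AnalyticAt ℂ u z → m = 0) := by
    intro z
    by_cases hz : AnalyticAt ℂ u z
    · exact ⟨0, by simpa using hz, fun _ => rfl⟩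
    · obtain ⟨m, hm⟩ := hu z
      exact ⟨m, hm, fun h => absurd h hz⟩
  choose m hm hm0 using h
  obtain ⟨E, hE, hEord⟩ := weierstrass m fun z => (hu z).eventually_analyticAt.mono
    fun w hw => hm0 w hw
  have hEana : ∀ z, AnalyticAt ℂ E z := fun z => hE.analyticAt z
  have hfac : ∀ z, ∃ g : ℂ → ℂ, AnalyticAt ℂ g z ∧ g z ≠ 0 ∧
      ∀ᶠ w in 𝓝 z, E w = (w - z) ^ m z • g w := fun z =>
    (hEana z).analyticOrderAt_eq_natCast.1 (hEord z)
  refine ⟨E, fun w => E w • u w, hE, ?_, ?_, fun z => Eventually.of_forall fun w => rfl⟩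
  · intro z
    obtain ⟨g, hg, -, hgE⟩ := hfac z
    have h1 : AnalyticAt ℂ (fun w => g w • ((w - z) ^ m z • u w)) z := hg.smul (hm z)
    have h2 : (fun w => g w • ((w - z) ^ m z • u w)) =ᶠ[𝓝 z] fun w => E w • u w := by
      filter_upwards [hgE] with w hw
      rw [hw, smul_smul, smul_eq_mul, mul_comm]
    exact (h1.congr h2).differentiableAt
  · intro z
    obtain ⟨g, hg, hg0, hgE⟩ := hfac z
    have h1 : ∀ᶠ w in 𝓝[≠] z, g w ≠ 0 :=
      (hg.continuousAt.eventually_ne hg0).filter_mono nhdsWithin_le_nhds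
    filter_upwards [h1, hgE.filter_mono nhdsWithin_le_nhds, self_mem_nhdsWithin] with w h2 h3 h4
    rw [h3, smul_eq_mul]
    exact mul_ne_zero (pow_ne_zero _ (sub_ne_zero.2 h4)) h2

end Pool.Agent.AbFib
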