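import Pool.Agent.Lib_MP_1209e6_ab.Defs
import Pool.Agent.Lib_MP_1209e6_ag.Defs

/-! PIECE N3: evaluation of rational functions along a Zariski dense entire curve. -/

set_option autoImplicit false

open Filter Topology

namespace Pool.Agent.AbFib

open Pool.Agent.Campana MvPolynomial

/-- Substitution of fractions with one denominator (induction on `R`: constants `d = 0`; sums
`R₁' B^d₂ + R₂' B^d₁`; `R * X s`: `R' * A s`, `d + 1`). -/
theorem subst_frac {σ τ : Type} (R : MvPolynomial σ ℂ) (A : σ → MvPolynomial τ ℂ)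
    (B : MvPolynomial τ ℂ) : ∃ (R' : MvPolynomial τ ℂ) (d : ℕ), ∀ {k : Type} [Field k] [Algebra ℂ k]
      (ρ : τ → k), aeval ρ B ≠ 0 →
      aeval ρ R' = aeval ρ B ^ d * aeval (fun s => aeval ρ (A s) / aeval ρ B) R := by
  induction R using MvPolynomial.induction_on with
  | C a =>
    refine ⟨C a, 0, ?_⟩
    intro k _ _ ρ hB
    simp
  | add p q hp hq =>
    obtain ⟨p', d₁, hp'⟩ := hp
    obtain ⟨q', d₂, hq'⟩ := hq
    refine ⟨p' * B ^ d₂ + q' * B ^ d₁, d₁ + d₂, ?_⟩
    intro k _ _ ρ hB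
    simp only [map_add, map_mul, map_pow]
    rw [hp' ρ hB, hq' ρ hB]
    ring
  | mul_X p s hp =>
    obtain ⟨p', d, hp'⟩ := hp
    refine ⟨p' * A s, d + 1, ?_⟩
    intro k _ _ ρ hB
    simp only [map_mul, aeval_X]
    rw [hp' ρ hB]
    field_simp
    ring

private theorem coord_ne_zero {m : ℕ} (P : Ideal (MvPolynomial (Fin (m + 1)) ℂ)) [P.IsPrime]
    (l₀ : Fin (m + 1)) (hl₀ : X l₀ ∉ P) : coord P l₀ ≠ 0 := by
  unfold coord
  intro h
  have h1 := (IsFractionRing.injective (MvPolynomial (Fin (m + 1)) ℂ ⧸ P)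
    (FractionRing (MvPolynomial (Fin (m + 1)) ℂ ⧸ P))) (h.trans (map_zero _).symm)
  exact hl₀ (Ideal.Quotient.eq_zero_iff_mem.1 h1)

private theorem val_aeval {m : ℕ} (P : Ideal (MvPolynomial (Fin (m + 1)) ℂ)) [P.IsPrime]
    (l₀ : Fin (m + 1)) (p : MvPolynomial (Fin (m + 1)) ℂ) :
    FunField.val P (aeval (fun l => ratio P l l₀) p) =
      aeval (fun l => coord P l / coord P l₀) p := by
  rw [MvPolynomial.comp_aeval_apply]
  rfl

/-- every element of the function field is a quotient of polynomials in the `ratio P l l₀` -/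
theorem exists_frac {m : ℕ} (P : Ideal (MvPolynomial (Fin (m + 1)) ℂ)) [P.IsPrime]
    (l₀ : Fin (m + 1)) (hl₀ : X l₀ ∉ P) (φ : FunField P) :
    ∃ A B : MvPolynomial (Fin (m + 1)) ℂ, aeval (fun l => ratio P l l₀) B ≠ 0 ∧
      φ = aeval (fun l => ratio P l l₀) A / aeval (fun l => ratio P l l₀) B := by
  have hc := coord_ne_zero P l₀ hl₀
  have h1 : FunField.val P φ ∈ IntermediateField.adjoin ℂ
      (Set.range fun ij : Fin (m + 1) × Fin (m + 1) => coord P ij.1 / coord P ij.2) :=
    (FunField.mem_range_val P _).1 ⟨φ, rfl⟩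
  have h2 : IntermediateField.adjoin ℂ
      (Set.range fun ij : Fin (m + 1) × Fin (m + 1) => coord P ij.1 / coord P ij.2) ≤
      IntermediateField.adjoin ℂ (Set.range fun l : Fin (m + 1) => coord P l / coord P l₀) := by
    rw [IntermediateField.adjoin_le_iff]
    rintro _ ⟨⟨i, j⟩, rfl⟩
    have hi : coord P i / coord P l₀ ∈ IntermediateField.adjoin ℂ
        (Set.range fun l : Fin (m + 1) => coord P l / coord P l₀) :=
      IntermediateField.subset_adjoin _ _ ⟨i, rfl⟩
    have hj : coord P j / coord P l₀ ∈ IntermediateField.adjoin ℂ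
        (Set.range fun l : Fin (m + 1) => coord P l / coord P l₀) :=
      IntermediateField.subset_adjoin _ _ ⟨j, rfl⟩
    have h3 : coord P i / coord P j = (coord P i / coord P l₀) / (coord P j / coord P l₀) := by
      rw [div_div_div_cancel_right₀ hc]
    show coord P i / coord P j ∈ _
    rw [h3]
    exact div_mem hi hj
  obtain ⟨r, s, hrs⟩ := (IntermediateField.mem_adjoin_range_iff ℂ _ _).1 (h2 h1)
  by_cases hs : aeval (fun l => ratio P l l₀) s = 0
  · refine ⟨0, 1, by simp, ?_⟩
    have hs' : aeval (fun l => coord P l / coord P l₀) s = 0 := by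
      rw [← val_aeval, hs, map_zero]
    rw [hs', div_zero] at hrs
    have : φ = 0 := FunField.val_injective P (hrs.trans (map_zero _).symm)
    rw [this]
    simp
  · refine ⟨r, s, hs, ?_⟩
    apply FunField.val_injective P
    rw [map_div₀, val_aeval, val_aeval]
    exact hrs

private theorem homog_aux {m : ℕ} (l₀ : Fin (m + 1)) (p : MvPolynomial (Fin (m + 1)) ℂ) :
    ∃ (q : MvPolynomial (Fin (m + 1)) ℂ) (D : ℕ), q.IsHomogeneous D ∧
      ∀ {k : Type} [Field k] [Algebra ℂ k] (f : Fin (m + 1) → k), f l₀ ≠ 0 →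
        aeval f q = f l₀ ^ D * aeval (fun l => f l / f l₀) p := by
  classical
  refine ⟨∑ s ∈ p.support, monomial s (coeff s p) * X l₀ ^ (p.totalDegree - s.degree),
    p.totalDegree, ?_, ?_⟩
  · apply IsHomogeneous.sum
    intro s hs
    have h1 : s.degree ≤ p.totalDegree := by
      have := le_totalDegree hs
      rw [Finsupp.degree_eq_sum, ← Finsupp.sum_fintype s (fun _ e => e) (fun _ => rfl)]
      exact this
    have h2 : p.totalDegree = s.degree + (p.totalDegree - s.degree) := by omega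
    have h3 := (isHomogeneous_monomial (R := ℂ) (σ := Fin (m+1)) (d := s) (coeff s p)
      (n := s.degree) rfl).mul (isHomogeneous_X_pow (R := ℂ) l₀ (p.totalDegree - s.degree))
    rw [← h2] at h3
    exact h3
  · intro k _ _ f hf
    have he : aeval (fun l => f l / f l₀) p =
        ∑ s ∈ p.support, aeval (fun l => f l / f l₀) (monomial s (coeff s p)) := by
      conv_lhs => rw [p.as_sum]
      rw [map_sum]
    rw [map_sum, he, Finset.mul_sum]
    apply Finset.sum_congr rfl
    intro s hs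
    have h1 : s.degree ≤ p.totalDegree := by
      have := le_totalDegree hs
      rw [Finsupp.degree_eq_sum, ← Finsupp.sum_fintype s (fun _ e => e) (fun _ => rfl)]
      exact this
    rw [map_mul, map_pow, aeval_X, aeval_monomial, aeval_monomial]
    have h4 : (s.prod fun i e => (f i / f l₀) ^ e) = (s.prod fun i e => f i ^ e) / f l₀ ^ s.degree := by
      rw [Finsupp.prod_fintype _ _ (fun _ => pow_zero _), Finsupp.prod_fintype _ _ (fun _ => pow_zero _),
        Finsupp.degree_eq_sum, ← Finset.prod_pow_eq_pow_sum, ← Finset.prod_div_distrib]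
      apply Finset.prod_congr rfl
      intro i _
      rw [div_pow]
    rw [h4]
    have h5 : f l₀ ^ p.totalDegree = f l₀ ^ (p.totalDegree - s.degree) * f l₀ ^ s.degree := by
      rw [← pow_add]; congr 1; omega
    rw [h5]
    have h6 : f l₀ ^ s.degree ≠ 0 := pow_ne_zero _ hf
    field_simp

private theorem aeval_coord {m : ℕ} (P : Ideal (MvPolynomial (Fin (m + 1)) ℂ)) [P.IsPrime]
    (q : MvPolynomial (Fin (m + 1)) ℂ) :
    aeval (coord P) q = algebraMap (MvPolynomial (Fin (m + 1)) ℂ ⧸ P) _ (Ideal.Quotient.mk P q) := by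
  induction q using MvPolynomial.induction_on with
  | C a =>
    rw [aeval_C]
    rfl
  | add p q hp hq => rw [map_add, map_add, map_add, hp, hq]
  | mul_X p s hp =>
    rw [map_mul, map_mul, map_mul, hp, aeval_X]
    rfl

/-- homogenization: `q = X_l₀^(D) p (X/X_l₀)`; `aeval (ratio P · l₀) p = 0` iff `q ∈ P` -/
theorem exists_homog {m : ℕ} (P : Ideal (MvPolynomial (Fin (m + 1)) ℂ)) [P.IsPrime]
    (l₀ : Fin (m + 1)) (hl₀ : X l₀ ∉ P) (p : MvPolynomial (Fin (m + 1)) ℂ) :
    ∃ (q : MvPolynomial (Fin (m + 1)) ℂ) (D : ℕ), q.IsHomogeneous D ∧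
      (aeval (fun l => ratio P l l₀) p = 0 ↔ q ∈ P) ∧
      ∀ f : Fin (m + 1) → ℂ, f l₀ ≠ 0 → eval f q = f l₀ ^ D * eval (fun l => f l / f l₀) p := by
  obtain ⟨q, D, hq, h⟩ := homog_aux l₀ p
  refine ⟨q, D, hq, ?_, ?_⟩
  · have hc := coord_ne_zero P l₀ hl₀
    have h1 := h (coord P) hc
    rw [aeval_coord, ← val_aeval] at h1
    constructor
    · intro h2
      rw [h2, map_zero, mul_zero] at h1
      have h3 := (IsFractionRing.injective (MvPolynomial (Fin (m + 1)) ℂ ⧸ P)
        (FractionRing (MvPolynomial (Fin (m + 1)) ℂ ⧸ P))) (h1.trans (map_zero _).symm)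
      exact Ideal.Quotient.eq_zero_iff_mem.1 h3
    · intro h2
      rw [Ideal.Quotient.eq_zero_iff_mem.2 h2, map_zero] at h1
      have h3 := (mul_eq_zero.1 h1.symm).resolve_left (pow_ne_zero _ hc)
      exact FunField.val_injective P (h3.trans (map_zero _).symm)
  · intro f hf
    have := h f hf
    rw [aeval_eq_eval, aeval_eq_eval] at this
    exact this

private theorem entire_ne' {f : ℂ → ℂ} (hf : Differentiable ℂ f) {z₁ : ℂ} (h : f z₁ ≠ 0) (z : ℂ) :
    ∀ᶠ w in 𝓝[≠] z, f w ≠ 0 := by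
  have ha : AnalyticOnNhd ℂ f Set.univ := fun x _ => hf.analyticAt x
  rcases (ha z trivial).eventually_eq_zero_or_eventually_ne_zero with h1 | h1
  · exact absurd (ha.eqOn_zero_of_preconnected_of_eventuallyEq_zero isPreconnected_univ trivial h1
      (Set.mem_univ z₁)) h
  · exact h1

private theorem merom_eval {τ : Type} {g : ℂ → τ → ℂ} {z : ℂ}
    (hg : ∀ l, MeromorphicAt (fun w => g w l) z) (p : MvPolynomial τ ℂ) :
    MeromorphicAt (fun w => eval (g w) p) z := by
  induction p using MvPolynomial.induction_on with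
  | C a => simp only [eval_C]; exact MeromorphicAt.const a z
  | add p q hp hq => simp only [map_add]; exact hp.add hq
  | mul_X p s hp => simp only [map_mul, eval_X]; exact hp.mul (hg s)

private theorem diff_eval {τ : Type} {g : ℂ → τ → ℂ}
    (hg : ∀ l, Differentiable ℂ (fun w => g w l)) (p : MvPolynomial τ ℂ) :
    Differentiable ℂ (fun w => eval (g w) p) := by
  induction p using MvPolynomial.induction_on with
  | C a => simp
  | add p q hp hq => simp only [map_add]; exact hp.add hq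
  | mul_X p s hp => simp only [map_mul, eval_X]; exact hp.mul (hg s)

/-- Evaluation along the entire curve `f` of `BrodySpecial P`. Choose `l₀` with `X l₀ ∉ P` (`hP`), `f_l₀` is not
identically zero (density for the homogeneous polynomial `X l₀`). Represent all `φ s` by fractions
with one common denominator `B` (`exists_frac`, `σ` finite). `e z s = A s (g z) / B (g z)` with
`g z l = f z l / f z l₀`: meromorphic. If `f z l₀ ≠ 0` and `B (g z) ≠ 0` then all relations hold at `e z`:
`aeval φ p = 0` gives (`subst_frac`) `aeval ratio p' = 0`, so (`exists_homog`) `q ∈ P`, `eval (f z) q = 0`,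
`p' (g z) = 0`. If `aeval φ p ≠ 0` then `q ∉ P`, so `q (f z)` is not identically zero, an entire function, so it
has isolated zeros. -/
theorem exists_eval {m : ℕ} (P : Ideal (MvPolynomial (Fin (m + 1)) ℂ)) [P.IsPrime]
    (hP : IsVariety P) (hB : BrodySpecial P) {σ : Type} [Finite σ] (φ : σ → FunField P) :
    ∃ e : ℂ → σ → ℂ, (∀ z s, MeromorphicAt (fun w => e w s) z) ∧
      (∀ z, ∀ᶠ w in 𝓝[≠] z, ∀ p : MvPolynomial σ ℂ, aeval φ p = 0 → aeval (e w) p = 0) ∧
      ∀ p : MvPolynomial σ ℂ, aeval φ p ≠ 0 → ∀ z, ∀ᶠ w in 𝓝[≠] z, aeval (e w) p ≠ 0 := by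
  classical
  have := Fintype.ofFinite σ
  obtain ⟨l₀, hl₀⟩ := hP.2.2
  obtain ⟨f, hfd, -, hfP, hfdense⟩ := hB
  choose A B hBne hAB using fun s => exists_frac P l₀ hl₀ (φ s)
  set B₀ : MvPolynomial (Fin (m + 1)) ℂ := ∏ s, B s with hB₀
  set A₀ : σ → MvPolynomial (Fin (m + 1)) ℂ := fun s => A s * ∏ t ∈ Finset.univ.erase s, B t with hA₀
  have hB₀ne : aeval (fun l => ratio P l l₀) B₀ ≠ 0 := by
    rw [hB₀, map_prod]
    exact Finset.prod_ne_zero_iff.2 fun s _ => hBne s
  have hφ : ∀ s, φ s = aeval (fun l => ratio P l l₀) (A₀ s) / aeval (fun l => ratio P l l₀) B₀ := by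
    intro s
    have h1 : B₀ = B s * ∏ t ∈ Finset.univ.erase s, B t :=
      (Finset.mul_prod_erase Finset.univ B (Finset.mem_univ s)).symm
    have h2 : aeval (fun l => ratio P l l₀) (∏ t ∈ Finset.univ.erase s, B t) ≠ 0 := by
      rw [map_prod]
      exact Finset.prod_ne_zero_iff.2 fun s _ => hBne s
    rw [h1, hA₀]
    simp only [map_mul]
    rw [mul_div_mul_right _ _ h2]
    exact hAB s
  have hfl : ∀ l, Differentiable ℂ (fun z => f z l) := fun l =>
    (differentiable_pi.1 hfd) l
  -- nonvanishing along the curve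
  have key : ∀ (q : MvPolynomial (Fin (m + 1)) ℂ) (D : ℕ), q.IsHomogeneous D → q ∉ P →
      ∀ z, ∀ᶠ w in 𝓝[≠] z, eval (f w) q ≠ 0 := by
    intro q D hq hqP z
    have h1 : ¬ ∀ z, eval (f z) q = 0 := fun h => hqP (hfdense q D hq h)
    push Not at h1
    obtain ⟨z₁, hz₁⟩ := h1
    exact entire_ne' (diff_eval hfl q) hz₁ z
  have hl₀ev : ∀ z, ∀ᶠ w in 𝓝[≠] z, f w l₀ ≠ 0 := by
    intro z
    have := key (X l₀) 1 (isHomogeneous_X ℂ l₀) hl₀ z
    simpa using this
  set g : ℂ → Fin (m + 1) → ℂ := fun z l => f z l / f z l₀ with hg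
  have hgm : ∀ z l, MeromorphicAt (fun w => g w l) z := by
    intro z l
    exact ((hfl l).analyticAt z).meromorphicAt.div ((hfl l₀).analyticAt z).meromorphicAt
  have hne : ∀ p : MvPolynomial (Fin (m + 1)) ℂ, aeval (fun l => ratio P l l₀) p ≠ 0 →
      ∀ z, ∀ᶠ w in 𝓝[≠] z, eval (g w) p ≠ 0 := by
    intro p hp z
    obtain ⟨q, D, hq, hqP, hqf⟩ := exists_homog P l₀ hl₀ p
    have h1 : q ∉ P := fun h => hp (hqP.2 h)
    filter_upwards [key q D hq h1 z, hl₀ev z] with w hw1 hw2
    intro h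
    apply hw1
    rw [hqf (f w) hw2]
    rw [show (fun l => f w l / f w l₀) = g w from rfl, h, mul_zero]
  refine ⟨fun z s => eval (g z) (A₀ s) / eval (g z) B₀, ?_, ?_, ?_⟩
  · intro z s
    exact (merom_eval (hgm z) (A₀ s)).div (merom_eval (hgm z) B₀)
  · intro z
    filter_upwards [hne B₀ hB₀ne z, hl₀ev z] with w hw1 hw2
    intro p hp
    obtain ⟨p', d, hp'⟩ := subst_frac p A₀ B₀
    have h1 := hp' (fun l => ratio P l l₀) hB₀ne
    rw [show (fun s => aeval (fun l => ratio P l l₀) (A₀ s) / aeval (fun l => ratio P l l₀) B₀) = φ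
      from funext fun s => (hφ s).symm, hp, mul_zero] at h1
    obtain ⟨q, D, hq, hqP, hqf⟩ := exists_homog P l₀ hl₀ p'
    have h2 := hfP q (hqP.1 h1) w
    rw [hqf (f w) hw2] at h2
    have h3 := (mul_eq_zero.1 h2).resolve_left (pow_ne_zero _ hw2)
    have h4 := hp' (g w) (by rw [aeval_eq_eval]; exact hw1)
    simp only [aeval_eq_eval] at h4
    change eval (g w) p' = 0 at h3
    have h5 : eval (g w) B₀ ^ d * eval (fun s => eval (g w) (A₀ s) / eval (g w) B₀) p = 0 :=
      h4.symm.trans h3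
    have h6 := (mul_eq_zero.1 h5).resolve_left (pow_ne_zero _ hw1)
    rw [aeval_eq_eval]
    exact h6
  · intro p hp z
    obtain ⟨p', d, hp'⟩ := subst_frac p A₀ B₀
    have h1 := hp' (fun l => ratio P l l₀) hB₀ne
    rw [show (fun s => aeval (fun l => ratio P l l₀) (A₀ s) / aeval (fun l => ratio P l l₀) B₀) = φ
      from funext fun s => (hφ s).symm] at h1
    have h2 : aeval (fun l => ratio P l l₀) p' ≠ 0 := by
      rw [h1]
      exact mul_ne_zero (pow_ne_zero _ hB₀ne) hp
    filter_upwards [hne B₀ hB₀ne z, hne p' h2 z] with w hw1 hw2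
    intro h
    apply hw2
    have h4 := hp' (g w) (by rw [aeval_eq_eval]; exact hw1)
    simp only [aeval_eq_eval] at h4 h
    refine h4.trans ?_
    change eval (g w) B₀ ^ d * eval (fun s => eval (g w) (A₀ s) / eval (g w) B₀) p = 0
    have h' : eval (fun s => eval (g w) (A₀ s) / eval (g w) B₀) p = 0 := h
    rw [h', mul_zero]

end Pool.Agent.AbFib
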